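import Pool.Agent.Lib.MP_e426f4_ag.TW.Defs

/-!
# IsoBasic: elementary facts on `Iso`
-/

set_option autoImplicit false

namespace TwHP

variable {K : Type} [Field K]

theorem iso_perm12 (A B C : K) : Iso A B C ↔ Iso B A C := by
  constructor
  · rintro ⟨x, y, z, h, he⟩
    exact ⟨y, x, z, by tauto, by linear_combination he⟩
  · rintro ⟨x, y, z, h, he⟩
    exact ⟨y, x, z, by tauto, by linear_combination he⟩

theorem iso_perm23 (A B C : K) : Iso A B C ↔ Iso A C B := by
  constructor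
  · rintro ⟨x, y, z, h, he⟩
    exact ⟨x, z, y, by tauto, by linear_combination he⟩
  · rintro ⟨x, y, z, h, he⟩
    exact ⟨x, z, y, by tauto, by linear_combination he⟩

/-- coefficients may be multiplied by non-zero squares -/
theorem iso_sq (A B C : K) (s t u : K) (hs : s ≠ 0) (ht : t ≠ 0) (hu : u ≠ 0) :
    Iso (A * s ^ 2) (B * t ^ 2) (C * u ^ 2) ↔ Iso A B C := by
  constructor
  · rintro ⟨x, y, z, h, he⟩
    refine ⟨s * x, t * y, u * z, ?_, by linear_combination he⟩
    rcases h with h | h | h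
    · exact Or.inl (mul_ne_zero hs h)
    · exact Or.inr (Or.inl (mul_ne_zero ht h))
    · exact Or.inr (Or.inr (mul_ne_zero hu h))
  · rintro ⟨x, y, z, h, he⟩
    refine ⟨x / s, y / t, z / u, ?_, ?_⟩
    · rcases h with h | h | h
      · exact Or.inl (div_ne_zero h hs)
      · exact Or.inr (Or.inl (div_ne_zero h ht))
      · exact Or.inr (Or.inr (div_ne_zero h hu))
    · field_simp
      linear_combination he

/-- common factor -/
theorem iso_mul (A B C : K) (l : K) (hl : l ≠ 0) : Iso (l * A) (l * B) (l * C) ↔ Iso A B C := by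
  constructor
  · rintro ⟨x, y, z, h, he⟩
    refine ⟨x, y, z, h, ?_⟩
    have h1 : l * (A * x ^ 2 + B * y ^ 2 + C * z ^ 2) = 0 := by linear_combination he
    exact (mul_eq_zero.1 h1).resolve_left hl
  · rintro ⟨x, y, z, h, he⟩
    exact ⟨x, y, z, h, by linear_combination l * he⟩

/-- a smooth conic with a point has a point with `x ≠ 0` (characteristic not 2) -/
theorem iso_x_ne (A B C : K) (h2 : (2 : K) ≠ 0) (hA : A ≠ 0) (hB : B ≠ 0) (hC : C ≠ 0)
    (h : Iso A B C) : ∃ x y z : K, x ≠ 0 ∧ A * x ^ 2 + B * y ^ 2 + C * z ^ 2 = 0 := by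
  obtain ⟨x, y, z, hne, he⟩ := h
  by_cases hx : x = 0
  · subst hx
    have h4 : (4 : K) ≠ 0 := by
      have : (4 : K) = 2 * 2 := by norm_num
      rw [this]; exact mul_ne_zero h2 h2
    have hyz : B * y ^ 2 = -(C * z ^ 2) := by linear_combination he
    have hy : y ≠ 0 := by
      intro hy
      subst hy
      have hz : z ≠ 0 := by tauto
      have : C * z ^ 2 = 0 := by linear_combination he
      exact mul_ne_zero hC (pow_ne_zero 2 hz) this
    have hz : z ≠ 0 := by
      intro hz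
      subst hz
      have : B * y ^ 2 = 0 := by linear_combination he
      exact mul_ne_zero hB (pow_ne_zero 2 hy) this
    -- `(1, (1 + n) y / 2, (1 - n) z / 2)` with `n = -A / (B y²)`
    have hBy : B * y ^ 2 ≠ 0 := mul_ne_zero hB (pow_ne_zero 2 hy)
    obtain ⟨i, hi⟩ : ∃ i : K, 2 * i = 1 := ⟨2⁻¹, mul_inv_cancel₀ h2⟩
    obtain ⟨n, hn⟩ : ∃ n : K, n * (B * y ^ 2) = -A := ⟨-A / (B * y ^ 2), by field_simp⟩
    refine ⟨1, (1 + n) * y * i, (1 - n) * z * i, one_ne_zero, ?_⟩
    have hC' : C * z ^ 2 = -(B * y ^ 2) := by linear_combination he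
    calc A * 1 ^ 2 + B * ((1 + n) * y * i) ^ 2 + C * ((1 - n) * z * i) ^ 2
        = A + (1 + n) ^ 2 * i ^ 2 * (B * y ^ 2) + (1 - n) ^ 2 * i ^ 2 * (C * z ^ 2) := by ring
      _ = A + (2 * i) ^ 2 * (n * (B * y ^ 2)) := by rw [hC']; ring
      _ = 0 := by rw [hi, hn]; ring
  · exact ⟨x, y, z, hx, he⟩

/-- `A` is minus a value of `B y² + C z²` up to a square -/
theorem iso_value (A B C : K) (h2 : (2 : K) ≠ 0) (hA : A ≠ 0) (hB : B ≠ 0) (hC : C ≠ 0)
    (h : Iso A B C) : ∃ y z : K, A = -(B * y ^ 2 + C * z ^ 2) := by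
  obtain ⟨x, y, z, hx, he⟩ := iso_x_ne A B C h2 hA hB hC h
  refine ⟨y / x, z / x, ?_⟩
  field_simp
  linear_combination he

/-- if `-(B C)` is a non-zero square the conic has a point -/
theorem iso_of_neg_sq (A B C : K) (hB : B ≠ 0) (t : K) (h : -(B * C) = t ^ 2) : Iso A B C := by
  refine ⟨0, t / B, 1, Or.inr (Or.inr one_ne_zero), ?_⟩
  field_simp
  linear_combination -h

/-- over `ℝ` only the signs matter -/
theorem iso_real (A B C A' B' C' : ℝ) (hA : 0 < A * A') (hB : 0 < B * B') (hC : 0 < C * C')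
    (h : Iso A B C) : Iso A' B' C' := by
  have key : ∀ X X' : ℝ, 0 < X * X' → ∃ s : ℝ, s ≠ 0 ∧ X' = X * s ^ 2 := by
    intro X X' hX
    have hX0 : X ≠ 0 := by rintro rfl; simp at hX
    have hq : 0 < X' / X := by
      have : X' / X = (X * X') / X ^ 2 := by field_simp
      rw [this]
      positivity
    refine ⟨√(X' / X), (Real.sqrt_pos.2 hq).ne', ?_⟩
    rw [Real.sq_sqrt hq.le]
    field_simp
  obtain ⟨s, hs, rfl⟩ := key A A' hA
  obtain ⟨t, ht, rfl⟩ := key B B' hB
  obtain ⟨u, hu, rfl⟩ := key C C' hC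
  exact (iso_sq A B C s t u hs ht hu).2 h

/-- invariance under field homomorphisms -/
theorem iso_map {K L : Type} [Field K] [Field L] (f : K →+* L) (A B C : K) (h : Iso A B C) :
    Iso (f A) (f B) (f C) := by
  obtain ⟨x, y, z, hne, he⟩ := h
  refine ⟨f x, f y, f z, ?_, ?_⟩
  · simpa [map_ne_zero] using hne
  · have := congrArg f he
    simpa [map_mul, map_pow, map_add] using this

end TwHP
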