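import Pool.Agent.Lib.MP_e426f4_ag.TW.PNear
import Pool.Agent.Lib.MP_e426f4_ag.TW.IsoBasic

/-!
# HM: the Hasse principle for ternary diagonal quadratic forms (Legendre)

Proof (Serre, A course in arithmetic, IV.3, case n = 3).  Write `(a,b)_K` for: `x² = a y² + b z²` has a
non-zero solution in `K`, i.e. `Iso 1 (-a) (-b)`.  Claim: `a`, `b` squarefree nonzero integers, `(a,b)_v`
for `v = ℝ` and all `p` => `(a,b)_ℚ`.  Strong induction on `|a|+|b|`, WLOG `|a| ≤ |b|`.
`|b| = 1`: `a, b = ±1`, not both `-1` (real place).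
`|b| ≥ 2`: for every prime `p ∣ b`, `a` is a square mod `p`: if `p ∣ a` clear; otherwise take a primitive
solution in `ℤ_p`: `p ∣ y` would give `p ∣ x`, then `p² ∣ b z²`, `p ∣ z`; so `y` is a unit, `a = (x/y)²` mod `p`.
By CRT (`b` squarefree) `a = t² - b b'` with `|t| ≤ |b|/2`.  If `b' = 0`, `a` is a square: soluble.
Otherwise `|b'| ≤ |b|/4 + 1 < |b|`, `b' = b'' u²`, `b''` squarefree.  For every field `K` of
characteristic 0: `(a,b)_K ↔ (a,b')_K ↔ (a,b'')_K` since `b b' = t² - a` is a norm from `K(√a)`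
(composition `(x² - a y²)(t² - a) = (xt + ay)² - a(x + ty)²`).  Induct.
General `A, B, C`: multiply by `-A`: `(A x)² = (-AB) y² + (-AC) z²`; take squarefree kernels.
-/

set_option autoImplicit false

namespace TwHP

private theorem HM_norm {K : Type} [Field K] (c d d' t : K) (hd : d ≠ 0) (hd' : d' ≠ 0)
    (h : d * d' = t ^ 2 + c) (H : Iso 1 c d) : Iso 1 c d' := by
  obtain ⟨x, y, z, hne, he⟩ := H
  refine ⟨x * t - c * y, x + t * y, d * z, ?_, ?_⟩
  · by_contra hcon
    push Not at hcon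
    obtain ⟨h1, h2, h3⟩ := hcon
    have hz : z = 0 := (mul_eq_zero.1 h3).resolve_left hd
    have hy : d * d' * y = 0 := by
      rw [h]
      calc (t ^ 2 + c) * y = t * (x + t * y) - (x * t - c * y) := by ring
        _ = 0 := by rw [h1, h2, mul_zero, sub_zero]
    have hy' : y = 0 := (mul_eq_zero.1 hy).resolve_left (mul_ne_zero hd hd')
    have hx : x = 0 := by rw [hy', mul_zero, add_zero] at h2; exact h2
    rcases hne with h4 | h4 | h4
    · exact h4 hx
    · exact h4 hy'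
    · exact h4 hz
  · calc 1 * (x * t - c * y) ^ 2 + c * (x + t * y) ^ 2 + d' * (d * z) ^ 2
        = (t ^ 2 + c) * (x ^ 2 + c * y ^ 2) + (d * d') * (d * z ^ 2) := by ring
      _ = (t ^ 2 + c) * (1 * x ^ 2 + c * y ^ 2 + d * z ^ 2) := by rw [h]; ring
      _ = 0 := by rw [he, mul_zero]

private theorem HM_prim (p : ℕ) [Fact p.Prime] (x y z : ℚ_[p]) (h : x ≠ 0 ∨ y ≠ 0 ∨ z ≠ 0) :
    ∃ w : ℚ_[p], ‖x * w‖ ≤ 1 ∧ ‖y * w‖ ≤ 1 ∧ ‖z * w‖ ≤ 1 ∧
      (‖x * w‖ = 1 ∨ ‖y * w‖ = 1 ∨ ‖z * w‖ = 1) := by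
  have key : ∀ u : ℚ_[p], ‖x‖ ≤ ‖u‖ → ‖y‖ ≤ ‖u‖ → ‖z‖ ≤ ‖u‖ → (u = x ∨ u = y ∨ u = z) →
      ∃ w : ℚ_[p], ‖x * w‖ ≤ 1 ∧ ‖y * w‖ ≤ 1 ∧ ‖z * w‖ ≤ 1 ∧
      (‖x * w‖ = 1 ∨ ‖y * w‖ = 1 ∨ ‖z * w‖ = 1) := by
    intro u hx hy hz hu
    have hu0 : u ≠ 0 := by
      rintro rfl
      rw [norm_zero] at hx hy hz
      rcases h with h | h | h
      · exact h (norm_le_zero_iff.1 hx)
      · exact h (norm_le_zero_iff.1 hy)
      · exact h (norm_le_zero_iff.1 hz)
    have hpos : 0 < ‖u‖ := norm_pos_iff.2 hu0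
    have hdiv : ∀ v : ℚ_[p], ‖v‖ ≤ ‖u‖ → ‖v * u⁻¹‖ ≤ 1 := by
      intro v hv
      rw [norm_mul, norm_inv, ← div_eq_mul_inv, div_le_one hpos]
      exact hv
    have hone : ‖u * u⁻¹‖ = 1 := by rw [mul_inv_cancel₀ hu0, norm_one]
    refine ⟨u⁻¹, hdiv x hx, hdiv y hy, hdiv z hz, ?_⟩
    rcases hu with rfl | rfl | rfl
    · exact Or.inl hone
    · exact Or.inr (Or.inl hone)
    · exact Or.inr (Or.inr hone)
  rcases le_total ‖x‖ ‖y‖ with h1 | h1
  · rcases le_total ‖y‖ ‖z‖ with h2 | h2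
    · exact key z (h1.trans h2) h2 le_rfl (Or.inr (Or.inr rfl))
    · exact key y h1 le_rfl h2 (Or.inr (Or.inl rfl))
  · rcases le_total ‖x‖ ‖z‖ with h2 | h2
    · exact key z h2 (h1.trans h2) le_rfl (Or.inr (Or.inr rfl))
    · exact key x le_rfl h1 h2 (Or.inl rfl)

private theorem HM_dvd (p : ℕ) [Fact p.Prime] (x : ℤ_[p]) (h : PadicInt.toZMod x = 0) :
    ∃ y, x = p * y := by
  have h1 : x ∈ RingHom.ker (PadicInt.toZMod : ℤ_[p] →+* ZMod p) := h
  rw [PadicInt.ker_toZMod, PadicInt.maximalIdeal_eq_span_p, Ideal.mem_span_singleton] at h1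
  exact h1

private theorem HM_not_unit (p : ℕ) [Fact p.Prime] (x : ℤ_[p]) (h : PadicInt.toZMod x = 0) :
    ‖x‖ ≠ 1 := by
  intro hx
  have hu := PadicInt.isUnit_iff.2 hx
  have := hu.map (PadicInt.toZMod : ℤ_[p] →+* ZMod p)
  rw [h] at this
  exact not_isUnit_zero this

private theorem HM_local (p : ℕ) [Fact p.Prime] (c d : ℤ) (hpd : (p : ℤ) ∣ d)
    (hpd2 : ¬ (p : ℤ) ^ 2 ∣ d) (h : Iso (1 : ℚ_[p]) c d) : ∃ t : ℤ, (p : ℤ) ∣ t ^ 2 + c := by
  have hp : p.Prime := Fact.out
  obtain ⟨x, y, z, hne, he⟩ := h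
  obtain ⟨w, hx, hy, hz, hw⟩ := HM_prim p x y z hne
  set A : ℤ_[p] := ⟨x * w, hx⟩ with hA
  set B : ℤ_[p] := ⟨y * w, hy⟩ with hB
  set D : ℤ_[p] := ⟨z * w, hz⟩ with hD
  have hA1 : ‖A‖ = ‖x * w‖ := rfl
  have hB1 : ‖B‖ = ‖y * w‖ := rfl
  have hD1 : ‖D‖ = ‖z * w‖ := rfl
  have heq : A ^ 2 + (c : ℤ_[p]) * B ^ 2 + (d : ℤ_[p]) * D ^ 2 = 0 := by
    apply Subtype.ext
    push_cast
    rw [hA, hB, hD]
    change (x * w) ^ 2 + (c : ℚ_[p]) * (y * w) ^ 2 + (d : ℚ_[p]) * (z * w) ^ 2 = 0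
    calc _ = (1 * x ^ 2 + c * y ^ 2 + d * z ^ 2) * w ^ 2 := by ring
      _ = 0 := by rw [he, zero_mul]
  obtain ⟨d1, rfl⟩ := hpd
  have hd1 : ¬ (p : ℤ) ∣ d1 := by
    rintro ⟨e, rfl⟩
    exact hpd2 ⟨e, by ring⟩
  have hd1' : ((d1 : ℤ) : ZMod p) ≠ 0 := by
    rw [Ne, ZMod.intCast_zmod_eq_zero_iff_dvd]
    exact hd1
  have hmod : (PadicInt.toZMod A) ^ 2 + (c : ZMod p) * (PadicInt.toZMod B) ^ 2 = 0 := by
    have := congrArg (PadicInt.toZMod : ℤ_[p] →+* ZMod p) heq
    simpa using this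
  by_cases hB0 : PadicInt.toZMod B = 0
  · exfalso
    have hA0 : PadicInt.toZMod A = 0 := by
      rw [hB0] at hmod
      simpa using hmod
    obtain ⟨A', hA'⟩ := HM_dvd p A hA0
    obtain ⟨B', hB'⟩ := HM_dvd p B hB0
    have hD0 : PadicInt.toZMod D = 0 := by
      rw [hA', hB'] at heq
      have hp0 : (p : ℤ_[p]) ≠ 0 := by
        exact_mod_cast hp.ne_zero
      have h1 : (p : ℤ_[p]) * ((p : ℤ_[p]) * (A' ^ 2 + c * B' ^ 2) + d1 * D ^ 2) = 0 := by
        rw [← heq]
        push_cast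
        ring
      have h2 := (mul_eq_zero.1 h1).resolve_left hp0
      have h3 := congrArg (PadicInt.toZMod : ℤ_[p] →+* ZMod p) h2
      have h4 : ((d1 : ℤ) : ZMod p) * (PadicInt.toZMod D) ^ 2 = 0 := by simpa using h3
      have h5 := (mul_eq_zero.1 h4).resolve_left hd1'
      exact pow_eq_zero_iff (two_ne_zero) |>.1 h5
    rcases hw with hw | hw | hw
    · exact HM_not_unit p A hA0 (hA1.trans hw)
    · exact HM_not_unit p B hB0 (hB1.trans hw)
    · exact HM_not_unit p D hD0 (hD1.trans hw)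
  · set a := PadicInt.toZMod A
    set b := PadicInt.toZMod B
    obtain ⟨t, ht⟩ := ZMod.intCast_surjective (a / b)
    refine ⟨t, ?_⟩
    rw [← ZMod.intCast_zmod_eq_zero_iff_dvd]
    push_cast
    rw [ht]
    have : (a / b) ^ 2 + (c : ZMod p) = (a ^ 2 + c * b ^ 2) / b ^ 2 := by
      field_simp
    rw [this, hmod, zero_div]

/-- Chinese remainder theorem for a squarefree modulus -/
private theorem HM_crt (c : ℤ) (n : ℕ) (hn : Squarefree n)
    (h : ∀ p : ℕ, p.Prime → p ∣ n → ∃ t : ℤ, (p : ℤ) ∣ t ^ 2 + c) :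
    ∃ t : ℤ, (n : ℤ) ∣ t ^ 2 + c := by
  induction n using Nat.recOnMul with
  | zero => exact absurd hn not_squarefree_zero
  | one => exact ⟨0, by simp⟩
  | prime p hp => exact h p hp dvd_rfl
  | mul a b ha hb =>
    have hcop : Nat.Coprime a b := Nat.coprime_of_squarefree_mul hn
    obtain ⟨t1, ht1⟩ := ha (hn.of_mul_left) (fun p hp hpa => h p hp (hpa.mul_right b))
    obtain ⟨t2, ht2⟩ := hb (hn.of_mul_right) (fun p hp hpb => h p hp (hpb.mul_left a))
    have hcop' : IsCoprime (a : ℤ) (b : ℤ) := Nat.isCoprime_iff_coprime.2 hcop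
    obtain ⟨u, v, huv⟩ := hcop'
    refine ⟨t1 * (v * b) + t2 * (u * a), ?_⟩
    push_cast
    apply IsCoprime.mul_dvd (Nat.isCoprime_iff_coprime.2 hcop)
    · have e : (t1 * (v * b) + t2 * (u * a)) ^ 2 + c =
          (t1 ^ 2 + c) + a * (u * (t2 - t1)) * (t1 * (v * b) + t2 * (u * a) + t1) := by
        have : t1 * (v * b) = t1 - t1 * (u * a) := by
          linear_combination t1 * huv
        rw [this]
        ring
      rw [e]
      exact dvd_add ht1 (((dvd_mul_right _ _).mul_right _))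
    · have e : (t1 * (v * b) + t2 * (u * a)) ^ 2 + c =
          (t2 ^ 2 + c) + b * (v * (t1 - t2)) * (t1 * (v * b) + t2 * (u * a) + t2) := by
        have : t2 * (u * a) = t2 - t2 * (v * b) := by
          linear_combination t2 * huv
        rw [this]
        ring
      rw [e]
      exact dvd_add ht2 (((dvd_mul_right _ _).mul_right _))

private def HMLoc (c d : ℤ) : Prop :=
  Iso (1 : ℝ) c d ∧ ∀ (p : ℕ) [Fact p.Prime], Iso (1 : ℚ_[p]) c d

private theorem HM_kernel (n : ℤ) (hn : n ≠ 0) :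
    ∃ m u : ℤ, n = m * u ^ 2 ∧ u ≠ 0 ∧ Squarefree m.natAbs ∧ m.natAbs ≤ n.natAbs := by
  obtain ⟨a, b, hab, ha⟩ := Nat.sq_mul_squarefree n.natAbs
  have hb : b ≠ 0 := by
    rintro rfl
    rw [zero_pow two_ne_zero, zero_mul] at hab
    exact hn (Int.natAbs_eq_zero.1 hab.symm)
  refine ⟨n.sign * a, b, ?_, by exact_mod_cast hb, ?_, ?_⟩
  · have h1 : n = n.sign * n.natAbs := (Int.sign_mul_natAbs n).symm
    rw [← hab] at h1
    push_cast at h1
    linear_combination h1
  · rw [Int.natAbs_mul, Int.natAbs_sign_of_ne_zero hn, one_mul, Int.natAbs_natCast]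
    exact ha
  · rw [Int.natAbs_mul, Int.natAbs_sign_of_ne_zero hn, one_mul, Int.natAbs_natCast, ← hab]
    exact Nat.le_mul_of_pos_left a (pow_pos (Nat.pos_of_ne_zero hb) 2)

private theorem HM_cast_iff {K : Type} [Field K] [CharZero K] (c m u : ℤ) (hu : u ≠ 0) :
    Iso (1 : K) c ((m * u ^ 2 : ℤ) : K) ↔ Iso (1 : K) c m := by
  have h := iso_sq (1 : K) c m 1 1 u one_ne_zero one_ne_zero (by exact_mod_cast hu)
  rw [one_pow, mul_one, mul_one] at h
  push_cast
  exact h

private theorem HM_main : ∀ (n : ℕ) (c d : ℤ), c ≠ 0 → d ≠ 0 → Squarefree c.natAbs →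
    Squarefree d.natAbs → c.natAbs + d.natAbs = n → HMLoc c d → Iso (1 : ℚ) c d := by
  intro n
  induction n using Nat.strong_induction_on with
  | _ n ih =>
    -- the case |c| ≤ |d|
    have main : ∀ c d : ℤ, c ≠ 0 → d ≠ 0 → Squarefree c.natAbs → Squarefree d.natAbs →
        c.natAbs + d.natAbs = n → c.natAbs ≤ d.natAbs → HMLoc c d → Iso (1 : ℚ) c d := by
      intro c d hc hd hcs hds hn hcd hloc
      by_cases hd1 : d.natAbs = 1
      · have hc1 : c.natAbs = 1 := by
          have := Int.natAbs_pos.2 hc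
          omega
        rcases Int.natAbs_eq_iff.1 hd1 with hd2 | hd2
        · rcases Int.natAbs_eq_iff.1 hc1 with hc2 | hc2
          · exfalso
            obtain ⟨x, y, z, hne, he⟩ := hloc.1
            rw [hd2, hc2] at he
            norm_num at he
            have hx : x = 0 := by nlinarith [sq_nonneg x, sq_nonneg y, sq_nonneg z]
            have hy : y = 0 := by nlinarith [sq_nonneg x, sq_nonneg y, sq_nonneg z]
            have hz : z = 0 := by nlinarith [sq_nonneg x, sq_nonneg y, sq_nonneg z]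
            rcases hne with h | h | h
            · exact h hx
            · exact h hy
            · exact h hz
          · refine ⟨1, 1, 0, Or.inl one_ne_zero, ?_⟩
            rw [hc2]
            norm_num
        · refine ⟨1, 0, 1, Or.inl one_ne_zero, ?_⟩
          rw [hd2]
          norm_num
      · have hdpos := Int.natAbs_pos.2 hd
        have hd2 : 2 ≤ d.natAbs := by omega
        obtain ⟨t0, ht0⟩ := HM_crt c d.natAbs hds (by
          intro p hp hpd
          have := Fact.mk hp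
          refine HM_local p c d (Int.natCast_dvd.2 hpd) ?_ (hloc.2 p)
          intro h
          have h1 : p ^ 2 ∣ d.natAbs := by
            have := Int.natAbs_dvd_natAbs.2 h
            rwa [Int.natAbs_pow, Int.natAbs_natCast] at this
          have h2 := hds p (by rwa [pow_two] at h1)
          exact hp.one_lt.ne' (Nat.isUnit_iff.1 h2))
        set t := Int.bmod t0 d.natAbs with ht
        have hdvd : (d.natAbs : ℤ) ∣ t ^ 2 + c := by
          have h1 : (d.natAbs : ℤ) ∣ t - t0 := Int.dvd_bmod_sub_self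
          have h2 : t ^ 2 + c = (t - t0) * (t + t0) + (t0 ^ 2 + c) := by ring
          rw [h2]
          exact dvd_add (h1.mul_right _) ht0
        have hb1 : -((d.natAbs : ℤ) / 2) ≤ t := Int.le_bmod hdpos
        have hb2 : t < ((d.natAbs : ℤ) + 1) / 2 := Int.bmod_lt hdpos
        have hdvd' : d ∣ t ^ 2 + c := Int.natAbs_dvd.1 hdvd
        obtain ⟨d', hd'⟩ := hdvd'
        by_cases hd0 : d' = 0
        · rw [hd0, mul_zero] at hd'
          refine ⟨t, 1, 0, Or.inr (Or.inl one_ne_zero), ?_⟩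
          have : ((t ^ 2 + c : ℤ) : ℚ) = 0 := by rw [hd']; norm_num
          push_cast at this
          linear_combination this
        · have hlt : d'.natAbs < d.natAbs := by
            have hD : (0 : ℤ) < d.natAbs := by exact_mod_cast hdpos
            have hD2 : (2 : ℤ) ≤ d.natAbs := by exact_mod_cast hd2
            have hC : (c.natAbs : ℤ) ≤ d.natAbs := by exact_mod_cast hcd
            have h1 : (d.natAbs : ℤ) * d'.natAbs = |t ^ 2 + c| := by
              rw [hd', abs_mul, Int.natCast_natAbs, Int.natCast_natAbs]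
            have h2 : |t ^ 2 + c| ≤ t ^ 2 + c.natAbs := by
              rw [Int.natCast_natAbs]
              calc |t ^ 2 + c| ≤ |t ^ 2| + |c| := abs_add_le _ _
                _ = t ^ 2 + |c| := by rw [abs_of_nonneg (sq_nonneg t)]
            have h3 : 2 * t ≤ d.natAbs := by omega
            have h4 : -(d.natAbs : ℤ) ≤ 2 * t := by omega
            have h5 : 4 * t ^ 2 ≤ (d.natAbs : ℤ) ^ 2 := by nlinarith
            have h6 : (d.natAbs : ℤ) * d'.natAbs < (d.natAbs : ℤ) * d.natAbs := by nlinarith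
            have h7 := lt_of_mul_lt_mul_left h6 hD.le
            exact_mod_cast h7
          obtain ⟨m, u, hmu, hu, hms, hmle⟩ := HM_kernel d' hd0
          have hm0 : m ≠ 0 := by
            rintro rfl
            rw [zero_mul] at hmu
            exact hd0 hmu
          have hloc' : HMLoc c m := by
            refine ⟨?_, ?_⟩
            · have h1 := HM_norm (c : ℝ) d d' t (by exact_mod_cast hd) (by exact_mod_cast hd0)
                (by exact_mod_cast hd'.symm) hloc.1
              rw [hmu] at h1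
              exact (HM_cast_iff c m u hu).1 h1
            · intro p hp
              have h1 := HM_norm (c : ℚ_[p]) d d' t (by exact_mod_cast hd) (by exact_mod_cast hd0)
                (by exact_mod_cast hd'.symm) (hloc.2 p)
              rw [hmu] at h1
              exact (HM_cast_iff c m u hu).1 h1
          have hglob := ih (c.natAbs + m.natAbs) (by omega) c m hc hm0 hcs hms rfl hloc'
          have h1 := (HM_cast_iff (K := ℚ) c m u hu).2 hglob
          rw [← hmu] at h1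
          exact HM_norm (c : ℚ) d' d t (by exact_mod_cast hd0) (by exact_mod_cast hd)
            (by rw [mul_comm]; exact_mod_cast hd'.symm) h1
    intro c d hc hd hcs hds hn hloc
    rcases le_total c.natAbs d.natAbs with h | h
    · exact main c d hc hd hcs hds hn h hloc
    · rw [iso_perm23]
      refine main d c hd hc hds hcs (by omega) h ⟨?_, ?_⟩
      · rw [iso_perm23]; exact hloc.1
      · intro p hp
        rw [iso_perm23]; exact hloc.2 p

private theorem HM_red {K : Type} [Field K] [CharZero K] (A B C m u m' u' : ℤ) (hA : A ≠ 0)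
    (hu : u ≠ 0) (hu' : u' ≠ 0) (h : A * B = m * u ^ 2) (h' : A * C = m' * u' ^ 2) :
    Iso (A : K) B C ↔ Iso (1 : K) m m' := by
  have hA' : (A : K) ≠ 0 := by exact_mod_cast hA
  have hk : (u : K) ≠ 0 := by exact_mod_cast hu
  have hk' : (u' : K) ≠ 0 := by exact_mod_cast hu'
  rw [← iso_mul (A : K) B C A hA', ← iso_sq (1 : K) m m' A u u' hA' hk hk']
  have e1 : (A : K) * A = 1 * (A : K) ^ 2 := by ring
  have e2 : (A : K) * B = m * (u : K) ^ 2 := by exact_mod_cast h
  have e3 : (A : K) * C = m' * (u' : K) ^ 2 := by exact_mod_cast h'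
  rw [e1, e2, e3]

theorem hm (A B C : ℤ) (hA : A ≠ 0) (hB : B ≠ 0) (hC : C ≠ 0)
    (hR : Iso (A : ℝ) (B : ℝ) (C : ℝ))
    (hp : ∀ (p : ℕ) [Fact p.Prime], Iso (A : ℚ_[p]) (B : ℚ_[p]) (C : ℚ_[p])) :
    Iso (A : ℚ) (B : ℚ) (C : ℚ) := by
  obtain ⟨m, u, hmu, hu, hms, -⟩ := HM_kernel (A * B) (mul_ne_zero hA hB)
  obtain ⟨m', u', hmu', hu', hms', -⟩ := HM_kernel (A * C) (mul_ne_zero hA hC)
  have hm0 : m ≠ 0 := by
    rintro rfl
    rw [zero_mul] at hmu
    exact mul_ne_zero hA hB hmu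
  have hm0' : m' ≠ 0 := by
    rintro rfl
    rw [zero_mul] at hmu'
    exact mul_ne_zero hA hC hmu'
  rw [HM_red A B C m u m' u' hA hu hu' hmu hmu']
  refine HM_main _ m m' hm0 hm0' hms hms' rfl ⟨?_, ?_⟩
  · rwa [← HM_red A B C m u m' u' hA hu hu' hmu hmu']
  · intro p hp'
    rw [← HM_red A B C m u m' u' hA hu hu' hmu hmu']
    exact hp p

end TwHP
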