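import Pool.Agent.Lib.MP_e426f4_ag.TW.PNear
import Pool.Agent.Lib.MP_e426f4_ag.TW.IsoBasic

/-!
# LQ: local solubility at an odd prime `q`

`lq_even`: after dividing by squares (`iso_sq`) all coefficients are units; modulo `q` the conic
`A x² + B y² + C z² = 0` has a solution with `z = 1`... e.g. `A x² + B y² = -C` is soluble modulo `q`
(`ZMod.sq_add_sq`-type pigeonhole, or `FiniteField.exists_root_sum_quadratic`), `x` or `y` is a unit,
lift it by `jac_square`/`unit_square` (replace e.g. `-(B y² + C)/A` by a square).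
`lq_one`: `-(B C)` is a non-zero square in `ℚ_q` (`jac_square`), `iso_of_neg_sq`.
-/

set_option autoImplicit false

namespace TwHP

private theorem lq_split (q : ℕ) [Fact q.Prime] (A : ℤ) (hA : A ≠ 0)
    (eA : Even (A.natAbs.factorization q)) :
    ∃ A' : ℤ, ¬ (q : ℤ) ∣ A' ∧ ∃ s : ℚ_[q], s ≠ 0 ∧ (A : ℚ_[q]) = A' * s ^ 2 := by
  have hq : q.Prime := Fact.out
  obtain ⟨k, hk⟩ := eA
  have hn : A.natAbs ≠ 0 := Int.natAbs_ne_zero.2 hA
  have h1 : ¬ q ∣ A.natAbs / q ^ A.natAbs.factorization q := Nat.not_dvd_ordCompl hq hn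
  have h2 : q ^ A.natAbs.factorization q * (A.natAbs / q ^ A.natAbs.factorization q) = A.natAbs :=
    Nat.ordProj_mul_ordCompl_eq_self _ _
  generalize A.natAbs / q ^ A.natAbs.factorization q = m at h1 h2
  refine ⟨A.sign * m, ?_, (q : ℚ_[q]) ^ k, ?_, ?_⟩
  · rw [Int.natCast_dvd, Int.natAbs_mul, Int.natAbs_sign_of_ne_zero hA, one_mul, Int.natAbs_natCast]
    exact h1
  · exact pow_ne_zero _ (by exact_mod_cast hq.ne_zero)
  · have h3 : A = A.sign * (A.natAbs : ℤ) := (Int.sign_mul_natAbs A).symm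
    have h4 : (A : ℚ_[q]) = ((A.sign * (A.natAbs : ℤ) : ℤ) : ℚ_[q]) := congrArg _ h3
    rw [h4, ← h2, hk]
    push_cast
    ring

private theorem lq_half (q : ℕ) [Fact q.Prime] (hq : q ≠ 2) (A B C x y : ℤ)
    (hA : ¬ (q : ℤ) ∣ A) (hx : ¬ (q : ℤ) ∣ x) (h : (q : ℤ) ∣ A * x ^ 2 + B * y ^ 2 + C) :
    Iso (A : ℚ_[q]) (B : ℚ_[q]) (C : ℚ_[q]) := by
  have hqp : Prime (q : ℤ) := Nat.prime_iff_prime_int.1 Fact.out
  have h1 : ¬ (q : ℤ) ∣ A * x ^ 2 := by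
    intro hd
    rcases hqp.dvd_or_dvd hd with h2 | h2
    · exact hA h2
    · exact hx (hqp.dvd_of_dvd_pow h2)
  obtain ⟨t, -, ht⟩ := unit_square q (A * x ^ 2) (-(B * y ^ 2 + C)) h1 (fun h' => absurd h' hq)
    (fun _ => by
      have h3 : -(B * y ^ 2 + C) - A * x ^ 2 = -(A * x ^ 2 + B * y ^ 2 + C) := by ring
      rw [h3]
      exact (dvd_neg).2 h)
  refine ⟨x * t, y, 1, Or.inr (Or.inr one_ne_zero), ?_⟩
  push_cast at ht
  linear_combination -ht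

open Polynomial in
private theorem lq_unit (q : ℕ) [Fact q.Prime] (hq : q ≠ 2) (A B C : ℤ)
    (hA : ¬ (q : ℤ) ∣ A) (hB : ¬ (q : ℤ) ∣ B) (hC : ¬ (q : ℤ) ∣ C) :
    Iso (A : ℚ_[q]) (B : ℚ_[q]) (C : ℚ_[q]) := by
  have hA0 : ((A : ℤ) : ZMod q) ≠ 0 := fun h => hA ((ZMod.intCast_zmod_eq_zero_iff_dvd A q).1 h)
  have hB0 : ((B : ℤ) : ZMod q) ≠ 0 := fun h => hB ((ZMod.intCast_zmod_eq_zero_iff_dvd B q).1 h)
  have hcard : Fintype.card (ZMod q) % 2 = 1 := by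
    rw [ZMod.card]
    exact (Nat.Prime.eq_two_or_odd Fact.out).resolve_left hq
  obtain ⟨a, b, hab⟩ := FiniteField.exists_root_sum_quadratic
    (f := Polynomial.C (A : ZMod q) * X ^ 2) (g := Polynomial.C (B : ZMod q) * X ^ 2 + Polynomial.C (C : ZMod q))
    (by rw [degree_C_mul_X_pow 2 hA0]; rfl)
    (by
      rw [degree_add_C]
      · rw [degree_C_mul_X_pow 2 hB0]; rfl
      · rw [degree_C_mul_X_pow 2 hB0]; norm_num) hcard
  simp only [eval_mul, eval_C, eval_pow, eval_X, eval_add] at hab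
  have ha : ((a.val : ℤ) : ZMod q) = a := by simp
  have hb : ((b.val : ℤ) : ZMod q) = b := by simp
  have hdvd : (q : ℤ) ∣ A * (a.val : ℤ) ^ 2 + B * (b.val : ℤ) ^ 2 + C := by
    rw [← ZMod.intCast_zmod_eq_zero_iff_dvd]
    push_cast
    push_cast at ha hb
    rw [ha, hb]
    linear_combination hab
  by_cases h1 : (q : ℤ) ∣ (a.val : ℤ)
  · by_cases h2 : (q : ℤ) ∣ (b.val : ℤ)
    · exfalso
      apply hC
      have h3 : (q : ℤ) ∣ A * (a.val : ℤ) ^ 2 + B * (b.val : ℤ) ^ 2 :=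
        dvd_add (Dvd.dvd.mul_left (dvd_pow h1 two_ne_zero) _)
          (Dvd.dvd.mul_left (dvd_pow h2 two_ne_zero) _)
      exact (dvd_add_right h3).1 hdvd
    · rw [iso_perm12]
      refine lq_half q hq B A C b.val a.val hB h2 ?_
      have h4 : B * (b.val : ℤ) ^ 2 + A * (a.val : ℤ) ^ 2 + C =
        A * (a.val : ℤ) ^ 2 + B * (b.val : ℤ) ^ 2 + C := by ring
      rw [h4]
      exact hdvd
  · exact lq_half q hq A B C a.val b.val hA h1 hdvd

theorem lq_even (q : ℕ) [Fact q.Prime] (hq : q ≠ 2) (A B C : ℤ) (hA : A ≠ 0) (hB : B ≠ 0)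
    (hC : C ≠ 0) (eA : Even (A.natAbs.factorization q)) (eB : Even (B.natAbs.factorization q))
    (eC : Even (C.natAbs.factorization q)) : Iso (A : ℚ_[q]) (B : ℚ_[q]) (C : ℚ_[q]) := by
  obtain ⟨A', hA', s, hs, eA'⟩ := lq_split q A hA eA
  obtain ⟨B', hB', t, ht, eB'⟩ := lq_split q B hB eB
  obtain ⟨C', hC', u, hu, eC'⟩ := lq_split q C hC eC
  rw [eA', eB', eC']
  exact (iso_sq _ _ _ s t u hs ht hu).2 (lq_unit q hq A' B' C' hA' hB' hC')

theorem lq_one (q : ℕ) [Fact q.Prime] (hq : q ≠ 2) (A B C : ℤ) (hB : ¬ (q : ℤ) ∣ B)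
    (h : jacobiSym (-(B * C)) q = 1) : Iso (A : ℚ_[q]) (B : ℚ_[q]) (C : ℚ_[q]) := by
  obtain ⟨t, -, ht⟩ := jac_square q hq (-(B * C)) h
  have hB0 : (B : ℚ_[q]) ≠ 0 := by
    have h1 : B ≠ 0 := by
      rintro rfl
      exact hB (dvd_zero _)
    exact_mod_cast h1
  refine iso_of_neg_sq _ _ _ hB0 t ?_
  push_cast at ht
  exact ht

end TwHP
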