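import Pool.Agent.Lib.MP_e426f4_ag.TW.PNear
import Pool.Agent.Lib.MP_e426f4_ag.TW.IsoBasic

/-!
# PhiOne: `Phi = 1` when the conic has a good global point

Proof.  Let `q > w` be a prime.  If `q ∣ A1` then `q` divides neither `B` nor `C`, `B y² = -C z²` mod `q`
and `q` divides neither `y` nor `z` (else both), so `-(B C) y² = (C z)²` mod `q`: `J(-(B C)|q) = 1`.
If `q ∣ B`: `-A1 = C z²` mod `q`, `q` does not divide `z` nor `C`: `-(A1 C) = (C z)²`, `J = 1`.
Same for `q ∣ C`.  Each factor of `Phi` is a product of such symbols (`jacobiSym.prod_right`/`mul_right`,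
`pow_right`).
-/

set_option autoImplicit false

namespace TwHP

private theorem po_prod (a : ℤ) (e : ℕ → ℕ) (s : Finset ℕ)
    (h : ∀ q ∈ s, q.Prime ∧ jacobiSym a q = 1) : jacobiSym a (∏ q ∈ s, q ^ e q) = 1 := by
  induction s using Finset.induction_on with
  | empty => simp
  | insert q s hq ih =>
    have h1 := h q (Finset.mem_insert_self q s)
    have h2 := ih fun p hp => h p (Finset.mem_insert_of_mem hp)
    rw [Finset.prod_insert hq, jacobiSym.mul_right', h2, jacobiSym.pow_right, h1.2]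
    · simp
    · exact pow_ne_zero _ h1.1.ne_zero
    · exact Finset.prod_ne_zero_iff.2 fun p hp =>
        pow_ne_zero _ (h p (Finset.mem_insert_of_mem hp)).1.ne_zero

private theorem po_rough (w : ℕ) (A a : ℤ)
    (h : ∀ q : ℕ, q.Prime → w < q → (q : ℤ) ∣ A → jacobiSym a q = 1) :
    jacobiSym a (rough w A) = 1 := by
  unfold rough
  refine po_prod a _ _ fun q hq => ?_
  rw [Finset.mem_filter] at hq
  have hp := Nat.prime_of_mem_primeFactors hq.1
  exact ⟨hp, h q hp hq.2 (Int.natCast_dvd.2 (Nat.dvd_of_mem_primeFactors hq.1))⟩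

private theorem po_sq (q : ℕ) (hq : q.Prime) (M y s : ℤ) (h : (q : ℤ) ∣ M * y ^ 2 - s ^ 2)
    (hs : ¬ (q : ℤ) ∣ s) : jacobiSym M q = 1 := by
  have hqi : Prime (q : ℤ) := Nat.prime_iff_prime_int.1 hq
  have hy : ¬ (q : ℤ) ∣ y := by
    intro hy
    apply hs
    have h1 : (q : ℤ) ∣ M * y ^ 2 := (dvd_pow hy (by norm_num)).mul_left M
    have h2 : (q : ℤ) ∣ s ^ 2 := by
      have := dvd_sub h1 h
      rwa [sub_sub_cancel] at this
    exact hqi.dvd_of_dvd_pow h2
  have hgcd : ∀ t : ℤ, ¬ (q : ℤ) ∣ t → t.gcd q = 1 := by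
    intro t ht
    rw [Int.gcd_comm]
    exact (Int.isCoprime_iff_gcd_eq_one.1 ((Prime.coprime_iff_not_dvd hqi).2 ht))
  have e1 : jacobiSym (M * y ^ 2) q = jacobiSym (s ^ 2) q :=
    jacobiSym.mod_left' ((Int.modEq_iff_dvd).2 h).symm
  rw [jacobiSym.mul_left, jacobiSym.sq_one' (hgcd y hy), jacobiSym.sq_one' (hgcd s hs),
    mul_one] at e1
  exact e1

theorem phi_one (w : ℕ) (A1 B C y z : ℤ) (hA1 : A1 = -(B * y ^ 2 + C * z ^ 2)) (hA : A1 ≠ 0)
    (hB : B ≠ 0) (hC : C ≠ 0) (hAB : CopW w A1 B) (hAC : CopW w A1 C) (hBC : CopW w B C)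
    (hy : CopW w C y) (hz : CopW w B z) (hyz : CopW w y z) : Phi w A1 B C = 1 := by
  unfold Phi
  have h1 : jacobiSym (-(B * C)) (rough w A1) = 1 := by
    refine po_rough w A1 _ fun q hq hwq hd => ?_
    have hqi : Prime (q : ℤ) := Nat.prime_iff_prime_int.1 hq
    have hqB : ¬ (q : ℤ) ∣ B := fun h => hAB q hq hwq ⟨hd, h⟩
    have hqC : ¬ (q : ℤ) ∣ C := fun h => hAC q hq hwq ⟨hd, h⟩
    have hqz : ¬ (q : ℤ) ∣ z := by
      intro hz'
      have h2 : (q : ℤ) ∣ B * y ^ 2 := by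
        have h3 : (q : ℤ) ∣ C * z ^ 2 := (dvd_pow hz' (by norm_num)).mul_left C
        have h4 : B * y ^ 2 = -A1 - C * z ^ 2 := by rw [hA1]; ring
        rw [h4]
        exact dvd_sub ((dvd_neg).2 hd) h3
      rcases hqi.dvd_or_dvd h2 with h3 | h3
      · exact hqB h3
      · exact hyz q hq hwq ⟨hqi.dvd_of_dvd_pow h3, hz'⟩
    refine po_sq q hq _ y (C * z) ?_ ?_
    · have e : -(B * C) * y ^ 2 - (C * z) ^ 2 = C * A1 := by rw [hA1]; ring
      rw [e]
      exact hd.mul_left C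
    · intro h
      rcases hqi.dvd_or_dvd h with h3 | h3
      · exact hqC h3
      · exact hqz h3
  have h2 : jacobiSym (-(A1 * C)) (rough w B) = 1 := by
    refine po_rough w B _ fun q hq hwq hd => ?_
    have hqi : Prime (q : ℤ) := Nat.prime_iff_prime_int.1 hq
    refine po_sq q hq _ 1 (C * z) ?_ ?_
    · have e : -(A1 * C) * 1 ^ 2 - (C * z) ^ 2 = B * (C * y ^ 2) := by rw [hA1]; ring
      rw [e]
      exact hd.mul_right _
    · intro h
      rcases hqi.dvd_or_dvd h with h3 | h3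
      · exact hBC q hq hwq ⟨hd, h3⟩
      · exact hz q hq hwq ⟨hd, h3⟩
  have h3 : jacobiSym (-(A1 * B)) (rough w C) = 1 := by
    refine po_rough w C _ fun q hq hwq hd => ?_
    have hqi : Prime (q : ℤ) := Nat.prime_iff_prime_int.1 hq
    refine po_sq q hq _ 1 (B * y) ?_ ?_
    · have e : -(A1 * B) * 1 ^ 2 - (B * y) ^ 2 = C * (B * z ^ 2) := by rw [hA1]; ring
      rw [e]
      exact hd.mul_right _
    · intro h
      rcases hqi.dvd_or_dvd h with h3 | h3
      · exact hBC q hq hwq ⟨h3, hd⟩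
      · exact hy q hq hwq ⟨hd, h3⟩
  rw [h1, h2, h3]
  norm_num

end TwHP
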