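import Pool.Agent.Lib.MP_e426f4_ag.TW.PNear
import Pool.Agent.Lib.MP_e426f4_ag.TW.IsoBasic

/-!
# WeakApp: weak approximation for the pair `(y, z)`

Proof.  For `p ≤ w` take `(y_p, z_p)` with `A = -(B y_p² + C z_p²)` (`iso_value`), multiply both by a power
of `p` (changes the value by a square) so that they are in `ℤ_p`; by `near_square` and density of `ℤ` there
are integers `Y_p, Z_p` and `κ` such that `y ≡ Y_p, z ≡ Z_p` mod `p^κ` implies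
`-(B y² + C z²) = A t²` in `ℚ_p`, `t ≠ 0` (use one `κ` for all `p ≤ w`).
Real place: `A` and one of `B, C` have opposite signs (`Iso` over `ℝ`).  Say `B` (the other case is
symmetric: use the symmetry y ↔ z).  First choose `z` by CRT: `z ≡ Z_p` mod `p^κ` (`p ≤ w`) and `z ≡ 1` mod
every prime `q > w` dividing `B C`, `z ≠ 0`; then `y` by CRT: `y ≡ Y_p` mod `p^κ`, `y ≡ 1` mod every prime `q > w`
dividing `B C z`, and `y` so large that `-(B y² + C z²)` has the sign of `-B`, i.e. of `A`.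
-/

set_option autoImplicit false

namespace TwHP

/-- Chinese remainders with a lower bound. -/
private lemma crt_large (w : ℕ) (κ r : ℕ → ℕ) (N : ℤ) (L : ℕ) :
    ∃ y : ℕ, L < y ∧ (∀ p : ℕ, p.Prime → p ≤ w → y ≡ r p [MOD p ^ κ p]) ∧
      (∀ q : ℕ, q.Prime → w < q → N ≠ 0 → (q : ℤ) ∣ N → y ≡ 1 [MOD q]) := by
  classical
  let t : Finset ℕ := (Finset.range (w + 1)).filter Nat.Prime ∪ N.natAbs.primeFactors.filter (w < ·)
  let s : ℕ → ℕ := fun p => if p ≤ w then p ^ κ p else p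
  let a : ℕ → ℕ := fun p => if p ≤ w then r p else 1
  have htp : ∀ p ∈ t, p.Prime := by
    intro p hp
    simp only [t, Finset.mem_union, Finset.mem_filter] at hp
    rcases hp with h | h
    · exact h.2
    · exact Nat.prime_of_mem_primeFactors h.1
  have hs : ∀ i ∈ t, s i ≠ 0 := by
    intro i hi
    have := (htp i hi).pos
    simp only [s]
    split_ifs
    · positivity
    · omega
  have pp : Set.Pairwise (t : Set ℕ) (Function.onFun Nat.Coprime s) := by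
    intro p hp q hq hpq
    have h1 : Nat.Coprime p q := (Nat.coprime_primes (htp p hp) (htp q hq)).2 hpq
    simp only [Function.onFun, s]
    split_ifs
    · exact Nat.Coprime.pow _ _ h1
    · exact Nat.Coprime.pow_left _ h1
    · exact Nat.Coprime.pow_right _ h1
    · exact h1
  obtain ⟨k, hk⟩ := Nat.chineseRemainderOfFinset a s t hs pp
  have hM : 0 < ∏ i ∈ t, s i := Finset.prod_pos fun i hi => Nat.pos_of_ne_zero (hs i hi)
  refine ⟨k + (∏ i ∈ t, s i) * (L + 1), ?_, ?_, ?_⟩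
  · have : 1 * (L + 1) ≤ (∏ i ∈ t, s i) * (L + 1) := Nat.mul_le_mul_right _ hM
    omega
  · intro p hp hpw
    have hpt : p ∈ t := by
      simp only [t, Finset.mem_union, Finset.mem_filter, Finset.mem_range]
      exact Or.inl ⟨by omega, hp⟩
    have h1 := hk p hpt
    simp only [s, a, if_pos hpw] at h1
    have h2 : p ^ κ p ∣ (∏ i ∈ t, s i) * (L + 1) := by
      refine Dvd.dvd.mul_right ?_ _
      have := Finset.dvd_prod_of_mem s hpt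
      simpa only [s, if_pos hpw] using this
    have h3 : (∏ i ∈ t, s i) * (L + 1) ≡ 0 [MOD p ^ κ p] := (Nat.modEq_zero_iff_dvd).2 h2
    simpa using h1.add h3
  · intro q hq hwq hN hqN
    have hqt : q ∈ t := by
      simp only [t, Finset.mem_union, Finset.mem_filter]
      refine Or.inr ⟨Nat.mem_primeFactors.2 ⟨hq, ?_, by simpa using hN⟩, hwq⟩
      exact Int.natCast_dvd.1 hqN
    have h1 := hk q hqt
    simp only [s, a, if_neg (not_le.2 hwq)] at h1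
    have h2 : q ∣ (∏ i ∈ t, s i) * (L + 1) := by
      refine Dvd.dvd.mul_right ?_ _
      have := Finset.dvd_prod_of_mem s hqt
      simpa only [s, if_neg (not_le.2 hwq)] using this
    have h3 : (∏ i ∈ t, s i) * (L + 1) ≡ 0 [MOD q] := (Nat.modEq_zero_iff_dvd).2 h2
    simpa using h1.add h3

/-- The local condition at `p` is implied by congruences. -/
private lemma loc_congr (p : ℕ) [Fact p.Prime] (A B C : ℤ) (hA : A ≠ 0) (hB : B ≠ 0) (hC : C ≠ 0)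
    (h : Iso (A : ℚ_[p]) (B : ℚ_[p]) (C : ℚ_[p])) :
    ∃ Y Z κ : ℕ, ∀ y z : ℕ, y ≡ Y [MOD p ^ κ] → z ≡ Z [MOD p ^ κ] →
      ∃ t : ℚ_[p], ((-(B * (y : ℤ) ^ 2 + C * (z : ℤ) ^ 2) : ℤ) : ℚ_[p]) = A * t ^ 2 := by
  have hp1 : (1 : ℝ) < p := by exact_mod_cast (Fact.out : p.Prime).one_lt
  have hp0 : (0 : ℝ) < p := by linarith
  have hA' : (A : ℚ_[p]) ≠ 0 := by exact_mod_cast hA
  obtain ⟨y0, z0, hv⟩ := iso_value (A : ℚ_[p]) B C two_ne_zero hA' (by exact_mod_cast hB)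
    (by exact_mod_cast hC) h
  -- scale
  have hbd : ∀ x : ℚ_[p], ∃ n : ℕ, ‖x‖ ≤ (p : ℝ) ^ n := by
    intro x
    obtain ⟨n, hn⟩ := pow_unbounded_of_one_lt ‖x‖ hp1
    exact ⟨n, hn.le⟩
  obtain ⟨n1, hn1⟩ := hbd y0
  obtain ⟨n2, hn2⟩ := hbd z0
  let n := max n1 n2
  have hpn : ‖(p : ℚ_[p]) ^ n‖ = ((p : ℝ) ^ n)⁻¹ := by
    rw [norm_pow, Padic.norm_p, inv_pow]
  have hy : ‖(p : ℚ_[p]) ^ n * y0‖ ≤ 1 := by
    rw [norm_mul, hpn]
    rw [inv_mul_le_iff₀ (by positivity), mul_one]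
    exact hn1.trans (pow_le_pow_right₀ hp1.le (le_max_left _ _))
  have hz : ‖(p : ℚ_[p]) ^ n * z0‖ ≤ 1 := by
    rw [norm_mul, hpn]
    rw [inv_mul_le_iff₀ (by positivity), mul_one]
    exact hn2.trans (pow_le_pow_right₀ hp1.le (le_max_right _ _))
  set y1 : ℤ_[p] := ⟨(p : ℚ_[p]) ^ n * y0, hy⟩ with hy1
  set z1 : ℤ_[p] := ⟨(p : ℚ_[p]) ^ n * z0, hz⟩ with hz1
  have hpn0 : (p : ℚ_[p]) ^ n ≠ 0 := by
    have : (p : ℚ_[p]) ≠ 0 := by exact_mod_cast (Fact.out : p.Prime).ne_zero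
    exact pow_ne_zero _ this
  have hξ : (A : ℚ_[p]) * ((p : ℚ_[p]) ^ n) ^ 2 ≠ 0 := mul_ne_zero hA' (pow_ne_zero _ hpn0)
  obtain ⟨ε, hε, hnear⟩ := near_square p _ hξ
  -- choose `κ`
  obtain ⟨κ, hκ⟩ : ∃ κ : ℕ, ((p : ℝ) ^ κ)⁻¹ < ε := by
    obtain ⟨κ, hκ⟩ := pow_unbounded_of_one_lt ε⁻¹ hp1
    exact ⟨κ, by rwa [inv_lt_comm₀ (by positivity) hε]⟩
  refine ⟨y1.appr κ, z1.appr κ, κ, fun y z hyY hzZ => ?_⟩
  -- closeness
  have hclose : ∀ (x : ℤ_[p]) (m : ℕ), m ≡ x.appr κ [MOD p ^ κ] →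
      ‖(m : ℚ_[p]) - (x : ℚ_[p])‖ ≤ ((p : ℝ) ^ κ)⁻¹ := by
    intro x m hm
    have e1 : ‖x - (x.appr κ : ℤ_[p])‖ ≤ (p : ℝ) ^ (-(κ : ℤ)) :=
      (PadicInt.norm_le_pow_iff_mem_span_pow _ _).2 (PadicInt.appr_spec κ x)
    have e2 : ‖(m : ℤ_[p]) - (x.appr κ : ℤ_[p])‖ ≤ (p : ℝ) ^ (-(κ : ℤ)) := by
      have h1 : ((p ^ κ : ℕ) : ℤ) ∣ (m : ℤ) - (x.appr κ : ℤ) := by
        have := (Nat.modEq_iff_dvd.1 hm.symm)
        simpa using this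
      have h2 : ‖(((m : ℤ) - (x.appr κ : ℤ) : ℤ) : ℤ_[p])‖ ≤ (p : ℝ) ^ (-(κ : ℤ)) :=
        PadicInt.norm_int_le_pow_iff_dvd.2 (by simpa using h1)
      simpa using h2
    have e3 : ‖(m : ℤ_[p]) - x‖ ≤ (p : ℝ) ^ (-(κ : ℤ)) := by
      have : (m : ℤ_[p]) - x = ((m : ℤ_[p]) - (x.appr κ : ℤ_[p])) + -(x - (x.appr κ : ℤ_[p])) := by
        ring
      rw [this]
      refine (PadicInt.nonarchimedean _ _).trans (max_le e2 ?_)
      rw [norm_neg]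
      exact e1
    have e4 : (((m : ℤ_[p]) - x : ℤ_[p]) : ℚ_[p]) = (m : ℚ_[p]) - (x : ℚ_[p]) := by
      push_cast
      rfl
    rw [← e4, ← PadicInt.norm_def]
    rw [zpow_neg, zpow_natCast] at e3
    exact e3
  have c1 := hclose y1 y hyY
  have c2 := hclose z1 z hzZ
  have ny1 : ‖(y1 : ℚ_[p])‖ ≤ 1 := y1.2
  have nz1 : ‖(z1 : ℚ_[p])‖ ≤ 1 := z1.2
  have hsq : ∀ (m : ℕ) (x : ℚ_[p]), ‖x‖ ≤ 1 → ‖(m : ℚ_[p]) - x‖ ≤ ((p : ℝ) ^ κ)⁻¹ →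
      ∀ D : ℤ, ‖(D : ℚ_[p]) * ((m : ℚ_[p]) ^ 2 - x ^ 2)‖ ≤ ((p : ℝ) ^ κ)⁻¹ := by
    intro m x hx hmx D
    have e1 : (m : ℚ_[p]) ^ 2 - x ^ 2 = ((m : ℚ_[p]) - x) * ((m : ℚ_[p]) + x) := by ring
    have e2 : ‖(m : ℚ_[p]) + x‖ ≤ 1 := by
      refine (Padic.nonarchimedean _ _).trans (max_le ?_ hx)
      exact_mod_cast Padic.norm_int_le_one (m : ℤ)
    have e3 : ‖(D : ℚ_[p])‖ ≤ 1 := Padic.norm_int_le_one D
    rw [e1, norm_mul, norm_mul]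
    have h0 : 0 ≤ ((p : ℝ) ^ κ)⁻¹ := by positivity
    calc ‖(D : ℚ_[p])‖ * (‖(m : ℚ_[p]) - x‖ * ‖(m : ℚ_[p]) + x‖)
        ≤ 1 * (((p : ℝ) ^ κ)⁻¹ * 1) := by gcongr
      _ = _ := by ring
  have key : ‖((-(B * (y : ℤ) ^ 2 + C * (z : ℤ) ^ 2) : ℤ) : ℚ_[p]) -
      (A : ℚ_[p]) * ((p : ℚ_[p]) ^ n) ^ 2‖ < ε := by
    have e1 : ((-(B * (y : ℤ) ^ 2 + C * (z : ℤ) ^ 2) : ℤ) : ℚ_[p]) -
        (A : ℚ_[p]) * ((p : ℚ_[p]) ^ n) ^ 2 =
        -((B : ℚ_[p]) * ((y : ℚ_[p]) ^ 2 - (y1 : ℚ_[p]) ^ 2)) +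
          -((C : ℚ_[p]) * ((z : ℚ_[p]) ^ 2 - (z1 : ℚ_[p]) ^ 2)) := by
      simp only [hy1, hz1]
      rw [hv]
      push_cast
      ring
    rw [e1]
    refine lt_of_le_of_lt ((Padic.nonarchimedean _ _).trans (max_le ?_ ?_)) hκ
    · rw [norm_neg]; exact hsq y _ ny1 c1 B
    · rw [norm_neg]; exact hsq z _ nz1 c2 C
  obtain ⟨-, t, -, ht⟩ := hnear _ key
  exact ⟨(p : ℚ_[p]) ^ n * t, by rw [ht]; ring⟩

/-- The case where `A` and `B` have opposite signs. -/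
private lemma weak_aux (w : ℕ) (A B C : ℤ) (hA : A ≠ 0) (hB : B ≠ 0) (hC : C ≠ 0)
    (h : LocW w A B C) (hAB : A * B < 0) :
    ∃ y z : ℤ, 0 < A * (-(B * y ^ 2 + C * z ^ 2)) ∧ CopW w (B * C) y ∧ CopW w (B * C) z ∧ CopW w y z ∧
      ∀ (p : ℕ) [Fact p.Prime], p ≤ w →
        ∃ t : ℚ_[p], ((-(B * y ^ 2 + C * z ^ 2) : ℤ) : ℚ_[p]) = A * t ^ 2 := by
  classical
  have hloc : ∀ p : ℕ, ∃ Y Z κ : ℕ, ∀ (_ : Fact p.Prime), p ≤ w → ∀ y z : ℕ,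
      y ≡ Y [MOD p ^ κ] → z ≡ Z [MOD p ^ κ] →
      ∃ t : ℚ_[p], ((-(B * (y : ℤ) ^ 2 + C * (z : ℤ) ^ 2) : ℤ) : ℚ_[p]) = A * t ^ 2 := by
    intro p
    by_cases hp : p.Prime ∧ p ≤ w
    · have : Fact p.Prime := ⟨hp.1⟩
      obtain ⟨Y, Z, κ, hh⟩ := loc_congr p A B C hA hB hC (h.2 p hp.2)
      exact ⟨Y, Z, κ, fun _ _ => hh⟩
    · exact ⟨0, 0, 0, fun h1 h2 => (hp ⟨h1.out, h2⟩).elim⟩
  choose Y Z κ hYZ using hloc
  obtain ⟨z, hz0, hz1, hz2⟩ := crt_large w κ Z (B * C) 0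
  obtain ⟨y, hy0, hy1, hy2⟩ := crt_large w κ Y (B * C * z) ((A * C).natAbs * z ^ 2)
  have hBC : B * C ≠ 0 := mul_ne_zero hB hC
  have hz' : (z : ℤ) ≠ 0 := by positivity
  have hnot : ∀ (q m : ℕ), q.Prime → m ≡ 1 [MOD q] → ¬ (q : ℤ) ∣ (m : ℤ) := by
    intro q m hq hm hqm
    have h1 : q ∣ m := by exact_mod_cast hqm
    have h2 : m ≡ 0 [MOD q] := (Nat.modEq_zero_iff_dvd).2 h1
    have h3 : (1 : ℕ) ≡ 0 [MOD q] := hm.symm.trans h2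
    exact hq.one_lt.ne' (Nat.dvd_one.1 ((Nat.modEq_zero_iff_dvd).1 h3))
  refine ⟨y, z, ?_, ?_, ?_, ?_, ?_⟩
  · have hyb : ((A * C).natAbs : ℤ) * (z : ℤ) ^ 2 < y := by exact_mod_cast hy0
    have h1 : A * C * (z : ℤ) ^ 2 ≤ ((A * C).natAbs : ℤ) * (z : ℤ) ^ 2 := by
      have : A * C ≤ ((A * C).natAbs : ℤ) := Int.le_natAbs
      nlinarith [sq_nonneg (z : ℤ)]
    have hy1' : (1 : ℤ) ≤ y := by
      have : (0 : ℤ) ≤ ((A * C).natAbs : ℤ) * (z : ℤ) ^ 2 := by positivity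
      omega
    have h2 : (y : ℤ) ≤ (y : ℤ) ^ 2 := by nlinarith
    have h3 : 1 ≤ -(A * B) := by omega
    have h4 : (y : ℤ) ^ 2 ≤ -(A * B) * (y : ℤ) ^ 2 := by nlinarith [sq_nonneg (y : ℤ)]
    have e : A * (-(B * (y : ℤ) ^ 2 + C * (z : ℤ) ^ 2)) =
        -(A * B) * (y : ℤ) ^ 2 - A * C * (z : ℤ) ^ 2 := by ring
    rw [e]
    linarith
  · rintro q hq hwq ⟨h1, h2⟩
    exact hnot q y hq (hy2 q hq hwq (mul_ne_zero hBC hz') (Dvd.dvd.mul_right h1 _)) h2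
  · rintro q hq hwq ⟨h1, h2⟩
    exact hnot q z hq (hz2 q hq hwq hBC h1) h2
  · rintro q hq hwq ⟨h1, h2⟩
    exact hnot q y hq (hy2 q hq hwq (mul_ne_zero hBC hz') (Dvd.dvd.mul_left h2 _)) h1
  · intro p hp hpw
    exact hYZ p hp hpw y z (hy1 p hp.out hpw) (hz1 p hp.out hpw)

theorem weak_app (w : ℕ) (A B C : ℤ) (hA : A ≠ 0) (hB : B ≠ 0) (hC : C ≠ 0)
    (h : LocW w A B C) :
    ∃ y z : ℤ, 0 < A * (-(B * y ^ 2 + C * z ^ 2)) ∧ CopW w (B * C) y ∧ CopW w (B * C) z ∧ CopW w y z ∧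
      ∀ (p : ℕ) [Fact p.Prime], p ≤ w →
        ∃ t : ℚ_[p], ((-(B * y ^ 2 + C * z ^ 2) : ℤ) : ℚ_[p]) = A * t ^ 2 := by
  have hR : A * B < 0 ∨ A * C < 0 := by
    by_contra hcon
    push Not at hcon
    obtain ⟨h1, h2⟩ := hcon
    have h1' : 0 < A * B := lt_of_le_of_ne h1 (mul_ne_zero hA hB).symm
    have h2' : 0 < A * C := lt_of_le_of_ne h2 (mul_ne_zero hA hC).symm
    obtain ⟨x, y, z, hne, he⟩ := h.1
    have e1 : (0 : ℝ) < A * B := by exact_mod_cast h1'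
    have e2 : (0 : ℝ) < A * C := by exact_mod_cast h2'
    have e3 : (0 : ℝ) < (A : ℝ) ^ 2 := by
      have : (A : ℝ) ≠ 0 := by exact_mod_cast hA
      positivity
    have e4 : (A : ℝ) ^ 2 * x ^ 2 + (A * B) * y ^ 2 + (A * C) * z ^ 2 = 0 := by
      have := congrArg (fun s => (A : ℝ) * s) he
      simp only [mul_zero] at this
      rw [← this]; ring
    have f1 : 0 ≤ (A : ℝ) ^ 2 * x ^ 2 := by positivity
    have f2 : 0 ≤ ((A : ℝ) * B) * y ^ 2 := by positivity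
    have f3 : 0 ≤ ((A : ℝ) * C) * z ^ 2 := by positivity
    have g1 : (A : ℝ) ^ 2 * x ^ 2 = 0 := by linarith
    have g2 : ((A : ℝ) * B) * y ^ 2 = 0 := by linarith
    have g3 : ((A : ℝ) * C) * z ^ 2 = 0 := by linarith
    have k1 : x = 0 := by
      rcases mul_eq_zero.1 g1 with h | h
      · exact absurd h e3.ne'
      · exact pow_eq_zero_iff (two_ne_zero) |>.1 h
    have k2 : y = 0 := by
      rcases mul_eq_zero.1 g2 with h | h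
      · exact absurd h e1.ne'
      · exact pow_eq_zero_iff (two_ne_zero) |>.1 h
    have k3 : z = 0 := by
      rcases mul_eq_zero.1 g3 with h | h
      · exact absurd h e2.ne'
      · exact pow_eq_zero_iff (two_ne_zero) |>.1 h
    rcases hne with h | h | h
    · exact h k1
    · exact h k2
    · exact h k3
  rcases hR with hAB | hAC
  · exact weak_aux w A B C hA hB hC h hAB
  · have h' : LocW w A C B :=
      ⟨(iso_perm23 _ _ _).1 h.1, fun p hp hpw => (iso_perm23 _ _ _).1 (h.2 p hpw)⟩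
    obtain ⟨y, z, h1, h2, h3, h4, h5⟩ := weak_aux w A C B hA hC hB h' hAC
    refine ⟨z, y, ?_, ?_, ?_, ?_, ?_⟩
    · rw [show B * z ^ 2 + C * y ^ 2 = C * y ^ 2 + B * z ^ 2 by ring]; exact h1
    · rw [mul_comm B C]; exact h3
    · rw [mul_comm B C]; exact h2
    · intro q hq hwq hh
      exact h4 q hq hwq ⟨hh.2, hh.1⟩
    · intro p hp hpw
      obtain ⟨t, ht⟩ := h5 p hpw
      exact ⟨t, by rw [show B * z ^ 2 + C * y ^ 2 = C * y ^ 2 + B * z ^ 2 by ring]; exact ht⟩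

end TwHP
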