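import Pool.Agent.Lib.MP_e426f4_ag.TW.PhiInv
import Pool.Agent.Lib.MP_e426f4_ag.TW.PhiOne
import Pool.Agent.Lib.MP_e426f4_ag.TW.WeakApp

/-!
# PF: the product formula
-/

set_option autoImplicit false

namespace TwHP

theorem pf (w : ℕ) (hw : 2 ≤ w) (A B C : ℤ) (hA : A ≠ 0) (hB : B ≠ 0) (hC : C ≠ 0)
    (hAB : CopW w A B) (hAC : CopW w A C) (hBC : CopW w B C) (h : LocW w A B C) :
    Phi w A B C = 1 := by
  obtain ⟨y, z, h1, h2, h3, h4, h5⟩ := weak_app w A B C hA hB hC h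
  set A1 : ℤ := -(B * y ^ 2 + C * z ^ 2) with hA1
  have hA1' : A1 ≠ 0 := by
    rintro h0
    rw [h0] at h1
    simp at h1
  have hAB1 : CopW w A1 B := by
    rintro q hq hwq ⟨ha, hb⟩
    have hd : (q : ℤ) ∣ C * z ^ 2 := by
      have e : C * z ^ 2 = -A1 - B * y ^ 2 := by rw [hA1]; ring
      rw [e]
      exact dvd_sub ((dvd_neg).2 ha) (hb.mul_right _)
    have hqp := Nat.prime_iff_prime_int.1 hq
    rcases hqp.dvd_or_dvd hd with h6 | h6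
    · exact hBC q hq hwq ⟨hb, h6⟩
    · exact h3 q hq hwq ⟨hb.mul_right _, hqp.dvd_of_dvd_pow h6⟩
  have hAC1 : CopW w A1 C := by
    rintro q hq hwq ⟨ha, hc⟩
    have hd : (q : ℤ) ∣ B * y ^ 2 := by
      have e : B * y ^ 2 = -A1 - C * z ^ 2 := by rw [hA1]; ring
      rw [e]
      exact dvd_sub ((dvd_neg).2 ha) (hc.mul_right _)
    have hqp := Nat.prime_iff_prime_int.1 hq
    rcases hqp.dvd_or_dvd hd with h6 | h6
    · exact hBC q hq hwq ⟨h6, hc⟩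
    · exact h2 q hq hwq ⟨hc.mul_left _, hqp.dvd_of_dvd_pow h6⟩
  rw [phi_inv w hw A A1 B C hA hA1' hB hC hAB hAC hBC hAB1 hAC1 h1 (fun p _ hp => h5 p hp)]
  exact phi_one w A1 B C y z rfl hA1' hB hC hAB1 hAC1 hBC
    (fun q hq hwq hh => h2 q hq hwq ⟨hh.1.mul_left _, hh.2⟩)
    (fun q hq hwq hh => h3 q hq hwq ⟨hh.1.mul_right _, hh.2⟩) h4

end TwHP
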