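import Pool.Agent.Lib.MP_e426f4_ag.TW.PNear
import Pool.Agent.Lib.MP_e426f4_ag.TW.IsoBasic

/-!
# ClassInv: local solubility depends on the class only

`al * a1`, `al * a2` with `a1 ≡ a2 ≡ u` mod `W8 w`, `u` prime to `W8 w`, positive: `a2 = a1 t²` in `ℚ_p` for `p ≤ w`
(`unit_square`), and they have the same sign.
-/

set_option autoImplicit false

namespace TwHP

theorem W8_dvd8 (w : ℕ) : 8 ∣ W8 w := Dvd.intro _ rfl

theorem prime_dvd_W8 (w : ℕ) (hw : 2 ≤ w) (p : ℕ) (hp : p.Prime) : p ∣ W8 w ↔ p ≤ w := by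
  unfold W8
  constructor
  · intro h
    rcases (hp.dvd_mul).mp h with h1 | h1
    · have h2 : p ∣ 2 ^ 3 := by simpa using h1
      have h3 : p = 2 := (Nat.prime_dvd_prime_iff_eq hp Nat.prime_two).mp (hp.dvd_of_dvd_pow h2)
      omega
    · obtain ⟨q, hq, hpq⟩ := (Prime.dvd_finsetProd_iff hp.prime _).mp h1
      rw [Finset.mem_filter, Finset.mem_Icc] at hq
      have : p = q := (Nat.prime_dvd_prime_iff_eq hp hq.2).mp hpq
      omega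
  · intro h
    rcases Nat.lt_or_ge p 3 with h3 | h3
    · have h2 : p = 2 := by
        have := hp.two_le
        omega
      rw [h2]
      exact Dvd.dvd.mul_right (by norm_num) _
    · apply Dvd.dvd.mul_left
      exact Finset.dvd_prod_of_mem (fun q => q) (by
        rw [Finset.mem_filter, Finset.mem_Icc]
        exact ⟨⟨h3, h⟩, hp⟩)

theorem class_square (w : ℕ) (hw : 2 ≤ w) (u a1 a2 : ℕ) (hu : u.Coprime (W8 w))
    (h1 : a1 ≡ u [MOD W8 w]) (h2 : a2 ≡ u [MOD W8 w]) (p : ℕ) [Fact p.Prime] (hp : p ≤ w) :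
    ∃ t : ℚ_[p], t ≠ 0 ∧ (a2 : ℚ_[p]) = a1 * t ^ 2 := by
  have hpp : p.Prime := Fact.out
  have hpW : p ∣ W8 w := (prime_dvd_W8 w hw p hpp).mpr hp
  have h12 : a1 ≡ a2 [MOD W8 w] := h1.trans h2.symm
  have hdiv : ∀ m : ℕ, m ∣ W8 w → (m : ℤ) ∣ (a2 : ℤ) - a1 := fun m hm =>
    (Nat.modEq_iff_dvd.mp (h12.of_dvd hm))
  have hm : ¬ (p : ℤ) ∣ (a1 : ℤ) := by
    intro h
    have h3 : p ∣ a1 := by exact_mod_cast h
    have h4 : p ∣ u := ((h1.of_dvd hpW).dvd_iff (dvd_refl p)).mp h3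
    have h5 : p ∣ Nat.gcd u (W8 w) := Nat.dvd_gcd h4 hpW
    rw [hu] at h5
    exact hpp.one_lt.ne' (Nat.dvd_one.mp h5)
  obtain ⟨t, ht, h⟩ := unit_square p (a1 : ℤ) (a2 : ℤ) hm
    (fun _ => hdiv 8 (W8_dvd8 w)) (fun _ => hdiv p hpW)
  exact ⟨t, ht, by exact_mod_cast h⟩

theorem iso_first {K : Type} [Field K] {A B C t : K} (ht : t ≠ 0) (h : Iso A B C) :
    Iso (A * t ^ 2) B C := by
  have := (iso_sq A B C t 1 1 ht one_ne_zero one_ne_zero).mpr h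
  simpa using this

theorem iso_class_real {a1 a2 : ℕ} (h01 : 0 < a1) (h02 : 0 < a2) (al : ℤ) {B C : ℝ}
    (h : Iso ((al * (a1 : ℤ) : ℤ) : ℝ) B C) : Iso ((al * (a2 : ℤ) : ℤ) : ℝ) B C := by
  have h1 : (0 : ℝ) < a1 := by exact_mod_cast h01
  have h2 : (0 : ℝ) < a2 := by exact_mod_cast h02
  have ht : Real.sqrt ((a2 : ℝ) / a1) ≠ 0 := (Real.sqrt_pos.mpr (div_pos h2 h1)).ne'
  have := iso_first ht h
  rw [Real.sq_sqrt (div_pos h2 h1).le] at this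
  have e : ((al * (a1 : ℤ) : ℤ) : ℝ) * ((a2 : ℝ) / a1) = ((al * (a2 : ℤ) : ℤ) : ℝ) := by
    push_cast
    field_simp
  rwa [e] at this

theorem iso_class_padic (w : ℕ) (hw : 2 ≤ w) (u a1 a2 : ℕ) (hu : u.Coprime (W8 w))
    (h1 : a1 ≡ u [MOD W8 w]) (h2 : a2 ≡ u [MOD W8 w]) (p : ℕ) [Fact p.Prime] (hp : p ≤ w)
    (al : ℤ) {B C : ℚ_[p]}
    (h : Iso ((al * (a1 : ℤ) : ℤ) : ℚ_[p]) B C) : Iso ((al * (a2 : ℤ) : ℤ) : ℚ_[p]) B C := by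
  obtain ⟨t, ht, hsq⟩ := class_square w hw u a1 a2 hu h1 h2 p hp
  have := iso_first ht h
  have e : ((al * (a1 : ℤ) : ℤ) : ℚ_[p]) * t ^ 2 = ((al * (a2 : ℤ) : ℤ) : ℚ_[p]) := by
    push_cast
    rw [hsq]
    ring
  rwa [e] at this

theorem locW_class (w : ℕ) (hw : 2 ≤ w) (u a1 a2 : ℕ) (hu : u.Coprime (W8 w)) (h01 : 0 < a1)
    (h02 : 0 < a2) (h1 : a1 ≡ u [MOD W8 w]) (h2 : a2 ≡ u [MOD W8 w]) (al B C : ℤ)
    (h : LocW w (al * a1) B C) : LocW w (al * a2) B C := by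
  refine ⟨iso_class_real h01 h02 al h.1, ?_⟩
  intro p _ hp
  exact iso_class_padic w hw u a1 a2 hu h1 h2 p hp al (h.2 p hp)

theorem sol_class {ι : Type} [Fintype ι] {n : ℕ} (F : ι → Bool → MvPolynomial (Fin (n + 1)) ℤ)
    (w : ℕ) (hw : 2 ≤ w) (u a1 a2 : ℕ) (hu : u.Coprime (W8 w)) (h01 : 0 < a1) (h02 : 0 < a2)
    (h1 : a1 ≡ u [MOD W8 w]) (h2 : a2 ≡ u [MOD W8 w]) (al : ℤ) :
    (Sol F (al * a1) ℝ → Sol F (al * a2) ℝ) ∧
    ∀ (p : ℕ) [Fact p.Prime], p ≤ w → Sol F (al * a1) ℚ_[p] → Sol F (al * a2) ℚ_[p] := by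
  constructor
  · rintro ⟨s, hs, h⟩
    exact ⟨s, hs, fun i => iso_class_real h01 h02 al (h i)⟩
  · intro p _ hp
    rintro ⟨s, hs, h⟩
    exact ⟨s, hs, fun i => iso_class_padic w hw u a1 a2 hu h1 h2 p hp al (h i)⟩

end TwHP
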