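import Pool.Agent.Lib.MP_e426f4_ag.TW.AnDefs
import Pool.Agent.Lib.MP_e426f4_ag.TW.ClassInv

/-!
# Split: `a = al * a'`
-/

set_option autoImplicit false

namespace TwHP

theorem smp_mul_rough (w : ℕ) (a : ℤ) (ha : a ≠ 0) : smp w a * rough w a = a.natAbs := by
  have h0 : a.natAbs ≠ 0 := Int.natAbs_ne_zero.2 ha
  have h1 : ∏ q ∈ a.natAbs.primeFactors, q ^ a.natAbs.factorization q = a.natAbs := by
    have := Nat.factorization_prod_pow_eq_self h0
    rwa [Finsupp.prod, Nat.support_factorization] at this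
  have h2 := Finset.prod_filter_mul_prod_filter_not a.natAbs.primeFactors (fun q => q ≤ w)
    (fun q => q ^ a.natAbs.factorization q)
  rw [h1] at h2
  unfold smp rough
  simpa only [not_le] using h2

theorem split_eq (w : ℕ) (a : ℤ) (ha : a ≠ 0) : a = (a.sign * smp w a) * rough w a := by
  rw [mul_assoc, ← Nat.cast_mul, smp_mul_rough w a ha, Int.sign_mul_natAbs]

theorem smp_primes (w : ℕ) (a : ℤ) (p : ℕ) (hp : p.Prime) (h : p ∣ smp w a) : p ≤ w := by
  unfold smp at h
  rw [hp.prime.dvd_finset_prod_iff] at h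
  obtain ⟨q, hq, hd⟩ := h
  rw [Finset.mem_filter] at hq
  have := hp.dvd_of_dvd_pow hd
  rw [(Nat.prime_dvd_prime_iff_eq hp (Nat.prime_of_mem_primeFactors hq.1)).1 this]
  exact hq.2

theorem rough_primes (w : ℕ) (a : ℤ) (p : ℕ) (hp : p.Prime) (h : p ∣ rough w a) : w < p := by
  unfold rough at h
  rw [hp.prime.dvd_finset_prod_iff] at h
  obtain ⟨q, hq, hd⟩ := h
  rw [Finset.mem_filter] at hq
  have := hp.dvd_of_dvd_pow hd
  rw [(Nat.prime_dvd_prime_iff_eq hp (Nat.prime_of_mem_primeFactors hq.1)).1 this]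
  exact hq.2

theorem smp_pos (w : ℕ) (a : ℤ) : 0 < smp w a := by
  unfold smp
  refine Finset.prod_pos fun q hq => ?_
  rw [Finset.mem_filter] at hq
  exact pow_pos (Nat.prime_of_mem_primeFactors hq.1).pos _

theorem rough_pos (w : ℕ) (a : ℤ) : 0 < rough w a := by
  unfold rough
  refine Finset.prod_pos fun q hq => ?_
  rw [Finset.mem_filter] at hq
  exact pow_pos (Nat.prime_of_mem_primeFactors hq.1).pos _

theorem rough_coprime (w : ℕ) (hw : 2 ≤ w) (a : ℤ) : (rough w a).Coprime (W8 w) := by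
  apply Nat.Coprime.symm
  apply Nat.Coprime.symm
  rw [Nat.coprime_iff_gcd_eq_one]
  by_contra h
  obtain ⟨p, hp, hd⟩ := Nat.exists_prime_and_dvd h
  have h1 := rough_primes w a p hp (hd.trans (Nat.gcd_dvd_left _ _))
  have h2 := (prime_dvd_W8 w hw p hp).1 (hd.trans (Nat.gcd_dvd_right _ _))
  omega

/-- a `w`-smooth part is determined: if `a = al * a'` with `al` `w`-smooth and `a' > 0` rough -/
theorem rough_of_mul (w : ℕ) (al : ℤ) (a' : ℕ) (hal : al ≠ 0)
    (h1 : ∀ p : ℕ, p.Prime → (p : ℤ) ∣ al → p ≤ w) (h2 : 0 < a')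
    (h3 : ∀ p : ℕ, p.Prime → p ∣ a' → w < p) : rough w (al * a') = a' := by
  have e : (al * a').natAbs = al.natAbs * a' := by
    rw [Int.natAbs_mul, Int.natAbs_natCast]
  have hal' : al.natAbs ≠ 0 := Int.natAbs_ne_zero.2 hal
  have ha' : a' ≠ 0 := h2.ne'
  unfold rough
  rw [e]
  have hset : (al.natAbs * a').primeFactors.filter (w < ·) = a'.primeFactors := by
    ext q
    simp only [Finset.mem_filter, Nat.primeFactors_mul hal' ha', Finset.mem_union,
      Nat.mem_primeFactors]
    constructor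
    · rintro ⟨h | h, hw⟩
      · exfalso
        have := h1 q h.1 (by
          rw [← Int.dvd_natAbs]
          exact_mod_cast h.2.1)
        omega
      · exact h
    · intro h
      exact ⟨Or.inr h, h3 q h.1 h.2.1⟩
  rw [hset]
  have h4 : ∏ q ∈ a'.primeFactors, q ^ a'.factorization q = a' := by
    have := Nat.factorization_prod_pow_eq_self ha'
    rwa [Finsupp.prod, Nat.support_factorization] at this
  conv_rhs => rw [← h4]
  refine Finset.prod_congr rfl fun q hq => ?_
  rw [Nat.factorization_mul hal' ha', Finsupp.add_apply]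
  have hqp := Nat.prime_of_mem_primeFactors hq
  have h5 : al.natAbs.factorization q = 0 := by
    apply Nat.factorization_eq_zero_of_not_dvd
    intro hd
    have h6 := h1 q hqp (by
      rw [← Int.dvd_natAbs]
      exact_mod_cast hd)
    have h7 := h3 q hqp (Nat.dvd_of_mem_primeFactors hq)
    omega
  rw [h5, zero_add]

/-- the rough part has good anatomy if `|a|` has -/
theorem anW_rough (D r cb : ℕ) (δ : ℝ) (H w : ℕ) (a : ℤ) (ha : a ≠ 0) (hw : (w : ℝ) < (H : ℝ) ^ δ)
    (h : AnW D r cb δ H a.natAbs) : AnW D r cb δ H (rough w a) := by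
  have h0 : a.natAbs ≠ 0 := Int.natAbs_ne_zero.2 ha
  have hd : rough w a ∣ a.natAbs := ⟨smp w a, by rw [mul_comm]; exact (smp_mul_rough w a ha).symm⟩
  have hsub : (rough w a).primeFactors ⊆ a.natAbs.primeFactors := Nat.primeFactors_mono hd h0
  obtain ⟨b1, b2, b3, b4⟩ := h
  refine ⟨?_, ?_, ?_, ?_⟩
  · refine le_trans ?_ b1
    unfold bb
    norm_cast
    refine Finset.prod_le_prod_of_subset_of_one_le' (Finset.filter_subset_filter _ hsub) ?_
    intro q hq _
    rw [Finset.mem_filter] at hq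
    exact (Nat.prime_of_mem_primeFactors hq.1).one_lt.le
  · intro q hq hz hdv
    exact b2 q hq hz (hdv.trans hd)
  · refine le_trans ?_ b3
    exact pow_le_pow_right₀ (by norm_num) (Finset.card_le_card hsub)
  · obtain ⟨p, hp, hpa, hH⟩ := b4
    refine ⟨p, hp, ?_, hH⟩
    have hwp : w < p := by
      have : (w : ℝ) < p := lt_of_lt_of_le hw hH
      exact_mod_cast this
    rw [← smp_mul_rough w a ha] at hpa
    rcases hp.dvd_mul.1 hpa with h1 | h1
    · have := smp_primes w a p hp h1
      omega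
    · exact h1

end TwHP
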