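import Pool.Agent.Lib.MP_e426f4_ag.TW.Defs

/-!
# PNear: numbers p-adically close to `ξ ≠ 0` are `ξ` times a square
-/

set_option autoImplicit false

namespace TwHP

open Polynomial in
/-- `1 + δ` with `‖δ‖ < ‖4‖` is the square of a non-zero number -/
theorem one_add_square (p : ℕ) [Fact p.Prime] (δ : ℚ_[p]) (hδ : ‖δ‖ < ‖(4 : ℚ_[p])‖) :
    ∃ t : ℚ_[p], t ≠ 0 ∧ t ^ 2 = 1 + δ := by
  have h4 : ‖(4 : ℚ_[p])‖ ≤ 1 := by
    have := Padic.norm_int_le_one (p := p) 4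
    simpa using this
  have hδ1 : ‖δ‖ < 1 := lt_of_lt_of_le hδ h4
  set d : ℤ_[p] := ⟨δ, hδ1.le⟩ with hd
  have hnorm : ‖(X ^ 2 - C (1 + d) : ℤ_[p][X]).aeval (1 : ℤ_[p])‖ <
      ‖(derivative (X ^ 2 - C (1 + d) : ℤ_[p][X])).aeval (1 : ℤ_[p])‖ ^ 2 := by
    have e1 : (X ^ 2 - C (1 + d) : ℤ_[p][X]).aeval (1 : ℤ_[p]) = -d := by
      simp
    have e2 : (derivative (X ^ 2 - C (1 + d) : ℤ_[p][X])).aeval (1 : ℤ_[p]) = 2 := by
      simp
      norm_num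
    rw [e1, e2, norm_neg, ← norm_pow]
    have e3 : ((2 : ℤ_[p]) ^ 2) = 4 := by norm_num
    rw [e3]
    have e4 : ‖(4 : ℤ_[p])‖ = ‖(4 : ℚ_[p])‖ := by
      rw [PadicInt.norm_def]; norm_cast
    rw [e4]
    exact hδ
  obtain ⟨z, hz, -⟩ := hensels_lemma hnorm
  have hz2 : z ^ 2 = 1 + d := by
    have : z ^ 2 - (1 + d) = 0 := by simpa using hz
    exact sub_eq_zero.1 this
  have hz3 : ((z : ℚ_[p])) ^ 2 = 1 + δ := by
    have := congrArg (fun y : ℤ_[p] => (y : ℚ_[p])) hz2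
    simpa [hd] using this
  refine ⟨z, ?_, hz3⟩
  intro h0
  rw [h0] at hz3
  have : (1 : ℚ_[p]) = -δ := by linear_combination -hz3
  have h1 : ‖(1 : ℚ_[p])‖ = ‖δ‖ := by rw [this, norm_neg]
  rw [norm_one] at h1
  linarith

theorem near_square (p : ℕ) [Fact p.Prime] (ξ : ℚ_[p]) (hξ : ξ ≠ 0) :
    ∃ ε : ℝ, 0 < ε ∧ ∀ η : ℚ_[p], ‖η - ξ‖ < ε → η ≠ 0 ∧ ∃ t : ℚ_[p], t ≠ 0 ∧ η = ξ * t ^ 2 := by
  have h4 : (0 : ℝ) < ‖(4 : ℚ_[p])‖ := norm_pos_iff.2 (by norm_num)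
  have hξ' : 0 < ‖ξ‖ := norm_pos_iff.2 hξ
  refine ⟨‖ξ‖ * ‖(4 : ℚ_[p])‖, by positivity, fun η hη => ?_⟩
  obtain ⟨t, ht, h⟩ := one_add_square p ((η - ξ) / ξ) (by
    rw [norm_div, div_lt_iff₀ hξ']
    linarith)
  have h2 : η = ξ * t ^ 2 := by
    rw [h]; field_simp; ring
  refine ⟨?_, t, ht, h2⟩
  rw [h2]
  exact mul_ne_zero hξ (pow_ne_zero 2 ht)

private theorem pnear_lt_one (p : ℕ) [Fact p.Prime] (m : ℤ) :
    ‖(m : ℚ_[p])‖ < 1 ↔ (p : ℤ) ∣ m := by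
  rw [← PadicInt.norm_int_lt_one_iff_dvd, PadicInt.norm_def]
  norm_cast

private theorem pnear_norm_unit (p : ℕ) [Fact p.Prime] (m : ℤ) (hm : ¬ (p : ℤ) ∣ m) :
    ‖(m : ℚ_[p])‖ = 1 := by
  have h1 : ‖(m : ℚ_[p])‖ ≤ 1 := Padic.norm_int_le_one m
  have h2 : ¬ ‖(m : ℚ_[p])‖ < 1 := fun h => hm ((pnear_lt_one p m).1 h)
  linarith [not_lt.1 h2]

/-- integers: unit class modulo `8` (`p = 2`) or modulo `p` (`p` odd) determines the square class -/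
theorem unit_square (p : ℕ) [Fact p.Prime] (m n : ℤ) (hm : ¬ (p : ℤ) ∣ m)
    (h2 : p = 2 → (8 : ℤ) ∣ n - m) (hp : p ≠ 2 → (p : ℤ) ∣ n - m) :
    ∃ t : ℚ_[p], t ≠ 0 ∧ (n : ℚ_[p]) = m * t ^ 2 := by
  have hm1 := pnear_norm_unit p m hm
  have hm0 : (m : ℚ_[p]) ≠ 0 := by
    intro h; rw [h, norm_zero] at hm1; exact zero_ne_one hm1
  have key : ‖((n : ℚ_[p]) - m) / m‖ < ‖(4 : ℚ_[p])‖ := by
    rw [norm_div, hm1, div_one]
    have hc : ((n : ℚ_[p]) - m) = ((n - m : ℤ) : ℚ_[p]) := by push_cast; ring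
    rw [hc]
    by_cases hp2 : p = 2
    · subst hp2
      have h8 : ‖((n - m : ℤ) : ℚ_[2])‖ ≤ ((2 : ℕ) : ℝ) ^ (-(3 : ℕ) : ℤ) := by
        rw [Padic.norm_int_le_pow_iff_dvd]
        have := h2 rfl
        norm_num
        exact this
      have h4 : ‖(4 : ℚ_[2])‖ = 1 / 4 := by
        have e : (4 : ℚ_[2]) = ((2 : ℕ) : ℚ_[2]) ^ 2 := by norm_num
        rw [e, norm_pow, Padic.norm_p]
        norm_num
      rw [h4]
      refine lt_of_le_of_lt h8 ?_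
      norm_num
    · have h1 : ‖((n - m : ℤ) : ℚ_[p])‖ < 1 := (pnear_lt_one p _).2 (hp hp2)
      have h4 : ‖(4 : ℚ_[p])‖ = 1 := by
        have := pnear_norm_unit p 4 (by
          intro h
          have h' : p ∣ 4 := by exact_mod_cast h
          have h'' : p ∣ 2 ^ 2 := by simpa using h'
          exact hp2 ((Nat.prime_dvd_prime_iff_eq (Fact.out) Nat.prime_two).1
            (Nat.Prime.dvd_of_dvd_pow Fact.out h'')))
        simpa using this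
      rw [h4]
      exact h1
  obtain ⟨t, ht, h⟩ := one_add_square p _ key
  refine ⟨t, ht, ?_⟩
  rw [h]
  field_simp
  ring

/-- an odd prime and a nonzero integer with `jacobiSym = 1` is a square in `ℚ_p` -/
theorem jac_square (q : ℕ) [Fact q.Prime] (hq : q ≠ 2) (m : ℤ) (h : jacobiSym m q = 1) :
    ∃ t : ℚ_[q], t ≠ 0 ∧ (m : ℚ_[q]) = t ^ 2 := by
  rw [← jacobiSym.legendreSym.to_jacobiSym] at h
  have hm : ¬ (q : ℤ) ∣ m := by
    intro hd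
    have h0 : ((m : ℤ) : ZMod q) = 0 := (ZMod.intCast_zmod_eq_zero_iff_dvd m q).2 hd
    rw [(legendreSym.eq_zero_iff q m).2 h0] at h
    exact zero_ne_one h
  have h0 : ((m : ℤ) : ZMod q) ≠ 0 := fun h0 => hm ((ZMod.intCast_zmod_eq_zero_iff_dvd m q).1 h0)
  obtain ⟨r, hr⟩ := (legendreSym.eq_one_iff q h0).1 h
  obtain ⟨s, rfl⟩ : ∃ s : ℤ, (s : ZMod q) = r := ⟨(r.val : ℤ), by simp⟩
  have hs : (q : ℤ) ∣ m - s ^ 2 := by
    rw [← ZMod.intCast_zmod_eq_zero_iff_dvd]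
    push_cast
    rw [hr]
    ring
  have hs2 : ¬ (q : ℤ) ∣ s ^ 2 := by
    intro hd
    apply hm
    have := dvd_add hs hd
    simpa using this
  obtain ⟨t, ht, h2⟩ := unit_square q (s ^ 2) m hs2 (fun h' => absurd h' hq) (fun _ => hs)
  refine ⟨s * t, ?_, ?_⟩
  · intro h0'
    have hne : ((m : ℤ) : ℚ_[q]) ≠ 0 := by
      have : m ≠ 0 := by rintro rfl; exact hm (dvd_zero _)
      exact_mod_cast this
    rw [h2] at hne
    apply hne
    push_cast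
    rw [← mul_pow, h0']
    ring
  · rw [h2]; push_cast; ring

private theorem pnear_int (q : ℕ) [Fact q.Prime] (m : ℤ) (hm : ¬ (q : ℤ) ∣ m) (t : ℚ_[q])
    (h : (m : ℚ_[q]) = t ^ 2) : ∃ s : ℤ_[q], (m : ℤ_[q]) = s ^ 2 := by
  have h1 := pnear_norm_unit q m hm
  rw [h, norm_pow] at h1
  have h2 : ‖t‖ = 1 := by
    have h0 : 0 ≤ ‖t‖ := norm_nonneg t
    nlinarith [sq_nonneg (‖t‖ - 1)]
  refine ⟨⟨t, h2.le⟩, ?_⟩
  apply Subtype.ext
  simpa using h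

/-- conversely a `p`-adic square of an integer prime to `q` has `jacobiSym = 1` -/
theorem square_jac (q : ℕ) [Fact q.Prime] (hq : q ≠ 2) (m : ℤ) (hm : ¬ (q : ℤ) ∣ m) (t : ℚ_[q])
    (h : (m : ℚ_[q]) = t ^ 2) : jacobiSym m q = 1 := by
  obtain ⟨s, hs⟩ := pnear_int q m hm t h
  have h0 : ((m : ℤ) : ZMod q) ≠ 0 := fun h0 => hm ((ZMod.intCast_zmod_eq_zero_iff_dvd m q).1 h0)
  rw [← jacobiSym.legendreSym.to_jacobiSym, legendreSym.eq_one_iff q h0]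
  refine ⟨PadicInt.toZMod s, ?_⟩
  have := congrArg (PadicInt.toZMod (p := q)) hs
  rw [map_intCast, map_pow] at this
  rw [this, sq]

/-- an odd integer that is a square in `ℚ_2` is `1` mod `8` -/
theorem square_two (m : ℤ) (hm : ¬ (2 : ℤ) ∣ m) (t : ℚ_[2]) (h : (m : ℚ_[2]) = t ^ 2) :
    (8 : ℤ) ∣ m - 1 := by
  obtain ⟨s, hs⟩ := pnear_int 2 m (by exact_mod_cast hm) t h
  have h1 := congrArg (PadicInt.toZModPow (p := 2) 3) hs
  rw [map_intCast, map_pow] at h1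
  have key : ∀ x y : ZMod (2 ^ 3), x = y ^ 2 → (x = 1 ∨ x.val % 2 = 0) := by decide
  rcases key _ _ h1 with h2 | h2
  · have h3 : ((m - 1 : ℤ) : ZMod (2 ^ 3)) = 0 := by
      push_cast
      rw [h2]
      ring
    have h4 := (ZMod.intCast_zmod_eq_zero_iff_dvd (m - 1) (2 ^ 3)).1 h3
    simpa using h4
  · exfalso
    apply hm
    have h3 : (((m : ZMod (2 ^ 3)).val : ℕ) : ℤ) = m % 8 := by
      have := ZMod.val_intCast (n := 2 ^ 3) m
      simpa using this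
    have h4 : (((m : ZMod (2 ^ 3)).val % 2 : ℕ) : ℤ) = 0 := by exact_mod_cast h2
    push_cast at h4
    rw [h3] at h4
    omega

end TwHP
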