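import Pool.Agent.Lib.MP_e426f4_ag.TW.Defs

/-!
# Res: the restriction of a form to a line
-/

set_option autoImplicit false

namespace TwHP

open Polynomial

variable {n : ℕ}

theorem res_eval (f : MvPolynomial (Fin (n + 1)) ℤ) (U V : Fin (n + 1) → ℤ) (x : ℤ) :
    (res f U V).eval x = MvPolynomial.eval (fun j => x * U j + V j) f := by
  unfold res
  have h : (Polynomial.evalRingHom x).comp
      ((MvPolynomial.aeval (fun j => C (U j) * X + C (V j))).toRingHom :
        MvPolynomial (Fin (n + 1)) ℤ →+* ℤ[X]) =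
      MvPolynomial.eval (fun j => x * U j + V j) := by
    apply MvPolynomial.ringHom_ext
    · intro r
      simp
    · intro i
      simp [mul_comm]
  exact congrArg (fun g : MvPolynomial (Fin (n + 1)) ℤ →+* ℤ => g f) h

theorem res_mul (f g : MvPolynomial (Fin (n + 1)) ℤ) (U V : Fin (n + 1) → ℤ) :
    res (f * g) U V = res f U V * res g U V := by
  unfold res
  rw [map_mul]

theorem res_prod {κ : Type} (s : Finset κ) (f : κ → MvPolynomial (Fin (n + 1)) ℤ)
    (U V : Fin (n + 1) → ℤ) : res (∏ i ∈ s, f i) U V = ∏ i ∈ s, res (f i) U V := by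
  unfold res
  rw [map_prod]

/-- the restriction as a sum over the monomials -/
private theorem res_sum (f : MvPolynomial (Fin (n + 1)) ℤ) (U V : Fin (n + 1) → ℤ) :
    res f U V = ∑ m ∈ f.support, C (MvPolynomial.coeff m f) *
      ∏ j, (C (U j) * X + C (V j)) ^ m j := by
  unfold res
  rw [MvPolynomial.aeval_def, MvPolynomial.eval₂_eq']
  rfl

private theorem prod_natDegree_le (U V : Fin (n + 1) → ℤ) (m : Fin (n + 1) → ℕ)
    (s : Finset (Fin (n + 1))) :
    (∏ j ∈ s, (C (U j) * X + C (V j)) ^ m j : ℤ[X]).natDegree ≤ ∑ j ∈ s, m j := by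
  refine (natDegree_prod_le _ _).trans (Finset.sum_le_sum fun j _ => ?_)
  refine natDegree_pow_le.trans ?_
  have : (C (U j) * X + C (V j) : ℤ[X]).natDegree ≤ 1 := natDegree_linear_le
  calc m j * (C (U j) * X + C (V j) : ℤ[X]).natDegree ≤ m j * 1 := Nat.mul_le_mul_left _ this
    _ = m j := by ring

private theorem prod_coeff (U V : Fin (n + 1) → ℤ) (m : Fin (n + 1) → ℕ)
    (s : Finset (Fin (n + 1))) :
    (∏ j ∈ s, (C (U j) * X + C (V j)) ^ m j : ℤ[X]).coeff (∑ j ∈ s, m j) =
      ∏ j ∈ s, U j ^ m j := by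
  classical
  induction s using Finset.induction_on with
  | empty => simp
  | insert i s hi ih =>
    rw [Finset.prod_insert hi, Finset.sum_insert hi, Finset.prod_insert hi]
    have h1 : (C (U i) * X + C (V i) : ℤ[X]).natDegree ≤ 1 := natDegree_linear_le
    rw [coeff_mul_add_eq_of_natDegree_le _ (prod_natDegree_le U V m s), ih]
    · congr 1
      have := coeff_pow_of_natDegree_le (m := m i) h1
      rw [mul_one] at this
      have hc : (C (U i) * X + C (V i) : ℤ[X]).coeff 1 = U i := by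
        rw [coeff_add, coeff_C_mul, coeff_X_one, coeff_C_of_ne_zero one_ne_zero, mul_one, add_zero]
      rw [this, hc]
    · refine natDegree_pow_le.trans ?_
      calc m i * (C (U i) * X + C (V i) : ℤ[X]).natDegree ≤ m i * 1 := Nat.mul_le_mul_left _ h1
        _ = m i := by ring

private theorem hom_sum (f : MvPolynomial (Fin (n + 1)) ℤ) (d : ℕ) (hf : f.IsHomogeneous d)
    (m : Fin (n + 1) →₀ ℕ) (hm : m ∈ f.support) : ∑ j, m j = d := by
  have h := hf (MvPolynomial.mem_support_iff.mp hm)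
  rw [Finsupp.weight_apply, Finsupp.sum_fintype] at h
  · simpa using h
  · intro i
    simp

/-- the coefficient of `X ^ d` is the value at `U` -/
theorem res_coeff (f : MvPolynomial (Fin (n + 1)) ℤ) (d : ℕ) (hf : f.IsHomogeneous d)
    (U V : Fin (n + 1) → ℤ) : (res f U V).coeff d = MvPolynomial.eval U f := by
  rw [res_sum, finsetSum_coeff, MvPolynomial.eval_eq']
  refine Finset.sum_congr rfl fun m hm => ?_
  rw [coeff_C_mul]
  congr 1
  have h := prod_coeff U V m Finset.univ
  rw [hom_sum f d hf m hm] at h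
  exact h

theorem res_natDegree_le (f : MvPolynomial (Fin (n + 1)) ℤ) (d : ℕ) (hf : f.IsHomogeneous d)
    (U V : Fin (n + 1) → ℤ) : (res f U V).natDegree ≤ d := by
  rw [res_sum]
  refine natDegree_sum_le_of_forall_le _ _ fun m hm => ?_
  refine (natDegree_C_mul_le _ _).trans ?_
  have h := prod_natDegree_le U V m Finset.univ
  rw [hom_sum f d hf m hm] at h
  exact h

theorem res_natDegree (f : MvPolynomial (Fin (n + 1)) ℤ) (d : ℕ) (hf : f.IsHomogeneous d)
    (U V : Fin (n + 1) → ℤ) (hU : MvPolynomial.eval U f ≠ 0) : (res f U V).natDegree = d := by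
  apply le_antisymm (res_natDegree_le f d hf U V)
  apply le_natDegree_of_ne_zero
  rw [res_coeff f d hf U V]
  exact hU

/-- the same for polynomials on any index type -/
theorem eval_congr' {σ : Type} (f : MvPolynomial σ ℤ) (m : ℤ) (s t : σ → ℤ)
    (h : ∀ j, m ∣ s j - t j) : m ∣ MvPolynomial.eval s f - MvPolynomial.eval t f := by
  induction f using MvPolynomial.induction_on with
  | C a => simp
  | add p q hp hq =>
    rw [map_add, map_add]
    have := dvd_add hp hq
    have e : MvPolynomial.eval s p - MvPolynomial.eval t p +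
        (MvPolynomial.eval s q - MvPolynomial.eval t q) =
        MvPolynomial.eval s p + MvPolynomial.eval s q -
          (MvPolynomial.eval t p + MvPolynomial.eval t q) := by ring
    rwa [e] at this
  | mul_X p i hp =>
    rw [map_mul, map_mul, MvPolynomial.eval_X, MvPolynomial.eval_X]
    have e : MvPolynomial.eval s p * s i - MvPolynomial.eval t p * t i =
        (MvPolynomial.eval s p - MvPolynomial.eval t p) * s i +
          MvPolynomial.eval t p * (s i - t i) := by ring
    rw [e]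
    exact dvd_add (Dvd.dvd.mul_right hp _) (Dvd.dvd.mul_left (h i) _)

/-- congruent lines give congruent values -/
theorem eval_congr (f : MvPolynomial (Fin (n + 1)) ℤ) (m : ℤ) (s t : Fin (n + 1) → ℤ)
    (h : ∀ j, m ∣ s j - t j) : m ∣ MvPolynomial.eval s f - MvPolynomial.eval t f :=
  eval_congr' f m s t h

/-- scaling -/
theorem eval_smul {K : Type} [Field K] (f : MvPolynomial (Fin (n + 1)) ℤ) (d : ℕ)
    (hf : f.IsHomogeneous d) (l : K) (s : Fin (n + 1) → K) :
    MvPolynomial.aeval (fun j => l * s j) f = l ^ d * MvPolynomial.aeval s f := by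
  rw [MvPolynomial.aeval_def, MvPolynomial.aeval_def, MvPolynomial.eval₂_eq',
    MvPolynomial.eval₂_eq', Finset.mul_sum]
  refine Finset.sum_congr rfl fun m hm => ?_
  have : ∏ i, (l * s i) ^ m i = l ^ d * ∏ i, s i ^ m i := by
    simp_rw [mul_pow]
    rw [Finset.prod_mul_distrib, Finset.prod_pow_eq_pow_sum, hom_sum f d hf m hm]
  rw [this]
  ring

/-- size of the values -/
theorem eval_size {σ : Type} (f : MvPolynomial σ ℤ) :
    ∃ K : ℕ, 1 ≤ K ∧ ∀ B : ℕ, 1 ≤ B → ∀ s : σ → ℤ, (∀ j, |s j| ≤ B) →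
      |MvPolynomial.eval s f| ≤ K * (B : ℤ) ^ K := by
  induction f using MvPolynomial.induction_on with
  | C a =>
    refine ⟨a.natAbs + 1, by omega, fun B hB s hs => ?_⟩
    rw [MvPolynomial.eval_C]
    have h1 : (1 : ℤ) ≤ (B : ℤ) ^ (a.natAbs + 1) := by
      exact_mod_cast Nat.one_le_pow _ _ (by omega)
    have h2 : |a| ≤ ((a.natAbs + 1 : ℕ) : ℤ) := by
      rw [Int.abs_eq_natAbs]
      push_cast
      linarith
    calc |a| ≤ ((a.natAbs + 1 : ℕ) : ℤ) * 1 := by linarith
      _ ≤ ((a.natAbs + 1 : ℕ) : ℤ) * (B : ℤ) ^ (a.natAbs + 1) :=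
        mul_le_mul_of_nonneg_left h1 (by positivity)
  | add p q hp hq =>
    obtain ⟨K1, hK1, h1⟩ := hp
    obtain ⟨K2, hK2, h2⟩ := hq
    refine ⟨K1 + K2, by omega, fun B hB s hs => ?_⟩
    rw [map_add]
    have hB' : (1 : ℤ) ≤ (B : ℤ) := by exact_mod_cast hB
    have e1 : (B : ℤ) ^ K1 ≤ (B : ℤ) ^ (K1 + K2) := pow_le_pow_right₀ hB' (by omega)
    have e2 : (B : ℤ) ^ K2 ≤ (B : ℤ) ^ (K1 + K2) := pow_le_pow_right₀ hB' (by omega)
    have f1 := h1 B hB s hs
    have f2 := h2 B hB s hs
    have g1 : (K1 : ℤ) * (B : ℤ) ^ K1 ≤ K1 * (B : ℤ) ^ (K1 + K2) :=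
      mul_le_mul_of_nonneg_left e1 (by positivity)
    have g2 : (K2 : ℤ) * (B : ℤ) ^ K2 ≤ K2 * (B : ℤ) ^ (K1 + K2) :=
      mul_le_mul_of_nonneg_left e2 (by positivity)
    calc |MvPolynomial.eval s p + MvPolynomial.eval s q|
        ≤ |MvPolynomial.eval s p| + |MvPolynomial.eval s q| := abs_add_le _ _
      _ ≤ K1 * (B : ℤ) ^ (K1 + K2) + K2 * (B : ℤ) ^ (K1 + K2) := by linarith
      _ = ((K1 + K2 : ℕ) : ℤ) * (B : ℤ) ^ (K1 + K2) := by push_cast; ring
  | mul_X p i hp =>
    obtain ⟨K1, hK1, h1⟩ := hp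
    refine ⟨K1 + 1, by omega, fun B hB s hs => ?_⟩
    rw [map_mul, MvPolynomial.eval_X, abs_mul]
    have f1 := h1 B hB s hs
    have hB' : (0 : ℤ) ≤ (B : ℤ) := by positivity
    calc |MvPolynomial.eval s p| * |s i| ≤ (K1 * (B : ℤ) ^ K1) * B :=
          mul_le_mul f1 (hs i) (abs_nonneg _) (by positivity)
      _ = K1 * (B : ℤ) ^ (K1 + 1) := by ring
      _ ≤ ((K1 + 1 : ℕ) : ℤ) * (B : ℤ) ^ (K1 + 1) := by
        apply mul_le_mul_of_nonneg_right _ (by positivity)
        push_cast
        linarith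

/-- integer points in fields -/
theorem aeval_cast {σ : Type} (K : Type) [Field K] (f : MvPolynomial σ ℤ) (s : σ → ℤ) :
    MvPolynomial.aeval (fun j => (s j : K)) f = ((MvPolynomial.eval s f : ℤ) : K) := by
  induction f using MvPolynomial.induction_on with
  | C a => simp
  | add p q hp hq => rw [map_add, map_add, hp, hq]; push_cast; rfl
  | mul_X p i hp =>
    rw [map_mul, map_mul, hp, MvPolynomial.aeval_X, MvPolynomial.eval_X]; push_cast; rfl

end TwHP
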