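import Pool.Agent.Lib.MP_e426f4_ag.TW.PNear
import Pool.Agent.Lib.MP_e426f4_ag.TW.IsoBasic
import Pool.Agent.Lib.MP_e426f4_ag.TW.Res

/-!
# LocP: a `p`-adic point gives an open set of integral vectors

Scale the point `s` by a power of `p` (`eval_smul`, even degrees: values change by squares) to have `s` in
`ℤ_p^{n+1}`; the value map is continuous, `near_square`, density of `ℤ` in `ℤ_p`; `iso_sq`.
-/

set_option autoImplicit false

namespace TwHP

variable {ι : Type} [Fintype ι] {n : ℕ}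

/-- a power of `p` makes the vector integral -/
theorem locP_scale (p : ℕ) [Fact p.Prime] (s : Fin (n + 1) → ℚ_[p]) :
    ∃ m : ℕ, ∀ j, ‖(p : ℚ_[p]) ^ m * s j‖ ≤ 1 := by
  have hp : (1 : ℝ) < p := by exact_mod_cast (Fact.out : p.Prime).one_lt
  obtain ⟨m, hm⟩ := pow_unbounded_of_one_lt ‖s‖ hp
  refine ⟨m, fun j => ?_⟩
  rw [norm_mul, norm_pow, Padic.norm_p]
  have h1 : ‖s j‖ ≤ (p : ℝ) ^ m := (norm_le_pi_norm s j).trans hm.le
  have h2 : (0 : ℝ) < (p : ℝ) ^ m := by positivity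
  rw [inv_pow, inv_mul_le_iff₀ h2, mul_one]
  exact h1

/-- integral approximation -/
theorem locP_approx (p : ℕ) [Fact p.Prime] (x : ℚ_[p]) (hx : ‖x‖ ≤ 1) (k : ℕ) :
    ∃ z : ℤ, ‖(z : ℚ_[p]) - x‖ ≤ (p : ℝ) ^ (-k : ℤ) := by
  set y : ℤ_[p] := ⟨x, hx⟩ with hy
  refine ⟨(PadicInt.appr y k : ℕ), ?_⟩
  have h := (PadicInt.norm_le_pow_iff_mem_span_pow _ _).2 (PadicInt.appr_spec k y)
  rw [← norm_neg, neg_sub]
  calc ‖x - (((PadicInt.appr y k : ℕ) : ℤ) : ℚ_[p])‖ = ‖y - (PadicInt.appr y k : ℤ_[p])‖ := by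
        rw [PadicInt.norm_def]
        push_cast
        rfl
    _ ≤ _ := h

theorem loc_p (F : ι → Bool → MvPolynomial (Fin (n + 1)) ℤ) (d : ι → Bool → ℕ)
    (hom : ∀ i b, (F i b).IsHomogeneous (d i b)) (ev : ∀ i b, Even (d i b)) (p : ℕ)
    [Fact p.Prime] (a : ℤ) (h : Sol F a ℚ_[p]) :
    ∃ (s : Fin (n + 1) → ℤ) (k : ℕ), ∀ t : Fin (n + 1) → ℤ, (∀ j, ((p : ℤ) ^ k) ∣ t j - s j) →
      (∀ i b, MvPolynomial.eval t (F i b) ≠ 0) ∧
      ∀ i, Iso (a : ℚ_[p]) (-((MvPolynomial.eval t (F i false) : ℤ) : ℚ_[p]))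
        (-((MvPolynomial.eval t (F i true) : ℤ) : ℚ_[p])) := by
  obtain ⟨s, hs0, hs⟩ := h
  obtain ⟨m, hm⟩ := locP_scale p s
  have hp1 : (1 : ℝ) < p := by exact_mod_cast (Fact.out : p.Prime).one_lt
  have hp0 : (p : ℚ_[p]) ≠ 0 := by exact_mod_cast (Fact.out : p.Prime).ne_zero
  set l : ℚ_[p] := (p : ℚ_[p]) ^ m with hl
  have hl0 : l ≠ 0 := pow_ne_zero _ hp0
  set s' : Fin (n + 1) → ℚ_[p] := fun j => l * s j with hs'
  have hval : ∀ i b, MvPolynomial.aeval s' (F i b) =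
      MvPolynomial.aeval s (F i b) * (l ^ (d i b / 2)) ^ 2 := by
    intro i b
    have e : (l ^ (d i b / 2)) ^ 2 = l ^ d i b := by
      rw [← pow_mul, Nat.div_mul_cancel (ev i b).two_dvd]
    rw [hs', eval_smul (F i b) (d i b) (hom i b) l s, e, mul_comm]
  have hne : ∀ i b, MvPolynomial.aeval s' (F i b) ≠ 0 := by
    intro i b
    rw [hval]
    exact mul_ne_zero (hs0 i b) (pow_ne_zero _ (pow_ne_zero _ hl0))
  have hiso : ∀ i, Iso (a : ℚ_[p]) (-MvPolynomial.aeval s' (F i false))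
      (-MvPolynomial.aeval s' (F i true)) := by
    intro i
    rw [hval, hval, ← neg_mul, ← neg_mul]
    have := (iso_sq (a : ℚ_[p]) (-MvPolynomial.aeval s (F i false))
      (-MvPolynomial.aeval s (F i true)) 1 (l ^ (d i false / 2)) (l ^ (d i true / 2)) one_ne_zero
      (pow_ne_zero _ hl0) (pow_ne_zero _ hl0)).2 (hs i)
    rwa [one_pow, mul_one] at this
  -- the neighbourhood
  have hev : ∀ᶠ x in nhds s', ∀ i b, MvPolynomial.aeval x (F i b) ≠ 0 ∧
      ∃ t : ℚ_[p], t ≠ 0 ∧ MvPolynomial.aeval x (F i b) =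
        MvPolynomial.aeval s' (F i b) * t ^ 2 := by
    rw [Filter.eventually_all]
    intro i
    rw [Filter.eventually_all]
    intro b
    obtain ⟨ε, hε, hn⟩ := near_square p (MvPolynomial.aeval s' (F i b)) (hne i b)
    have hc : Continuous fun x : Fin (n + 1) → ℚ_[p] => MvPolynomial.aeval x (F i b) := by
      have : (fun x : Fin (n + 1) → ℚ_[p] => MvPolynomial.aeval x (F i b)) =
          fun x => MvPolynomial.eval x ((F i b).map (Int.castRingHom ℚ_[p])) := by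
        funext x
        rw [MvPolynomial.aeval_def, MvPolynomial.eval_map]
        rfl
      rw [this]
      exact MvPolynomial.continuous_eval _
    have := Metric.continuousAt_iff'.1 (hc.continuousAt (x := s')) ε hε
    refine this.mono fun x hx => hn _ ?_
    rwa [dist_eq_norm] at hx
  obtain ⟨δ, hδ, hball⟩ := Metric.eventually_nhds_iff.1 hev
  obtain ⟨k, hk⟩ := exists_pow_lt_of_lt_one hδ (show ((p : ℝ)⁻¹) < 1 from inv_lt_one_of_one_lt₀ hp1)
  have hk' : (p : ℝ) ^ (-k : ℤ) < δ := by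
    rw [zpow_neg, zpow_natCast, ← inv_pow]
    exact hk
  choose z hz using fun j => locP_approx p (s' j) (hm j) k
  refine ⟨z, k, fun t ht => ?_⟩
  have hd : dist (fun j => ((t j : ℤ) : ℚ_[p])) s' < δ := by
    rw [dist_pi_lt_iff hδ]
    intro j
    rw [dist_eq_norm]
    have e : ((t j : ℤ) : ℚ_[p]) - s' j = (((t j - z j : ℤ)) : ℚ_[p]) + ((z j : ℚ_[p]) - s' j) := by
      push_cast
      ring
    rw [e]
    refine lt_of_le_of_lt (Padic.nonarchimedean _ _) (lt_of_le_of_lt (max_le ?_ (hz j)) hk')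
    exact (Padic.norm_int_le_pow_iff_dvd _ _).2 (by exact_mod_cast ht j)
  have hb := hball hd
  refine ⟨fun i b h0 => ?_, fun i => ?_⟩
  · apply (hb i b).1
    rw [aeval_cast, h0, Int.cast_zero]
  · obtain ⟨u, hu0, hu⟩ := (hb i false).2
    obtain ⟨v, hv0, hv⟩ := (hb i true).2
    rw [aeval_cast] at hu hv
    rw [hu, hv, ← neg_mul, ← neg_mul]
    have := (iso_sq (a : ℚ_[p]) (-MvPolynomial.aeval s' (F i false))
      (-MvPolynomial.aeval s' (F i true)) 1 u v one_ne_zero hu0 hv0).2 (hiso i)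
    rwa [one_pow, mul_one] at this

end TwHP
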