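import Pool.Agent.Lib.MP_e426f4_ag.TW.Defs
import Pool.Agent.Lib.MP_67663b_nt.OddB.Mert

/-!
# AnBig: most integers `a ≤ H` have a prime factor `≥ H^δ`

If all prime factors of `a > √H` are `< H^δ`: `(1/2) log H ≤ log a = ∑_{p^j ∣ a} log p`.  Sum over `a ≤ H`:
`∑_{a≤H} ∑_{p^j ∣ a, p < H^δ} log p ≤ H ∑_{p < H^δ} log p/(p-1) ≤ 2 H (δ log H + log 4)`
(Mertens: `∑_{p ≤ n} log p/p ≤ log n + log 4`, `Pool.MP_67663b_nt.Mert.log_sum_le` in
`Lib/MP_67663b_nt/OddB/Mert.lean`, and `1/(p-1) ≤ 2/p`).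
So the number is `≤ √H + 4 (δ + log 4/log H) H ≤ 8 δ H`.
-/

set_option autoImplicit false

namespace TwHP

open Finset

theorem AnBig_fac (H p : ℕ) (hp : p.Prime) :
    ∑ a ∈ Icc 1 H, ((a.factorization p : ℕ) : ℝ) * Real.log p ≤ H * (2 * (Real.log p / p)) := by
  have h1 : ∑ a ∈ Icc 1 H, a.factorization p = (Nat.factorial H).factorization p := by
    have h0 : Icc 1 H = Ico 1 (H + 1) := by ext; simp
    rw [h0, ← Finset.prod_Ico_id_eq_factorial, Nat.factorization_prod_apply]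
    intro a ha
    rw [mem_Ico] at ha
    omega
  have : Fact p.Prime := ⟨hp⟩
  have h2 : (p - 1) * (Nat.factorial H).factorization p ≤ H := by
    rw [Nat.factorization_def _ hp, sub_one_mul_padicValNat_factorial]
    exact Nat.sub_le _ _
  have hp2 : (2 : ℝ) ≤ p := by exact_mod_cast hp.two_le
  have h3 : ((p : ℝ) - 1) * ((Nat.factorial H).factorization p : ℝ) ≤ H := by
    have h4 : (((p - 1) * (Nat.factorial H).factorization p : ℕ) : ℝ) ≤ (H : ℝ) := by
      exact_mod_cast h2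
    rw [Nat.cast_mul, Nat.cast_sub hp.one_le] at h4
    simpa using h4
  rw [← Finset.sum_mul, ← Nat.cast_sum, h1]
  have hl := Real.log_natCast_nonneg p
  have h5 : ((Nat.factorial H).factorization p : ℝ) ≤ H * (2 / p) := by
    rw [mul_div_assoc', le_div_iff₀ (by linarith)]
    have h6 : (0 : ℝ) ≤ ((Nat.factorial H).factorization p : ℝ) := Nat.cast_nonneg _
    nlinarith
  calc _ ≤ (H * (2 / (p : ℝ))) * Real.log p := by gcongr
    _ = _ := by ring

theorem AnBig_log (a n : ℕ) (ha : 1 ≤ a) (h : ∀ p : ℕ, p.Prime → p ∣ a → p ≤ n) :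
    Real.log a ≤ ∑ p ∈ Nat.primesLE n, ((a.factorization p : ℕ) : ℝ) * Real.log p := by
  have h0 : a ≠ 0 := by omega
  have h1 : (a : ℝ) = ∏ p ∈ Nat.primesLE n, (p : ℝ) ^ a.factorization p := by
    have h2 := Nat.prod_factorization_pow_eq_self h0
    have hsupp : a.factorization.support ⊆ Nat.primesLE n := by
      intro p hp
      rw [Nat.support_factorization, Nat.mem_primeFactors] at hp
      rw [Nat.mem_primesLE]
      exact ⟨h p hp.1 hp.2.1, hp.1⟩
    rw [Finsupp.prod_of_support_subset _ hsupp _ (fun _ _ => pow_zero _)] at h2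
    exact_mod_cast h2.symm
  conv_lhs => rw [h1]
  rw [Real.log_prod]
  · refine Finset.sum_le_sum fun p _ => ?_
    rw [Real.log_pow]
  · intro p hp
    rw [Nat.mem_primesLE] at hp
    have : (p : ℝ) ≠ 0 := by exact_mod_cast hp.2.ne_zero
    positivity

open Classical in
theorem an_big (δ : ℝ) (hδ : 0 < δ) (hδ1 : δ ≤ 1) : ∃ H0 : ℕ, ∀ H : ℕ, H0 ≤ H →
    (((Icc 1 H).filter fun a : ℕ => ∀ p : ℕ, p.Prime → p ∣ a → (p : ℝ) < (H : ℝ) ^ δ).card : ℝ) ≤
      8 * δ * H := by
  refine ⟨⌈Real.exp (2 / δ)⌉₊, fun H hH => ?_⟩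
  have hH1 : Real.exp (2 / δ) ≤ (H : ℝ) := (Nat.le_ceil _).trans (by exact_mod_cast hH)
  have hHpos : (0 : ℝ) < H := (Real.exp_pos _).trans_le hH1
  have hL : 2 / δ ≤ Real.log H := by
    rw [← Real.log_exp (2 / δ)]
    exact Real.log_le_log (Real.exp_pos _) hH1
  have hL2 : 2 ≤ Real.log H := by
    refine le_trans ?_ hL
    rw [le_div_iff₀ hδ]
    linarith
  have hH1' : (1 : ℝ) ≤ H := (Real.one_le_exp (by positivity)).trans hH1
  have hy1 : (1 : ℝ) ≤ (H : ℝ) ^ δ := Real.one_le_rpow hH1' hδ.le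
  set n := ⌊(H : ℝ) ^ δ⌋₊ with hn
  have hn1 : 1 ≤ n := by
    rw [hn, Nat.one_le_floor_iff]
    exact hy1
  have hnlog : Real.log n ≤ δ * Real.log H := by
    rw [← Real.log_rpow hHpos]
    exact Real.log_le_log (by exact_mod_cast hn1) (Nat.floor_le (by linarith))
  set B := (Icc 1 H).filter fun a : ℕ => ∀ p : ℕ, p.Prime → p ∣ a → (p : ℝ) < (H : ℝ) ^ δ with hB
  set B2 := B.filter fun a : ℕ => ¬ (a ≤ Nat.sqrt H) with hB2
  have hcard : B.card ≤ Nat.sqrt H + B2.card := by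
    rw [← Finset.card_filter_add_card_filter_not (s := B) (fun a : ℕ => a ≤ Nat.sqrt H)]
    refine Nat.add_le_add_right ?_ _
    have h1 : (B.filter fun a : ℕ => a ≤ Nat.sqrt H) ⊆ Icc 1 (Nat.sqrt H) := by
      intro a ha
      rw [mem_filter, hB, mem_filter, mem_Icc] at ha
      rw [mem_Icc]
      exact ⟨ha.1.1.1, ha.2⟩
    simpa using Finset.card_le_card h1
  have hsq : ((Nat.sqrt H : ℕ) : ℝ) ≤ δ * H := by
    have h1 : ((Nat.sqrt H : ℕ) : ℝ) * ((Nat.sqrt H : ℕ) : ℝ) ≤ H := by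
      exact_mod_cast Nat.sqrt_le H
    have h2 : (1 / δ) ^ 2 ≤ (H : ℝ) := by
      refine le_trans ?_ hH1
      have h3 : 1 / δ ≤ Real.exp (1 / δ) := by
        have := Real.add_one_le_exp (1 / δ)
        linarith
      calc (1 / δ) ^ 2 ≤ Real.exp (1 / δ) ^ 2 := by gcongr
        _ = Real.exp (2 / δ) := by rw [← Real.exp_nat_mul]; congr 1; push_cast; ring
    have h4 : (H : ℝ) ≤ (δ * H) ^ 2 := by
      have h5 : 1 ≤ δ ^ 2 * H := by
        calc (1 : ℝ) = δ ^ 2 * (1 / δ) ^ 2 := by field_simp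
          _ ≤ δ ^ 2 * H := by gcongr
      nlinarith
    have h6 : ((Nat.sqrt H : ℕ) : ℝ) ^ 2 ≤ (δ * H) ^ 2 := by nlinarith
    exact le_of_sq_le_sq h6 (by positivity)
  have hhalf : ∀ a ∈ B2, Real.log H / 2 ≤ Real.log a := by
    intro a ha
    rw [hB2, mem_filter, not_le] at ha
    have h1 : H < a * a := by
      have := ha.2
      rw [Nat.sqrt_lt] at this
      exact this
    have ha0 : (0 : ℝ) < a := by
      have : 0 < a := by
        rcases Nat.eq_zero_or_pos a with h | h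
        · rw [h] at h1; omega
        · exact h
      exact_mod_cast this
    have h2 : Real.log H ≤ Real.log ((a : ℝ) * a) := by
      refine Real.log_le_log hHpos ?_
      exact_mod_cast h1.le
    rw [Real.log_mul ha0.ne' ha0.ne'] at h2
    linarith
  have hsub : B2 ⊆ Icc 1 H := (Finset.filter_subset _ _).trans (Finset.filter_subset _ _)
  have h1 : (B2.card : ℝ) * (Real.log H / 2) ≤
      ∑ a ∈ Icc 1 H, ∑ p ∈ Nat.primesLE n, ((a.factorization p : ℕ) : ℝ) * Real.log p := by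
    refine le_trans ?_ (Finset.sum_le_sum_of_subset_of_nonneg hsub ?_)
    · rw [← nsmul_eq_mul]
      refine Finset.card_nsmul_le_sum _ _ _ fun a ha => ?_
      refine (hhalf a ha).trans ?_
      have ha' := ha
      rw [hB2, mem_filter, hB, mem_filter, mem_Icc] at ha'
      refine AnBig_log a n ha'.1.1.1 fun p hp hd => ?_
      rw [hn]
      exact Nat.le_floor (ha'.1.2 p hp hd).le
    · intro a _ _
      refine Finset.sum_nonneg fun p _ => ?_
      have := Real.log_natCast_nonneg p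
      positivity
  have h2 : ∑ a ∈ Icc 1 H, ∑ p ∈ Nat.primesLE n, ((a.factorization p : ℕ) : ℝ) * Real.log p ≤
      H * (2 * (δ * Real.log H + Real.log 4)) := by
    rw [Finset.sum_comm]
    have h3 : ∀ p ∈ Nat.primesLE n,
        ∑ a ∈ Icc 1 H, ((a.factorization p : ℕ) : ℝ) * Real.log p ≤
          H * (2 * (Real.log p / p)) := by
      intro p hp
      rw [Nat.mem_primesLE] at hp
      exact AnBig_fac H p hp.2
    refine (Finset.sum_le_sum h3).trans ?_
    rw [← Finset.mul_sum, ← Finset.mul_sum]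
    have h4 := Pool.MP_67663b_nt.Mert.log_sum_le n hn1
    gcongr
    linarith
  have h4 : Real.log 4 ≤ 3 / 2 := by
    have : Real.log 4 = 2 * Real.log 2 := by
      rw [show (4 : ℝ) = 2 ^ 2 by norm_num, Real.log_pow]; norm_num
    have h2 := Real.log_two_lt_d9
    linarith
  have h5 : (B2.card : ℝ) * (Real.log H / 2) ≤ (7 * δ * H) * (Real.log H / 2) := by
    refine (h1.trans h2).trans ?_
    have h6 : 2 ≤ δ * Real.log H := by
      rw [div_le_iff₀ hδ] at hL
      linarith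
    have h7 : 2 * (δ * Real.log H + Real.log 4) ≤ 7 * δ * (Real.log H / 2) := by
      nlinarith
    calc (H : ℝ) * (2 * (δ * Real.log H + Real.log 4)) ≤ H * (7 * δ * (Real.log H / 2)) := by gcongr
      _ = _ := by ring
  have h6 : (B2.card : ℝ) ≤ 7 * δ * H := le_of_mul_le_mul_right h5 (by linarith)
  have h7 : (B.card : ℝ) ≤ (Nat.sqrt H : ℕ) + B2.card := by exact_mod_cast hcard
  linarith

end TwHP
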