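import Pool.Agent.Lib.MP_e426f4_ag.TW.Defs

/-!
# AnDefs: anatomy without the condition at the bad primes
-/

set_option autoImplicit false

namespace TwHP

/-- good anatomy of `a` (without coprimality to `Q0`) -/
structure AnW (D r cb : ℕ) (δ : ℝ) (H a : ℕ) : Prop where
  bb_le : (bb (zH D r H) a : ℝ) ≤ Real.log H ^ cb
  sqf : ∀ q : ℕ, q.Prime → zH D r H < q → ¬ q ^ 2 ∣ a
  om : (2 : ℝ) ^ a.primeFactors.card ≤ Real.log H ^ 2
  big : ∃ p : ℕ, p.Prime ∧ p ∣ a ∧ (H : ℝ) ^ δ ≤ p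

end TwHP
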