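import Pool.Agent.Lib.MP_e426f4_ag.TW.Defs

/-!
# AnOm: `2^ω(a) ≤ (log H)^2` for most `a ≤ H`

`2^ω(a) ≤ τ(a)`, `∑_{a ≤ H} τ(a) ≤ H (1 + log H)`, Markov.
-/

set_option autoImplicit false

namespace TwHP

open Finset

theorem AnOm_tau (a : ℕ) (ha : a ≠ 0) : 2 ^ a.primeFactors.card ≤ a.divisors.card := by
  rw [Nat.card_divisors ha, ← Finset.prod_const]
  refine Finset.prod_le_prod' fun p hp => ?_
  have h1 : a.factorization p ≠ 0 := by
    rw [← Finsupp.mem_support_iff, Nat.support_factorization]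
    exact hp
  omega

theorem AnOm_sum (H : ℕ) :
    ∑ a ∈ Icc 1 H, (a.divisors.card : ℝ) ≤ H * (1 + Real.log H) := by
  have h1 : ∀ a ∈ Icc 1 H, (a.divisors.card : ℝ) = ∑ d ∈ Icc 1 H, if d ∣ a then (1 : ℝ) else 0 := by
    intro a ha
    rw [mem_Icc] at ha
    rw [Finset.sum_boole]
    congr 2
    ext d
    simp only [Nat.mem_divisors, mem_filter, mem_Icc]
    constructor
    · rintro ⟨h, _⟩
      exact ⟨⟨Nat.pos_of_dvd_of_pos h (by omega), (Nat.le_of_dvd (by omega) h).trans ha.2⟩, h⟩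
    · rintro ⟨_, h⟩
      exact ⟨h, by omega⟩
  rw [Finset.sum_congr rfl h1, Finset.sum_comm]
  have h2 : ∀ d ∈ Icc 1 H, (∑ a ∈ Icc 1 H, if d ∣ a then (1 : ℝ) else 0) ≤ H * (d : ℝ)⁻¹ := by
    intro d _
    rw [Finset.sum_boole]
    have h0 : Icc 1 H = Ioc 0 H := by ext; simp [Nat.succ_le_iff]
    rw [h0, Nat.Ioc_filter_dvd_card_eq_div H d]
    have h3 : ((H / d : ℕ) : ℝ) ≤ (H : ℝ) / d := Nat.cast_div_le
    simpa [div_eq_mul_inv] using h3
  refine (Finset.sum_le_sum h2).trans ?_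
  rw [← Finset.mul_sum]
  have h4 := harmonic_le_one_add_log H
  rw [harmonic_eq_sum_Icc] at h4
  push_cast at h4
  gcongr

open Classical in
theorem an_om (ε : ℝ) (hε : 0 < ε) : ∃ H0 : ℕ, ∀ H : ℕ, H0 ≤ H →
    (((Icc 1 H).filter fun a : ℕ => ¬ ((2 : ℝ) ^ a.primeFactors.card ≤ Real.log H ^ 2)).card : ℝ) ≤
      ε * H := by
  refine ⟨⌈Real.exp (1 + 2 / ε)⌉₊, fun H hH => ?_⟩
  have hH1 : Real.exp (1 + 2 / ε) ≤ (H : ℝ) := (Nat.le_ceil _).trans (by exact_mod_cast hH)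
  have hHpos : (0 : ℝ) < H := (Real.exp_pos _).trans_le hH1
  have hL : 1 + 2 / ε ≤ Real.log H := by
    rw [← Real.log_exp (1 + 2 / ε)]
    exact Real.log_le_log (Real.exp_pos _) hH1
  have he : 0 < 2 / ε := by positivity
  set L := Real.log H with hLdef
  set B := (Icc 1 H).filter fun a : ℕ => ¬ ((2 : ℝ) ^ a.primeFactors.card ≤ L ^ 2) with hB
  have h1 : (B.card : ℝ) * L ^ 2 ≤ ∑ a ∈ Icc 1 H, (a.divisors.card : ℝ) := by
    refine le_trans ?_ (Finset.sum_le_sum_of_subset_of_nonneg (s := B) (Finset.filter_subset _ _) ?_)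
    · rw [← nsmul_eq_mul]
      refine Finset.card_nsmul_le_sum _ _ _ fun a ha => ?_
      rw [hB, mem_filter, not_le, mem_Icc] at ha
      refine ha.2.le.trans ?_
      exact_mod_cast AnOm_tau a (by omega)
    · intro a _ _
      positivity
  have h2 : (B.card : ℝ) * L ^ 2 ≤ (ε * H) * L ^ 2 := by
    refine (h1.trans (AnOm_sum H)).trans ?_
    have h3 : 2 ≤ ε * L := by
      have : 2 / ε ≤ L := by linarith
      rw [div_le_iff₀ hε] at this
      linarith
    have h4 : 1 + L ≤ ε * L ^ 2 := by nlinarith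
    calc (H : ℝ) * (1 + L) ≤ H * (ε * L ^ 2) := by gcongr
      _ = _ := by ring
  have hLpos : 0 < L := by linarith
  exact le_of_mul_le_mul_right h2 (by positivity)

end TwHP
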