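import Pool.Agent.Lib.MP_e426f4_ag.TW.Defs
import Pool.Agent.Lib.MP_67663b_nt.OddB.Mert

/-!
# AnRad: the product of the prime factors `≤ z` is at most `(log H)^cb` for most `a`

`∑_{a ≤ H} log (bb z a) = ∑_{q ≤ z} ⌊H/q⌋ log q ≤ H (log z + log 4)` (`Pool.MP_67663b_nt.Mert.log_sum_le` in
`Lib/MP_67663b_nt/OddB/Mert.lean`), `log z ≤ cz log log H`; Markov with `cb ≥ 2 cz/ε + 1`.
-/

set_option autoImplicit false

namespace TwHP

open Finset

theorem AnRad_card (H q : ℕ) : ((Icc 1 H).filter fun a => q ∣ a).card = H / q := by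
  have h : Icc 1 H = Ioc 0 H := by ext; simp [Nat.succ_le_iff]
  rw [h]
  exact Nat.Ioc_filter_dvd_card_eq_div H q

theorem AnRad_sum (z H : ℕ) (hz : 1 ≤ z) :
    ∑ a ∈ Icc 1 H, Real.log (bb z a : ℝ) ≤ H * (Real.log z + Real.log 4) := by
  have h1 : ∀ a ∈ Icc 1 H, Real.log (bb z a : ℝ) =
      ∑ q ∈ Nat.primesLE z, if q ∣ a then Real.log (q : ℝ) else 0 := by
    intro a ha
    rw [mem_Icc] at ha
    unfold bb
    push_cast
    rw [Real.log_prod]
    · rw [← Finset.sum_filter]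
      refine Finset.sum_congr ?_ fun _ _ => rfl
      ext q
      simp only [mem_filter, Nat.mem_primeFactors, Nat.mem_primesLE]
      constructor
      · rintro ⟨⟨hp, hd, _⟩, hq⟩
        exact ⟨⟨hq, hp⟩, hd⟩
      · rintro ⟨⟨hq, hp⟩, hd⟩
        exact ⟨⟨hp, hd, by omega⟩, hq⟩
    · intro q hq
      rw [mem_filter, Nat.mem_primeFactors] at hq
      exact_mod_cast hq.1.1.ne_zero
  rw [Finset.sum_congr rfl h1, Finset.sum_comm]
  have h2 : ∀ q ∈ Nat.primesLE z, (∑ a ∈ Icc 1 H, if q ∣ a then Real.log (q : ℝ) else 0) ≤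
      H * (Real.log q / q) := by
    intro q hq
    rw [← Finset.sum_filter, Finset.sum_const, nsmul_eq_mul, AnRad_card]
    have h3 : ((H / q : ℕ) : ℝ) ≤ (H : ℝ) / q := Nat.cast_div_le
    have h4 := Real.log_natCast_nonneg q
    calc ((H / q : ℕ) : ℝ) * Real.log q ≤ (H : ℝ) / q * Real.log q := by gcongr
      _ = _ := by ring
  refine (Finset.sum_le_sum h2).trans ?_
  rw [← Finset.mul_sum]
  have h5 := Pool.MP_67663b_nt.Mert.log_sum_le z hz
  gcongr

theorem an_rad (D r : ℕ) (ε : ℝ) (hε : 0 < ε) : ∃ cb H0 : ℕ, ∀ H : ℕ, H0 ≤ H →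
    (((Icc 1 H).filter fun a : ℕ => ¬ ((bb (zH D r H) a : ℝ) ≤ Real.log H ^ cb)).card : ℝ) ≤
      ε * H := by
  classical
  obtain ⟨cb, hcb⟩ := exists_nat_ge (((cz D r : ℕ) + 2 : ℝ) / ε)
  refine ⟨cb, ⌈Real.exp (Real.exp 1)⌉₊, fun H hH => ?_⟩
  have hH1 : Real.exp (Real.exp 1) ≤ (H : ℝ) := (Nat.le_ceil _).trans (by exact_mod_cast hH)
  have hHpos : (0 : ℝ) < H := (Real.exp_pos _).trans_le hH1
  have hL : Real.exp 1 ≤ Real.log H := by
    rw [← Real.log_exp (Real.exp 1)]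
    exact Real.log_le_log (Real.exp_pos _) hH1
  have hLpos : 0 < Real.log H := (Real.exp_pos _).trans_le hL
  have hLL : 1 ≤ Real.log (Real.log H) := by
    rw [← Real.log_exp 1]
    exact Real.log_le_log (Real.exp_pos _) hL
  have hL1 : 1 ≤ Real.log H := (Real.one_le_exp zero_le_one).trans hL
  have hz1 : 1 ≤ zH D r H := by
    unfold zH
    rw [Nat.one_le_floor_iff]
    exact one_le_pow₀ hL1
  have hzlog : Real.log (zH D r H : ℝ) ≤ (cz D r : ℕ) * Real.log (Real.log H) := by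
    rw [← Real.log_pow]
    refine Real.log_le_log (by exact_mod_cast hz1) ?_
    unfold zH
    exact Nat.floor_le (by positivity)
  have hsum := AnRad_sum (zH D r H) H hz1
  set B := (Icc 1 H).filter fun a : ℕ => ¬ ((bb (zH D r H) a : ℝ) ≤ Real.log H ^ cb) with hB
  have hbpos : ∀ a, 1 ≤ bb (zH D r H) a := by
    intro a
    unfold bb
    refine Nat.one_le_iff_ne_zero.2 (Finset.prod_ne_zero_iff.2 fun q hq => ?_)
    rw [mem_filter, Nat.mem_primeFactors] at hq
    exact hq.1.1.ne_zero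
  have h1 : (B.card : ℝ) * (cb * Real.log (Real.log H)) ≤
      ∑ a ∈ Icc 1 H, Real.log (bb (zH D r H) a : ℝ) := by
    refine le_trans ?_ (Finset.sum_le_sum_of_subset_of_nonneg (Finset.filter_subset
      (fun a : ℕ => ¬ ((bb (zH D r H) a : ℝ) ≤ Real.log H ^ cb)) (Icc 1 H)) ?_)
    · rw [← hB, ← nsmul_eq_mul]
      refine Finset.card_nsmul_le_sum _ _ _ fun a ha => ?_
      rw [hB, mem_filter, not_le] at ha
      rw [← Real.log_pow]
      exact Real.log_le_log (by positivity) ha.2.le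
    · intro a _ _
      exact Real.log_natCast_nonneg _
  have h4 : Real.log 4 ≤ 2 := by
    have : Real.log 4 = 2 * Real.log 2 := by
      rw [show (4 : ℝ) = 2 ^ 2 by norm_num, Real.log_pow]; norm_num
    have h2 := Real.log_two_lt_d9
    linarith
  have h5 : (B.card : ℝ) * (cb * Real.log (Real.log H)) ≤
      H * (((cz D r : ℕ) + 2) * Real.log (Real.log H)) := by
    refine h1.trans (hsum.trans ?_)
    gcongr
    nlinarith
  have h6 : (B.card : ℝ) * cb ≤ H * ((cz D r : ℕ) + 2) := by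
    have h7 : ((B.card : ℝ) * cb) * Real.log (Real.log H) ≤
        (H * ((cz D r : ℕ) + 2)) * Real.log (Real.log H) := by
      calc _ = (B.card : ℝ) * (cb * Real.log (Real.log H)) := by ring
        _ ≤ _ := h5
        _ = _ := by ring
    exact le_of_mul_le_mul_right h7 (by linarith)
  have h8 : ((cz D r : ℕ) + 2 : ℝ) ≤ cb * ε := by
    rwa [div_le_iff₀ hε] at hcb
  have hcbpos : (0 : ℝ) < cb := by
    have : (0 : ℝ) < ((cz D r : ℕ) + 2 : ℝ) / ε := by positivity
    linarith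
  have h9 : (B.card : ℝ) * cb ≤ (ε * H) * cb := by
    calc _ ≤ (H : ℝ) * ((cz D r : ℕ) + 2) := h6
      _ ≤ H * (cb * ε) := by gcongr
      _ = _ := by ring
  exact le_of_mul_le_mul_right h9 hcbpos

end TwHP
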