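import Pool.Agent.Lib.MP_e426f4_ag.TW.Defs
import Pool.Agent.Lib.MP_dd84fd_nt.E2.FBound

/-!
# SumSm: the sum of `1/m` over `w`-smooth `m` is `O(log w)`
-/

set_option autoImplicit false

namespace TwHP

open Finset

/-- The completely multiplicative function `n ↦ 1/n`. -/
noncomputable def SumSm_inv : ℕ →* ℝ where
  toFun n := (n : ℝ)⁻¹
  map_one' := by simp
  map_mul' a b := by push_cast; rw [mul_inv]

theorem SumSm_euler (w : ℕ) :
    Summable (fun m : (w + 1).smoothNumbers ↦ ‖SumSm_inv m‖) ∧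
      HasSum (fun m : (w + 1).smoothNumbers ↦ SumSm_inv m)
        (∏ p ∈ (w + 1).primesBelow, (1 - SumSm_inv p)⁻¹) :=
  EulerProduct.summable_and_hasSum_smoothNumbers_prod_primesBelow_geometric
    (f := SumSm_inv) (fun {p} hp => by
      have h1 : (2 : ℝ) ≤ p := by exact_mod_cast hp.two_le
      change ‖(p : ℝ)⁻¹‖ < 1
      rw [norm_inv, Real.norm_of_nonneg (by linarith)]
      exact inv_lt_one_of_one_lt₀ (by linarith)) (w + 1)

theorem SumSm_mem (w m : ℕ) (h0 : m ≠ 0) (h : ∀ p : ℕ, p.Prime → p ∣ m → p ≤ w) :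
    m ∈ (w + 1).smoothNumbers := by
  rw [Nat.mem_smoothNumbers]
  refine ⟨h0, fun p hp => ?_⟩
  have := h p (Nat.prime_of_mem_primeFactorsList hp) (Nat.dvd_of_mem_primeFactorsList hp)
  omega

theorem sum_sm : ∃ C : ℝ, 0 < C ∧ ∀ w : ℕ, 2 ≤ w → ∀ S : Finset ℕ,
    (∀ m ∈ S, m ≠ 0 ∧ ∀ p : ℕ, p.Prime → p ∣ m → p ≤ w) →
    ∑ m ∈ S, (1 : ℝ) / m ≤ C * Real.log w := by
  classical
  obtain ⟨C, hC, hV⟩ := Pool.MP_dd84fd_nt.En.V_inv_le
  refine ⟨2 * C, by positivity, fun w hw S hS => ?_⟩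
  have hw2 : (2 : ℝ) ≤ w := by exact_mod_cast hw
  have hV1 := hV ((w : ℝ) + 1) (by linarith)
  have hprod : ∏ p ∈ (w + 1).primesBelow, (1 - SumSm_inv p)⁻¹ =
      1 / Pool.MP_dd84fd_nt.En.V ((w : ℝ) + 1) := by
    unfold Pool.MP_dd84fd_nt.En.V
    rw [one_div, ← Finset.prod_inv_distrib]
    have hset : Pool.MP_67663b_nt.Odd.pr 0 ((w : ℝ) + 1) = (w + 1).primesBelow := by
      ext p
      rw [Nat.mem_primesBelow, Pool.MP_67663b_nt.Odd.mem_pr]
      constructor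
      · rintro ⟨h1, _, h3⟩
        exact ⟨by exact_mod_cast h3, h1⟩
      · rintro ⟨h1, h2⟩
        exact ⟨h2, Nat.cast_nonneg p, by exact_mod_cast h1⟩
    rw [hset]
    refine Finset.prod_congr rfl fun p _ => ?_
    change (1 - (p : ℝ)⁻¹)⁻¹ = _
    rw [one_div]
  obtain ⟨hsum, hhas⟩ := SumSm_euler w
  rw [hprod] at hhas
  have hnn : ∀ m : (w + 1).smoothNumbers, 0 ≤ SumSm_inv m := fun m => by
    change 0 ≤ ((m : ℕ) : ℝ)⁻¹
    positivity
  have hle : ∑ m ∈ S, (1 : ℝ) / m ≤ 1 / Pool.MP_dd84fd_nt.En.V ((w : ℝ) + 1) := by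
    have e : ∑ m ∈ S, (1 : ℝ) / m = ∑ m ∈ S.attach.map
        ⟨fun m => (⟨m.1, SumSm_mem w m.1 (hS m.1 m.2).1 (hS m.1 m.2).2⟩ : (w + 1).smoothNumbers),
        fun a b hab => Subtype.ext (congrArg (fun x => x.1) hab)⟩, SumSm_inv m := by
      rw [sum_map, ← sum_attach]
      refine Finset.sum_congr rfl fun m _ => ?_
      change (1 : ℝ) / (m : ℕ) = ((m : ℕ) : ℝ)⁻¹
      rw [one_div]
    rw [e]
    exact sum_le_hasSum _ (fun m _ => hnn m) hhas
  have hlog : Real.log ((w : ℝ) + 1) ≤ 2 * Real.log w := by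
    have h1 : Real.log ((w : ℝ) ^ 2) = 2 * Real.log w := by
      rw [Real.log_pow]; norm_num
    rw [← h1]
    exact Real.log_le_log (by linarith) (by nlinarith)
  calc ∑ m ∈ S, (1 : ℝ) / m ≤ 1 / Pool.MP_dd84fd_nt.En.V ((w : ℝ) + 1) := hle
    _ ≤ C * Real.log ((w : ℝ) + 1) := hV1
    _ ≤ C * (2 * Real.log w) := mul_le_mul_of_nonneg_left hlog hC.le
    _ = 2 * C * Real.log w := by ring

end TwHP
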