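import Pool.Agent.Lib.MP_e426f4_ag.TW.Split
import Pool.Agent.Lib.MP_e426f4_ag.TW.SumSm

/-!
# AnSmooth: few integers have a large `w`-smooth part
-/

set_option autoImplicit false

namespace TwHP

open Finset

theorem an_smooth (w : ℕ) (ε : ℝ) (hε : 0 < ε) : ∃ A0 : ℕ, ∀ H : ℕ,
    (((Icc 1 H).filter fun a : ℕ => A0 < smp w a).card : ℝ) ≤ ε * H := by
  classical
  obtain ⟨hsum, -⟩ := SumSm_euler w
  have hsum' : Summable (fun m : (w + 1).smoothNumbers ↦ SumSm_inv m) := hsum.of_norm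
  obtain ⟨s, hs⟩ := summable_iff_vanishing_norm.1 hsum' ε hε
  refine ⟨s.sup (fun m => (m : ℕ)), fun H => ?_⟩
  set A0 := s.sup (fun m => (m : ℕ)) with hA0
  set A := (Icc 1 H).filter fun a : ℕ => A0 < smp w a with hA
  set T := A.image (fun a : ℕ => smp w a) with hT
  have hsm : ∀ a ∈ A, smp w a ∈ (w + 1).smoothNumbers := fun a _ =>
    SumSm_mem w _ (smp_pos w a).ne' (fun p hp h => smp_primes w a p hp h)
  have hTm : ∀ m ∈ T, m ∈ (w + 1).smoothNumbers := by
    intro m hm
    obtain ⟨a, ha, rfl⟩ := mem_image.1 hm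
    exact hsm a ha
  have h1 : (A.card : ℝ) ≤ ∑ m ∈ T, (H : ℝ) * (m : ℝ)⁻¹ := by
    rw [card_eq_sum_card_image (fun a : ℕ => smp w a) A]
    push_cast
    refine sum_le_sum fun m hm => ?_
    have hm0 : 0 < m := by
      obtain ⟨a, ha, rfl⟩ := mem_image.1 hm
      exact smp_pos w a
    have h2 : (A.filter fun a : ℕ => smp w a = m).card ≤ H / m := by
      have h3 : (A.filter fun a : ℕ => smp w a = m) ⊆ (Ioc 0 H).filter (fun a => m ∣ a) := by
        intro a ha
        rw [mem_filter] at ha ⊢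
        rw [hA, mem_filter, mem_Icc] at ha
        obtain ⟨⟨⟨h4, h5⟩, -⟩, h6⟩ := ha
        refine ⟨by rw [mem_Ioc]; omega, ?_⟩
        have h7 := smp_mul_rough w (a : ℤ) (by omega)
        rw [Int.natAbs_natCast] at h7
        rw [← h7, ← h6]
        exact Dvd.intro _ rfl
      exact (card_le_card h3).trans (Nat.Ioc_filter_dvd_card_eq_div H m).le
    calc ((A.filter fun a : ℕ => smp w a = m).card : ℝ) ≤ ((H / m : ℕ) : ℝ) := by exact_mod_cast h2
      _ ≤ (H : ℝ) / m := Nat.cast_div_le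
      _ = _ := by rw [div_eq_mul_inv]
  refine h1.trans ?_
  rw [← mul_sum, mul_comm]
  refine mul_le_mul_of_nonneg_right ?_ (Nat.cast_nonneg H)
  set T' : Finset (w + 1).smoothNumbers := T.attach.map
    ⟨fun m => (⟨m.1, hTm m.1 m.2⟩ : (w + 1).smoothNumbers),
      fun a b hab => Subtype.ext (congrArg (fun x => x.1) hab)⟩ with hT'
  have e : ∑ m ∈ T, (m : ℝ)⁻¹ = ∑ m ∈ T', SumSm_inv m := by
    rw [hT', sum_map, ← sum_attach]
    rfl
  have hdis : Disjoint T' s := by
    rw [Finset.disjoint_left]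
    intro m hm hms
    rw [hT', mem_map] at hm
    obtain ⟨m', -, h2⟩ := hm
    have h3 : (m : ℕ) ≤ A0 := by
      rw [hA0]
      exact Finset.le_sup (f := fun m : (w + 1).smoothNumbers => (m : ℕ)) hms
    have h4 : A0 < (m : ℕ) := by
      rw [← h2]
      obtain ⟨a, ha, h5⟩ := mem_image.1 m'.2
      change A0 < m'.1
      rw [← h5]
      rw [hA, mem_filter] at ha
      exact ha.2
    omega
  rw [e]
  exact (le_abs_self _).trans (hs T' hdis).le

end TwHP
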