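import Pool.Agent.Lib.MP_e426f4_ag.TW.Defs

/-!
# AnSq: few `a ≤ H` are divisible by the square of a prime `q > z`; divisibility by a set of primes

`∑_{q > z} H/q² ≤ H/z` and `z = zH D r H → ∞`.
-/

set_option autoImplicit false

namespace TwHP

open Finset

open Classical in
theorem an_div (X : ℕ) (S : Finset ℕ) :
    (((Icc 1 X).filter fun a : ℕ => ∃ q ∈ S, q ∣ a).card : ℝ) ≤ X * ∑ q ∈ S, (1 : ℝ) / q := by
  have h1 : ((Icc 1 X).filter fun a : ℕ => ∃ q ∈ S, q ∣ a) ⊆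
      S.biUnion fun q => (Icc 1 X).filter fun a => q ∣ a := by
    intro a ha
    rw [mem_filter] at ha
    obtain ⟨h, q, hq, hd⟩ := ha
    rw [mem_biUnion]
    exact ⟨q, hq, mem_filter.2 ⟨h, hd⟩⟩
  have h2 : (((Icc 1 X).filter fun a : ℕ => ∃ q ∈ S, q ∣ a).card : ℝ) ≤
      ∑ q ∈ S, (((Icc 1 X).filter fun a => q ∣ a).card : ℝ) := by
    exact_mod_cast (Finset.card_le_card h1).trans Finset.card_biUnion_le
  refine h2.trans ?_
  rw [Finset.mul_sum]
  refine Finset.sum_le_sum fun q _ => ?_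
  have h0 : Icc 1 X = Ioc 0 X := by ext; simp [Nat.succ_le_iff]
  rw [h0, Nat.Ioc_filter_dvd_card_eq_div X q]
  have h3 : ((X / q : ℕ) : ℝ) ≤ (X : ℝ) / q := Nat.cast_div_le
  refine h3.trans (le_of_eq ?_)
  ring

open Classical in
theorem an_sq (D r : ℕ) (ε : ℝ) (hε : 0 < ε) : ∃ H0 : ℕ, ∀ H : ℕ, H0 ≤ H →
    (((Icc 1 H).filter fun a : ℕ => ∃ q : ℕ, q.Prime ∧ zH D r H < q ∧ q ^ 2 ∣ a).card : ℝ) ≤
      ε * H := by
  refine ⟨⌈Real.exp (2 + 1 / ε)⌉₊, fun H hH => ?_⟩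
  have hH1 : Real.exp (2 + 1 / ε) ≤ (H : ℝ) := (Nat.le_ceil _).trans (by exact_mod_cast hH)
  have hL : 2 + 1 / ε ≤ Real.log H := by
    rw [← Real.log_exp (2 + 1 / ε)]
    exact Real.log_le_log (Real.exp_pos _) hH1
  have he : 0 < 1 / ε := by positivity
  set z := zH D r H with hz
  have hz1 : 1 + 1 / ε ≤ (z : ℝ) := by
    have h1 : Real.log H ≤ Real.log H ^ cz D r := by
      refine le_self_pow₀ (by linarith) ?_
      unfold cz
      omega
    have h2 : Real.log H ^ cz D r < (z : ℝ) + 1 := by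
      rw [hz]
      exact Nat.lt_floor_add_one _
    linarith
  have hz0 : (0 : ℝ) < z := by linarith
  have hz0' : z ≠ 0 := by
    intro h
    rw [h] at hz0
    simp at hz0
  by_cases hzH : z ≤ H
  · have h2 : (((Icc 1 H).filter fun a : ℕ => ∃ q : ℕ, q.Prime ∧ z < q ∧ q ^ 2 ∣ a).card : ℝ) ≤
        H * ∑ m ∈ (Ioc z H).image (fun q : ℕ => q ^ 2), (1 : ℝ) / (m : ℝ) := by
      refine le_trans ?_ (an_div H ((Ioc z H).image (fun q : ℕ => q ^ 2)))
      rw [Nat.cast_le]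
      refine Finset.card_le_card ?_
      intro a ha
      rw [mem_filter] at ha
      obtain ⟨h, q, hq, hzq, hd⟩ := ha
      rw [mem_filter]
      rw [mem_Icc] at h
      refine ⟨mem_Icc.2 h, q ^ 2, mem_image.2 ⟨q, ?_, rfl⟩, hd⟩
      rw [mem_Ioc]
      refine ⟨hzq, ?_⟩
      have h2 := Nat.le_of_dvd (by omega) hd
      have h3 : q ≤ q ^ 2 := Nat.le_self_pow (by norm_num) q
      omega
    refine h2.trans ?_
    rw [Finset.sum_image (by
      intro x _ y _ hxy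
      exact Nat.pow_left_injective (n := 2) (by norm_num) hxy)]
    have h3 : ∑ q ∈ Ioc z H, (1 : ℝ) / ((q ^ 2 : ℕ) : ℝ) ≤ ε := by
      have h4 := sum_Ioc_inv_sq_le_sub (α := ℝ) hz0' hzH
      have h5 : ∑ q ∈ Ioc z H, (1 : ℝ) / ((q ^ 2 : ℕ) : ℝ) = ∑ i ∈ Ioc z H, ((i : ℝ) ^ 2)⁻¹ := by
        refine Finset.sum_congr rfl fun q _ => ?_
        push_cast
        rw [one_div]
      rw [h5]
      refine h4.trans ?_
      have h6 : (0 : ℝ) ≤ (H : ℝ)⁻¹ := by positivity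
      have h7 : (z : ℝ)⁻¹ ≤ ε := by
        rw [inv_le_comm₀ hz0 hε, ← one_div]
        linarith
      linarith
    calc (H : ℝ) * _ ≤ H * ε := by gcongr
      _ = ε * H := by ring
  · have h1 : ((Icc 1 H).filter fun a : ℕ => ∃ q : ℕ, q.Prime ∧ z < q ∧ q ^ 2 ∣ a) = ∅ := by
      rw [Finset.filter_eq_empty_iff]
      rintro a ha ⟨q, hq, hzq, hd⟩
      rw [mem_Icc] at ha
      have h2 := Nat.le_of_dvd (by omega) hd
      have h3 : q ≤ q ^ 2 := Nat.le_self_pow (by norm_num) q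
      omega
    rw [h1]
    simp
    positivity

end TwHP
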