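import Pool.Agent.Lib.MP_e426f4_ag.TW.Defs

/-!
# BSum: large prime factors of an integer are few
-/

set_option autoImplicit false

namespace TwHP

theorem bsum (R W1 : ℕ) (hR : 0 < R) (hW : 2 ≤ W1) (S : Finset ℕ)
    (hS : ∀ q ∈ S, q.Prime ∧ q ∣ R ∧ W1 < q) :
    ∑ q ∈ S, (1 : ℝ) / q ≤ Real.log R / (W1 * Real.log W1) := by
  have hW1 : (2 : ℝ) ≤ W1 := by exact_mod_cast hW
  have hlog : 0 < Real.log W1 := Real.log_pos (by linarith)
  have hdvd : ∏ q ∈ S, q ∣ R :=
    Finset.prod_primes_dvd R (fun q hq => (hS q hq).1.prime) (fun q hq => (hS q hq).2.1)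
  have h1 : W1 ^ S.card ≤ R := by
    calc W1 ^ S.card = ∏ _q ∈ S, W1 := by rw [Finset.prod_const]
      _ ≤ ∏ q ∈ S, q := Finset.prod_le_prod' fun q hq => (hS q hq).2.2.le
      _ ≤ R := Nat.le_of_dvd hR hdvd
  have h2 : (S.card : ℝ) * Real.log W1 ≤ Real.log R := by
    rw [← Real.log_pow]
    exact Real.log_le_log (by positivity) (by exact_mod_cast h1)
  have h3 : ∑ q ∈ S, (1 : ℝ) / q ≤ S.card * (1 / (W1 : ℝ)) := by
    calc ∑ q ∈ S, (1 : ℝ) / q ≤ ∑ _q ∈ S, 1 / (W1 : ℝ) := by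
          refine Finset.sum_le_sum fun q hq => ?_
          have : (W1 : ℝ) < q := by exact_mod_cast (hS q hq).2.2
          exact one_div_le_one_div_of_le (by linarith) this.le
      _ = _ := by rw [Finset.sum_const, nsmul_eq_mul]
  refine h3.trans ?_
  rw [mul_one_div, div_le_div_iff₀ (by linarith) (by positivity)]
  nlinarith

end TwHP
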