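import Pool.Agent.Lib.MP_e426f4_ag.TW.ClassBad
import Pool.Agent.Lib.MP_e426f4_ag.TW.Split
import Pool.Agent.Lib.MP_e426f4_ag.TW.AnSmooth
import Pool.Agent.Lib.MP_e426f4_ag.TW.SumSm
import Pool.Agent.Lib.MP_e426f4_ag.TW.AnBig
import Pool.Agent.Lib.MP_e426f4_ag.TW.AnRad
import Pool.Agent.Lib.MP_e426f4_ag.TW.AnOm

/-!
# BadSmall: the number of everywhere locally soluble twists without rational point is `o(H)`

Choices: `δ = ε/200` (`≤ 1`); `w ≥ w0` with `2 C5 C log w/(w δ) ≤ ε/20` (`C` from `sum_sm`); `A0` from `an_smooth w (ε/40)`; `cb` from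
`an_rad (ε/40)`; the finite set of classes `(al, u)`, `al ∈ [-A0, A0]` `w`-smooth nonzero, `u < W8 w` prime to `W8 w`;
`η = ε/(20 * number of classes)`.  Every bad `a` (`0 < |a| ≤ H`) has either `smp w |a| > A0`, or bad anatomy of `|a|` (four
exceptional sets, each counted twice for the sign), or `a = al * a'` with `a' = rough w a ≤ H/|al|`, `a' ≡ u`, `AnW` (`anW_rough`).
Sum of `class_bad` over the classes: `∑_u 1/φ(W8) = 1`, `∑_al 1/|al| ≤ 2 C log w`.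
-/

set_option autoImplicit false

namespace TwHP

open Finset

/-- a condition on `|a|` excludes at most twice as many integers -/
private lemma cover {H : ℕ} {P : ℕ → Prop} {inst : DecidablePred P} {c : ℝ}
    (h : (((Icc 1 H).filter P).card : ℝ) ≤ c) :
    ∃ S : Finset ℤ, (S.card : ℝ) ≤ 2 * c ∧
      ∀ a : ℤ, a ≠ 0 → |a| ≤ H → P a.natAbs → a ∈ S := by
  classical
  refine ⟨((Icc 1 H).filter P).image (fun m : ℕ => (m : ℤ)) ∪
    ((Icc 1 H).filter P).image (fun m : ℕ => -(m : ℤ)), ?_, ?_⟩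
  · have h1 : (((Icc 1 H).filter P).image (fun m : ℕ => (m : ℤ)) ∪
        ((Icc 1 H).filter P).image (fun m : ℕ => -(m : ℤ))).card ≤
        ((Icc 1 H).filter P).card + ((Icc 1 H).filter P).card :=
      (card_union_le _ _).trans (add_le_add card_image_le card_image_le)
    have h2 : ((((Icc 1 H).filter P).image (fun m : ℕ => (m : ℤ)) ∪
        ((Icc 1 H).filter P).image (fun m : ℕ => -(m : ℤ))).card : ℝ) ≤
        (((Icc 1 H).filter P).card : ℝ) + (((Icc 1 H).filter P).card : ℝ) := by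
      exact_mod_cast h1
    linarith
  · intro a ha haH hP
    have h1 : 1 ≤ a.natAbs := Nat.one_le_iff_ne_zero.2 (Int.natAbs_ne_zero.2 ha)
    have h2 : a.natAbs ≤ H := by
      have := haH
      rw [Int.abs_eq_natAbs] at this
      exact_mod_cast this
    have hm : a.natAbs ∈ (Icc 1 H).filter P := mem_filter.2 ⟨mem_Icc.2 ⟨h1, h2⟩, hP⟩
    rcases Int.natAbs_eq a with h | h
    · exact mem_union_left _ (mem_image.2 ⟨a.natAbs, hm, h.symm⟩)
    · exact mem_union_right _ (mem_image.2 ⟨a.natAbs, hm, h.symm⟩)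

/-- multiples -/
private lemma cover_cls {X : ℕ} {P : ℕ → Prop} {inst : DecidablePred P} {c : ℝ} (al : ℤ)
    (h : (((Icc 1 X).filter P).card : ℝ) ≤ c) :
    ∃ S : Finset ℤ, (S.card : ℝ) ≤ c ∧ ∀ a : ℕ, 1 ≤ a → a ≤ X → P a → al * (a : ℤ) ∈ S := by
  classical
  refine ⟨((Icc 1 X).filter P).image (fun m : ℕ => al * (m : ℤ)), ?_, ?_⟩
  · refine le_trans ?_ h
    exact_mod_cast card_image_le
  · intro a h1 h2 hP
    exact mem_image.2 ⟨a, mem_filter.2 ⟨mem_Icc.2 ⟨h1, h2⟩, hP⟩, rfl⟩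

private lemma sum_abs (L : ℝ) (w : ℕ) (hL : ∀ S : Finset ℕ,
    (∀ m ∈ S, m ≠ 0 ∧ ∀ p : ℕ, p.Prime → p ∣ m → p ≤ w) → ∑ m ∈ S, (1 : ℝ) / m ≤ L)
    (T : Finset ℤ) (hT : ∀ a ∈ T, a ≠ 0 ∧ ∀ p : ℕ, p.Prime → (p : ℤ) ∣ a → p ≤ w) :
    ∑ a ∈ T, (1 : ℝ) / (a.natAbs : ℝ) ≤ 2 * L := by
  classical
  have key : ∀ T' : Finset ℤ, T' ⊆ T → Set.InjOn Int.natAbs (T' : Set ℤ) →
      ∑ a ∈ T', (1 : ℝ) / (a.natAbs : ℝ) ≤ L := by
    intro T' hT' hinj
    rw [← Finset.sum_image (f := fun m : ℕ => (1 : ℝ) / (m : ℝ)) hinj]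
    refine hL _ fun m hm => ?_
    obtain ⟨a, ha, rfl⟩ := mem_image.1 hm
    obtain ⟨h1, h2⟩ := hT a (hT' ha)
    exact ⟨Int.natAbs_ne_zero.2 h1, fun p hp hpa => h2 p hp (Int.natCast_dvd.2 hpa)⟩
  rw [← sum_filter_add_sum_filter_not T (fun a => 0 < a)]
  have h1 := key (T.filter fun a => 0 < a) (filter_subset _ _) (by
    intro a ha b hb hab
    have ha' := (mem_filter.1 (mem_coe.1 ha)).2
    have hb' := (mem_filter.1 (mem_coe.1 hb)).2
    omega)
  have h2 := key (T.filter fun a => ¬ 0 < a) (filter_subset _ _) (by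
    intro a ha b hb hab
    have ha' := (mem_filter.1 (mem_coe.1 ha)).2
    have hb' := (mem_filter.1 (mem_coe.1 hb)).2
    omega)
  linarith

variable {ι : Type} [Fintype ι] [DecidableEq ι] [Nonempty ι] {n : ℕ}

theorem bad_small (F : ι → Bool → MvPolynomial (Fin (n + 1)) ℤ) (d : ι → Bool → ℕ)
    (hF : Fam F d) (ε : ℝ) (hε : 0 < ε) : ∃ H0 : ℕ, ∀ H : ℕ, H0 ≤ H →
      (Set.ncard {a : ℤ | |a| ≤ H ∧ ELS F a ∧ ¬ Sol F a ℚ} : ℝ) ≤ ε * H := by
  classical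
  obtain ⟨C5, hC5, w0, hw0, hcls⟩ := class_bad F d hF
  obtain ⟨C, hC, hsum⟩ := sum_sm
  obtain ⟨δ, hδ, hδ1, hδε⟩ : ∃ δ : ℝ, 0 < δ ∧ δ ≤ 1 ∧ 200 * δ ≤ ε := by
    refine ⟨min 1 (ε / 200), lt_min one_pos (by positivity), min_le_left _ _, ?_⟩
    have := min_le_right (1 : ℝ) (ε / 200)
    linarith
  -- the choice of `w`
  obtain ⟨w, hw, hwlog⟩ : ∃ w : ℕ, w0 ≤ w ∧
      Real.log w ≤ (ε * δ / (40 * C5 * C)) * w := by
    have hc : 0 < ε * δ / (40 * C5 * C) := by positivity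
    have h1 := (Real.isLittleO_log_id_atTop.def hc)
    have h2 := h1.natCast_atTop (R := ℝ)
    obtain ⟨w, hw1, hw2⟩ := (h2.and (Filter.eventually_ge_atTop w0)).exists
    refine ⟨w, hw2, ?_⟩
    have h3 : ‖Real.log (w : ℝ)‖ ≤ ε * δ / (40 * C5 * C) * ‖(w : ℝ)‖ := hw1
    rw [Real.norm_natCast] at h3
    exact (le_abs_self _).trans h3
  have hw2 : 2 ≤ w := hw0.trans hw
  have hwpos : (0 : ℝ) < w := by positivity
  obtain ⟨A0, hA0⟩ := an_smooth w (ε / 40) (by positivity)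
  obtain ⟨cb, H1, hH1⟩ := an_rad (∑ i, (d i false + d i true)) (Fintype.card ι) (ε / 40)
    (by positivity)
  obtain ⟨H2, hH2⟩ := an_sq (∑ i, (d i false + d i true)) (Fintype.card ι) (ε / 40) (by positivity)
  obtain ⟨H3, hH3⟩ := an_om (ε / 40) (by positivity)
  obtain ⟨H4, hH4⟩ := an_big δ hδ hδ1
  -- the classes
  let T : Finset ℤ := (Icc (-(A0 : ℤ)) (A0 : ℤ)).filter
    fun a => a ≠ 0 ∧ ∀ p : ℕ, p.Prime → (p : ℤ) ∣ a → p ≤ w
  let U : Finset ℕ := (range (W8 w)).filter fun u => (W8 w).Coprime u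
  have hUcard : U.card = Nat.totient (W8 w) := rfl
  let K : Finset (ℤ × ℕ) := T ×ˢ U
  have hη : 0 < ε / (20 * (K.card + 1)) := by positivity
  have hK : ∀ k : ℤ × ℕ, ∃ H0 : ℕ, k ∈ K → ∀ H : ℕ, H0 ≤ H → ∃ S : Finset ℤ,
      (S.card : ℝ) ≤ C5 / (w * δ * Nat.totient (W8 w)) * ((H : ℝ) / k.1.natAbs) +
        ε / (20 * (K.card + 1)) * H ∧
      ∀ a' : ℕ, 1 ≤ a' → a' ≤ H / k.1.natAbs → a' ≡ k.2 [MOD W8 w] →
        AnW (∑ i, (d i false + d i true)) (Fintype.card ι) cb δ H a' → ELS F (k.1 * (a' : ℤ)) →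
        ¬ Sol F (k.1 * (a' : ℤ)) ℚ → k.1 * (a' : ℤ) ∈ S := by
    intro k
    by_cases hk : k ∈ K
    · obtain ⟨hk1, hk2⟩ := mem_product.1 hk
      obtain ⟨-, hk3, hk4⟩ := mem_filter.1 hk1
      obtain ⟨-, hk5⟩ := mem_filter.1 hk2
      obtain ⟨H0, hH0⟩ := hcls w hw δ hδ hδ1 cb k.1 k.2 hk3 hk4 (Nat.Coprime.symm hk5) _ hη
      refine ⟨H0, fun _ H hH => ?_⟩
      obtain ⟨S, hS1, hS2⟩ := cover_cls k.1 (hH0 H hH)
      exact ⟨S, hS1, fun a' h1 h2 h3 h4 h5 h6 => hS2 a' h1 h2 ⟨h3, h4, h5, h6⟩⟩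
    · exact ⟨0, fun h => (hk h).elim⟩
  choose HK hHK using hK
  -- `w < H ^ δ`
  obtain ⟨H6, hH6⟩ : ∃ H6 : ℕ, ∀ H : ℕ, H6 ≤ H → (w : ℝ) < (H : ℝ) ^ δ := by
    have h1 : Filter.Tendsto (fun H : ℕ => (H : ℝ) ^ δ) Filter.atTop Filter.atTop :=
      (tendsto_rpow_atTop hδ).comp tendsto_natCast_atTop_atTop
    have h2 := h1.eventually (Filter.eventually_gt_atTop (w : ℝ))
    exact Filter.eventually_atTop.1 h2
  refine ⟨H1 + H2 + H3 + H4 + H6 + K.sup HK, fun H hH => ?_⟩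
  obtain ⟨S0, hS0, hS0'⟩ := cover (hA0 H)
  obtain ⟨S1, hS1, hS1'⟩ := cover (hH1 H (by omega))
  obtain ⟨S2, hS2, hS2'⟩ := cover (hH2 H (by omega))
  obtain ⟨S3, hS3, hS3'⟩ := cover (hH3 H (by omega))
  obtain ⟨S4, hS4, hS4'⟩ := cover (hH4 H (by omega))
  have hKH : ∀ k ∈ K, HK k ≤ H := fun k hk => (le_sup hk).trans (by omega)
  have hSk : ∀ k : ℤ × ℕ, ∃ S : Finset ℤ, k ∈ K →
      ((S.card : ℝ) ≤ C5 / (w * δ * Nat.totient (W8 w)) * ((H : ℝ) / k.1.natAbs) +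
        ε / (20 * (K.card + 1)) * H ∧
      ∀ a' : ℕ, 1 ≤ a' → a' ≤ H / k.1.natAbs → a' ≡ k.2 [MOD W8 w] →
        AnW (∑ i, (d i false + d i true)) (Fintype.card ι) cb δ H a' → ELS F (k.1 * (a' : ℤ)) →
        ¬ Sol F (k.1 * (a' : ℤ)) ℚ → k.1 * (a' : ℤ) ∈ S) := by
    intro k
    by_cases hk : k ∈ K
    · obtain ⟨S, hS⟩ := hHK k hk H (hKH k hk)
      exact ⟨S, fun _ => hS⟩
    · exact ⟨∅, fun h => (hk h).elim⟩
  choose SK hSK using hSk
  have hWpos : 0 < W8 w := by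
    unfold W8
    refine Nat.mul_pos (by norm_num) (prod_pos fun p hp => ?_)
    exact (mem_filter.1 hp).2.pos
  have hsub : {a : ℤ | |a| ≤ H ∧ ELS F a ∧ ¬ Sol F a ℚ} ⊆
      ((S0 ∪ S1 ∪ S2 ∪ S3 ∪ S4 ∪ K.biUnion SK : Finset ℤ) : Set ℤ) := by
    rintro a ⟨haH, hE, hS⟩
    have ha0 : a ≠ 0 := hE.1
    rw [mem_coe]
    simp only [mem_union, mem_biUnion]
    by_cases c0 : A0 < smp w ((a.natAbs : ℕ) : ℤ)
    · exact Or.inl (Or.inl (Or.inl (Or.inl (Or.inl (hS0' a ha0 haH c0)))))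
    by_cases c1 : (bb (zH (∑ i, (d i false + d i true)) (Fintype.card ι) H) a.natAbs : ℝ) ≤
        Real.log H ^ cb
    swap
    · exact Or.inl (Or.inl (Or.inl (Or.inl (Or.inr (hS1' a ha0 haH c1)))))
    by_cases c2 : ∃ q : ℕ, q.Prime ∧ zH (∑ i, (d i false + d i true)) (Fintype.card ι) H < q ∧
        q ^ 2 ∣ a.natAbs
    · exact Or.inl (Or.inl (Or.inl (Or.inr (hS2' a ha0 haH c2))))
    by_cases c3 : (2 : ℝ) ^ a.natAbs.primeFactors.card ≤ Real.log H ^ 2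
    swap
    · exact Or.inl (Or.inl (Or.inr (hS3' a ha0 haH c3)))
    by_cases c4 : ∀ p : ℕ, p.Prime → p ∣ a.natAbs → (p : ℝ) < (H : ℝ) ^ δ
    · exact Or.inl (Or.inr (hS4' a ha0 haH c4))
    right
    have hAn : AnW (∑ i, (d i false + d i true)) (Fintype.card ι) cb δ H a.natAbs := by
      refine ⟨c1, fun q hq hzq hqq => c2 ⟨q, hq, hzq, hqq⟩, c3, ?_⟩
      push Not at c4
      exact c4
    have hAn' := anW_rough _ _ cb δ H w a ha0 (hH6 H (by omega)) hAn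
    have hsm : smp w ((a.natAbs : ℕ) : ℤ) = smp w a := by
      unfold smp
      rw [Int.natAbs_natCast]
    rw [hsm, not_lt] at c0
    have hsgn : a.sign.natAbs = 1 := Int.natAbs_sign_of_ne_zero ha0
    have hal : (a.sign * (smp w a : ℤ)).natAbs = smp w a := by
      rw [Int.natAbs_mul, hsgn, one_mul, Int.natAbs_natCast]
    have hspos := smp_pos w a
    have hrpos := rough_pos w a
    have hal0 : a.sign * (smp w a : ℤ) ≠ 0 := by
      intro h0
      rw [h0] at hal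
      simp at hal
      omega
    have heq := split_eq w a ha0
    refine ⟨(a.sign * (smp w a : ℤ), rough w a % W8 w), ?_, ?_⟩
    · refine mem_product.2 ⟨mem_filter.2 ⟨mem_Icc.2 ?_, hal0, ?_⟩, mem_filter.2 ⟨?_, ?_⟩⟩
      · have h1 : (a.sign * (smp w a : ℤ)).natAbs ≤ A0 := by rw [hal]; exact c0
        exact ⟨by omega, by omega⟩
      · intro p hp hpd
        have h1 : p ∣ (a.sign * (smp w a : ℤ)).natAbs := Int.natCast_dvd.1 hpd
        rw [hal] at h1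
        exact smp_primes w a p hp h1
      · exact mem_range.2 (Nat.mod_lt _ hWpos)
      · have h1 := rough_coprime w hw2 a
        rw [Nat.coprime_comm]
        rw [Nat.coprime_iff_gcd_eq_one] at h1 ⊢
        rw [(Nat.mod_modEq (rough w a) (W8 w)).gcd_eq]
        exact h1
    · have hmemK : (a.sign * (smp w a : ℤ), rough w a % W8 w) ∈ K := by
        refine mem_product.2 ⟨mem_filter.2 ⟨mem_Icc.2 ?_, hal0, ?_⟩, mem_filter.2 ⟨?_, ?_⟩⟩
        · have h1 : (a.sign * (smp w a : ℤ)).natAbs ≤ A0 := by rw [hal]; exact c0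
          exact ⟨by omega, by omega⟩
        · intro p hp hpd
          have h1 : p ∣ (a.sign * (smp w a : ℤ)).natAbs := Int.natCast_dvd.1 hpd
          rw [hal] at h1
          exact smp_primes w a p hp h1
        · exact mem_range.2 (Nat.mod_lt _ hWpos)
        · have h1 := rough_coprime w hw2 a
          rw [Nat.coprime_comm]
          rw [Nat.coprime_iff_gcd_eq_one] at h1 ⊢
          rw [(Nat.mod_modEq (rough w a) (W8 w)).gcd_eq]
          exact h1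
      have hh := (hSK _ hmemK).2 (rough w a) hrpos ?_ (Nat.mod_modEq _ _).symm hAn' ?_ ?_
      · rw [← heq] at hh
        exact hh
      · rw [Nat.le_div_iff_mul_le (by rw [hal]; exact hspos)]
        have h1 : (rough w a * (a.sign * (smp w a : ℤ)).natAbs : ℕ) = a.natAbs := by
          rw [hal, mul_comm]
          exact smp_mul_rough w a ha0
        rw [h1]
        rw [Int.abs_eq_natAbs] at haH
        exact_mod_cast haH
      · rw [← heq]; exact hE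
      · rw [← heq]; exact hS
  have hcard : (Set.ncard {a : ℤ | |a| ≤ H ∧ ELS F a ∧ ¬ Sol F a ℚ}) ≤
      (S0 ∪ S1 ∪ S2 ∪ S3 ∪ S4 ∪ K.biUnion SK).card := by
    rw [← Set.ncard_coe_finset]
    exact Set.ncard_le_ncard hsub (Finset.finite_toSet _)
  have hcard2 : (S0 ∪ S1 ∪ S2 ∪ S3 ∪ S4 ∪ K.biUnion SK).card ≤
      S0.card + S1.card + S2.card + S3.card + S4.card + ∑ k ∈ K, (SK k).card := by
    refine (card_union_le _ _).trans (add_le_add ?_ card_biUnion_le)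
    refine (card_union_le _ _).trans (add_le_add ?_ le_rfl)
    refine (card_union_le _ _).trans (add_le_add ?_ le_rfl)
    refine (card_union_le _ _).trans (add_le_add ?_ le_rfl)
    exact card_union_le _ _
  have hcard3 : (Set.ncard {a : ℤ | |a| ≤ H ∧ ELS F a ∧ ¬ Sol F a ℚ} : ℝ) ≤
      S0.card + S1.card + S2.card + S3.card + S4.card + ∑ k ∈ K, ((SK k).card : ℝ) := by
    exact_mod_cast hcard.trans hcard2
  -- the sum over the classes
  have hH0 : (0 : ℝ) ≤ H := Nat.cast_nonneg H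
  have htot : (0 : ℝ) < Nat.totient (W8 w) := by exact_mod_cast Nat.totient_pos.2 hWpos
  have hsumK : ∑ k ∈ K, ((SK k).card : ℝ) ≤ ε / 20 * H + ε / 20 * H := by
    have h1 : ∑ k ∈ K, ((SK k).card : ℝ) ≤ ∑ k ∈ K,
        (C5 / (w * δ * Nat.totient (W8 w)) * ((H : ℝ) / k.1.natAbs) +
          ε / (20 * (K.card + 1)) * H) := sum_le_sum fun k hk => (hSK k hk).1
    rw [sum_add_distrib] at h1
    have h2 : ∑ k ∈ K, ε / (20 * (K.card + 1)) * (H : ℝ) ≤ ε / 20 * H := by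
      rw [sum_const, nsmul_eq_mul]
      have e : (K.card : ℝ) * (ε / (20 * (K.card + 1)) * H) =
          ε / 20 * H * (K.card / (K.card + 1)) := by
        field_simp
      rw [e]
      have h3 : (K.card : ℝ) / (K.card + 1) ≤ 1 := by
        rw [div_le_one (by positivity)]
        linarith
      have h4 : 0 ≤ ε / 20 * H := by positivity
      nlinarith
    have h3 : ∑ k ∈ K, C5 / (w * δ * Nat.totient (W8 w)) * ((H : ℝ) / k.1.natAbs) ≤
        ε / 20 * H := by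
      have e1 : ∑ k ∈ K, C5 / (w * δ * Nat.totient (W8 w)) * ((H : ℝ) / k.1.natAbs) =
          ∑ a ∈ T, ∑ _u ∈ U, C5 / (w * δ * Nat.totient (W8 w)) * ((H : ℝ) / a.natAbs) :=
        sum_product _ _ _
      have e2 : ∀ a ∈ T, ∑ _u ∈ U, C5 / (w * δ * Nat.totient (W8 w)) * ((H : ℝ) / a.natAbs) =
          C5 / (w * δ) * H * (1 / (a.natAbs : ℝ)) := by
        intro a _
        rw [sum_const, nsmul_eq_mul, hUcard]
        field_simp
      rw [e1, sum_congr rfl e2, ← mul_sum]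
      have h4 : ∑ a ∈ T, (1 : ℝ) / (a.natAbs : ℝ) ≤ 2 * (C * Real.log w) :=
        sum_abs _ w (fun S hS => hsum w hw2 S hS) T fun a ha => (mem_filter.1 ha).2
      have h5 : 0 ≤ C5 / (w * δ) * H := by positivity
      calc C5 / (w * δ) * H * ∑ a ∈ T, (1 : ℝ) / (a.natAbs : ℝ)
          ≤ C5 / (w * δ) * H * (2 * (C * Real.log w)) := mul_le_mul_of_nonneg_left h4 h5
        _ ≤ C5 / (w * δ) * H * (2 * (C * ((ε * δ / (40 * C5 * C)) * w))) := by gcongr
        _ = ε / 20 * H := by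
          field_simp
          ring
    linarith
  have h8 : 8 * δ * (H : ℝ) ≤ ε / 25 * H := by
    have : 8 * δ ≤ ε / 25 := by linarith
    exact mul_le_mul_of_nonneg_right this hH0
  have hεH : 0 ≤ ε * (H : ℝ) := by positivity
  linarith

end TwHP
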