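import Pool.Agent.Lib.MP_e426f4_ag.TW.SqfLine
import Pool.Agent.Lib.MP_e426f4_ag.TW.Res

/-!
# Bez: the Bezout identity for the generic line

`G = genLine f` is squarefree in `R[T]`, `R = MvPolynomial (..) ℚ` a UFD; by Gauss' lemma it is squarefree in
`Frac(R)[T]` (if `h²` divides `G` there, take `h` primitive in `R[T]`; then `h²` is primitive and divides `G` in
`R[T]`, `IsPrimitive.dvd_of_fraction_map_dvd_fraction_map` / `isPrimitive_mul`), characteristic 0 => separable
(`PerfectField.separable_iff_squarefree`), so `A G + B G' = 1` over `Frac(R)`; clear denominators first to `R` and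
then to `MvPolynomial (..) ℤ`.  Specialise the variables at integers `U, V`.
(`f ≠ 0` follows from squarefree.  If `G` has degree 0 in `T` the statement is still true: take `B = 0`, `A = 1`
and `ρ = f(V)`... any correct proof.)
-/

set_option autoImplicit false

namespace TwHP

open Polynomial

private theorem bez_gauss {R : Type*} [CommRing R] [IsDomain R] [UniqueFactorizationMonoid R]
    (G : R[X]) (hG : Squarefree G) :
    Squarefree (G.map (algebraMap R (FractionRing R))) := by
  letI : NormalizedGCDMonoid R := Nonempty.some inferInstance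
  intro h hh
  have hG0 : G ≠ 0 := hG.ne_zero
  have hGm : G.map (algebraMap R (FractionRing R)) ≠ 0 := by
    rw [Ne, Polynomial.map_eq_zero_iff (IsFractionRing.injective R (FractionRing R))]
    exact hG0
  have h0 : h ≠ 0 := by
    rintro rfl
    rw [mul_zero, zero_dvd_iff] at hh
    exact hGm hh
  obtain ⟨c, hc, hc2⟩ := IsLocalization.integerNormalization_spec (nonZeroDivisors R) h
  set P := IsLocalization.integerNormalization (nonZeroDivisors R) h with hP
  refine isUnit_or_eq_zero_of_isUnit_integerNormalization_primPart (R := R) h0 ?_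
  refine hG P.primPart ?_
  have hprim : (P.primPart * P.primPart).IsPrimitive :=
    (isPrimitive_primPart P).mul (isPrimitive_primPart P)
  refine hprim.dvd_of_fraction_map_dvd_fraction_map (K := FractionRing R) ?_
  have hdvd : P.primPart.map (algebraMap R (FractionRing R)) ∣ h := by
    have hc0 : algebraMap R (FractionRing R) c ≠ 0 := by
      intro h1
      have h2 : c = 0 := IsFractionRing.injective R (FractionRing R) (by rw [h1, map_zero])
      exact nonZeroDivisors.ne_zero hc h2
    rw [Algebra.smul_def, Polynomial.algebraMap_apply, P.eq_C_content_mul_primPart, Polynomial.map_mul,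
      Polynomial.map_C] at hc2
    refine ⟨C ((algebraMap R (FractionRing R) c)⁻¹) * C (algebraMap R (FractionRing R) P.content), ?_⟩
    have h3 : h = C ((algebraMap R (FractionRing R) c)⁻¹) *
        (C (algebraMap R (FractionRing R) c) * h) := by
      rw [← mul_assoc, ← C_mul, inv_mul_cancel₀ hc0, C_1, one_mul]
    rw [h3]
    have h4 : (C (algebraMap R (FractionRing R) c) : (FractionRing R)[X]) * h =
        C (algebraMap R (FractionRing R) P.content) *
          P.primPart.map (algebraMap R (FractionRing R)) := hc2.symm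
    rw [h4]
    ring
  rw [Polynomial.map_mul]
  exact (mul_dvd_mul hdvd hdvd).trans hh

private theorem bez_field {R : Type*} [CommRing R] [IsDomain R] [UniqueFactorizationMonoid R]
    [CharZero R] (G : R[X]) (hG : Squarefree G) :
    ∃ (A B : R[X]) (r : R), r ≠ 0 ∧ A * G + B * derivative G = C r := by
  set K := FractionRing R
  haveI : CharZero K := charZero_of_injective_algebraMap (IsFractionRing.injective R K)
  have h1 : (G.map (algebraMap R K)).Separable :=
    PerfectField.separable_iff_squarefree.2 (bez_gauss G hG)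
  obtain ⟨a, b, hab⟩ := h1
  obtain ⟨c, hc, hc2⟩ := IsLocalization.integerNormalization_spec (nonZeroDivisors R) a
  obtain ⟨d, hd, hd2⟩ := IsLocalization.integerNormalization_spec (nonZeroDivisors R) b
  set a₀ := IsLocalization.integerNormalization (nonZeroDivisors R) a
  set b₀ := IsLocalization.integerNormalization (nonZeroDivisors R) b
  refine ⟨C d * a₀, C c * b₀, c * d,
    mul_ne_zero (nonZeroDivisors.ne_zero hc) (nonZeroDivisors.ne_zero hd), ?_⟩
  apply Polynomial.map_injective (algebraMap R K) (IsFractionRing.injective R K)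
  rw [Algebra.smul_def, Polynomial.algebraMap_apply] at hc2 hd2
  simp only [Polynomial.map_add, Polynomial.map_mul, Polynomial.map_C, map_mul]
  rw [hc2, hd2, ← Polynomial.derivative_map]
  have h5 : (C (algebraMap R K d) * (C (algebraMap R K c) * a) * G.map (algebraMap R K) +
      C (algebraMap R K c) * (C (algebraMap R K d) * b) * derivative (G.map (algebraMap R K))) =
      C (algebraMap R K c) * C (algebraMap R K d) *
        (a * G.map (algebraMap R K) + b * derivative (G.map (algebraMap R K))) := by ring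
  rw [h5, hab, mul_one]

private theorem bez_clear_mv {σ : Type*} (r : MvPolynomial σ ℚ) :
    ∃ N : ℤ, N ≠ 0 ∧ ∃ r₁ : MvPolynomial σ ℤ,
      MvPolynomial.map (Int.castRingHom ℚ) r₁ = (N : MvPolynomial σ ℚ) * r := by
  induction r using MvPolynomial.induction_on with
  | C q =>
    refine ⟨q.den, by exact_mod_cast q.den_ne_zero, MvPolynomial.C q.num, ?_⟩
    rw [MvPolynomial.map_C]
    have h1 : ((q.den : ℤ) : MvPolynomial σ ℚ) = MvPolynomial.C (q.den : ℚ) := by
      simp
    rw [h1, ← map_mul]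
    congr 1
    have h2 : (q.den : ℚ) * q = q.num := by
      rw [mul_comm]
      exact Rat.mul_den_eq_num q
    rw [h2]
    simp
  | add p q hp hq =>
    obtain ⟨N, hN, p₁, h1⟩ := hp
    obtain ⟨M, hM, q₁, h2⟩ := hq
    refine ⟨N * M, mul_ne_zero hN hM, (M : MvPolynomial σ ℤ) * p₁ + (N : MvPolynomial σ ℤ) * q₁, ?_⟩
    rw [map_add, map_mul, map_mul, h1, h2, map_intCast, map_intCast]
    push_cast
    ring
  | mul_X p i hp =>
    obtain ⟨N, hN, p₁, h1⟩ := hp
    refine ⟨N, hN, p₁ * MvPolynomial.X i, ?_⟩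
    rw [map_mul, h1, MvPolynomial.map_X]
    ring

private theorem bez_clear_poly {σ : Type*} (a : (MvPolynomial σ ℚ)[X]) :
    ∃ N : ℤ, N ≠ 0 ∧ ∃ a₁ : (MvPolynomial σ ℤ)[X],
      a₁.map (MvPolynomial.map (Int.castRingHom ℚ)) = (N : (MvPolynomial σ ℚ)[X]) * a := by
  induction a using Polynomial.induction_on' with
  | add p q hp hq =>
    obtain ⟨N, hN, p₁, h1⟩ := hp
    obtain ⟨M, hM, q₁, h2⟩ := hq
    refine ⟨N * M, mul_ne_zero hN hM,
      (M : (MvPolynomial σ ℤ)[X]) * p₁ + (N : (MvPolynomial σ ℤ)[X]) * q₁, ?_⟩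
    rw [Polynomial.map_add, Polynomial.map_mul, Polynomial.map_mul, h1, h2, Polynomial.map_intCast,
      Polynomial.map_intCast]
    push_cast
    ring
  | monomial m r =>
    obtain ⟨N, hN, r₁, h1⟩ := bez_clear_mv r
    refine ⟨N, hN, monomial m r₁, ?_⟩
    rw [Polynomial.map_monomial, h1, ← C_mul_X_pow_eq_monomial, ← C_mul_X_pow_eq_monomial, C_mul]
    simp [mul_assoc]

/-- the generic line over `ℤ` -/
private noncomputable def bezG {n : ℕ} (f : MvPolynomial (Fin (n + 1)) ℤ) :
    (MvPolynomial (Fin (n + 1) ⊕ Fin (n + 1)) ℤ)[X] :=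
  MvPolynomial.aeval (fun j => C (MvPolynomial.X (Sum.inl j)) * X +
    C (MvPolynomial.X (Sum.inr j))) f

private theorem bezG_map_Q {n : ℕ} (f : MvPolynomial (Fin (n + 1)) ℤ) :
    (bezG f).map (MvPolynomial.map (Int.castRingHom ℚ)) =
      genLine (f.map (Int.castRingHom ℚ)) := by
  have h : ((Polynomial.mapRingHom (MvPolynomial.map (Int.castRingHom ℚ))).comp
      (MvPolynomial.aeval (fun j => C (MvPolynomial.X (Sum.inl j)) * X +
        C (MvPolynomial.X (Sum.inr j))) : MvPolynomial (Fin (n + 1)) ℤ →ₐ[ℤ]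
          (MvPolynomial (Fin (n + 1) ⊕ Fin (n + 1)) ℤ)[X]).toRingHom) =
      ((MvPolynomial.aeval (fun j => C (MvPolynomial.X (Sum.inl j)) * X +
        C (MvPolynomial.X (Sum.inr j))) : MvPolynomial (Fin (n + 1)) ℚ →ₐ[ℚ]
          (MvPolynomial (Fin (n + 1) ⊕ Fin (n + 1)) ℚ)[X]).toRingHom).comp
        (MvPolynomial.map (Int.castRingHom ℚ)) := by
    apply MvPolynomial.ringHom_ext
    · intro r
      simp
    · intro i
      simp
  exact congrArg (fun φ => φ f) h

private theorem bezG_map_ev {n : ℕ} (f : MvPolynomial (Fin (n + 1)) ℤ) (U V : Fin (n + 1) → ℤ) :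
    (bezG f).map (MvPolynomial.eval (Sum.elim U V)) = res f U V := by
  have h : ((Polynomial.mapRingHom (MvPolynomial.eval (Sum.elim U V))).comp
      (MvPolynomial.aeval (fun j => C (MvPolynomial.X (Sum.inl j)) * X +
        C (MvPolynomial.X (Sum.inr j))) : MvPolynomial (Fin (n + 1)) ℤ →ₐ[ℤ]
          (MvPolynomial (Fin (n + 1) ⊕ Fin (n + 1)) ℤ)[X]).toRingHom) =
      (MvPolynomial.aeval (fun j => C (U j) * X + C (V j)) : MvPolynomial (Fin (n + 1)) ℤ →ₐ[ℤ]
        ℤ[X]).toRingHom := by
    apply MvPolynomial.ringHom_ext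
    · intro r
      simp
    · intro i
      simp
  exact congrArg (fun φ => φ f) h

theorem bezout_line {n : ℕ} (f : MvPolynomial (Fin (n + 1)) ℤ)
    (hf : Squarefree (f.map (Int.castRingHom ℚ))) :
    ∃ ρ : MvPolynomial (Fin (n + 1) ⊕ Fin (n + 1)) ℤ, ρ ≠ 0 ∧
      ∀ U V : Fin (n + 1) → ℤ, ∃ A B : ℤ[X],
        A * res f U V + B * derivative (res f U V) = C (MvPolynomial.eval (Sum.elim U V) ρ) := by
  obtain ⟨A, B, r, hr, hAB⟩ := bez_field (genLine (f.map (Int.castRingHom ℚ)))
    (genLine_squarefree _ hf)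
  obtain ⟨N₁, hN₁, A₁, hA₁⟩ := bez_clear_poly A
  obtain ⟨N₂, hN₂, B₁, hB₁⟩ := bez_clear_poly B
  obtain ⟨N₃, hN₃, r₁, hr₁⟩ := bez_clear_mv r
  have hinj : Function.Injective (MvPolynomial.map (Int.castRingHom ℚ) :
      MvPolynomial (Fin (n + 1) ⊕ Fin (n + 1)) ℤ →+* _) :=
    MvPolynomial.map_injective _ Int.cast_injective
  have hid : ((N₂ * N₃ : ℤ) : (MvPolynomial (Fin (n + 1) ⊕ Fin (n + 1)) ℤ)[X]) * A₁ * bezG f +
      ((N₁ * N₃ : ℤ) : (MvPolynomial (Fin (n + 1) ⊕ Fin (n + 1)) ℤ)[X]) * B₁ *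
        derivative (bezG f) = C (((N₁ * N₂ : ℤ) : MvPolynomial _ ℤ) * r₁) := by
    apply Polynomial.map_injective _ hinj
    rw [Polynomial.map_add, Polynomial.map_mul, Polynomial.map_mul, Polynomial.map_mul,
      Polynomial.map_mul, Polynomial.map_intCast, Polynomial.map_intCast, hA₁, hB₁,
      ← Polynomial.derivative_map, bezG_map_Q, Polynomial.map_C, map_mul, hr₁, map_intCast]
    have h1 : (C r : (MvPolynomial (Fin (n + 1) ⊕ Fin (n + 1)) ℚ)[X]) =
        A * genLine (f.map (Int.castRingHom ℚ)) +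
          B * derivative (genLine (f.map (Int.castRingHom ℚ))) := hAB.symm
    rw [C_mul, C_mul, h1]
    simp only [map_intCast]
    push_cast
    ring
  refine ⟨((N₁ * N₂ : ℤ) : MvPolynomial _ ℤ) * r₁, ?_, ?_⟩
  · intro h
    have h1 : ((N₁ * N₂ : ℤ) : MvPolynomial (Fin (n + 1) ⊕ Fin (n + 1)) ℤ) ≠ 0 := by
      intro h2
      have h3 : (MvPolynomial.C (N₁ * N₂) : MvPolynomial (Fin (n + 1) ⊕ Fin (n + 1)) ℤ) = 0 := by
        rw [← h2]
        simp
      exact mul_ne_zero hN₁ hN₂ (MvPolynomial.C_injective _ _ (by rw [h3, map_zero]))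
    rcases mul_eq_zero.1 h with h2 | h2
    · exact h1 h2
    · have h3 : ((N₃ : ℤ) : MvPolynomial (Fin (n + 1) ⊕ Fin (n + 1)) ℚ) * r = 0 := by
        rw [← hr₁, h2, map_zero]
      rcases mul_eq_zero.1 h3 with h4 | h4
      · have h5 : (MvPolynomial.C (N₃ : ℚ) : MvPolynomial (Fin (n + 1) ⊕ Fin (n + 1)) ℚ) = 0 := by
          rw [← h4]
          simp
        have h6 : (N₃ : ℚ) = 0 := MvPolynomial.C_injective _ _ (by rw [h5, map_zero])
        exact hN₃ (by exact_mod_cast h6)
      · exact hr h4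
  · intro U V
    refine ⟨(((N₂ * N₃ : ℤ) : (MvPolynomial (Fin (n + 1) ⊕ Fin (n + 1)) ℤ)[X]) * A₁).map
      (MvPolynomial.eval (Sum.elim U V)),
      (((N₁ * N₃ : ℤ) : (MvPolynomial (Fin (n + 1) ⊕ Fin (n + 1)) ℤ)[X]) * B₁).map
      (MvPolynomial.eval (Sum.elim U V)), ?_⟩
    rw [← bezG_map_ev f U V, Polynomial.derivative_map, ← Polynomial.map_mul, ← Polynomial.map_mul,
      ← Polynomial.map_add, hid, Polynomial.map_C]

end TwHP
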