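import Pool.Agent.Lib.MP_e426f4_ag.TWS.Sum

/-!
# ClassThm: almost all twists of a class have a rational point
-/

set_option autoImplicit false

namespace TwHP

open Finset CD

open Classical in
theorem class_thm (D r : ℕ) : ∃ C4 : ℝ, 0 < C4 ∧ ∀ (ι : Type) [Fintype ι] [DecidableEq ι]
    [Nonempty ι], Fintype.card ι = r → ∀ c : CD ι, c.Valid D → ∀ δ : ℝ, 0 < δ → δ ≤ 1 →
    ∀ cb : ℕ, ∃ H0 : ℕ, ∀ H : ℕ, H0 ≤ H →
      (((Icc 1 (H / c.al.natAbs)).filter fun a : ℕ => a ≡ c.u [MOD W8 c.w] ∧ c.Anat D cb δ H a ∧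
        ¬ c.HasPt (c.al * (a : ℤ))).card : ℝ) ≤
      C4 / (c.w * δ * Nat.totient (W8 c.w)) * ((H : ℝ) / c.al.natAbs) + H / Real.log H := by
  refine ⟨8 * |C3c D| + 1, by positivity, ?_⟩
  intro ι _ _ _ _ c hc δ hδ hδ1 cb
  obtain ⟨H0, hH0⟩ := sum4 c hc cb δ hδ hδ1
  refine ⟨H0, fun H hH => (hH0 H hH).trans ?_⟩
  have h1 : 8 * C3c D ≤ 8 * |C3c D| + 1 := by
    have := le_abs_self (C3c D)
    linarith
  gcongr

end TwHP
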