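import Pool.Agent.Lib.MP_e426f4_ag.TW.ElsQ
import Pool.Agent.Lib.MP_e426f4_ag.TW.ClassInv

/-!
# ElsPos: a positive proportion of the twists is everywhere locally soluble

`a = a0 * a''`, `a'' ≡ 1` mod `W8 w0` (`w0 ≥ 2` from `els_q`), `a'' > 0`: `a'' = 1 * t²` in `ℚ_p`, `p ≤ w0` (`sol_class` with
`al = a0`, `u = 1`, `a1 = 1`).  There are at least `H / (|a0| W8) - 1` such `a` up to `H`.
-/

set_option autoImplicit false

namespace TwHP

open Filter

variable {ι : Type} [Fintype ι] [DecidableEq ι] {n : ℕ}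

/-- everywhere locally soluble -/
def ELS (F : ι → Bool → MvPolynomial (Fin (n + 1)) ℤ) (a : ℤ) : Prop :=
  a ≠ 0 ∧ Sol F a ℝ ∧ ∀ (p : ℕ) [Fact p.Prime], Sol F a ℚ_[p]

theorem els_pos (F : ι → Bool → MvPolynomial (Fin (n + 1)) ℤ) (d : ι → Bool → ℕ)
    (hF : Fam F d) (a0 : ℤ) (h0 : ELS F a0) :
    ∃ c : ℝ, 0 < c ∧ ∀ᶠ H : ℕ in atTop,
      c * (H : ℝ) ≤ (Set.ncard {a : ℤ | |a| ≤ H ∧ ELS F a} : ℝ) := by
  classical
  obtain ⟨w0, hw0⟩ := els_q F d hF
  obtain ⟨ha0, hR, hp⟩ := h0
  set w : ℕ := max w0 2 with hw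
  have hw2 : 2 ≤ w := le_max_right _ _
  set W : ℕ := W8 w with hW
  have hWpos : 0 < W := by
    rw [hW, W8]
    refine Nat.mul_pos (by norm_num) (Finset.prod_pos fun p hp => ?_)
    exact (Finset.mem_filter.mp hp).2.pos
  have key : ∀ k : ℕ, ELS F (a0 * ((1 + W * k : ℕ) : ℤ)) := by
    intro k
    have h2 : (1 + W * k) ≡ 1 [MOD W8 w] := by
      change (1 + W * k) % W = 1 % W
      exact Nat.add_mul_mod_self_left 1 W k
    have hs := sol_class F w hw2 1 1 (1 + W * k) (Nat.coprime_one_left _) one_pos (by omega)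
      (Nat.ModEq.refl 1) h2 a0
    simp only [Nat.cast_one, mul_one] at hs
    refine ⟨?_, hs.1 hR, fun p hpp => ?_⟩
    · refine mul_ne_zero ha0 ?_
      have : (0 : ℤ) < ((1 + W * k : ℕ) : ℤ) := by
        exact_mod_cast (by omega : 0 < 1 + W * k)
      exact this.ne'
    · rcases Nat.lt_or_ge w p with hlt | hge
      · exact hw0 p (lt_of_le_of_lt (le_max_left _ _) hlt) _
      · exact hs.2 p hge (hp p)
  set A : ℕ := a0.natAbs * (1 + W) with hA
  have hApos : 0 < A := Nat.mul_pos (Int.natAbs_pos.mpr ha0) (by omega)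
  have hcount : ∀ H : ℕ, H / A ≤ Set.ncard {a : ℤ | |a| ≤ H ∧ ELS F a} := by
    intro H
    have hfin : {a : ℤ | |a| ≤ H ∧ ELS F a}.Finite := by
      refine (Set.finite_Icc (-(H : ℤ)) (H : ℤ)).subset fun a ha => ?_
      exact abs_le.mp ha.1
    have hinj : Function.Injective (fun k : ℕ => a0 * ((1 + W * k : ℕ) : ℤ)) := by
      intro k1 k2 h
      have h1 := mul_left_cancel₀ ha0 h
      have h2 : 1 + W * k1 = 1 + W * k2 := by exact_mod_cast h1
      have h3 : W * k1 = W * k2 := by omega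
      exact Nat.eq_of_mul_eq_mul_left hWpos h3
    have hsub : (((Finset.Icc 1 (H / A)).image (fun k : ℕ => a0 * ((1 + W * k : ℕ) : ℤ)) :
        Finset ℤ) : Set ℤ) ⊆ {a : ℤ | |a| ≤ H ∧ ELS F a} := by
      intro a ha
      simp only [Finset.coe_image, Set.mem_image, Finset.mem_coe, Finset.mem_Icc] at ha
      obtain ⟨k, ⟨hk1, hk2⟩, rfl⟩ := ha
      refine ⟨?_, key k⟩
      rw [abs_mul, Int.abs_eq_natAbs, abs_of_nonneg (by positivity)]
      have h1 : a0.natAbs * (1 + W * k) ≤ A * k := by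
        rw [hA, mul_assoc]
        refine Nat.mul_le_mul_left _ ?_
        nlinarith
      have h2 : A * k ≤ H := by
        calc A * k ≤ A * (H / A) := Nat.mul_le_mul_left _ hk2
          _ ≤ H := Nat.mul_div_le H A
      have h3 : a0.natAbs * (1 + W * k) ≤ H := h1.trans h2
      exact_mod_cast h3
    calc H / A = (Finset.Icc 1 (H / A)).card := by simp
      _ = ((Finset.Icc 1 (H / A)).image (fun k : ℕ => a0 * ((1 + W * k : ℕ) : ℤ))).card :=
          (Finset.card_image_of_injective _ hinj).symm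
      _ = (((Finset.Icc 1 (H / A)).image (fun k : ℕ => a0 * ((1 + W * k : ℕ) : ℤ)) :
        Finset ℤ) : Set ℤ).ncard := (Set.ncard_coe_finset _).symm
      _ ≤ _ := Set.ncard_le_ncard hsub hfin
  refine ⟨1 / (2 * A), by positivity, ?_⟩
  filter_upwards [eventually_ge_atTop (2 * A)] with H hH
  have h1 : (H : ℝ) / A - 1 ≤ ((H / A : ℕ) : ℝ) := by
    have h2 : H < A * (H / A + 1) := by
      have := Nat.lt_mul_div_succ H hApos
      simpa using this
    have h3 : (H : ℝ) < A * ((H / A : ℕ) + 1) := by exact_mod_cast h2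
    have hA' : (0 : ℝ) < A := by exact_mod_cast hApos
    have h4 : (H : ℝ) / A < ((H / A : ℕ) : ℝ) + 1 := by
      rw [div_lt_iff₀ hA']
      linarith
    linarith
  have hA' : (0 : ℝ) < A := by exact_mod_cast hApos
  have h5 : (2 : ℝ) ≤ (H : ℝ) / A := by
    rw [le_div_iff₀ hA']
    exact_mod_cast hH
  calc 1 / (2 * (A : ℝ)) * H = ((H : ℝ) / A) / 2 := by field_simp
    _ ≤ (H : ℝ) / A - 1 := by linarith
    _ ≤ ((H / A : ℕ) : ℝ) := h1
    _ ≤ _ := by exact_mod_cast hcount H

/-- for one conic there is always an everywhere locally soluble twist: `a = F i false (s)`, point `(1,1,0)` -/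
theorem els_one (F : ι → Bool → MvPolynomial (Fin (n + 1)) ℤ) (d : ι → Bool → ℕ)
    (hF : Fam F d) (h1 : Fintype.card ι = 1) : ∃ a0 : ℤ, ELS F a0 := by
  classical
  have hne : (∏ i, F i false * F i true) ≠ 0 := by
    intro h
    have := hF.sqf.ne_zero
    rw [h, map_zero] at this
    exact this rfl
  obtain ⟨s, hs⟩ : ∃ s : Fin (n + 1) → ℤ, MvPolynomial.eval s (∏ i, F i false * F i true) ≠ 0 := by
    by_contra hcon
    push Not at hcon
    apply hne
    refine MvPolynomial.funext fun x => ?_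
    rw [hcon x, map_zero]
  have hval : ∀ i b, MvPolynomial.eval s (F i b) ≠ 0 := by
    intro i b
    rw [map_prod, Finset.prod_ne_zero_iff] at hs
    have := hs i (Finset.mem_univ i)
    rw [map_mul, mul_ne_zero_iff] at this
    cases b
    · exact this.1
    · exact this.2
  obtain ⟨i0, hi0⟩ := Fintype.card_eq_one_iff.mp h1
  have key : ∀ (K : Type) [Field K] [CharZero K], Sol F (MvPolynomial.eval s (F i0 false)) K := by
    intro K _ _
    refine ⟨fun j => (s j : K), fun i b => ?_, fun i => ?_⟩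
    · have h2 : MvPolynomial.aeval (fun j => (s j : K)) (F i b) =
          ((MvPolynomial.eval s (F i b) : ℤ) : K) := aeval_cast K (F i b) s
      rw [h2]
      exact_mod_cast hval i b
    · have h2 : MvPolynomial.aeval (fun j => (s j : K)) (F i false) =
          ((MvPolynomial.eval s (F i false) : ℤ) : K) := aeval_cast K (F i false) s
      rw [h2, hi0 i]
      refine ⟨1, 1, 0, Or.inl one_ne_zero, ?_⟩
      ring
  exact ⟨MvPolynomial.eval s (F i0 false), hval i0 false, key ℝ, fun p _ => key ℚ_[p]⟩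

end TwHP
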