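import Pool.Agent.Lib.MP_e426f4_ag.TW.Defs

/-!
# Cop: values at different indices have no common large prime

`q > w` prime, `x ≡ x0` mod `Q0`.  If `q ∣ Q0`, `q` does not divide `vt x` (`bad`).  If not, `Pt` mod `q` is
separable, so two factors `P i b`, `P j b'` (distinct indices, or the square of one factor) have no common root
mod `q` (`Separable.of_mul_left`..., `Polynomial.Separable`: `x` is a simple root of the product).
-/

set_option autoImplicit false

namespace TwHP

open CD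

variable {ι : Type} [Fintype ι] [DecidableEq ι]

theorem vt_eq (c : CD ι) (x : ℕ) : c.vt x = ∏ i, c.v i false x * c.v i true x := by
  unfold CD.vt CD.Pt CD.v
  rw [Polynomial.eval_prod]
  simp_rw [Polynomial.eval_mul]

private theorem vt_prod (c : CD ι) (x : ℕ) : c.vt x = ∏ p : ι × Bool, c.v p.1 p.2 x := by
  rw [vt_eq, Fintype.prod_prod_type]
  refine Finset.prod_congr rfl fun i _ => ?_
  rw [Fintype.prod_bool, mul_comm]

private theorem Pt_prod (c : CD ι) : c.Pt = ∏ p : ι × Bool, c.P p.1 p.2 := by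
  unfold CD.Pt
  rw [Fintype.prod_prod_type]
  refine Finset.prod_congr rfl fun i _ => ?_
  rw [Fintype.prod_bool, mul_comm]

theorem v_dvd_vt (c : CD ι) (i : ι) (b : Bool) (x : ℕ) : c.v i b x ∣ c.vt x := by
  rw [vt_prod]
  exact Finset.dvd_prod_of_mem (fun p : ι × Bool => c.v p.1 p.2 x) (Finset.mem_univ (i, b))

theorem vc_dvd_vt (c : CD ι) (i : ι) (x : ℕ) : c.vc i x ∣ c.vt x := by
  rw [vt_eq]
  unfold CD.vc
  rw [neg_dvd]
  exact Finset.dvd_prod_of_mem (fun i => c.v i false x * c.v i true x) (Finset.mem_univ i)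

theorem vI_dvd_vt (c : CD ι) (I : Finset ι) (x : ℕ) : c.vI I x ∣ c.vt x := by
  rw [vt_eq]
  unfold CD.vI
  refine dvd_trans ?_ (Finset.prod_dvd_prod_of_subset I Finset.univ
    (fun i => c.v i false x * c.v i true x) (Finset.subset_univ I))
  refine Finset.prod_dvd_prod_of_dvd _ _ fun i _ => ?_
  unfold CD.vc
  rw [neg_dvd]

theorem cop (c : CD ι) (D : ℕ) (hc : c.Valid D) (x : ℕ) (hx : x ≡ c.x0 [MOD c.Q0]) (q : ℕ)
    (hq : q.Prime) (hwq : c.w < q) (i j : ι) (b b' : Bool) (h1 : (q : ℤ) ∣ c.v i b x)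
    (h2 : (q : ℤ) ∣ c.v j b' x) : i = j ∧ b = b' := by
  by_contra hne
  have hpne : (i, b) ≠ (j, b') := fun h => hne ⟨congrArg Prod.fst h, congrArg Prod.snd h⟩
  by_cases hQ : q ∣ c.Q0
  · exact hc.bad q hq hwq hQ x hx (h1.trans (v_dvd_vt c i b x))
  · haveI := Fact.mk hq
    have hs := hc.sep q hq hQ
    rw [Pt_prod, Polynomial.map_prod] at hs
    have h3 := (Finset.mul_prod_erase Finset.univ
      (fun p : ι × Bool => (c.P p.1 p.2).map (Int.castRingHom (ZMod q))) (Finset.mem_univ (i, b)))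
    rw [← h3] at hs
    have hcop := hs.isCoprime
    have h4 : (c.P j b').map (Int.castRingHom (ZMod q)) ∣
        ∏ p ∈ Finset.univ.erase (i, b), (c.P p.1 p.2).map (Int.castRingHom (ZMod q)) :=
      Finset.dvd_prod_of_mem (fun p : ι × Bool => (c.P p.1 p.2).map (Int.castRingHom (ZMod q)))
        (Finset.mem_erase.mpr ⟨hpne.symm, Finset.mem_univ _⟩)
    have h5 : IsCoprime ((c.P i b).map (Int.castRingHom (ZMod q)))
        ((c.P j b').map (Int.castRingHom (ZMod q))) := hcop.of_isCoprime_of_dvd_right h4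
    obtain ⟨A, B, hAB⟩ := h5
    have h6 := congrArg (Polynomial.eval ((x : ℤ) : ZMod q)) hAB
    have e1 : Polynomial.eval ((x : ℤ) : ZMod q) ((c.P i b).map (Int.castRingHom (ZMod q))) = 0 := by
      rw [Polynomial.eval_intCast_map]
      exact (ZMod.intCast_zmod_eq_zero_iff_dvd _ q).mpr h1
    have e2 : Polynomial.eval ((x : ℤ) : ZMod q) ((c.P j b').map (Int.castRingHom (ZMod q))) = 0 := by
      rw [Polynomial.eval_intCast_map]
      exact (ZMod.intCast_zmod_eq_zero_iff_dvd _ q).mpr h2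
    rw [Polynomial.eval_add, Polynomial.eval_mul, Polynomial.eval_mul, e1, e2, mul_zero, mul_zero,
      add_zero, Polynomial.eval_one] at h6
    exact zero_ne_one h6

/-- a large prime not dividing `Q0`... : `q ∣ vt x` iff `q` divides exactly one `v i b x` -/
theorem dvd_vt_iff (c : CD ι) (x q : ℕ) (hq : q.Prime) :
    (q : ℤ) ∣ c.vt x ↔ ∃ i b, (q : ℤ) ∣ c.v i b x := by
  rw [vt_prod, (Nat.prime_iff_prime_int.mp hq).dvd_finsetProd_iff]
  constructor
  · rintro ⟨p, -, hp⟩
    exact ⟨p.1, p.2, hp⟩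
  · rintro ⟨i, b, h⟩
    exact ⟨(i, b), Finset.mem_univ _, h⟩

/-- the valuation of `vt x` at a large prime dividing `v i b x` is the valuation of `v i b x` -/
theorem fac_vt (c : CD ι) (D : ℕ) (hc : c.Valid D) (x : ℕ) (hx : x ≡ c.x0 [MOD c.Q0])
    (hne : c.vt x ≠ 0) (q : ℕ) (hq : q.Prime) (hwq : c.w < q) (i : ι) (b : Bool)
    (h1 : (q : ℤ) ∣ c.v i b x) :
    (c.vt x).natAbs.factorization q = (c.v i b x).natAbs.factorization q := by
  have h2 := vt_prod c x
  have h3 := (Finset.mul_prod_erase Finset.univ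
      (fun p : ι × Bool => c.v p.1 p.2 x) (Finset.mem_univ (i, b)))
  rw [← h2] at h3
  simp only at h3
  have hne' : c.v i b x * ∏ p ∈ Finset.univ.erase (i, b), c.v p.1 p.2 x ≠ 0 := by rw [h3]; exact hne
  obtain ⟨hA, hB⟩ := mul_ne_zero_iff.mp hne'
  rw [← h3, Int.natAbs_mul, Nat.factorization_mul (Int.natAbs_ne_zero.mpr hA)
    (Int.natAbs_ne_zero.mpr hB), Finsupp.add_apply]
  have : (∏ p ∈ Finset.univ.erase (i, b), c.v p.1 p.2 x).natAbs.factorization q = 0 := by
    apply Nat.factorization_eq_zero_of_not_dvd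
    intro h
    have h' : (q : ℤ) ∣ ∏ p ∈ Finset.univ.erase (i, b), c.v p.1 p.2 x := Int.natCast_dvd.mpr h
    rw [(Nat.prime_iff_prime_int.mp hq).dvd_finsetProd_iff] at h'
    obtain ⟨p, hp, hp'⟩ := h'
    have := cop c D hc x hx q hq hwq i p.1 b p.2 h1 hp'
    exact (Finset.mem_erase.mp hp).1 (Prod.ext this.1.symm this.2.symm)
  rw [this, add_zero]

end TwHP
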