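import Pool.Agent.Lib.MP_e426f4_ag.TW.LineW
import Pool.Agent.Lib.MP_e426f4_ag.TW.Bez
import Pool.Agent.Lib.MP_e426f4_ag.TW.ClassInv
import Pool.Agent.Lib.MP_e426f4_ag.TW.Cop

/-!
# ExCD: existence of the class data

`ft = ∏ F`, `D = ∑ d`.  `ρ` from `bezout_line`; `R(U,V) = ρ(U,V) * ft(U)` (`rename inl`), nonzero polynomial, so there is
`(Us, Vs)` in `ℤ` with `R(Us,Vs) ≠ 0` (`MvPolynomial.funext` over the infinite domain `ℤ`).
`w0 = max (W0 D r) |R(Us,Vs)| + |ft(Us)|`.  Given `w ≥ w0`, `al, u`, and one `a0 ≡ u` with local points: `line_w` for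
`a = al * a0` gives `U, V, k`.  Put `P i b = res (F i b) U V`, `B` = primes `q > w` dividing `R(U,V)`,
`Q0 = ∏_{p≤w} p^k * ∏_{q∈B} q`; `x0`: CRT `x0 ≡ 1` mod `p^k`, `x0 ≡ x_q` mod `q ∈ B` with `q ∤ Pt(x_q)`, and `x0` larger than the
bound of `sign_line`.  `x_q`: if `q ∤ ft(U)`, `Pt` mod `q` has leading coefficient `ft(U)` and degree `D < q`, so it has a
non-root; if `q ∣ ft(U)`, `x_q = 0`: `Pt(0) = ft(V)`.
Validity: `sep_deg`, `sep`: `q ∤ Q0` => `q > w`, `q ∤ R(U,V)`: leading coefficient and Bezout constant are units mod `q`.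
`loc`: `locW_class`, `sign_line` + `iso_real`; `p ≤ w`: `x ≡ 1` mod `p^k`.
`deg_cc`: `natDegree = d i false + d i true`.
-/

set_option autoImplicit false

namespace TwHP

open CD

variable {ι : Type} [Fintype ι] [DecidableEq ι] {n : ℕ}

omit [DecidableEq ι] in
private theorem ft_hom (F : ι → Bool → MvPolynomial (Fin (n + 1)) ℤ) (d : ι → Bool → ℕ)
    (hom : ∀ i b, (F i b).IsHomogeneous (d i b)) :
    (∏ i, F i false * F i true).IsHomogeneous (∑ i, (d i false + d i true)) :=
  MvPolynomial.IsHomogeneous.prod _ _ _ fun i _ => (hom i false).mul (hom i true)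

/-- a polynomial whose coefficient in degree `D < q` is a unit mod `q` has a nonroot mod `q` -/
private theorem nonroot (f : Polynomial ℤ) (D q : ℕ) (hq : q.Prime) (hD : f.natDegree ≤ D)
    (hDq : D < q) (hc : ¬ (q : ℤ) ∣ f.coeff D) : ∃ t : ℕ, ¬ (q : ℤ) ∣ f.eval (t : ℤ) := by
  haveI := Fact.mk hq
  set g := f.map (Int.castRingHom (ZMod q)) with hg
  have hg0 : g ≠ 0 := by
    intro h
    apply hc
    have h1 : g.coeff D = 0 := by rw [h, Polynomial.coeff_zero]
    rw [hg, Polynomial.coeff_map, eq_intCast] at h1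
    exact (ZMod.intCast_zmod_eq_zero_iff_dvd _ q).mp h1
  have hcard : g.natDegree < Fintype.card (ZMod q) := by
    rw [ZMod.card]
    exact (Polynomial.natDegree_map_le.trans hD).trans_lt hDq
  obtain ⟨z, hz⟩ : ∃ z : ZMod q, g.eval z ≠ 0 := by
    by_contra hcon
    push Not at hcon
    have h1 : (Finset.univ : Finset (ZMod q)) ⊆ g.roots.toFinset := by
      intro z _
      rw [Multiset.mem_toFinset, Polynomial.mem_roots hg0]
      exact hcon z
    have h2 := Finset.card_le_card h1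
    have h3 := (Multiset.toFinset_card_le g.roots).trans (Polynomial.card_roots' g)
    rw [Finset.card_univ] at h2
    omega
  refine ⟨z.val, fun h => hz ?_⟩
  have h1 := (ZMod.intCast_zmod_eq_zero_iff_dvd _ q).mpr h
  have h2 : ((z.val : ℤ) : ZMod q) = z := by
    push_cast
    exact ZMod.natCast_zmod_val z
  rw [← h2, hg, Polynomial.eval_intCast_map]
  exact h1

theorem exists_CD (F : ι → Bool → MvPolynomial (Fin (n + 1)) ℤ) (d : ι → Bool → ℕ)
    (hF : Fam F d) :
    ∃ w0 : ℕ, ∀ w : ℕ, w0 ≤ w → ∀ (al : ℤ) (u : ℕ), al ≠ 0 →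
      (∀ p : ℕ, p.Prime → (p : ℤ) ∣ al → p ≤ w) → u.Coprime (W8 w) →
      (∃ a0 : ℕ, 0 < a0 ∧ a0 ≡ u [MOD W8 w] ∧ Sol F (al * a0) ℝ ∧
        ∀ (p : ℕ) [Fact p.Prime], p ≤ w → Sol F (al * a0) ℚ_[p]) →
      ∀ η : ℝ, 0 < η → ∃ c : CD ι, c.Valid (∑ i, (d i false + d i true)) ∧ c.w = w ∧ c.al = al ∧
        c.u = u ∧ ∑ q ∈ c.Q0.primeFactors.filter (w < ·), (1 : ℝ) / q ≤ η ∧
        ∀ a : ℤ, c.HasPt a → Sol F a ℚ := by
  classical
  set D : ℕ := ∑ i, (d i false + d i true) with hD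
  set ft : MvPolynomial (Fin (n + 1)) ℤ := ∏ i, F i false * F i true with hft
  have hfth : ft.IsHomogeneous D := ft_hom F d hF.hom
  have hft0 : ft ≠ 0 := by
    intro h
    have h1 := hF.sqf.ne_zero
    apply h1
    rw [← hft, h, map_zero]
  obtain ⟨ρ, hρ0, hρ⟩ := bezout_line ft hF.sqf
  set R : MvPolynomial (Fin (n + 1) ⊕ Fin (n + 1)) ℤ := ρ * MvPolynomial.rename Sum.inl ft with hR
  have hRev : ∀ U V : Fin (n + 1) → ℤ, MvPolynomial.eval (Sum.elim U V) R =
      MvPolynomial.eval (Sum.elim U V) ρ * MvPolynomial.eval U ft := by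
    intro U V
    rw [hR, map_mul, MvPolynomial.eval_rename]
    rfl
  have hR0 : R ≠ 0 := by
    refine mul_ne_zero hρ0 ?_
    intro h
    apply hft0
    apply MvPolynomial.rename_injective _ Sum.inl_injective
    rw [h, map_zero]
  obtain ⟨s, hs⟩ : ∃ s : Fin (n + 1) ⊕ Fin (n + 1) → ℤ, MvPolynomial.eval s R ≠ 0 := by
    by_contra hcon
    push Not at hcon
    apply hR0
    apply MvPolynomial.funext
    intro x
    rw [hcon x, map_zero]
  set Us : Fin (n + 1) → ℤ := s ∘ Sum.inl with hUs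
  set Vs : Fin (n + 1) → ℤ := s ∘ Sum.inr with hVs
  have hsel : Sum.elim Us Vs = s := Sum.elim_comp_inl_inr s
  have hRs : MvPolynomial.eval (Sum.elim Us Vs) R ≠ 0 := by rw [hsel]; exact hs
  have hSs : MvPolynomial.eval Us ft ≠ 0 := by
    rw [hRev] at hRs
    exact (mul_ne_zero_iff.mp hRs).2
  refine ⟨max (W0 D (Fintype.card ι)) ((MvPolynomial.eval (Sum.elim Us Vs) R).natAbs +
    (MvPolynomial.eval Us ft).natAbs + 2), ?_⟩
  intro w hw al u hal halp hu ha0 η hη
  obtain ⟨a0, ha0pos, ha0u, ha0r, ha0p⟩ := ha0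
  have hw1 : W0 D (Fintype.card ι) ≤ w := (le_max_left _ _).trans hw
  have hw2 : (MvPolynomial.eval (Sum.elim Us Vs) R).natAbs +
    (MvPolynomial.eval Us ft).natAbs + 2 ≤ w := (le_max_right _ _).trans hw
  have hDw : D < w := by
    have h1 : D < W0 D (Fintype.card ι) := by
      unfold W0
      have h2 : 1 ≤ 4 ^ Fintype.card ι := Nat.one_le_pow _ _ (by norm_num)
      nlinarith [Nat.zero_le D]
    omega
  have hw2' : 2 ≤ w := by omega
  have hane : al * (a0 : ℤ) ≠ 0 := mul_ne_zero hal (by exact_mod_cast ha0pos.ne')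
  have hb1 : |MvPolynomial.eval (Sum.elim Us Vs) R| ≤ (w : ℤ) := by
    rw [Int.abs_eq_natAbs]
    exact_mod_cast (Nat.le_add_right _ _).trans ((Nat.le_add_right _ 2).trans hw2)
  have hb2 : |MvPolynomial.eval Us ft| ≤ (w : ℤ) := by
    rw [Int.abs_eq_natAbs]
    exact_mod_cast (Nat.le_add_left _ _).trans ((Nat.le_add_right _ 2).trans hw2)
  obtain ⟨U, V, k, hk, hUne, hreal, hpadic, hRUV, hbad, hsum⟩ :=
    line_w F d hF.hom hF.even R Us Vs hRs hSs w hw2' hb1 hb2 (al * a0) hane ha0r ha0p η hη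
  rw [← hft] at hbad
  set Pt : Polynomial ℤ := res ft U V with hPt
  have hftU : MvPolynomial.eval U ft ≠ 0 := by
    rw [hft, map_prod]
    exact Finset.prod_ne_zero_iff.mpr fun i _ => by
      rw [map_mul]
      exact mul_ne_zero (hUne i false) (hUne i true)
  set B : Finset ℕ := (MvPolynomial.eval (Sum.elim U V) R).natAbs.primeFactors.filter (w < ·)
    with hB
  have hmemB : ∀ q, q ∈ B ↔ q.Prime ∧ (q : ℤ) ∣ MvPolynomial.eval (Sum.elim U V) R ∧ w < q := by
    intro q
    rw [hB, Finset.mem_filter, Nat.mem_primeFactors, Int.natCast_dvd]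
    constructor
    · rintro ⟨⟨h1, h2, -⟩, h3⟩
      exact ⟨h1, h2, h3⟩
    · rintro ⟨h1, h2, h3⟩
      exact ⟨⟨h1, h2, Int.natAbs_ne_zero.mpr hRUV⟩, h3⟩
  -- the residue classes
  have hxq : ∀ q : ℕ, ∃ t : ℕ, q ∈ B → ¬ (q : ℤ) ∣ Pt.eval (t : ℤ) := by
    intro q
    by_cases hq : q ∈ B
    · obtain ⟨h1, h2, h3⟩ := (hmemB q).mp hq
      by_cases h4 : (q : ℤ) ∣ MvPolynomial.eval U ft
      · refine ⟨0, fun _ => ?_⟩
        rw [hPt, res_eval]
        have h5 := hbad q h1 h3 h4
        simpa using h5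
      · obtain ⟨t, ht⟩ := nonroot Pt D q h1 (res_natDegree_le ft D hfth U V) (hDw.trans h3)
          (by rw [hPt, res_coeff ft D hfth U V]; exact h4)
        exact ⟨t, fun _ => ht⟩
    · exact ⟨0, fun h => absurd h hq⟩
  choose xq hxq using hxq
  set S : Finset ℕ := (Finset.range (w + 1)).filter Nat.Prime ∪ B with hS
  have hSprime : ∀ q ∈ S, q.Prime := by
    intro q hq
    rw [hS, Finset.mem_union] at hq
    rcases hq with hq | hq
    · exact (Finset.mem_filter.mp hq).2
    · exact ((hmemB q).mp hq).1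
  have hSw : ∀ q : ℕ, q.Prime → q ≤ w → q ∈ S := by
    intro q hq hqw
    rw [hS, Finset.mem_union]
    exact Or.inl (Finset.mem_filter.mpr ⟨Finset.mem_range.mpr (by omega), hq⟩)
  have hSB : ∀ q : ℕ, q ∈ B → q ∈ S := fun q hq => by
    rw [hS, Finset.mem_union]
    exact Or.inr hq
  have hSB' : ∀ q : ℕ, w < q → q ∈ S → q ∈ B := by
    intro q hwq hq
    rw [hS, Finset.mem_union] at hq
    rcases hq with hq | hq
    · have := Finset.mem_range.mp (Finset.mem_filter.mp hq).1
      omega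
    · exact hq
  set md : ℕ → ℕ := fun q => q ^ (if q ≤ w then k else 1) with hmd
  have hmdw : ∀ q, q ≤ w → md q = q ^ k := fun q hq => by simp [hmd, hq]
  have hmdW : ∀ q, w < q → md q = q := fun q hq => by simp [hmd, not_le.mpr hq]
  have hmd0 : ∀ q ∈ S, md q ≠ 0 := fun q hq => pow_ne_zero _ (hSprime q hq).ne_zero
  have hco : Set.Pairwise (S : Set ℕ) (fun a b => Nat.Coprime (md a) (md b)) := by
    intro p hp q hq hpq
    exact Nat.Coprime.pow _ _ ((Nat.coprime_primes (hSprime p hp) (hSprime q hq)).mpr hpq)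
  set Q0 : ℕ := ∏ q ∈ S, md q with hQ0
  have hQ0pos : 0 < Q0 := Finset.prod_pos fun q hq => Nat.pos_of_ne_zero (hmd0 q hq)
  have hmddvd : ∀ q ∈ S, md q ∣ Q0 := fun q hq => Finset.dvd_prod_of_mem md hq
  have hdvdS : ∀ q : ℕ, q.Prime → q ∣ Q0 → q ∈ S := by
    intro q hq h
    rw [hQ0, hq.prime.dvd_finsetProd_iff] at h
    obtain ⟨q', hq', h'⟩ := h
    have h2 := hq.dvd_of_dvd_pow h'
    rw [(Nat.prime_dvd_prime_iff_eq hq (hSprime q' hq')).mp h2]
    exact hq'
  have hdvdS' : ∀ q ∈ S, q ∣ Q0 := by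
    intro q hq
    refine dvd_trans (dvd_pow_self q ?_) (hmddvd q hq)
    split_ifs <;> omega
  set tq : ℕ → ℕ := fun q => if q ≤ w then 1 else xq q with htq
  obtain ⟨xM, hxM0, hxM⟩ := sign_line F d hF.hom U V hUne
  have hx1 := (Nat.chineseRemainderOfFinset tq md S hmd0 hco).2
  set x1 : ℕ := (Nat.chineseRemainderOfFinset tq md S hmd0 hco : ℕ) with hx1d
  set x0 : ℕ := x1 + Q0 * xM with hx0
  have hx0M : xM ≤ x0 := by
    have : 1 * xM ≤ Q0 * xM := Nat.mul_le_mul_right _ hQ0pos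
    omega
  have hx0pos : 0 < x0 := by omega
  have hx01 : x0 ≡ x1 [MOD Q0] := by
    unfold Nat.ModEq
    rw [hx0, Nat.add_mul_mod_self_left]
  have hxw : ∀ x : ℕ, x ≡ x0 [MOD Q0] → ∀ p : ℕ, p.Prime → p ≤ w → ((p : ℤ) ^ k) ∣ (x : ℤ) - 1 := by
    intro x hx p hp hpw
    have h1 := hx1 p (hSw p hp hpw)
    have h2 : x ≡ x1 [MOD md p] := (hx.trans hx01).of_dvd (hmddvd p (hSw p hp hpw))
    have h3 : x ≡ tq p [MOD md p] := h2.trans h1
    rw [hmdw p hpw] at h3
    have h4 : tq p = 1 := by simp [htq, hpw]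
    rw [h4] at h3
    have h5 := (Nat.modEq_iff_dvd.mp h3.symm)
    push_cast at h5
    exact h5
  have hxW : ∀ x : ℕ, x ≡ x0 [MOD Q0] → ∀ q ∈ B, (q : ℤ) ∣ (x : ℤ) - xq q := by
    intro x hx q hq
    have hwq := ((hmemB q).mp hq).2.2
    have h1 := hx1 q (hSB q hq)
    have h2 : x ≡ x1 [MOD md q] := (hx.trans hx01).of_dvd (hmddvd q (hSB q hq))
    have h3 : x ≡ tq q [MOD md q] := h2.trans h1
    rw [hmdW q hwq] at h3
    have h4 : tq q = xq q := by simp [htq, not_le.mpr hwq]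
    rw [h4] at h3
    exact Nat.modEq_iff_dvd.mp h3.symm
  -- the data
  let c : CD ι := { P := fun i b => res (F i b) U V, w := w, Q0 := Q0, x0 := x0, al := al, u := u }
  have hcPt : c.Pt = Pt := by
    show ∏ i, res (F i false) U V * res (F i true) U V = res ft U V
    rw [hft, res_prod]
    exact Finset.prod_congr rfl fun i _ => (res_mul _ _ U V).symm
  have hv : ∀ i b (x : ℕ), c.v i b x = MvPolynomial.eval (fun j => (x : ℤ) * U j + V j) (F i b) :=
    fun i b x => res_eval (F i b) U V x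
  have hvt : ∀ x : ℕ, c.vt x = Pt.eval (x : ℤ) := by
    intro x
    show c.Pt.eval (x : ℤ) = _
    rw [hcPt]
  have hvtne : ∀ x : ℕ, c.vt x ≠ 0 → ∀ i b, c.v i b x ≠ 0 := by
    intro x hx i b h
    apply hx
    have := v_dvd_vt c i b x
    rw [h] at this
    exact zero_dvd_iff.mp this
  have hbigQ : ∀ q : ℕ, q.Prime → ¬ q ∣ Q0 → w < q ∧
      ¬ (q : ℤ) ∣ MvPolynomial.eval (Sum.elim U V) ρ ∧ ¬ (q : ℤ) ∣ MvPolynomial.eval U ft := by
    intro q hq hqQ
    have hwq : w < q := by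
      by_contra h
      exact hqQ (hdvdS' q (hSw q hq (not_lt.mp h)))
    have hqR : ¬ (q : ℤ) ∣ MvPolynomial.eval (Sum.elim U V) R := by
      intro h
      exact hqQ (hdvdS' q (hSB q ((hmemB q).mpr ⟨hq, h, hwq⟩)))
    rw [hRev] at hqR
    exact ⟨hwq, fun h => hqR (Dvd.dvd.mul_right h _), fun h => hqR (Dvd.dvd.mul_left h _)⟩
  refine ⟨c, ?_, rfl, rfl, rfl, ?_, ?_⟩
  · refine
      { w_ge := hw1
        Q0_pos := hQ0pos
        x0_pos := hx0pos
        small_dvd := fun p hp hpw => hdvdS' p (hSw p hp hpw)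
        deg_cc := ?_
        deg_Pt := ?_
        sep_deg := ?_
        sep := ?_
        bad := ?_
        al_ne := hal
        al_primes := halp
        u_cop := hu
        ne := ?_
        loc := ?_ }
    · intro i
      show 1 ≤ (-(res (F i false) U V * res (F i true) U V)).natDegree
      rw [Polynomial.natDegree_neg, ← res_mul, res_natDegree _ _ ((hF.hom i false).mul (hF.hom i true))
        U V (by rw [map_mul]; exact mul_ne_zero (hUne i false) (hUne i true))]
      exact hF.nc i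
    · rw [hcPt]
      exact res_natDegree ft D hfth U V hftU
    · intro q hq hqQ
      obtain ⟨hwq, h1, h2⟩ := hbigQ q hq hqQ
      haveI := Fact.mk hq
      rw [hcPt]
      have hdeg : Pt.natDegree = D := res_natDegree ft D hfth U V hftU
      rw [Polynomial.natDegree_map_of_leadingCoeff_ne_zero, hdeg]
      unfold Polynomial.leadingCoeff
      rw [hdeg, hPt, res_coeff ft D hfth U V, eq_intCast]
      exact fun h => h2 ((ZMod.intCast_zmod_eq_zero_iff_dvd _ q).mp h)
    · intro q hq hqQ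
      obtain ⟨hwq, h1, h2⟩ := hbigQ q hq hqQ
      haveI := Fact.mk hq
      rw [hcPt]
      obtain ⟨A, A', hA⟩ := hρ U V
      have h3 := congrArg (Polynomial.map (Int.castRingHom (ZMod q))) hA
      rw [Polynomial.map_add, Polynomial.map_mul, Polynomial.map_mul, Polynomial.map_C,
        ← Polynomial.derivative_map, eq_intCast] at h3
      set e : ZMod q := ((MvPolynomial.eval (Sum.elim U V) ρ : ℤ) : ZMod q) with he
      have he0 : e ≠ 0 := fun h => h1 ((ZMod.intCast_zmod_eq_zero_iff_dvd _ q).mp h)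
      refine ⟨Polynomial.C e⁻¹ * A.map (Int.castRingHom (ZMod q)),
        Polynomial.C e⁻¹ * A'.map (Int.castRingHom (ZMod q)), ?_⟩
      rw [mul_assoc, mul_assoc, ← mul_add, h3, ← Polynomial.C_mul, inv_mul_cancel₀ he0,
        Polynomial.C_1]
    · intro q hq hwq hqQ x hx h
      have hqB : q ∈ B := hSB' q hwq (hdvdS q hq hqQ)
      have h1 := hxW x hx q hqB
      apply hxq q hqB
      rw [hvt] at h
      have h2 : (q : ℤ) ∣ Pt.eval (x : ℤ) - Pt.eval ((xq q : ℕ) : ℤ) :=
        h1.trans (Polynomial.sub_dvd_eval_sub _ _ _)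
      exact (dvd_iff_dvd_of_dvd_sub h2).mp h
    · intro x hx _ h
      rw [vt_eq] at h
      obtain ⟨i, -, hi⟩ := Finset.prod_eq_zero_iff.mp h
      have h1 := hxM x (hx0M.trans hx)
      rw [hv, hv] at hi
      rcases mul_eq_zero.mp hi with h2 | h2
      · have := h1 i false
        rw [h2, zero_mul] at this
        exact lt_irrefl _ this
      · have := h1 i true
        rw [h2, zero_mul] at this
        exact lt_irrefl _ this
    · intro x hx hxm a hapos hau i
      refine locW_class w hw2' u a0 a hu ha0pos hapos ha0u hau al _ _ ⟨?_, ?_⟩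
      · have h1 := hxM x (hx0M.trans hx) i
        refine iso_real _ _ _ _ _ _ ?_ ?_ ?_ (hreal i)
        · have : ((al * (a0 : ℤ) : ℤ) : ℝ) ≠ 0 := by exact_mod_cast hane
          exact mul_self_pos.mpr this
        · rw [hv]
          have := h1 false
          push_cast
          rw [neg_mul_neg, mul_comm]
          exact_mod_cast this
        · rw [hv]
          have := h1 true
          push_cast
          rw [neg_mul_neg, mul_comm]
          exact_mod_cast this
      · intro p hpF hpw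
        have h1 := (hpadic p hpw (x : ℤ) (hxw x hxm p hpF.out hpw)).2 i
        rw [hv, hv]
        push_cast at h1 ⊢
        exact h1
  · refine le_trans ?_ hsum
    refine Finset.sum_le_sum_of_subset_of_nonneg ?_ fun q _ _ => by positivity
    intro q hq
    obtain ⟨h1, h2⟩ := Finset.mem_filter.mp hq
    exact hSB' q h2 (hdvdS q (Nat.prime_of_mem_primeFactors h1) (Nat.dvd_of_mem_primeFactors h1))
  · rintro a ⟨x, hx, hiso⟩
    have hx' := hvtne x hx
    refine ⟨fun j => (((x : ℤ) * U j + V j : ℤ) : ℚ), ?_, ?_⟩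
    · intro i b
      rw [aeval_cast, ← hv]
      exact_mod_cast hx' i b
    · intro i
      rw [aeval_cast, aeval_cast, ← hv, ← hv]
      exact hiso i

end TwHP
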