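import Mathlib

/-!
# Twists of fibrations into products of conics: definitions

`ι` is the (finite) index set of the conics, `F i false`, `F i true` are the two forms of the `i`-th
conic `a x² = F i false y² + F i true z²`.
-/

set_option autoImplicit false

namespace TwHP

open Finset Polynomial

/-- the conic `A x² + B y² + C z² = 0` has a point over `K` -/
def Iso {K : Type} [Field K] (A B C : K) : Prop :=
  ∃ x y z : K, (x ≠ 0 ∨ y ≠ 0 ∨ z ≠ 0) ∧ A * x ^ 2 + B * y ^ 2 + C * z ^ 2 = 0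

/-- the conic `A x² + B y² + C z² = 0` has points over `ℝ` and over `ℚ_p` for all `p ≤ w` -/
def LocW (w : ℕ) (A B C : ℤ) : Prop :=
  Iso (A : ℝ) (B : ℝ) (C : ℝ) ∧
    ∀ (p : ℕ) [Fact p.Prime], p ≤ w → Iso (A : ℚ_[p]) (B : ℚ_[p]) (C : ℚ_[p])

/-- `8` times the product of the odd primes `≤ w` -/
def W8 (w : ℕ) : ℕ := 8 * ∏ p ∈ (Icc 3 w).filter Nat.Prime, p

/-- the `w`-rough part of `|A|` -/
def rough (w : ℕ) (A : ℤ) : ℕ :=
  ∏ q ∈ A.natAbs.primeFactors.filter (w < ·), q ^ A.natAbs.factorization q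

/-- the `w`-smooth part of `|A|` -/
def smp (w : ℕ) (A : ℤ) : ℕ :=
  ∏ q ∈ A.natAbs.primeFactors.filter (· ≤ w), q ^ A.natAbs.factorization q

/-- the product of the three symbols of the product formula -/
def Phi (w : ℕ) (A B C : ℤ) : ℤ :=
  jacobiSym (-(B * C)) (rough w A) * jacobiSym (-(A * C)) (rough w B) *
    jacobiSym (-(A * B)) (rough w C)

/-- no prime `> w` divides both `A` and `B` -/
def CopW (w : ℕ) (A B : ℤ) : Prop := ∀ q : ℕ, q.Prime → w < q → ¬ ((q : ℤ) ∣ A ∧ (q : ℤ) ∣ B)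

/-- the lower bound for `w` -/
def W0 (D r : ℕ) : ℕ := 4 ^ r * (20 * D + 100) ^ 2

/-- Data of a class of twists: polynomials `P i b` (restrictions of the forms to a line), the bound
`w`, the modulus `Q0`, the base point `x0`, and the class: `a = al * a'`, `a' ≡ u` modulo `W8 w`. -/
structure CD (ι : Type) where
  P : ι → Bool → ℤ[X]
  w : ℕ
  Q0 : ℕ
  x0 : ℕ
  al : ℤ
  u : ℕ

variable {ι : Type}

namespace CD

/-- value of `P i b` -/
noncomputable def v (c : CD ι) (i : ι) (b : Bool) (x : ℕ) : ℤ := (c.P i b).eval (x : ℤ)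

/-- `- P i false * P i true` -/
noncomputable def cc (c : CD ι) (i : ι) : ℤ[X] := -(c.P i false * c.P i true)

/-- the value `- v i false * v i true` -/
noncomputable def vc (c : CD ι) (i : ι) (x : ℕ) : ℤ := -(c.v i false x * c.v i true x)

/-- the product of the `vc i`, `i ∈ I` -/
noncomputable def vI (c : CD ι) (I : Finset ι) (x : ℕ) : ℤ := ∏ i ∈ I, c.vc i x

section
variable [Fintype ι]

/-- the product of all polynomials -/
noncomputable def Pt (c : CD ι) : ℤ[X] := ∏ i, c.P i false * c.P i true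

/-- its value -/
noncomputable def vt (c : CD ι) (x : ℕ) : ℤ := c.Pt.eval (x : ℤ)

/-- Validity of the class data. -/
structure Valid (c : CD ι) (D : ℕ) : Prop where
  w_ge : W0 D (Fintype.card ι) ≤ c.w
  Q0_pos : 0 < c.Q0
  x0_pos : 0 < c.x0
  small_dvd : ∀ p : ℕ, p.Prime → p ≤ c.w → p ∣ c.Q0
  deg_cc : ∀ i, 1 ≤ (c.cc i).natDegree
  deg_Pt : c.Pt.natDegree = D
  sep_deg : ∀ q : ℕ, q.Prime → ¬ q ∣ c.Q0 → (c.Pt.map (Int.castRingHom (ZMod q))).natDegree = D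
  sep : ∀ q : ℕ, q.Prime → ¬ q ∣ c.Q0 → (c.Pt.map (Int.castRingHom (ZMod q))).Separable
  bad : ∀ q : ℕ, q.Prime → c.w < q → q ∣ c.Q0 → ∀ x : ℕ, x ≡ c.x0 [MOD c.Q0] → ¬ (q : ℤ) ∣ c.vt x
  al_ne : c.al ≠ 0
  al_primes : ∀ p : ℕ, p.Prime → (p : ℤ) ∣ c.al → p ≤ c.w
  u_cop : c.u.Coprime (W8 c.w)
  ne : ∀ x : ℕ, c.x0 ≤ x → x ≡ c.x0 [MOD c.Q0] → c.vt x ≠ 0
  loc : ∀ x : ℕ, c.x0 ≤ x → x ≡ c.x0 [MOD c.Q0] → ∀ a : ℕ, 0 < a → a ≡ c.u [MOD W8 c.w] →
    ∀ i, LocW c.w (c.al * a) (-(c.v i false x)) (-(c.v i true x))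

/-- there is a fibre over the line with a rational point for the twist `a` -/
def HasPt (c : CD ι) (a : ℤ) : Prop :=
  ∃ x : ℕ, c.vt x ≠ 0 ∧ ∀ i, Iso (a : ℚ) (-(c.v i false x) : ℚ) (-(c.v i true x) : ℚ)

/-- the conditions at the primes `q > w` dividing a value `v i b x` to an odd power -/
def OK (c : CD ι) (a : ℤ) (x : ℕ) : Prop :=
  ∀ q : ℕ, q.Prime → c.w < q → ∀ i b, Odd ((c.v i b x).natAbs.factorization q) →
    jacobiSym (a * c.v i (!b) x) q = 1

open Classical in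
/-- base point modulo `b`: all `vc i` are squares modulo all primes dividing `b` -/
noncomputable def tb (c : CD ι) (b : ℕ) : ℕ :=
  if h : ∃ t : ℕ, t < b ∧ ∀ q ∈ b.primeFactors, ∀ i, jacobiSym (c.vc i (c.x0 + c.Q0 * t)) q = 1
  then h.choose else 0

/-- the base points -/
noncomputable def x (c : CD ι) (b n : ℕ) : ℕ := c.x0 + c.Q0 * (c.tb b + b * n)

open Classical in
/-- the `n ≤ N` whose base point satisfies the conditions at the primes of `T`, and `e ∣ vt` -/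
noncomputable def NN (c : CD ι) (N b : ℕ) (T : Finset ℕ) (e : ℕ) : Finset ℕ :=
  (Icc 1 N).filter fun n => (∀ q ∈ T, ∀ i, jacobiSym (c.vc i (c.x b n)) q = 1) ∧
    (e : ℤ) ∣ c.vt (c.x b n)

/-- number of roots of `Pt` modulo `e` -/
noncomputable def rho (c : CD ι) (e : ℕ) : ℕ :=
  ((range e).filter fun y => (e : ℤ) ∣ c.vt y).card

end

end CD

/-- exponents -/
def E0 (r : ℕ) : ℕ := 8 * r + 4
/-- exponents -/
def E1 (r : ℕ) : ℕ := 10 * r + 6
/-- exponents -/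
def E2 (r : ℕ) : ℕ := 8 * r + 12
/-- exponents -/
def DD (D : ℕ) : ℕ := 4 * D
/-- exponent of `z` -/
def cz (D r : ℕ) : ℕ := 2 * (12 + 3 * E2 r) * (4 * DD D + 1) + E1 r + E2 r + 10
/-- exponent of `N` -/
def CC (D r cb : ℕ) : ℕ := cz D r + cb + 2 * (19 + 3 * E1 r + 3 * E2 r) + 2

/-- `z = (log H)^cz` -/
noncomputable def zH (D r H : ℕ) : ℕ := ⌊Real.log H ^ cz D r⌋₊
/-- `N = (log H)^C` -/
noncomputable def NH (D r cb H : ℕ) : ℕ := ⌊Real.log H ^ CC D r cb⌋₊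

/-- product of the prime factors `≤ z` -/
def bb (z a : ℕ) : ℕ := ∏ q ∈ a.primeFactors.filter (· ≤ z), q
/-- the prime factors `> z` -/
def TT (z a : ℕ) : Finset ℕ := a.primeFactors.filter (z < ·)

namespace CD

variable [Fintype ι]

/-- `p` is bad for `(b, T)`: some character sum over some `NN b T e` is large -/
def Bad (c : CD ι) (L : ℝ) (N b : ℕ) (T : Finset ℕ) (p : ℕ) : Prop :=
  ∃ e : ℕ, (e : ℝ) ≤ L ^ E0 (Fintype.card ι) ∧ Squarefree e ∧ e.Coprime (c.Q0 * b) ∧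
    (N : ℝ) ≤ L ^ E1 (Fintype.card ι) * (c.NN N b T e).card ∧
    ∃ I : Finset ι, I.Nonempty ∧
      ((c.NN N b T e).card : ℝ) < L * |∑ n ∈ c.NN N b T e, (jacobiSym (c.vI I (c.x b n)) p : ℝ)|

/-- chain-good: no prime factor `q > z` of `m` is bad for the smaller ones -/
def CG (c : CD ι) (L : ℝ) (N z m : ℕ) : Prop :=
  ∀ q ∈ TT z m, ¬ c.Bad L N (bb z m) ((TT z m).filter (· < q)) q

/-- good anatomy of `a` -/
structure Anat (c : CD ι) (D cb : ℕ) (δ : ℝ) (H a : ℕ) : Prop where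
  cop : a.Coprime c.Q0
  bb_le : (bb (zH D (Fintype.card ι) H) a : ℝ) ≤ Real.log H ^ cb
  sqf : ∀ q : ℕ, q.Prime → zH D (Fintype.card ι) H < q → ¬ q ^ 2 ∣ a
  om : (2 : ℝ) ^ a.primeFactors.card ≤ Real.log H ^ 2
  big : ∃ p : ℕ, p.Prime ∧ p ∣ a ∧ (H : ℝ) ^ δ ≤ p

end CD

/-! ### The family over `ℙ^n` -/

/-- restriction of a form to the line `x ↦ x U + V` -/
noncomputable def res {n : ℕ} (f : MvPolynomial (Fin (n + 1)) ℤ) (U V : Fin (n + 1) → ℤ) : ℤ[X] :=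
  MvPolynomial.aeval (fun j => C (U j) * X + C (V j)) f

/-- The hypotheses on the family. -/
structure Fam {n : ℕ} [Fintype ι] (F : ι → Bool → MvPolynomial (Fin (n + 1)) ℤ)
    (d : ι → Bool → ℕ) : Prop where
  hom : ∀ i b, (F i b).IsHomogeneous (d i b)
  even : ∀ i b, Even (d i b)
  sqf : Squarefree ((∏ i, F i false * F i true).map (Int.castRingHom ℚ))
  nc : ∀ i, 0 < d i false + d i true

/-- the twist by `a` has a point over `K` in a smooth fibre -/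
def Sol {n : ℕ} (F : ι → Bool → MvPolynomial (Fin (n + 1)) ℤ) (a : ℤ) (K : Type) [Field K] : Prop :=
  ∃ s : Fin (n + 1) → K, (∀ i b, MvPolynomial.aeval s (F i b) ≠ 0) ∧
    ∀ i, Iso (a : K) (-MvPolynomial.aeval s (F i false)) (-MvPolynomial.aeval s (F i true))

end TwHP
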