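import Pool.Agent.Lib.MP_e426f4_ag.TW.PNear
import Pool.Agent.Lib.MP_e426f4_ag.TW.IsoBasic
import Pool.Agent.Lib.MP_e426f4_ag.TW.Bez
import Pool.Agent.Lib.MP_6179b0_nt.W.SBound

/-!
# ElsQ: all twists are soluble at all large primes

Fix `(Us, Vs)` with `ρ(Us,Vs) ft(Us) ≠ 0` (`bezout_line`).  For a prime `q` larger than its absolute value and than
`4^r (20 D + 100)^2` the polynomials `cc i = -(F i false)(F i true)` on the line are such that for every non-empty `I`
`∏_{i∈I} cc i` is squarefree mod `q` of positive degree; by `stepanov_bound`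
`∑_x ∏_i (1 + χ(cc i (x))) ≥ q - 2^r (20 D + 40) √q > D 2^r`, so there is an integer `x` with `χ(cc i(x)) = 1` for all `i`
(in particular all values are units).  Then `s = x Us + Vs`: `-(B C) = cc i (x)` is a square in `ℚ_q` (`jac_square`),
`iso_of_neg_sq`.
-/

set_option autoImplicit false

namespace TwHP

open Polynomial Finset

private theorem elsQ_weil (q : ℕ) [Fact q.Prime] (hq2 : q ≠ 2) {ι : Type} [Fintype ι]
    [DecidableEq ι] (D : ℕ) (c : ι → (ZMod q)[X])
    (hsq : ∀ I : Finset ι, I.Nonempty → Squarefree (∏ i ∈ I, c i) ∧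
      1 ≤ (∏ i ∈ I, c i).natDegree ∧ (∏ i ∈ I, c i).natDegree ≤ D)
    (hq : 4 ^ Fintype.card ι * (20 * D + 100) ^ 2 < q) :
    ∃ x : ZMod q, ∀ i, quadraticChar (ZMod q) ((c i).eval x) = 1 := by
  classical
  by_contra hcon
  push Not at hcon
  have hne : (univ : Finset ι).Nonempty := by
    obtain ⟨i, -⟩ := hcon 0
    exact ⟨i, mem_univ i⟩
  set r := Fintype.card ι with hr
  set s : ℝ := √(q : ℝ) with hs
  have hq0 : (0 : ℝ) ≤ q := Nat.cast_nonneg q
  have hss : s * s = q := Real.mul_self_sqrt hq0
  have hs0 : 0 ≤ s := Real.sqrt_nonneg _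
  have hchar : ringChar (ZMod q) ≠ 2 := by
    rw [ZMod.ringChar_zmod_n]
    exact hq2
  have hcardq : Fintype.card (ZMod q) = q := ZMod.card q
  have hbig : (2 : ℝ) ^ r * (20 * D + 100) ≤ s := by
    rw [hs, Real.le_sqrt (by positivity) hq0]
    have h1 : ((4 ^ r * (20 * D + 100) ^ 2 : ℕ) : ℝ) < q := by exact_mod_cast hq
    push_cast at h1
    have h2 : ((2 : ℝ) ^ r * (20 * D + 100)) ^ 2 = 4 ^ r * (20 * D + 100) ^ 2 := by
      rw [mul_pow, ← pow_mul, mul_comm r 2, pow_mul]
      norm_num
    rw [h2]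
    exact h1.le
  -- lower bound
  have hexp : ∀ x : ZMod q, ∏ i, (1 + (quadraticChar (ZMod q) ((c i).eval x) : ℝ)) =
      ∑ I ∈ (univ : Finset ι).powerset, (quadraticChar (ZMod q) ((∏ i ∈ I, c i).eval x) : ℝ) := by
    intro x
    rw [Finset.prod_one_add]
    refine Finset.sum_congr rfl fun I _ => ?_
    rw [eval_prod, map_prod, Int.cast_prod]
  have hlow : (q : ℝ) - 2 ^ r * ((20 * D + 40) * s) ≤
      ∑ x : ZMod q, ∏ i, (1 + (quadraticChar (ZMod q) ((c i).eval x) : ℝ)) := by
    rw [Finset.sum_congr rfl fun x _ => hexp x, Finset.sum_comm,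
      ← Finset.sum_filter_add_sum_filter_not _ (fun I : Finset ι => I = ∅)]
    have h1 : (univ : Finset ι).powerset.filter (fun I => I = ∅) = {∅} := by
      ext I
      simp
    rw [h1, sum_singleton]
    have h2 : ∑ x : ZMod q, (quadraticChar (ZMod q) ((∏ i ∈ (∅ : Finset ι), c i).eval x) : ℝ) = q := by
      simp [ZMod.card]
    rw [h2]
    have h3 : |∑ I ∈ (univ : Finset ι).powerset.filter (fun I => ¬ I = ∅),
        ∑ x : ZMod q, (quadraticChar (ZMod q) ((∏ i ∈ I, c i).eval x) : ℝ)| ≤
        2 ^ r * ((20 * D + 40) * s) := by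
      refine (abs_sum_le_sum_abs _ _).trans ?_
      calc ∑ I ∈ (univ : Finset ι).powerset.filter (fun I => ¬ I = ∅),
          |∑ x : ZMod q, (quadraticChar (ZMod q) ((∏ i ∈ I, c i).eval x) : ℝ)|
          ≤ ∑ _I ∈ (univ : Finset ι).powerset.filter (fun I => ¬ I = ∅), ((20 * D + 40) * s) := by
            refine Finset.sum_le_sum fun I hI => ?_
            rw [mem_filter] at hI
            obtain ⟨h4, h5, h6⟩ := hsq I (Finset.nonempty_iff_ne_empty.2 hI.2)
            have h7 := Pool.Agent.Lib.MP_6179b0_nt.W.stepanov_bound (ZMod q) hchar _ h4 h5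
            rw [hcardq] at h7
            refine h7.trans (mul_le_mul_of_nonneg_right ?_ hs0)
            have h8 : (((∏ i ∈ I, c i).natDegree : ℕ) : ℝ) ≤ D := by exact_mod_cast h6
            linarith
        _ ≤ 2 ^ r * ((20 * D + 40) * s) := by
            rw [Finset.sum_const, nsmul_eq_mul]
            refine mul_le_mul_of_nonneg_right ?_ (by positivity)
            have h9 : ((univ : Finset ι).powerset.filter (fun I => ¬ I = ∅)).card ≤ 2 ^ r := by
              refine (card_filter_le _ _).trans (le_of_eq ?_)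
              rw [card_powerset, card_univ]
            exact_mod_cast h9
    have h4 := (abs_le.1 h3).1
    linarith
  -- upper bound
  have hup : ∑ x : ZMod q, ∏ i, (1 + (quadraticChar (ZMod q) ((c i).eval x) : ℝ)) ≤ 2 ^ r * D := by
    set Ct : (ZMod q)[X] := ∏ i, c i with hCt
    obtain ⟨h4, h5, h6⟩ := hsq univ hne
    have hCt0 : Ct ≠ 0 := h4.ne_zero
    have h1 : ∀ x : ZMod q, ∏ i, (1 + (quadraticChar (ZMod q) ((c i).eval x) : ℝ)) ≤
        if x ∈ Ct.roots.toFinset then 2 ^ r else 0 := by
      intro x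
      by_cases hx : Ct.eval x = 0
      · rw [if_pos (by
          rw [Multiset.mem_toFinset, mem_roots hCt0]
          exact hx)]
        calc ∏ i, (1 + (quadraticChar (ZMod q) ((c i).eval x) : ℝ)) ≤ ∏ _i : ι, (2 : ℝ) := by
              refine Finset.prod_le_prod (fun i _ => ?_) fun i _ => ?_
              · by_cases h : (c i).eval x = 0
                · rw [h, quadraticChar_zero]; norm_num
                · rcases quadraticChar_dichotomy h with h | h <;> rw [h] <;> norm_num
              · by_cases h : (c i).eval x = 0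
                · rw [h, quadraticChar_zero]; norm_num
                · rcases quadraticChar_dichotomy h with h | h <;> rw [h] <;> norm_num
          _ = 2 ^ r := by rw [Finset.prod_const, card_univ]
      · have h2 : ∀ i, (c i).eval x ≠ 0 := by
          intro i h
          apply hx
          rw [hCt, eval_prod]
          exact Finset.prod_eq_zero (mem_univ i) h
        obtain ⟨i, hi⟩ := hcon x
        have h3 : ∏ i, (1 + (quadraticChar (ZMod q) ((c i).eval x) : ℝ)) = 0 := by
          refine Finset.prod_eq_zero (mem_univ i) ?_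
          rcases quadraticChar_dichotomy (h2 i) with h | h
          · exact absurd h hi
          · rw [h]; norm_num
        rw [h3]
        split_ifs
        · positivity
        · exact le_refl _
    refine (Finset.sum_le_sum fun x _ => h1 x).trans ?_
    rw [← Finset.sum_filter, Finset.sum_const, nsmul_eq_mul, mul_comm]
    refine mul_le_mul_of_nonneg_left ?_ (by positivity)
    have h7 : ((univ : Finset (ZMod q)).filter (fun x => x ∈ Ct.roots.toFinset)).card ≤ D := by
      have h8 : (univ : Finset (ZMod q)).filter (fun x => x ∈ Ct.roots.toFinset) =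
          Ct.roots.toFinset := by
        ext x
        simp
      rw [h8]
      exact (Multiset.toFinset_card_le _).trans ((card_roots' Ct).trans h6)
    exact_mod_cast h7
  -- contradiction
  have h2r : (1 : ℝ) ≤ 2 ^ r := one_le_pow₀ (by norm_num)
  have hD0 : (0 : ℝ) ≤ D := Nat.cast_nonneg D
  have h1 : (20 * (D : ℝ) + 100) ≤ s := by
    refine le_trans ?_ hbig
    exact le_mul_of_one_le_left (by positivity) h2r
  have h2 : (2 : ℝ) ^ r * (20 * D + 100) * s ≤ s * s := mul_le_mul_of_nonneg_right hbig hs0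
  have h3 : (2 : ℝ) ^ r * D ≤ 2 ^ r * s := mul_le_mul_of_nonneg_left (by linarith) (by positivity)
  have hs1 : 0 < s := by linarith
  have h4 : (0 : ℝ) < 2 ^ r * s := by positivity
  nlinarith

variable {ι : Type} [Fintype ι] [DecidableEq ι] {n : ℕ}

theorem els_q (F : ι → Bool → MvPolynomial (Fin (n + 1)) ℤ) (d : ι → Bool → ℕ)
    (hF : Fam F d) :
    ∃ w0 : ℕ, ∀ (q : ℕ) [Fact q.Prime], w0 < q → ∀ a : ℤ, Sol F a ℚ_[q] := by
  classical
  set ft : MvPolynomial (Fin (n + 1)) ℤ := ∏ i, F i false * F i true with hft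
  obtain ⟨ρ, hρ0, hρ⟩ := bezout_line ft hF.sqf
  have hft0 : ft ≠ 0 := by
    intro h
    have h1 := hF.sqf.ne_zero
    rw [← hft, h, map_zero] at h1
    exact h1 rfl
  -- a good line
  obtain ⟨z, hz⟩ : ∃ z : Fin (n + 1) ⊕ Fin (n + 1) → ℤ,
      MvPolynomial.eval z (ρ * MvPolynomial.rename Sum.inl ft) ≠ 0 := by
    by_contra hcon
    push Not at hcon
    have h1 : ρ * MvPolynomial.rename Sum.inl ft = 0 :=
      MvPolynomial.funext fun z => by rw [hcon z, map_zero]
    rcases mul_eq_zero.1 h1 with h2 | h2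
    · exact hρ0 h2
    · exact hft0 (MvPolynomial.rename_injective _ Sum.inl_injective (by rw [h2, map_zero]))
  set U : Fin (n + 1) → ℤ := fun j => z (Sum.inl j) with hU
  set V : Fin (n + 1) → ℤ := fun j => z (Sum.inr j) with hV
  have hUV : Sum.elim U V = z := by
    ext j
    rcases j with j | j <;> rfl
  rw [map_mul, MvPolynomial.eval_rename] at hz
  have hzU : z ∘ Sum.inl = U := rfl
  rw [hzU, ← hUV] at hz
  set ρ₀ : ℤ := MvPolynomial.eval (Sum.elim U V) ρ with hρ₀
  set f₀ : ℤ := MvPolynomial.eval U ft with hf₀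
  obtain ⟨A, B, hAB⟩ := hρ U V
  set r := Fintype.card ι with hr
  set D : ℕ := ∑ i, (d i false + d i true) with hD
  refine ⟨(ρ₀ * f₀).natAbs + 4 ^ r * (20 * D + 100) ^ 2 + 2, ?_⟩
  intro q _ hq a
  have hqp : q.Prime := Fact.out
  have hq2 : q ≠ 2 := by omega
  have hcop : ¬ (q : ℤ) ∣ ρ₀ * f₀ := by
    intro h
    have h1 := Int.natAbs_dvd_natAbs.2 h
    rw [Int.natAbs_natCast] at h1
    have h2 := Nat.le_of_dvd (Int.natAbs_pos.2 hz) h1
    omega
  have hρq : ((ρ₀ : ℤ) : ZMod q) ≠ 0 := by
    intro h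
    exact hcop (((ZMod.intCast_zmod_eq_zero_iff_dvd ρ₀ q).1 h).mul_right f₀)
  have hfq : ∀ i b, ((MvPolynomial.eval U (F i b) : ℤ) : ZMod q) ≠ 0 := by
    intro i b h
    have h1 : (q : ℤ) ∣ MvPolynomial.eval U (F i b) := (ZMod.intCast_zmod_eq_zero_iff_dvd _ q).1 h
    have h2 : MvPolynomial.eval U (F i b) ∣ f₀ := by
      rw [hf₀, hft, map_prod]
      refine dvd_trans ?_ (Finset.dvd_prod_of_mem _ (mem_univ i))
      rw [map_mul]
      cases b
      · exact dvd_mul_right _ _
      · exact dvd_mul_left _ _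
    exact hcop ((h1.trans h2).mul_left ρ₀)
  -- the polynomials mod q
  set φ : ℤ →+* ZMod q := Int.castRingHom (ZMod q) with hφ
  have hdeg : ∀ i b, ((res (F i b) U V).map φ).natDegree = d i b := by
    intro i b
    apply le_antisymm
    · exact (natDegree_map_le).trans (res_natDegree_le (F i b) (d i b) (hF.hom i b) U V)
    · apply le_natDegree_of_ne_zero
      rw [coeff_map, res_coeff (F i b) (d i b) (hF.hom i b) U V]
      exact hfq i b
  have hne0 : ∀ i b, (res (F i b) U V).map φ ≠ 0 := by
    intro i b h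
    have h1 : ((res (F i b) U V).map φ).coeff (d i b) = 0 := by rw [h, coeff_zero]
    rw [coeff_map, res_coeff (F i b) (d i b) (hF.hom i b) U V] at h1
    exact hfq i b h1
  set c : ι → (ZMod q)[X] := fun i =>
    -((res (F i false) U V).map φ * (res (F i true) U V).map φ) with hc
  have hPsep : ((res ft U V).map φ).Separable := by
    have h1 := congrArg (Polynomial.map φ) hAB
    rw [Polynomial.map_add, Polynomial.map_mul, Polynomial.map_mul, Polynomial.map_C,
      ← Polynomial.derivative_map] at h1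
    refine ⟨C (φ ρ₀)⁻¹ * A.map φ, C (φ ρ₀)⁻¹ * B.map φ, ?_⟩
    have h2 : C (φ ρ₀)⁻¹ * A.map φ * (res ft U V).map φ +
        C (φ ρ₀)⁻¹ * B.map φ * derivative ((res ft U V).map φ) =
        C (φ ρ₀)⁻¹ * (A.map φ * (res ft U V).map φ +
          B.map φ * derivative ((res ft U V).map φ)) := by ring
    rw [h2, h1, ← C_mul, inv_mul_cancel₀ (show φ ρ₀ ≠ 0 from hρq), C_1]
  have hctot : ∏ i, c i ∣ (res ft U V).map φ := by
    have h1 : (res ft U V).map φ = ∏ i, ((res (F i false) U V).map φ * (res (F i true) U V).map φ) := by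
      rw [hft, res_prod, Polynomial.map_prod]
      refine Finset.prod_congr rfl fun i _ => ?_
      rw [res_mul, Polynomial.map_mul]
    rw [h1]
    refine Finset.prod_dvd_prod_of_dvd _ _ fun i _ => ?_
    simp only [hc]
    rw [neg_dvd]
  have hcdeg : ∀ i, (c i).natDegree = d i false + d i true := by
    intro i
    simp only [hc]
    rw [natDegree_neg, natDegree_mul (hne0 i false) (hne0 i true), hdeg, hdeg]
  have hc0 : ∀ i, c i ≠ 0 := by
    intro i
    simp only [hc]
    exact neg_ne_zero.2 (mul_ne_zero (hne0 i false) (hne0 i true))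
  obtain ⟨x, hx⟩ := elsQ_weil q hq2 D c (by
    intro I hI
    refine ⟨?_, ?_, ?_⟩
    · exact ((hPsep.of_dvd hctot).of_dvd
        (Finset.prod_dvd_prod_of_subset _ _ _ (subset_univ I))).squarefree
    · rw [natDegree_prod _ _ fun i _ => hc0 i]
      obtain ⟨i, hi⟩ := hI
      have h1 := hF.nc i
      have h2 := Finset.single_le_sum (f := fun i => (c i).natDegree) (fun _ _ => Nat.zero_le _) hi
      simp only [hcdeg] at h2 ⊢
      omega
    · rw [natDegree_prod _ _ fun i _ => hc0 i]
      simp only [hcdeg]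
      exact Finset.sum_le_sum_of_subset (subset_univ I)) (by rw [← hr]; omega)
  -- the point
  set X0 : ℤ := (x.val : ℤ) with hX0
  have hX0x : φ X0 = x := by
    simp [hφ, hX0]
  set s : Fin (n + 1) → ℤ := fun j => X0 * U j + V j with hs
  have hval : ∀ i b, MvPolynomial.eval s (F i b) = (res (F i b) U V).eval X0 := by
    intro i b
    rw [res_eval]
  have hvalq : ∀ i b, ((MvPolynomial.eval s (F i b) : ℤ) : ZMod q) =
      ((res (F i b) U V).map φ).eval x := by
    intro i b
    rw [hval, ← hX0x, Polynomial.eval_map_apply]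
    rfl
  have hci : ∀ i, (((-(MvPolynomial.eval s (F i false) * MvPolynomial.eval s (F i true)) : ℤ)) :
      ZMod q) = (c i).eval x := by
    intro i
    simp only [hc]
    rw [eval_neg, eval_mul, ← hvalq, ← hvalq]
    push_cast
    ring
  have hJ : ∀ i, jacobiSym (-(MvPolynomial.eval s (F i false) * MvPolynomial.eval s (F i true))) q = 1 := by
    intro i
    rw [← jacobiSym.legendreSym.to_jacobiSym, legendreSym, hci]
    exact hx i
  have hnz : ∀ i, (-(MvPolynomial.eval s (F i false) * MvPolynomial.eval s (F i true)) : ℤ) ≠ 0 := by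
    intro i h
    have h1 := hJ i
    rw [h] at h1
    rw [← jacobiSym.legendreSym.to_jacobiSym, legendreSym, Int.cast_zero, quadraticChar_zero] at h1
    exact zero_ne_one h1
  refine ⟨fun j => (s j : ℚ_[q]), ?_, ?_⟩
  · intro i b
    rw [aeval_cast]
    have h1 := hnz i
    have h2 : MvPolynomial.eval s (F i b) ≠ 0 := by
      intro h
      apply h1
      cases b
      · rw [h, zero_mul, neg_zero]
      · rw [h, mul_zero, neg_zero]
    exact_mod_cast h2
  · intro i
    rw [aeval_cast, aeval_cast]
    obtain ⟨t, ht, ht2⟩ := jac_square q hq2 _ (hJ i)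
    refine iso_of_neg_sq _ _ _ ?_ t ?_
    · have h1 : MvPolynomial.eval s (F i false) ≠ 0 := by
        intro h
        apply hnz i
        rw [h, zero_mul, neg_zero]
      exact neg_ne_zero.2 (by exact_mod_cast h1)
    · rw [← ht2]
      push_cast
      ring

end TwHP
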