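import Pool.Agent.Lib.MP_e426f4_ag.TW.Defs

/-!
# JacSum: the complete sum of `J(·|F)` vanishes when `F` is odd and not a square

Some prime `l` divides `F` to an odd power; there is `g` prime to `F` with `J(g|F) = -1` (non-residue mod `l`, `≡ 1` mod the
other primes).  Multiplication by `g` permutes the residues.
-/

set_option autoImplicit false

namespace TwHP

open Finset

/-- there is `g` prime to `F` with `J(g|F) = -1` -/
private theorem exists_neg_one (F : ℕ) (hF : Odd F) (hs : ¬ IsSquare F) :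
    ∃ g : ℕ, g.Coprime F ∧ jacobiSym (g : ℤ) F = -1 := by
  have hF0 : 0 < F := hF.pos
  obtain ⟨a, b, ha0, hb0, hab, hsq⟩ := Nat.sq_mul_squarefree_of_pos hF0
  have ha1 : a ≠ 1 := by
    rintro rfl
    exact hs ⟨b, by rw [← hab]; ring⟩
  obtain ⟨l, hl, hla⟩ := Nat.exists_prime_and_dvd ha1
  have : Fact l.Prime := ⟨hl⟩
  obtain ⟨m, rfl⟩ := hla
  have haF : l * m ∣ F := ⟨b ^ 2, by rw [← hab]; ring⟩
  have hl2 : l ≠ 2 := by
    rintro rfl
    have h1 : 2 ∣ F := (dvd_mul_right 2 m).trans haF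
    exact (Nat.not_even_iff_odd.2 hF) (even_iff_two_dvd.2 h1)
  have hlm : l.Coprime m := (Nat.squarefree_mul_iff.1 hsq).1
  have hm0 : 0 < m := Nat.pos_of_mul_pos_left ha0
  -- the prime-to-`l` part of `F`
  obtain ⟨k, n, hln, hFn⟩ := Nat.exists_eq_pow_mul_and_not_dvd hF0.ne' l hl.ne_one
  have hln' : l.Coprime n := (Nat.Prime.coprime_iff_not_dvd hl).2 hln
  have hmn : m ∣ n := by
    have h1 : m ∣ l ^ k * n := by
      rw [← hFn]
      exact (dvd_mul_left m l).trans haF
    exact (Nat.Coprime.pow_left k hlm).symm.dvd_of_dvd_mul_left h1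
  -- nonresidue
  obtain ⟨t, ht⟩ := FiniteField.exists_nonsquare (F := ZMod l) (by rw [ZMod.ringChar_zmod_n]; exact hl2)
  have ht' : jacobiSym (t.val : ℤ) l = -1 := by
    rw [ZMod.nonsquare_iff_jacobiSym_eq_neg_one]
    simpa using ht
  obtain ⟨g, hg1, hg2⟩ := Nat.chineseRemainder hln' t.val 1
  have hgn : g.Coprime n := by
    have h1 : Nat.gcd g n = Nat.gcd 1 n := hg2.gcd_eq
    rw [Nat.Coprime, h1, Nat.gcd_one_left]
  have hgl : jacobiSym (g : ℤ) l = -1 := by
    rw [← ht']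
    apply jacobiSym.mod_left'
    exact_mod_cast hg1
  have hgl' : g.Coprime l := by
    have h1 : jacobiSym (g : ℤ) l ≠ 0 := by rw [hgl]; norm_num
    rw [Ne, jacobiSym.eq_zero_iff] at h1
    push Not at h1
    have h2 := h1 hl.ne_zero
    rw [Int.gcd_natCast_natCast] at h2
    exact h2
  have hgF : g.Coprime F := by
    rw [hFn]
    exact Nat.Coprime.mul_right (hgl'.pow_right k) hgn
  refine ⟨g, hgF, ?_⟩
  have hgb : (g : ℤ).gcd b = 1 := by
    rw [Int.gcd_natCast_natCast]
    apply Nat.Coprime.coprime_dvd_right _ hgF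
    exact ⟨b * (l * m), by rw [← hab]; ring⟩
  have hgm : jacobiSym (g : ℤ) m = 1 := by
    rw [← jacobiSym.one_left m]
    apply jacobiSym.mod_left'
    have h1 : g ≡ 1 [MOD m] := hg2.of_dvd hmn
    exact_mod_cast h1
  rw [← hab, jacobiSym.mul_right' _ (pow_ne_zero 2 hb0.ne') ha0.ne', jacobiSym.pow_right,
    jacobiSym.sq_one hgb, jacobiSym.mul_right' _ hl.ne_zero hm0.ne', hgl, hgm]
  norm_num

theorem jac_sum (F : ℕ) (hF : Odd F) (hs : ¬ IsSquare F) :
    ∑ y ∈ (range F).filter (fun y => y.Coprime F), jacobiSym (y : ℤ) F = 0 := by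
  obtain ⟨g, hg, hgJ⟩ := exists_neg_one F hF hs
  have hF0 : 0 < F := hF.pos
  set S := (range F).filter (fun y => y.Coprime F) with hS
  have hmaps : ∀ y ∈ S, (g * y) % F ∈ S := by
    intro y hy
    rw [hS, mem_filter, mem_range] at hy ⊢
    refine ⟨Nat.mod_lt _ hF0, ?_⟩
    have h2 : (g * y).Coprime F := Nat.Coprime.mul_left hg hy.2
    have h3 : Nat.gcd ((g * y) % F) F = Nat.gcd (g * y) F := (Nat.mod_modEq (g * y) F).gcd_eq
    rw [Nat.Coprime, h3]
    exact h2
  have hinj : Set.InjOn (fun y => (g * y) % F) (S : Set ℕ) := by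
    intro y hy z hz hyz
    rw [hS, mem_coe, mem_filter, mem_range] at hy hz
    have h2 : g * y ≡ g * z [MOD F] := hyz
    have h3 : y ≡ z [MOD F] :=
      Nat.ModEq.cancel_left_of_coprime (by rw [Nat.gcd_comm]; exact hg) h2
    exact Nat.ModEq.eq_of_lt_of_lt h3 hy.1 hz.1
  have himage : S.image (fun y => (g * y) % F) = S := by
    apply Finset.eq_of_subset_of_card_le
    · intro z hz
      rw [mem_image] at hz
      obtain ⟨y, hy, rfl⟩ := hz
      exact hmaps y hy
    · rw [Finset.card_image_of_injOn hinj]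
  have h1 : ∑ y ∈ S, jacobiSym (y : ℤ) F =
      ∑ y ∈ S, jacobiSym (((g * y) % F : ℕ) : ℤ) F := by
    conv_lhs => rw [← himage]
    rw [Finset.sum_image hinj]
  have h2 : ∑ y ∈ S, jacobiSym (((g * y) % F : ℕ) : ℤ) F = - ∑ y ∈ S, jacobiSym (y : ℤ) F := by
    rw [← Finset.sum_neg_distrib]
    apply Finset.sum_congr rfl
    intro y _
    push_cast
    rw [← jacobiSym.mod_left, jacobiSym.mul_left, hgJ]
    ring
  rw [h2] at h1
  linarith

end TwHP
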