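import Pool.Agent.Lib.MP_e426f4_ag.TW.IsoBasic
import Pool.Agent.Lib.MP_e426f4_ag.TW.Res

/-!
# LocR: a real point gives integral vectors in any residue class

`s` real with all values nonzero; by continuity there is a ball of radius `r` around `s` on which all values keep
their signs.  `λ` a fixed integer `≥ 2 / r`; `U j = U0' j + M * ⌊λ s j⌋` with `0 ≤ U0' j < M` congruent to `U0 j`:
`U / (M λ)` is within `r` of `s`; by homogeneity the values at `U` have the same signs; `iso_real`.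
-/

set_option autoImplicit false

namespace TwHP

variable {ι : Type} [Fintype ι] {n : ℕ}

private theorem lr_cont (f : MvPolynomial (Fin (n + 1)) ℤ) :
    Continuous (fun t : Fin (n + 1) → ℝ => MvPolynomial.aeval t f) := by
  have h : ∀ t : Fin (n + 1) → ℝ, MvPolynomial.aeval t f
      = MvPolynomial.eval t (MvPolynomial.map (algebraMap ℤ ℝ) f) := by
    intro t
    rw [MvPolynomial.eval_map, MvPolynomial.aeval_def]
  simp_rw [h]
  exact MvPolynomial.continuous_eval _

private theorem lr_ball (F : ι → Bool → MvPolynomial (Fin (n + 1)) ℤ) (s : Fin (n + 1) → ℝ)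
    (hs : ∀ i b, MvPolynomial.aeval s (F i b) ≠ 0) :
    ∃ r : ℝ, 0 < r ∧ ∀ t : Fin (n + 1) → ℝ, (∀ j, |t j - s j| < r) → ∀ i b,
      0 < MvPolynomial.aeval t (F i b) * MvPolynomial.aeval s (F i b) := by
  have h1 : ∀ i b, ∀ᶠ t in nhds s,
      0 < MvPolynomial.aeval t (F i b) * MvPolynomial.aeval s (F i b) := by
    intro i b
    have hc : Continuous (fun t : Fin (n + 1) → ℝ =>
        MvPolynomial.aeval t (F i b) * MvPolynomial.aeval s (F i b)) :=
      (lr_cont (F i b)).mul continuous_const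
    refine hc.continuousAt.eventually (lt_mem_nhds ?_)
    exact mul_self_pos.2 (hs i b)
  have h2 : ∀ᶠ t in nhds s, ∀ i b,
      0 < MvPolynomial.aeval t (F i b) * MvPolynomial.aeval s (F i b) := by
    rw [Filter.eventually_all]
    intro i
    rw [Filter.eventually_all]
    exact fun b => h1 i b
  obtain ⟨r, hr, hball⟩ := Metric.eventually_nhds_iff.1 h2
  refine ⟨r, hr, fun t ht => hball ?_⟩
  rw [dist_pi_lt_iff hr]
  intro j
  rw [Real.dist_eq]
  exact ht j

/-- the sign of the value at `U` is the sign at `s` if `U = c t` with `t` close to `s` -/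
private theorem lr_scale (f : MvPolynomial (Fin (n + 1)) ℤ) (d : ℕ) (hf : f.IsHomogeneous d)
    (c : ℝ) (hc : 0 < c) (t : Fin (n + 1) → ℝ) (v : ℝ) (h : 0 < MvPolynomial.aeval t f * v)
    (U : Fin (n + 1) → ℤ) (hU : ∀ j, (U j : ℝ) = c * t j) :
    0 < ((MvPolynomial.eval U f : ℤ) : ℝ) * v := by
  have h1 : ((MvPolynomial.eval U f : ℤ) : ℝ) = c ^ d * MvPolynomial.aeval t f := by
    rw [← aeval_cast ℝ f U, ← eval_smul f d hf c t]
    congr 2
    funext j
    exact hU j
  rw [h1, mul_assoc]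
  exact mul_pos (pow_pos hc d) h

theorem loc_r (F : ι → Bool → MvPolynomial (Fin (n + 1)) ℤ) (d : ι → Bool → ℕ)
    (hom : ∀ i b, (F i b).IsHomogeneous (d i b)) (a : ℤ) (ha : a ≠ 0) (h : Sol F a ℝ) :
    ∃ K : ℕ, 1 ≤ K ∧ ∀ M : ℕ, 0 < M → ∀ U0 : Fin (n + 1) → ℤ, ∃ U : Fin (n + 1) → ℤ,
      (∀ j, (M : ℤ) ∣ U j - U0 j) ∧ (∀ j, |U j| ≤ K * M) ∧
      (∀ i b, MvPolynomial.eval U (F i b) ≠ 0) ∧
      ∀ i, Iso (a : ℝ) (-((MvPolynomial.eval U (F i false) : ℤ) : ℝ))
        (-((MvPolynomial.eval U (F i true) : ℤ) : ℝ)) := by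
  obtain ⟨s, hs, hiso⟩ := h
  obtain ⟨r, hr, hball⟩ := lr_ball F s hs
  obtain ⟨l, hl⟩ := exists_nat_gt (1 / r)
  have hl0 : (0 : ℝ) < l := lt_trans (by positivity) hl
  have hlr : 1 / (l : ℝ) < r := by
    rw [div_lt_iff₀ hl0]
    rw [div_lt_iff₀ hr] at hl
    linarith
  set S : ℝ := ∑ j, |s j| with hS
  have hSj : ∀ j, |s j| ≤ S := fun j =>
    Finset.single_le_sum (f := fun j => |s j|) (fun _ _ => abs_nonneg _) (Finset.mem_univ j)
  set K : ℕ := ⌈(l : ℝ) * S⌉₊ + 2 with hK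
  have hKl : (l : ℝ) * S + 2 ≤ K := by
    rw [hK]
    push_cast
    have := Nat.le_ceil ((l : ℝ) * S)
    linarith
  refine ⟨K, by omega, ?_⟩
  intro M hM U0
  have hM0 : (0 : ℝ) < M := by exact_mod_cast hM
  have hMz : (0 : ℤ) < M := by exact_mod_cast hM
  set U : Fin (n + 1) → ℤ := fun j => U0 j % M + M * ⌊(l : ℝ) * s j⌋ with hUdef
  -- the approximation
  have hr1 : ∀ j, (0 : ℝ) ≤ ((U0 j % M : ℤ) : ℝ) := fun j => by
    exact_mod_cast Int.emod_nonneg _ hMz.ne'
  have hr2 : ∀ j, ((U0 j % M : ℤ) : ℝ) < M := fun j => by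
    exact_mod_cast Int.emod_lt_of_pos (U0 j) hMz
  have hUr : ∀ j, (U j : ℝ) = ((U0 j % M : ℤ) : ℝ) + M * (⌊(l : ℝ) * s j⌋ : ℝ) := fun j => by
    simp only [hUdef]
    push_cast
    ring
  have hsign : ∀ i b, 0 < ((MvPolynomial.eval U (F i b) : ℤ) : ℝ) * MvPolynomial.aeval s (F i b) := by
    intro i b
    refine lr_scale (F i b) (d i b) (hom i b) (M * l) (by positivity)
      (fun j => (U j : ℝ) / (M * l)) _ ?_ U (fun j => by field_simp)
    refine hball _ (fun j => ?_) i b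
    refine lt_trans ?_ hlr
    have h1 := Int.floor_le ((l : ℝ) * s j)
    have h2 := Int.lt_floor_add_one ((l : ℝ) * s j)
    have e1 : (U j : ℝ) / (M * l) - s j
        = (((U0 j % M : ℤ) : ℝ) + M * ((⌊(l : ℝ) * s j⌋ : ℝ) - l * s j)) / (M * l) := by
      rw [hUr]
      field_simp
      ring
    rw [e1, abs_div, abs_of_pos (show (0 : ℝ) < M * l by positivity), div_lt_div_iff₀
      (by positivity) hl0]
    have h3 : |((U0 j % M : ℤ) : ℝ) + M * ((⌊(l : ℝ) * s j⌋ : ℝ) - l * s j)| < M := by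
      rw [abs_lt]
      have h4 := hr1 j
      have h5 := hr2 j
      constructor
      · nlinarith
      · nlinarith
    nlinarith
  refine ⟨U, fun j => ?_, fun j => ?_, fun i b hcon => ?_, fun i => ?_⟩
  · refine (Int.modEq_iff_dvd).1 ?_
    show U0 j ≡ U j [ZMOD M]
    simp only [hUdef]
    unfold Int.ModEq
    simp [Int.add_mul_emod_self_left]
  · have h1 := hr1 j
    have h2 := hr2 j
    have h3 := Int.floor_le ((l : ℝ) * s j)
    have h4 := Int.lt_floor_add_one ((l : ℝ) * s j)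
    have h5 : (l : ℝ) * |s j| ≤ l * S := mul_le_mul_of_nonneg_left (hSj j) hl0.le
    have h6 : |(l : ℝ) * s j| = l * |s j| := by rw [abs_mul, abs_of_pos hl0]
    have h7 := abs_le.1 (le_of_eq h6)
    have h8 : |(U j : ℝ)| ≤ K * M := by
      rw [hUr, abs_le]
      constructor
      · nlinarith
      · nlinarith
    have h9 : ((|U j| : ℤ) : ℝ) ≤ ((K * M : ℤ) : ℝ) := by
      push_cast
      exact h8
    exact_mod_cast h9
  · have h1 := hsign i b
    rw [hcon] at h1
    simp at h1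
  · refine iso_real _ _ _ _ _ _ ?_ ?_ ?_ (hiso i)
    · exact mul_self_pos.2 (by exact_mod_cast ha)
    · have h1 := hsign i false
      rw [neg_mul_neg]
      linarith
    · have h1 := hsign i true
      rw [neg_mul_neg]
      linarith

/-- far out on the line `x U + V` the values have the signs of the values at `U` -/
theorem sign_line (F : ι → Bool → MvPolynomial (Fin (n + 1)) ℤ) (d : ι → Bool → ℕ)
    (hom : ∀ i b, (F i b).IsHomogeneous (d i b)) (U V : Fin (n + 1) → ℤ)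
    (hU : ∀ i b, MvPolynomial.eval U (F i b) ≠ 0) :
    ∃ x0 : ℕ, 0 < x0 ∧ ∀ x : ℕ, x0 ≤ x → ∀ i b,
      0 < MvPolynomial.eval (fun j => (x : ℤ) * U j + V j) (F i b) * MvPolynomial.eval U (F i b) := by
  have hU' : ∀ i b, MvPolynomial.aeval (fun j => (U j : ℝ)) (F i b) ≠ 0 := fun i b => by
    rw [aeval_cast]
    exact_mod_cast hU i b
  obtain ⟨r, hr, hball⟩ := lr_ball F (fun j => (U j : ℝ)) hU'
  set S : ℝ := ∑ j, |(V j : ℝ)| with hS
  have hSj : ∀ j, |(V j : ℝ)| ≤ S := fun j =>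
    Finset.single_le_sum (f := fun j => |(V j : ℝ)|) (fun _ _ => abs_nonneg _) (Finset.mem_univ j)
  obtain ⟨x0, hx0⟩ := exists_nat_gt (S / r)
  refine ⟨x0 + 1, by omega, fun x hx i b => ?_⟩
  have hxr : (x0 : ℝ) + 1 ≤ x := by exact_mod_cast hx
  have hx0' : (0 : ℝ) ≤ x0 := by positivity
  have hxpos : (0 : ℝ) < x := by linarith
  have hSx : S < r * x := by
    rw [div_lt_iff₀ hr] at hx0
    nlinarith
  have h1 := lr_scale (F i b) (d i b) (hom i b) (x : ℝ) hxpos
    (fun j => (U j : ℝ) + (V j : ℝ) / x) (MvPolynomial.aeval (fun j => (U j : ℝ)) (F i b))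
    (hball _ (fun j => by
      rw [add_sub_cancel_left, abs_div, abs_of_pos hxpos, div_lt_iff₀ hxpos]
      exact lt_of_le_of_lt (hSj j) hSx) i b)
    (fun j => (x : ℤ) * U j + V j) (fun j => by
      push_cast
      field_simp)
  rw [aeval_cast] at h1
  exact_mod_cast h1

end TwHP
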