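import Pool.Agent.Lib.MP_e426f4_ag.TW.LocP
import Pool.Agent.Lib.MP_e426f4_ag.TW.LocR
import Pool.Agent.Lib.MP_e426f4_ag.TW.BSum

/-!
# LineW: choice of the line (`U, V`) for a class

Given: one `a ≠ 0` with real and `p`-adic points for `p ≤ w`, a good pair `(Us, Vs)` for the polynomial
`R = ρ · f(U)` (any polynomial `R` in `2(n+1)` variables with `R(Us, Vs) ≠ 0`, `|R(Us,Vs)| ≤ w`), `ft = ∏ F`.
Fix `kap` with `p^kap` fine enough for `loc_p` for all `p ≤ w`.  Let `W1 > w` be large (at the end `W1 → ∞`), such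
that there is a prime in `(w, W1]`.  CRT modulo `M1 = ∏_{p≤w} p^kap * ∏_{w<q≤W1} q`:
`U ≡ s^(p)` mod `p^kap`, `U ≡ Us` mod `q`; by `loc_r` with this modulus, `|U| ≤ K M1`.  `V ≡ 0` mod `p^kap`, `V ≡ Vs` mod
`q`, and for each prime `q > W1` dividing `ft(U) ≠ 0`: `V ≡ V_q` mod `q` where `ft(V_q) ≠ 0` mod `q` (exists: if `ft`
vanished identically on `(ℤ/q)^{n+1}`, then, for `q` > degree, all coefficients would be `0` mod `q`; but `q ∤ ft(Us')`
for a fixed point; simply: `ft(Us) ≠ 0`?  use `hS`: `ft(Us)` is nonzero of absolute value `≤ w < q`, so take `V_q = Us`).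
`0 ≤ V < M1 * |ft(U)|`.  Then `R(U,V) ≡ R(Us,Vs) ≠ 0` mod every prime in `(w, W1]`, so `R(U,V) ≠ 0` and its primes `> w` are
`> W1`; `log |R(U,V)| ≤ C (log K + log M1 + log|ft(U)|) ≤ C' + C' W1` (`primorial_le_4_pow`), so by `bsum` the sum
of `1/q` over the primes `q > w` of `R(U,V)` is `≤ (C' + C' W1)/(W1 log W1) ≤ η` for `W1` large.
-/

set_option autoImplicit false

namespace TwHP

variable {ι : Type} [Fintype ι] {n : ℕ}


/-- CRT for integral vectors -/
private theorem crt_vec {m : ℕ} (S : Finset ℕ) (md : ℕ → ℕ) (hmd : ∀ q ∈ S, md q ≠ 0)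
    (hco : Set.Pairwise (S : Set ℕ) (fun a b => Nat.Coprime (md a) (md b)))
    (t : ℕ → Fin m → ℤ) :
    ∃ U : Fin m → ℤ, (∀ q ∈ S, ∀ j, (md q : ℤ) ∣ U j - t q j) ∧
      ∀ j, 0 ≤ U j ∧ U j < ∏ q ∈ S, (md q : ℤ) := by
  have h : ∀ j : Fin m, ∃ x : ℤ, (∀ q ∈ S, (md q : ℤ) ∣ x - t q j) ∧
      0 ≤ x ∧ x < ∏ q ∈ S, (md q : ℤ) := by
    intro j
    let a : ℕ → ℕ := fun q => (t q j % (md q : ℤ)).toNat
    have hx := (Nat.chineseRemainderOfFinset a md S hmd hco).2
    have hlt := Nat.chineseRemainderOfFinset_lt_prod a md hmd hco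
    refine ⟨((Nat.chineseRemainderOfFinset a md S hmd hco : ℕ) : ℤ), ?_, by positivity, ?_⟩
    · intro q hq
      have h1 := hx q hq
      have h2 : ((Nat.chineseRemainderOfFinset a md S hmd hco : ℕ) : ℤ) ≡ (a q : ℤ) [ZMOD (md q : ℤ)] :=
        (Int.natCast_modEq_iff).mpr h1
      have hpos : (0 : ℤ) < md q := by
        have := hmd q hq
        omega
      have h3 : (a q : ℤ) = t q j % (md q : ℤ) :=
        Int.toNat_of_nonneg (Int.emod_nonneg _ hpos.ne')
      rw [h3] at h2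
      have h4 : ((Nat.chineseRemainderOfFinset a md S hmd hco : ℕ) : ℤ) ≡ t q j [ZMOD (md q : ℤ)] :=
        h2.trans (Int.mod_modEq _ _)
      exact h4.symm.dvd
    · exact_mod_cast hlt
  choose U hU using h
  exact ⟨U, fun q hq j => (hU j).1 q hq, fun j => (hU j).2⟩

private theorem exists_W1 (α β η : ℝ) (hα : 0 ≤ α) (hβ : 0 ≤ β) (hη : 0 < η) (w : ℕ) :
    ∃ W1 : ℕ, w ≤ W1 ∧ 2 ≤ W1 ∧ (α + β * W1) / (W1 * Real.log W1) ≤ η := by
  obtain ⟨N, hN⟩ := exists_nat_ge (Real.exp ((α + β) / η))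
  refine ⟨max (max w 2) N, (le_max_left _ _).trans (le_max_left _ _),
    (le_max_right _ _).trans (le_max_left _ _), ?_⟩
  set W := max (max w 2) N with hW
  have h2 : 2 ≤ W := (le_max_right _ _).trans (le_max_left _ _)
  have h2' : (2 : ℝ) ≤ W := by exact_mod_cast h2
  have hN' : (N : ℝ) ≤ W := by exact_mod_cast le_max_right (max w 2) N
  have hlog : (α + β) / η ≤ Real.log W := by
    rw [Real.le_log_iff_exp_le (by linarith)]
    exact hN.trans hN'
  have hlogpos : 0 < Real.log W := Real.log_pos (by linarith)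
  rw [div_le_iff₀ (by positivity)]
  have h3 : α + β * W ≤ (α + β) * W := by nlinarith
  have h4 : α + β ≤ η * Real.log W := by
    rw [div_le_iff₀ hη] at hlog
    linarith
  calc α + β * W ≤ (α + β) * W := h3
    _ ≤ (η * Real.log W) * W := by
        apply mul_le_mul_of_nonneg_right h4
        linarith
    _ = η * (W * Real.log W) := by ring

theorem line_w (F : ι → Bool → MvPolynomial (Fin (n + 1)) ℤ) (d : ι → Bool → ℕ)
    (hom : ∀ i b, (F i b).IsHomogeneous (d i b)) (ev : ∀ i b, Even (d i b))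
    (R : MvPolynomial (Fin (n + 1) ⊕ Fin (n + 1)) ℤ) (Us Vs : Fin (n + 1) → ℤ)
    (hR : MvPolynomial.eval (Sum.elim Us Vs) R ≠ 0)
    (hS : MvPolynomial.eval Us (∏ i, F i false * F i true) ≠ 0) (w : ℕ) (hw : 2 ≤ w)
    (hRw : |MvPolynomial.eval (Sum.elim Us Vs) R| ≤ w)
    (hSw : |MvPolynomial.eval Us (∏ i, F i false * F i true)| ≤ w) (a : ℤ) (ha : a ≠ 0)
    (hr : Sol F a ℝ) (hp : ∀ (p : ℕ) [Fact p.Prime], p ≤ w → Sol F a ℚ_[p]) (η : ℝ) (hη : 0 < η) :
    ∃ (U V : Fin (n + 1) → ℤ) (k : ℕ), 0 < k ∧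
      (∀ i b, MvPolynomial.eval U (F i b) ≠ 0) ∧
      (∀ i, Iso (a : ℝ) (-((MvPolynomial.eval U (F i false) : ℤ) : ℝ))
        (-((MvPolynomial.eval U (F i true) : ℤ) : ℝ))) ∧
      (∀ (p : ℕ) [Fact p.Prime], p ≤ w → ∀ x : ℤ, ((p : ℤ) ^ k) ∣ x - 1 →
        (∀ i b, MvPolynomial.eval (fun j => x * U j + V j) (F i b) ≠ 0) ∧
        ∀ i, Iso (a : ℚ_[p])
          (-((MvPolynomial.eval (fun j => x * U j + V j) (F i false) : ℤ) : ℚ_[p]))
          (-((MvPolynomial.eval (fun j => x * U j + V j) (F i true) : ℤ) : ℚ_[p]))) ∧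
      MvPolynomial.eval (Sum.elim U V) R ≠ 0 ∧
      (∀ q : ℕ, q.Prime → w < q → (q : ℤ) ∣ MvPolynomial.eval U (∏ i, F i false * F i true) →
        ¬ (q : ℤ) ∣ MvPolynomial.eval V (∏ i, F i false * F i true)) ∧
      ∑ q ∈ (MvPolynomial.eval (Sum.elim U V) R).natAbs.primeFactors.filter (w < ·), (1 : ℝ) / q ≤
        η := by
  classical
  set ft : MvPolynomial (Fin (n + 1)) ℤ := ∏ i, F i false * F i true with hft
  have hex : ∀ p : ℕ, ∃ (s : Fin (n + 1) → ℤ) (k : ℕ), ∀ [Fact p.Prime], p ≤ w →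
      ∀ t : Fin (n + 1) → ℤ, (∀ j, ((p : ℤ) ^ k) ∣ t j - s j) →
      (∀ i b, MvPolynomial.eval t (F i b) ≠ 0) ∧
      ∀ i, Iso (a : ℚ_[p]) (-((MvPolynomial.eval t (F i false) : ℤ) : ℚ_[p]))
        (-((MvPolynomial.eval t (F i true) : ℤ) : ℚ_[p])) := by
    intro p
    by_cases h : p.Prime ∧ p ≤ w
    · haveI := Fact.mk h.1
      obtain ⟨s, k, h1⟩ := loc_p F d hom ev p a (hp p h.2)
      exact ⟨s, k, fun _ t ht => h1 t ht⟩
    · refine ⟨0, 0, ?_⟩
      intro hF hpw
      exact absurd ⟨hF.out, hpw⟩ h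
  choose s k hsk using hex
  set kap : ℕ := 1 + ∑ p ∈ Finset.range (w + 1), k p with hkap
  have hkle : ∀ p, p ≤ w → k p ≤ kap := by
    intro p hpw
    have := Finset.single_le_sum (f := k) (s := Finset.range (w + 1)) (fun i _ => Nat.zero_le _)
      (Finset.mem_range.mpr (by omega : p < w + 1))
    omega
  set md : ℕ → ℕ := fun q => q ^ (if q ≤ w then kap else 1) with hmd
  have hmdw : ∀ q, q ≤ w → md q = q ^ kap := fun q hq => by simp [hmd, hq]
  have hmdW : ∀ q, ¬ q ≤ w → md q = q := fun q hq => by simp [hmd, hq]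
  set P : ℕ → Finset ℕ := fun W => (Finset.range (W + 1)).filter Nat.Prime with hP
  have hmemP : ∀ W q, q ∈ P W ↔ q ≤ W ∧ q.Prime := by
    intro W q
    simp [hP, Nat.lt_succ_iff]
  set M0 : ℕ := ∏ q ∈ P w, q ^ kap with hM0
  have hM0pos : 0 < M0 := Finset.prod_pos fun q hq => pow_pos ((hmemP w q).mp hq).2.pos _
  obtain ⟨K, hK1, hK⟩ := loc_r F d hom a ha hr
  obtain ⟨Kf, hKf1, hKf⟩ := eval_size ft
  obtain ⟨KR, hKR1, hKR⟩ := eval_size R
  have hM0' : (0 : ℝ) ≤ Real.log M0 := Real.log_natCast_nonneg _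
  have hK' : (0 : ℝ) ≤ Real.log K := Real.log_natCast_nonneg _
  have hKf' : (0 : ℝ) ≤ Real.log Kf := Real.log_natCast_nonneg _
  have hKR' : (0 : ℝ) ≤ Real.log KR := Real.log_natCast_nonneg _
  have hlog4 : (0 : ℝ) ≤ Real.log 4 := Real.log_nonneg (by norm_num)
  obtain ⟨W1, hW1w, hW12, hW1⟩ := exists_W1
    (Real.log KR + KR * ((1 + Kf) * Real.log M0 + (1 + Kf) * Real.log K + Real.log Kf))
    (KR * (1 + Kf) * Real.log 4) η (by positivity) (by positivity) hη (2 * w)
  have hwW1 : w ≤ W1 := by omega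
  -- the modulus
  set M1 : ℕ := ∏ q ∈ P W1, md q with hM1
  have hmdpos : ∀ q : ℕ, q.Prime → 0 < md q := fun q hq => pow_pos hq.pos _
  have hM1pos : 0 < M1 := Finset.prod_pos fun q hq => hmdpos q ((hmemP W1 q).mp hq).2
  have hcop : ∀ q q' : ℕ, q.Prime → q'.Prime → q ≠ q' → Nat.Coprime (md q) (md q') := by
    intro q q' h1 h2 h3
    exact Nat.Coprime.pow _ _ ((Nat.coprime_primes h1 h2).mpr h3)
  have hM1le : M1 ≤ M0 * 4 ^ W1 := by
    have h1 : M1 = (∏ q ∈ (P W1).filter (· ≤ w), md q) * ∏ q ∈ (P W1).filter (fun q => ¬ q ≤ w), md q :=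
      (Finset.prod_filter_mul_prod_filter_not _ _ _).symm
    have h2 : (P W1).filter (· ≤ w) = P w := by
      ext q
      rw [Finset.mem_filter, hmemP, hmemP]
      constructor
      · rintro ⟨⟨_, h⟩, h'⟩; exact ⟨h', h⟩
      · rintro ⟨h, h'⟩; exact ⟨⟨h.trans hwW1, h'⟩, h⟩
    have h3 : ∏ q ∈ (P W1).filter (· ≤ w), md q = M0 := by
      rw [h2, hM0]
      exact Finset.prod_congr rfl fun q hq => hmdw q ((hmemP w q).mp hq).1
    have h4 : ∏ q ∈ (P W1).filter (fun q => ¬ q ≤ w), md q ≤ 4 ^ W1 := by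
      calc ∏ q ∈ (P W1).filter (fun q => ¬ q ≤ w), md q
          = ∏ q ∈ (P W1).filter (fun q => ¬ q ≤ w), q :=
            Finset.prod_congr rfl fun q hq => hmdW q (Finset.mem_filter.mp hq).2
        _ ≤ ∏ q ∈ P W1, q := by
            apply Finset.prod_le_prod_of_subset_of_one_le' (Finset.filter_subset _ _)
            intro q hq _
            exact ((hmemP W1 q).mp hq).2.one_lt.le
        _ ≤ 4 ^ W1 := primorial_le_four_pow W1
    rw [h1, h3]
    exact Nat.mul_le_mul_left _ h4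
  obtain ⟨U0, hU0, -⟩ := crt_vec (P W1) md (fun q hq => (hmdpos q ((hmemP W1 q).mp hq).2).ne')
    (fun q hq q' hq' hne => hcop q q' ((hmemP W1 q).mp (Finset.mem_coe.mp hq)).2
      ((hmemP W1 q').mp (Finset.mem_coe.mp hq')).2 hne)
    (fun q => if q ≤ w then s q else Us)
  obtain ⟨U, hU1, hU2, hU3, hU4⟩ := hK M1 hM1pos U0
  have hUq : ∀ q ∈ P W1, ∀ j, (md q : ℤ) ∣ U j - (if q ≤ w then s q else Us) j := by
    intro q hq j
    have h1 : (md q : ℤ) ∣ U j - U0 j :=
      (Int.natCast_dvd_natCast.mpr (Finset.dvd_prod_of_mem md hq)).trans (hU1 j)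
    have h2 := dvd_add h1 (hU0 q hq j)
    simpa using h2
  set ftU : ℤ := MvPolynomial.eval U ft with hftU
  have hftU0 : ftU ≠ 0 := by
    rw [hftU, hft, map_prod]
    refine Finset.prod_ne_zero_iff.mpr fun i _ => ?_
    rw [map_mul]
    exact mul_ne_zero (hU3 i false) (hU3 i true)
  -- the second vector
  set S2 : Finset ℕ := P W1 ∪ ftU.natAbs.primeFactors.filter (W1 < ·) with hS2
  have hS2p : ∀ q ∈ S2, q.Prime := by
    intro q hq
    rcases Finset.mem_union.mp hq with h | h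
    · exact ((hmemP W1 q).mp h).2
    · exact Nat.prime_of_mem_primeFactors (Finset.mem_filter.mp h).1
  obtain ⟨V, hV1, hV2⟩ := crt_vec S2 md (fun q hq => (hmdpos q (hS2p q hq)).ne')
    (fun q hq q' hq' hne => hcop q q' (hS2p q (Finset.mem_coe.mp hq))
      (hS2p q' (Finset.mem_coe.mp hq')) hne)
    (fun q => if q ≤ w then 0 else if q ≤ W1 then Vs else Us)
  -- small primes
  have hmul : ∀ q : ℕ, q.Prime → w < q → q ≤ W1 → (∀ j, (q : ℤ) ∣ U j - Us j) ∧
      ∀ j, (q : ℤ) ∣ V j - Vs j := by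
    intro q hq hwq hqW
    have hqP : q ∈ P W1 := (hmemP W1 q).mpr ⟨hqW, hq⟩
    have hnw : ¬ q ≤ w := by omega
    constructor
    · intro j
      have h1 := hUq q hqP j
      rw [if_neg hnw, hmdW q hnw] at h1
      exact h1
    · intro j
      have h1 := hV1 q (Finset.mem_union_left _ hqP) j
      simp only [if_neg hnw, if_pos hqW] at h1
      rw [hmdW q hnw] at h1
      exact h1
  have hnd : ∀ (q : ℕ) (z : ℤ), w < q → z ≠ 0 → |z| ≤ w → ¬ (q : ℤ) ∣ z := by
    intro q z hwq hz hzw hdvd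
    have h1 := Int.le_of_dvd (abs_pos.mpr hz) ((dvd_abs _ _).mpr hdvd)
    have h2 : (w : ℤ) < q := by exact_mod_cast hwq
    linarith
  have hRmid : ∀ q : ℕ, q.Prime → w < q → q ≤ W1 →
      ¬ (q : ℤ) ∣ MvPolynomial.eval (Sum.elim U V) R := by
    intro q hq hwq hqW hdvd
    obtain ⟨h1, h2⟩ := hmul q hq hwq hqW
    have h3 := eval_congr' R (q : ℤ) (Sum.elim U V) (Sum.elim Us Vs) (by
      rintro (j | j)
      · simpa using h1 j
      · simpa using h2 j)
    have h4 : (q : ℤ) ∣ MvPolynomial.eval (Sum.elim Us Vs) R := by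
      have := dvd_sub hdvd h3
      simpa using this
    exact hnd q _ hwq hR hRw h4
  obtain ⟨q0, hq0, hq0w, hq0W⟩ := Nat.exists_prime_lt_and_le_two_mul w (by omega)
  have hR0 : MvPolynomial.eval (Sum.elim U V) R ≠ 0 := by
    intro h
    apply hRmid q0 hq0 hq0w (hq0W.trans hW1w)
    rw [h]
    exact dvd_zero _
  have hftbig : ∀ q : ℕ, q.Prime → w < q → (q : ℤ) ∣ ftU → W1 < q ∧ ∀ j, (q : ℤ) ∣ V j - Us j := by
    intro q hq hwq hdvd
    have hnw : ¬ q ≤ w := by omega
    have hWq : W1 < q := by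
      by_contra hcon
      obtain ⟨h1, -⟩ := hmul q hq hwq (by omega)
      have h3 := eval_congr ft (q : ℤ) U Us h1
      have h4 : (q : ℤ) ∣ MvPolynomial.eval Us ft := by
        have := dvd_sub hdvd h3
        simpa [hftU] using this
      exact hnd q _ hwq hS hSw h4
    refine ⟨hWq, ?_⟩
    have hmem : q ∈ S2 := by
      apply Finset.mem_union_right
      rw [Finset.mem_filter]
      refine ⟨Nat.mem_primeFactors.mpr ⟨hq, ?_, ?_⟩, hWq⟩
      · exact Int.natCast_dvd.mp hdvd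
      · exact Int.natAbs_ne_zero.mpr hftU0
    intro j
    have h1 := hV1 q hmem j
    simp only [if_neg hnw, if_neg (show ¬ q ≤ W1 by omega)] at h1
    rw [hmdW q hnw] at h1
    exact h1
  refine ⟨U, V, kap, by omega, hU3, hU4, ?_, hR0, ?_, ?_⟩
  · intro p hpF hpw x hx
    have hpP : p ∈ P W1 := (hmemP W1 p).mpr ⟨hpw.trans hwW1, hpF.out⟩
    apply hsk p hpw
    intro j
    have h1 := hUq p hpP j
    have h2 := hV1 p (Finset.mem_union_left _ hpP) j
    rw [if_pos hpw, hmdw p hpw] at h1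
    simp only [if_pos hpw] at h2
    rw [hmdw p hpw] at h2
    push_cast at h1 h2
    have h3 : (p : ℤ) ^ kap ∣ (x - 1) * U j + (U j - s p j) + V j := by
      refine dvd_add (dvd_add (Dvd.dvd.mul_right hx _) h1) ?_
      simpa using h2
    have h4 : (x - 1) * U j + (U j - s p j) + V j = x * U j + V j - s p j := by ring
    rw [h4] at h3
    exact (pow_dvd_pow _ (hkle p hpw)).trans h3
  · intro q hq hwq hdvd hdvd'
    obtain ⟨-, h1⟩ := hftbig q hq hwq hdvd
    have h3 := eval_congr ft (q : ℤ) V Us h1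
    have h4 : (q : ℤ) ∣ MvPolynomial.eval Us ft := by
      have := dvd_sub hdvd' h3
      simpa using this
    exact hnd q _ hwq hS hSw h4
  · -- the sum of the reciprocals
    set RR : ℤ := MvPolynomial.eval (Sum.elim U V) R with hRR
    have hRRpos : 0 < RR.natAbs := Int.natAbs_pos.mpr hR0
    have h1 := bsum RR.natAbs W1 hRRpos hW12 (RR.natAbs.primeFactors.filter (w < ·)) (by
      intro q hq
      obtain ⟨hq1, hq2⟩ := Finset.mem_filter.mp hq
      have hqp := Nat.prime_of_mem_primeFactors hq1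
      refine ⟨hqp, Nat.dvd_of_mem_primeFactors hq1, ?_⟩
      by_contra hcon
      exact hRmid q hqp hq2 (by omega) (Int.natCast_dvd.mpr (Nat.dvd_of_mem_primeFactors hq1)))
    refine h1.trans (le_trans ?_ hW1)
    have hW1' : (2 : ℝ) ≤ W1 := by exact_mod_cast hW12
    have hden : (0 : ℝ) < W1 * Real.log W1 := mul_pos (by linarith) (Real.log_pos (by linarith))
    apply div_le_div_of_nonneg_right _ hden.le
    -- size of `R(U, V)`
    set B : ℕ := K * M1 * (Kf * (K * M1) ^ Kf) with hB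
    have hKM : 1 ≤ K * M1 := Nat.one_le_iff_ne_zero.mpr (by positivity)
    have hftle : |ftU| ≤ Kf * ((K * M1 : ℕ) : ℤ) ^ Kf := hKf (K * M1) hKM U (fun j => by
      push_cast
      exact hU2 j)
    have hKfpos : 1 ≤ Kf * (K * M1) ^ Kf := Nat.one_le_iff_ne_zero.mpr (by positivity)
    have hB1 : 1 ≤ B := Nat.one_le_iff_ne_zero.mpr (by positivity)
    have hVle : ∀ j, |V j| ≤ B := by
      intro j
      obtain ⟨h0, hlt⟩ := hV2 j
      rw [abs_of_nonneg h0]
      have hdisj : Disjoint (P W1) (ftU.natAbs.primeFactors.filter (W1 < ·)) := by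
        rw [Finset.disjoint_left]
        intro q hq hq'
        have := ((hmemP W1 q).mp hq).1
        have := (Finset.mem_filter.mp hq').2
        omega
      have hprod : (∏ q ∈ S2, (md q : ℤ)) ≤ M1 * |ftU| := by
        rw [hS2, Finset.prod_union hdisj, hM1]
        push_cast
        apply mul_le_mul_of_nonneg_left _ (by positivity)
        have e1 : ∏ q ∈ ftU.natAbs.primeFactors.filter (W1 < ·), md q ≤ ftU.natAbs := by
          calc ∏ q ∈ ftU.natAbs.primeFactors.filter (W1 < ·), md q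
              = ∏ q ∈ ftU.natAbs.primeFactors.filter (W1 < ·), q :=
                Finset.prod_congr rfl fun q hq => hmdW q (by
                  have := (Finset.mem_filter.mp hq).2
                  omega)
            _ ≤ ∏ q ∈ ftU.natAbs.primeFactors, q := by
                apply Finset.prod_le_prod_of_subset_of_one_le' (Finset.filter_subset _ _)
                intro q hq _
                exact (Nat.prime_of_mem_primeFactors hq).one_lt.le
            _ ≤ ftU.natAbs := Nat.le_of_dvd (Int.natAbs_pos.mpr hftU0) (Nat.prod_primeFactors_dvd _)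
        have e2 : ((∏ q ∈ ftU.natAbs.primeFactors.filter (W1 < ·), md q : ℕ) : ℤ) ≤ (ftU.natAbs : ℤ) := by
          exact_mod_cast e1
        rw [Int.natCast_natAbs] at e2
        push_cast at e2
        exact e2
      have hM1B : (M1 : ℤ) * |ftU| ≤ B := by
        have h5 : (M1 : ℤ) ≤ ((K * M1 : ℕ) : ℤ) := by
          exact_mod_cast Nat.le_mul_of_pos_left M1 (by omega)
        calc (M1 : ℤ) * |ftU| ≤ ((K * M1 : ℕ) : ℤ) * (Kf * ((K * M1 : ℕ) : ℤ) ^ Kf) :=
              mul_le_mul h5 hftle (abs_nonneg _) (by positivity)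
          _ = B := by rw [hB]; push_cast; ring
      linarith
    have hUle : ∀ j, |U j| ≤ B := by
      intro j
      refine (hU2 j).trans ?_
      have : K * M1 ≤ B := Nat.le_mul_of_pos_right _ (by omega)
      exact_mod_cast this
    have hRle : |RR| ≤ KR * (B : ℤ) ^ KR := hKR B hB1 _ (by
      rintro (j | j)
      · exact hUle j
      · exact hVle j)
    have hRle' : (RR.natAbs : ℝ) ≤ KR * (B : ℝ) ^ KR := by
      have : (RR.natAbs : ℤ) ≤ KR * (B : ℤ) ^ KR := by rwa [Int.natCast_natAbs]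
      exact_mod_cast this
    have hRRpos' : (0 : ℝ) < RR.natAbs := by exact_mod_cast hRRpos
    have hM1R : (M1 : ℝ) ≤ M0 * 4 ^ W1 := by exact_mod_cast hM1le
    have hM1pos' : (0 : ℝ) < M1 := by exact_mod_cast hM1pos
    have hM0pos' : (0 : ℝ) < M0 := by exact_mod_cast hM0pos
    have hKpos' : (0 : ℝ) < K := by exact_mod_cast (show 0 < K by omega)
    have hKfpos' : (0 : ℝ) < Kf := by exact_mod_cast (show 0 < Kf by omega)
    have hKRpos' : (0 : ℝ) < KR := by exact_mod_cast (show 0 < KR by omega)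
    have hBpos' : (0 : ℝ) < B := by exact_mod_cast (show 0 < B by omega)
    have l1 : Real.log M1 ≤ Real.log M0 + W1 * Real.log 4 := by
      have := Real.log_le_log hM1pos' hM1R
      rwa [Real.log_mul hM0pos'.ne' (by positivity), Real.log_pow] at this
    have l2 : Real.log B = (1 + Kf) * Real.log K + (1 + Kf) * Real.log M1 + Real.log Kf := by
      rw [hB]
      push_cast
      rw [Real.log_mul (by positivity) (by positivity), Real.log_mul hKpos'.ne' hM1pos'.ne',
        Real.log_mul hKfpos'.ne' (by positivity), Real.log_pow,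
        Real.log_mul hKpos'.ne' hM1pos'.ne']
      ring
    have l3 : Real.log RR.natAbs ≤ Real.log KR + KR * Real.log B := by
      have := Real.log_le_log hRRpos' hRle'
      rwa [Real.log_mul hKRpos'.ne' (by positivity), Real.log_pow] at this
    have l4 : Real.log B ≤ (1 + Kf) * Real.log K + (1 + Kf) * (Real.log M0 + W1 * Real.log 4)
        + Real.log Kf := by
      rw [l2]
      have : (0 : ℝ) ≤ 1 + Kf := by positivity
      have := mul_le_mul_of_nonneg_left l1 this
      linarith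
    have l5 := mul_le_mul_of_nonneg_left l4 hKRpos'.le
    calc Real.log RR.natAbs ≤ Real.log KR + KR * Real.log B := l3
      _ ≤ Real.log KR + KR * ((1 + Kf) * Real.log K + (1 + Kf) * (Real.log M0 + W1 * Real.log 4)
        + Real.log Kf) := by linarith
      _ = _ := by ring

end TwHP
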