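import Pool.Agent.Lib.MP_e426f4_ag.TW.Defs
import Pool.Agent.Lib.MP_dd84fd_nt.E2.PiSW

/-!
# PCount: primes in `(P, 2P]` in a class

`pi_sw` (prime number theorem in progressions, in `Lib/MP_dd84fd_nt/E2/PiSW.lean`) at `2P` and `P`;
`Li(2P) - Li(P) ≤ P / log P`.
-/

set_option autoImplicit false

namespace TwHP

open Finset

/-- Siegel-Walfisz for primes in `(P, 2P]`. -/
theorem ioc_sw (A B : ℕ) : ∃ X0 : ℕ, ∀ P : ℕ, X0 ≤ 2 * P → ∀ r c : ℕ, 1 ≤ r →
    (r : ℝ) ≤ (Real.log ((2 * P : ℕ) : ℝ)) ^ B → Nat.Coprime c r →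
    |(((Ioc P (2 * P)).filter (fun n => n.Prime ∧ n ≡ c [MOD r])).card : ℝ) -
      (Pool.MP_dd84fd_nt.E2.Li (2 * P) - Pool.MP_dd84fd_nt.E2.Li P) / (Nat.totient r : ℝ)| ≤
      4 * P / (Real.log ((2 * P : ℕ) : ℝ)) ^ A := by
  obtain ⟨X0, hX0⟩ := Pool.MP_dd84fd_nt.E2.pi_sw A B
  refine ⟨X0, fun P hP r c hr hrB hc => ?_⟩
  have h1 := hX0 (2 * P) hP r c hr hrB hc (2 * P) le_rfl
  have h2 := hX0 (2 * P) hP r c hr hrB hc P (by omega)
  have h3 : ((Icc 1 (2 * P)).filter (fun n => n.Prime ∧ n ≡ c [MOD r])).card =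
      ((Icc 1 P).filter (fun n => n.Prime ∧ n ≡ c [MOD r])).card +
      ((Ioc P (2 * P)).filter (fun n => n.Prime ∧ n ≡ c [MOD r])).card := by
    rw [← card_union_of_disjoint]
    · congr 1
      ext n
      simp only [mem_filter, mem_union, mem_Icc, mem_Ioc]
      constructor
      · rintro ⟨h, h'⟩
        by_cases hn : n ≤ P
        · exact Or.inl ⟨⟨h.1, hn⟩, h'⟩
        · exact Or.inr ⟨⟨by omega, h.2⟩, h'⟩
      · rintro (⟨h, h'⟩ | ⟨h, h'⟩)
        · exact ⟨⟨h.1, by omega⟩, h'⟩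
        · exact ⟨⟨by omega, h.2⟩, h'⟩
    · rw [disjoint_left]
      intro n hn hn'
      rw [mem_filter, mem_Icc] at hn
      rw [mem_filter, mem_Ioc] at hn'
      omega
  rw [h3] at h1
  push_cast at h1 h2 ⊢
  have h4 : (((Ioc P (2 * P)).filter (fun n => n.Prime ∧ n ≡ c [MOD r])).card : ℝ) -
      (Pool.MP_dd84fd_nt.E2.Li (2 * P) - Pool.MP_dd84fd_nt.E2.Li P) / (Nat.totient r : ℝ) =
      ((((Icc 1 P).filter (fun n => n.Prime ∧ n ≡ c [MOD r])).card : ℝ) +
        (((Ioc P (2 * P)).filter (fun n => n.Prime ∧ n ≡ c [MOD r])).card : ℝ) -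
        Pool.MP_dd84fd_nt.E2.Li (2 * P) / (Nat.totient r : ℝ)) -
      ((((Icc 1 P).filter (fun n => n.Prime ∧ n ≡ c [MOD r])).card : ℝ) -
        Pool.MP_dd84fd_nt.E2.Li P / (Nat.totient r : ℝ)) := by ring
  rw [h4]
  refine (abs_sub _ _).trans ?_
  calc _ ≤ 2 * (P : ℝ) / Real.log (2 * P) ^ A + 2 * P / Real.log (2 * P) ^ A := add_le_add h1 h2
    _ = 4 * P / Real.log (2 * P) ^ A := by ring

theorem p_count (m : ℕ) (hm : 0 < m) : ∃ P0 : ℕ, ∀ P : ℕ, P0 ≤ P → ∀ v : ℕ, v.Coprime m →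
    (((Ioc P (2 * P)).filter fun p => p.Prime ∧ p ≡ v [MOD m]).card : ℝ) ≤
      2 * P / (Nat.totient m * Real.log P) := by
  obtain ⟨X0, hX0⟩ := ioc_sw 2 1
  have hloglim : Filter.Tendsto (fun X : ℕ => Real.log (X : ℝ)) Filter.atTop Filter.atTop :=
    Real.tendsto_log_atTop.comp tendsto_natCast_atTop_atTop
  have ev := (hloglim.eventually_ge_atTop (4 * m + 1)).and (Filter.eventually_ge_atTop (X0 + 2))
  obtain ⟨P0, hP0⟩ := Filter.eventually_atTop.1 ev
  refine ⟨P0, fun P hP v hv => ?_⟩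
  obtain ⟨h1, h2⟩ := hP0 P hP
  have hP2 : (2 : ℝ) ≤ P := by
    have : 2 ≤ P := by omega
    exact_mod_cast this
  have hm1 : (1 : ℝ) ≤ m := by exact_mod_cast hm
  have hL0 : 0 < Real.log P := by linarith
  have hLL : Real.log P ≤ Real.log ((2 * P : ℕ) : ℝ) := by
    apply Real.log_le_log (by linarith)
    push_cast
    linarith
  have h3 := hX0 P (by omega) m v hm (by rw [pow_one]; linarith) hv
  have hφ0 : 0 < Nat.totient m := Nat.totient_pos.2 hm
  have hφ : (1 : ℝ) ≤ Nat.totient m := by exact_mod_cast hφ0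
  have hφm : (Nat.totient m : ℝ) ≤ m := by exact_mod_cast Nat.totient_le m
  have hLi : Pool.MP_dd84fd_nt.E2.Li (2 * P) - Pool.MP_dd84fd_nt.E2.Li P ≤ P / Real.log P := by
    have e1 : Pool.MP_dd84fd_nt.E2.Li (2 * P) - Pool.MP_dd84fd_nt.E2.Li P =
        ∑ k ∈ Ioc P (2 * P), 1 / Real.log (k : ℝ) := by
      unfold Pool.MP_dd84fd_nt.E2.Li
      have e2 : Icc 2 (2 * P) = Icc 2 P ∪ Ioc P (2 * P) := by
        ext n
        simp only [mem_union, mem_Icc, mem_Ioc]
        omega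
      rw [e2, sum_union]
      · ring
      · rw [disjoint_left]
        intro n hn hn'
        rw [mem_Icc] at hn
        rw [mem_Ioc] at hn'
        omega
    rw [e1]
    calc ∑ k ∈ Ioc P (2 * P), 1 / Real.log (k : ℝ) ≤ ∑ _k ∈ Ioc P (2 * P), 1 / Real.log (P : ℝ) := by
          apply sum_le_sum
          intro k hk
          rw [mem_Ioc] at hk
          apply one_div_le_one_div_of_le hL0
          apply Real.log_le_log (by linarith)
          exact_mod_cast hk.1.le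
      _ = P / Real.log P := by
          rw [sum_const, Nat.card_Ioc, nsmul_eq_mul, show 2 * P - P = P by omega]
          ring
  have h4 := (abs_le.1 h3).2
  have h5 : (Pool.MP_dd84fd_nt.E2.Li (2 * P) - Pool.MP_dd84fd_nt.E2.Li P) / (Nat.totient m : ℝ) ≤
      P / (Nat.totient m * Real.log P) := by
    calc (Pool.MP_dd84fd_nt.E2.Li (2 * P) - Pool.MP_dd84fd_nt.E2.Li P) / (Nat.totient m : ℝ) ≤
          (P / Real.log P) / (Nat.totient m : ℝ) := div_le_div_of_nonneg_right hLi (by linarith)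
      _ = P / (Nat.totient m * Real.log P) := by rw [div_div, mul_comm (Real.log (P : ℝ))]
  have h6 : 4 * P / (Real.log ((2 * P : ℕ) : ℝ)) ^ 2 ≤ P / (Nat.totient m * Real.log P) := by
    have hL20 : 0 < Real.log ((2 * P : ℕ) : ℝ) := lt_of_lt_of_le hL0 hLL
    rw [div_le_div_iff₀ (by positivity) (by positivity)]
    have h7 : 4 * (Nat.totient m * Real.log P) ≤ (Real.log ((2 * P : ℕ) : ℝ)) ^ 2 := by
      have h8 : 4 * (Nat.totient m : ℝ) ≤ Real.log P := by linarith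
      nlinarith
    nlinarith
  calc (((Ioc P (2 * P)).filter fun p => p.Prime ∧ p ≡ v [MOD m]).card : ℝ) ≤
        P / (Nat.totient m * Real.log P) + P / (Nat.totient m * Real.log P) := by linarith
    _ = 2 * P / (Nat.totient m * Real.log P) := by ring

end TwHP
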