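import Pool.Agent.Lib.MP_e426f4_ag.TW.PNear
import Pool.Agent.Lib.MP_e426f4_ag.TW.IsoBasic

/-!
# PhiInv: `Phi` depends only on the local square classes at `p ≤ w` and the sign

Proof.  `A = α A'`, `A' = rough w A`, `α = sign(A) * smp w A`, same for `A1, B, C`.  The hypotheses say
that `A1 / A` is a positive rational number and a square in `ℚ_p` for `p ≤ w`; so `v_p(α) ≡ v_p(α1)` mod 2
for `p ≤ w`, hence `α α1` is the square of an integer, and `A' A1'` is a square in `ℚ_p` for all `p ≤ w`: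
`A' ≡ A1'` mod 8 (`square_two`) and `J(A'|p) = J(A1'|p)` for odd `p ≤ w` (`square_jac`).
Second factor: `J(-(A C)|B') = J(-(α C)|B') J(A'|B')` and `J(-(α C)|B') = J(-(α1 C)|B')` (as `α α1` is a
square prime to `B'`); same for the third.  First factor: `J(-(B C)|A') = J(-(β γ)|A') J(B'|A') J(C'|A')`;
`J(-(β γ)|A') = J(-(β γ)|A1')` because `-(β γ)` is a product of `-1`, `2`, odd primes `p ≤ w` and
`J(-1|·)`, `J(2|·)`, `J(p|·)` depend on `A'` mod 8 and `J(A'|p)` (quadratic reciprocity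
`jacobiSym.quadratic_reciprocity'`).  Finally `J(B'|A') J(A'|B') = (-1)^((A'-1)/2 (B'-1)/2)` depends on
`A'` mod 4 only.  So `Phi` does not change.  (All symbols are ±1 by the coprimality hypotheses.)
-/

set_option autoImplicit false

namespace TwHP

open Finset

private theorem phiinv_rough {w q : ℕ} {A : ℤ} (hq : q.Prime) (h : q ∣ rough w A) :
    w < q ∧ (q : ℤ) ∣ A := by
  unfold rough at h
  obtain ⟨q', hq', hd⟩ := (Prime.dvd_finsetProd_iff hq.prime _).1 h
  rw [mem_filter, Nat.mem_primeFactors] at hq'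
  have h1 : q = q' := (Nat.prime_dvd_prime_iff_eq hq hq'.1.1).1 (hq.dvd_of_dvd_pow hd)
  subst h1
  exact ⟨hq'.2, Int.natCast_dvd.2 hq'.1.2.1⟩

private theorem phiinv_smp {w q : ℕ} {A : ℤ} (hq : q.Prime) (h : q ∣ smp w A) : q ≤ w := by
  unfold smp at h
  obtain ⟨q', hq', hd⟩ := (Prime.dvd_finsetProd_iff hq.prime _).1 h
  rw [mem_filter, Nat.mem_primeFactors] at hq'
  have h1 : q = q' := (Nat.prime_dvd_prime_iff_eq hq hq'.1.1).1 (hq.dvd_of_dvd_pow hd)
  subst h1
  exact hq'.2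

private theorem phiinv_mul (w : ℕ) {A : ℤ} (hA : A ≠ 0) : smp w A * rough w A = A.natAbs := by
  unfold smp rough
  have h1 : (A.natAbs.primeFactors.filter (w < ·)) =
      A.natAbs.primeFactors.filter (fun q => ¬ (q ≤ w)) := by
    refine filter_congr fun q _ => ?_
    exact not_le.symm
  rw [h1, prod_filter_mul_prod_filter_not]
  exact Nat.prod_factorization_pow_eq_self (Int.natAbs_ne_zero.2 hA)

private theorem phiinv_rough_ne (w : ℕ) {A : ℤ} (hA : A ≠ 0) : rough w A ≠ 0 := by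
  intro h
  have h1 := phiinv_mul w hA
  rw [h, mul_zero] at h1
  exact (Int.natAbs_ne_zero.2 hA) h1.symm

private theorem phiinv_smp_ne (w : ℕ) {A : ℤ} (hA : A ≠ 0) : smp w A ≠ 0 := by
  intro h
  have h1 := phiinv_mul w hA
  rw [h, zero_mul] at h1
  exact (Int.natAbs_ne_zero.2 hA) h1.symm

private theorem phiinv_smp_eq (w : ℕ) (A : ℤ) :
    smp w A = ∏ p ∈ (Icc 1 w).filter Nat.Prime, p ^ A.natAbs.factorization p := by
  unfold smp
  refine prod_subset ?_ ?_
  · intro q hq
    rw [mem_filter, Nat.mem_primeFactors] at hq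
    rw [mem_filter, mem_Icc]
    exact ⟨⟨hq.1.1.one_le, hq.2⟩, hq.1.1⟩
  · intro q hq hq'
    rw [mem_filter, mem_Icc] at hq
    rw [mem_filter] at hq'
    have h1 : q ∉ A.natAbs.primeFactors := fun h => hq' ⟨h, hq.1.2⟩
    rw [← Nat.support_factorization, Finsupp.notMem_support_iff] at h1
    rw [h1, pow_zero]

/-- the exponents at the small primes have the same parity -/
private theorem phiinv_parity {A A1 : ℤ} (hA : A ≠ 0) (hA1 : A1 ≠ 0) (p : ℕ) [hp : Fact p.Prime]
    (t : ℚ_[p]) (h : (A1 : ℚ_[p]) = A * t ^ 2) :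
    Even (A.natAbs.factorization p + A1.natAbs.factorization p) := by
  have hA' : (A : ℚ_[p]) ≠ 0 := by exact_mod_cast hA
  have hA1' : (A1 : ℚ_[p]) ≠ 0 := by exact_mod_cast hA1
  have ht : t ≠ 0 := by
    rintro rfl
    apply hA1'
    rw [h]
    ring
  have h1 := congrArg Padic.valuation h
  rw [Padic.valuation_mul hA' (pow_ne_zero 2 ht), Padic.valuation_pow, Padic.valuation_intCast,
    Padic.valuation_intCast] at h1
  have h2 : padicValInt p A = A.natAbs.factorization p := by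
    rw [Nat.factorization_def _ hp.out]; rfl
  have h3 : padicValInt p A1 = A1.natAbs.factorization p := by
    rw [Nat.factorization_def _ hp.out]; rfl
  rw [h2, h3] at h1
  push_cast at h1
  rcases Nat.even_or_odd (A.natAbs.factorization p + A1.natAbs.factorization p) with h4 | h4
  · exact h4
  · obtain ⟨k, hk⟩ := h4
    omega

private theorem phiinv_cop {a b : ℕ} (h : ∀ q : ℕ, q.Prime → q ∣ a → ¬ q ∣ b) :
    Nat.Coprime a b := by
  by_contra hc
  obtain ⟨q, hq, h1, h2⟩ := Nat.Prime.not_coprime_iff_dvd.1 hc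
  exact h q hq h1 h2

/-- numbers all of whose prime factors have symbol one -/
private theorem phiinv_jac_smooth (M n : ℕ) (hn : n ≠ 0)
    (h : ∀ p : ℕ, p.Prime → p ∣ n → jacobiSym p M = 1) : jacobiSym n M = 1 := by
  revert hn h
  induction n using Nat.recOnMul with
  | zero => exact fun h _ => absurd rfl h
  | one =>
    intro _ _
    simp
  | prime p hp => exact fun _ h => h p hp dvd_rfl
  | mul a b ha hb =>
    intro hn h
    have ha0 : a ≠ 0 := left_ne_zero_of_mul hn
    have hb0 : b ≠ 0 := right_ne_zero_of_mul hn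
    push_cast
    rw [jacobiSym.mul_left, ha ha0 fun p hp hd => h p hp (hd.mul_right b),
      hb hb0 fun p hp hd => h p hp (hd.mul_left a), one_mul]

private theorem phiinv_odd_of_rough {w : ℕ} (hw : 2 ≤ w) (A : ℤ) : Odd (rough w A) := by
  rw [← Nat.not_even_iff_odd, even_iff_two_dvd]
  intro h
  have := (phiinv_rough Nat.prime_two h).1
  omega

/-- the symbol over `M` of an integer prime to `M` reduces to its rough part -/
private theorem phiinv_jac {w M : ℕ} (hw : 2 ≤ w) (hM : Odd M) (hM8 : M % 8 = 1)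
    (hMp : ∀ p : ℕ, p.Prime → p ≠ 2 → p ≤ w → jacobiSym M p = 1) {B : ℤ} (hB : B ≠ 0) :
    jacobiSym B M = jacobiSym M (rough w B) := by
  have hneg : jacobiSym (-1) M = 1 := by
    rw [jacobiSym.at_neg_one hM, ZMod.χ₄_nat_one_mod_four (by omega)]
  have htwo : jacobiSym 2 M = 1 := by
    rw [jacobiSym.at_two hM, ZMod.χ₈_nat_mod_eight, hM8]
    rfl
  have hsign : jacobiSym B.sign M = 1 := by
    rcases lt_or_gt_of_ne hB with h | h
    · rw [Int.sign_eq_neg_one_of_neg h]; exact hneg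
    · rw [Int.sign_eq_one_of_pos h]; exact jacobiSym.one_left M
  have hsm : jacobiSym (smp w B : ℕ) M = 1 := by
    refine phiinv_jac_smooth M _ (phiinv_smp_ne w hB) fun p hp hd => ?_
    have hpw := phiinv_smp hp hd
    by_cases hp2 : p = 2
    · subst hp2
      exact_mod_cast htwo
    · rw [← jacobiSym.quadratic_reciprocity_one_mod_four (by omega : M % 4 = 1)
        (hp.odd_of_ne_two hp2)]
      exact hMp p hp hp2 hpw
  have hfac : B = B.sign * ((smp w B : ℕ) : ℤ) * ((rough w B : ℕ) : ℤ) := by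
    conv_lhs => rw [← Int.sign_mul_natAbs B, ← phiinv_mul w hB]
    push_cast
    ring
  conv_lhs => rw [hfac]
  rw [jacobiSym.mul_left, jacobiSym.mul_left, hsign, hsm, one_mul, one_mul,
    jacobiSym.quadratic_reciprocity_one_mod_four (by omega : M % 4 = 1) (phiinv_odd_of_rough hw B)]

theorem phi_inv (w : ℕ) (hw : 2 ≤ w) (A A1 B C : ℤ) (hA : A ≠ 0) (hA1 : A1 ≠ 0) (hB : B ≠ 0)
    (hC : C ≠ 0) (hAB : CopW w A B) (hAC : CopW w A C) (hBC : CopW w B C)
    (hAB1 : CopW w A1 B) (hAC1 : CopW w A1 C) (hs : 0 < A * A1)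
    (hsq : ∀ (p : ℕ) [Fact p.Prime], p ≤ w → ∃ t : ℚ_[p], (A1 : ℚ_[p]) = A * t ^ 2) :
    Phi w A B C = Phi w A1 B C := by
  classical
  -- the number `M`
  obtain ⟨M, hMdef⟩ : ∃ M : ℕ, M = rough w A * rough w A1 := ⟨_, rfl⟩
  -- the square
  obtain ⟨s, hsdef⟩ : ∃ s : ℕ, s = ∏ p ∈ (Icc 1 w).filter Nat.Prime,
    p ^ ((A.natAbs.factorization p + A1.natAbs.factorization p) / 2) := ⟨_, rfl⟩
  have hs2 : s ^ 2 = smp w A * smp w A1 := by
    rw [phiinv_smp_eq, phiinv_smp_eq, hsdef, ← prod_pow, ← prod_mul_distrib]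
    refine prod_congr rfl fun p hp => ?_
    rw [mem_filter, mem_Icc] at hp
    haveI : Fact p.Prime := ⟨hp.2⟩
    obtain ⟨t, ht⟩ := hsq p hp.1.2
    obtain ⟨k, hk⟩ := phiinv_parity hA hA1 p t ht
    rw [← pow_mul, ← pow_add]
    congr 1
    omega
  have hs0 : s ≠ 0 := by
    intro h
    rw [h] at hs2
    exact mul_ne_zero (phiinv_smp_ne w hA) (phiinv_smp_ne w hA1) (by rw [← hs2]; norm_num)
  have hprod : A * A1 = (s : ℤ) ^ 2 * (M : ℤ) := by
    have h1 : A * A1 = ((A.natAbs * A1.natAbs : ℕ) : ℤ) := by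
      rw [← Int.natAbs_mul, Int.natAbs_of_nonneg hs.le]
    rw [h1, ← phiinv_mul w hA, ← phiinv_mul w hA1, hMdef]
    have h2 : smp w A * rough w A * (smp w A1 * rough w A1) =
        s ^ 2 * (rough w A * rough w A1) := by
      rw [hs2]; ring
    rw [h2]
    push_cast
    ring
  have hMprime : ∀ q : ℕ, q.Prime → q ∣ M → w < q ∧ ((q : ℤ) ∣ A ∨ (q : ℤ) ∣ A1) := by
    intro q hq hd
    rw [hMdef] at hd
    rcases hq.dvd_mul.1 hd with h | h
    · exact ⟨(phiinv_rough hq h).1, Or.inl (phiinv_rough hq h).2⟩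
    · exact ⟨(phiinv_rough hq h).1, Or.inr (phiinv_rough hq h).2⟩
  have hMsq : ∀ (p : ℕ) [Fact p.Prime], p ≤ w → ∃ t : ℚ_[p], ((M : ℤ) : ℚ_[p]) = t ^ 2 := by
    intro p _ hpw
    obtain ⟨t, ht⟩ := hsq p hpw
    have h1 := congrArg (fun z : ℤ => (z : ℚ_[p])) hprod
    push_cast at h1
    rw [ht] at h1
    have hs0' : (s : ℚ_[p]) ≠ 0 := by exact_mod_cast hs0
    refine ⟨A * t / s, ?_⟩
    field_simp
    push_cast
    linear_combination -h1
  have hM8 : M % 8 = 1 := by
    haveI : Fact (Nat.Prime 2) := ⟨Nat.prime_two⟩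
    obtain ⟨t, ht⟩ := hMsq 2 hw
    have h1 : ¬ (2 : ℤ) ∣ (M : ℤ) := by
      intro h
      have h2 : 2 ∣ M := by exact_mod_cast h
      have := (hMprime 2 Nat.prime_two h2).1
      omega
    have h2 := square_two (M : ℤ) h1 t ht
    omega
  have hModd : Odd M := Nat.odd_iff.2 (by omega)
  have hMp : ∀ p : ℕ, p.Prime → p ≠ 2 → p ≤ w → jacobiSym M p = 1 := by
    intro p hp hp2 hpw
    haveI : Fact p.Prime := ⟨hp⟩
    obtain ⟨t, ht⟩ := hMsq p hpw
    refine square_jac p hp2 (M : ℤ) ?_ t ht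
    intro h
    have h2 : p ∣ M := by exact_mod_cast h
    have := (hMprime p hp h2).1
    omega
  -- the three products
  have hX : jacobiSym (-(B * C)) (rough w A) * jacobiSym (-(B * C)) (rough w A1) =
      jacobiSym M (rough w B) * jacobiSym M (rough w C) := by
    haveI : NeZero (rough w A) := ⟨phiinv_rough_ne w hA⟩
    haveI : NeZero (rough w A1) := ⟨phiinv_rough_ne w hA1⟩
    rw [← jacobiSym.mul_right, ← hMdef, ← phiinv_jac hw hModd hM8 hMp hB,
      ← phiinv_jac hw hModd hM8 hMp hC]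
    have h1 : -(B * C) = (-1) * B * C := by ring
    rw [h1, jacobiSym.mul_left, jacobiSym.mul_left, jacobiSym.at_neg_one hModd,
      ZMod.χ₄_nat_one_mod_four (by omega), one_mul]
  have hY : ∀ D E : ℤ, E ≠ 0 → CopW w E D →
      jacobiSym (-(A * D)) (rough w E) * jacobiSym (-(A1 * D)) (rough w E) =
        jacobiSym M (rough w E) := by
    intro D E hE hED
    have h1 : (-(A * D)) * (-(A1 * D)) = ((s : ℤ) * D) ^ 2 * (M : ℤ) := by
      linear_combination D ^ 2 * hprod
    rw [← jacobiSym.mul_left, h1, jacobiSym.mul_left, jacobiSym.pow_left, jacobiSym.sq_one, one_mul]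
    rw [← Int.isCoprime_iff_gcd_eq_one, IsCoprime.mul_left_iff, Nat.isCoprime_iff_coprime]
    constructor
    · refine phiinv_cop fun q hq h2 h3 => ?_
      have h4 := (phiinv_rough hq h3).1
      rw [hsdef] at h2
      obtain ⟨q', hq', hd⟩ := (Prime.dvd_finsetProd_iff hq.prime _).1 h2
      rw [mem_filter, mem_Icc] at hq'
      have h5 : q = q' := (Nat.prime_dvd_prime_iff_eq hq hq'.2).1 (hq.dvd_of_dvd_pow hd)
      omega
    · rw [Int.isCoprime_iff_gcd_eq_one]
      refine phiinv_cop (a := D.natAbs) (b := rough w E) fun q hq h2 h3 => ?_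
      have h4 := phiinv_rough hq h3
      exact hED q hq h4.1 ⟨h4.2, Int.natCast_dvd.2 h2⟩
  have hY1 := hY C B hB hBC
  have hZ1 := hY B C hC (fun q hq hqw h => hBC q hq hqw ⟨h.2, h.1⟩)
  have hMB : jacobiSym M (rough w B) ^ 2 = 1 := by
    apply jacobiSym.sq_one
    refine phiinv_cop (a := M) (b := rough w B) fun q hq h2 h3 => ?_
    have h4 := phiinv_rough hq h3
    rcases (hMprime q hq h2).2 with h5 | h5
    · exact hAB q hq h4.1 ⟨h5, h4.2⟩
    · exact hAB1 q hq h4.1 ⟨h5, h4.2⟩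
  have hMC : jacobiSym M (rough w C) ^ 2 = 1 := by
    apply jacobiSym.sq_one
    refine phiinv_cop (a := M) (b := rough w C) fun q hq h2 h3 => ?_
    have h4 := phiinv_rough hq h3
    rcases (hMprime q hq h2).2 with h5 | h5
    · exact hAC q hq h4.1 ⟨h5, h4.2⟩
    · exact hAC1 q hq h4.1 ⟨h5, h4.2⟩
  have hfin : Phi w A B C * Phi w A1 B C = 1 := by
    unfold Phi
    calc _ = (jacobiSym (-(B * C)) (rough w A) * jacobiSym (-(B * C)) (rough w A1)) *
          (jacobiSym (-(A * C)) (rough w B) * jacobiSym (-(A1 * C)) (rough w B)) *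
          (jacobiSym (-(A * B)) (rough w C) * jacobiSym (-(A1 * B)) (rough w C)) := by ring
      _ = jacobiSym M (rough w B) ^ 2 * jacobiSym M (rough w C) ^ 2 := by
          rw [hX, hY1, hZ1]; ring
      _ = 1 := by rw [hMB, hMC, one_mul]
  exact Int.eq_of_mul_eq_one hfin

end TwHP
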