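import Pool.Agent.Lib.MP_e426f4_ag.TWS.FsB
import Pool.Agent.Lib.MP_e426f4_ag.TW.ExCD
import Pool.Agent.Lib.MP_e426f4_ag.TW.ElsPos

/-!
# PrimeThm: almost all twists by primes have a rational point
-/

set_option autoImplicit false

namespace TwHP

open Finset Filter Pool.Agent.Lib.MP_e426f4_ag.TWL CD

variable {ι : Type} [Fintype ι] [DecidableEq ι] [Nonempty ι] {n : ℕ}

/-- the dyadic sum -/
theorem PrimeThm_dyadic (Q : ℝ) (hQ : 0 < Q) : ∃ X0 : ℕ, ∀ x : ℕ, X0 ≤ x → ∀ J : Finset ℕ,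
    (∀ j ∈ J, (x : ℝ) ^ ((1 : ℝ) / 2) / 2 ≤ ((2 ^ j : ℕ) : ℝ) ∧ 2 ^ j < x) →
    ∑ j ∈ J, (((2 ^ j : ℕ) : ℝ) / (Q * Real.log ((2 ^ j : ℕ) : ℝ))) ≤
      8 / Q * ((x : ℝ) / Real.log x) := by
  refine ⟨⌈Real.exp (4 * Real.log 2)⌉₊ + 2, fun x hx J hJ => ?_⟩
  have hx1 : Real.exp (4 * Real.log 2) ≤ x := by
    refine (Nat.le_ceil _).trans ?_
    exact_mod_cast (by omega : ⌈Real.exp (4 * Real.log 2)⌉₊ ≤ x)
  have hx2 : (2 : ℝ) ≤ x := by exact_mod_cast (by omega : 2 ≤ x)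
  have hx0 : (0 : ℝ) < x := by linarith
  have hlx : 4 * Real.log 2 ≤ Real.log x := by
    rw [Real.le_log_iff_exp_le hx0]; exact hx1
  have hl2 : 0 < Real.log 2 := Real.log_pos (by norm_num)
  have hL : 0 < Real.log x := by linarith
  have hlog : ∀ j ∈ J, Real.log x / 4 ≤ Real.log ((2 ^ j : ℕ) : ℝ) := by
    intro j hj
    have h1 := (hJ j hj).1
    have h2 : Real.log ((x : ℝ) ^ ((1 : ℝ) / 2) / 2) ≤ Real.log ((2 ^ j : ℕ) : ℝ) :=
      Real.log_le_log (by positivity) h1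
    rw [Real.log_div (by positivity) (by norm_num), Real.log_rpow hx0] at h2
    linarith
  have hsum : ∑ j ∈ J, ((2 ^ j : ℕ) : ℝ) ≤ 2 * x := by
    have h1 : J ⊆ range (Nat.log 2 x + 1) := by
      intro j hj
      rw [mem_range]
      have h2 := (hJ j hj).2
      have h3 : j ≤ Nat.log 2 x := (Nat.le_log_iff_pow_le (by norm_num) (by omega)).2 h2.le
      omega
    calc ∑ j ∈ J, ((2 ^ j : ℕ) : ℝ) ≤ ∑ j ∈ range (Nat.log 2 x + 1), ((2 ^ j : ℕ) : ℝ) :=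
          sum_le_sum_of_subset_of_nonneg h1 fun _ _ _ => Nat.cast_nonneg _
      _ = ((2 ^ (Nat.log 2 x + 1) - 1 : ℕ) : ℝ) := by
          rw [← Nat.cast_sum, Nat.geomSum_eq (by norm_num)]
          norm_num
      _ ≤ ((2 * x : ℕ) : ℝ) := by
          norm_cast
          have h2 := Nat.pow_log_le_self 2 (x := x) (by omega)
          rw [pow_succ]
          omega
      _ = 2 * x := by push_cast; ring
  calc ∑ j ∈ J, (((2 ^ j : ℕ) : ℝ) / (Q * Real.log ((2 ^ j : ℕ) : ℝ)))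
      ≤ ∑ j ∈ J, ((2 ^ j : ℕ) : ℝ) * (4 / (Q * Real.log x)) := by
        refine sum_le_sum fun j hj => ?_
        have h1 := hlog j hj
        have h0 : 0 < Real.log ((2 ^ j : ℕ) : ℝ) := by linarith
        rw [div_eq_mul_inv]
        refine mul_le_mul_of_nonneg_left ?_ (Nat.cast_nonneg _)
        rw [inv_eq_one_div, div_le_div_iff₀ (by positivity) (by positivity)]
        nlinarith
    _ = (∑ j ∈ J, ((2 ^ j : ℕ) : ℝ)) * (4 / (Q * Real.log x)) := by rw [sum_mul]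
    _ ≤ (2 * x) * (4 / (Q * Real.log x)) := mul_le_mul_of_nonneg_right hsum (by positivity)
    _ = 8 / Q * ((x : ℝ) / Real.log x) := by field_simp; ring

open Classical in
theorem prime_thm (F : ι → Bool → MvPolynomial (Fin (n + 1)) ℤ) (d : ι → Bool → ℕ)
    (hF : Fam F d) (α : ℤ) (hα : α ≠ 0) (ε : ℝ) (hε : 0 < ε) : ∃ x0 : ℕ, ∀ x : ℕ, x0 ≤ x →
      (((Icc 1 x).filter fun p : ℕ => p.Prime ∧ ELS F (α * (p : ℤ)) ∧
        ¬ Sol F (α * (p : ℤ)) ℚ).card : ℝ) ≤ ε * ((x : ℝ) / Real.log x) := by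
  obtain ⟨w0, hw0⟩ := exists_CD F d hF
  set D := ∑ i, (d i false + d i true) with hD
  set C3 := C3c D with hC3
  -- choice of w
  obtain ⟨w, hw1, hw2, hw3, hw4⟩ : ∃ w : ℕ, w0 ≤ w ∧ 2 ≤ w ∧ α.natAbs ≤ w ∧ 8 * |C3| / w ≤ ε / 4 := by
    refine ⟨w0 + 2 + α.natAbs + ⌈32 * |C3| / ε⌉₊, by omega, by omega, by omega, ?_⟩
    have h1 : 32 * |C3| / ε ≤ ((w0 + 2 + α.natAbs + ⌈32 * |C3| / ε⌉₊ : ℕ) : ℝ) := by
      refine (Nat.le_ceil _).trans ?_
      exact_mod_cast (by omega)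
    have h2 : (0 : ℝ) < ((w0 + 2 + α.natAbs + ⌈32 * |C3| / ε⌉₊ : ℕ) : ℝ) := by
      exact_mod_cast (by omega)
    rw [div_le_iff₀ hε] at h1
    rw [div_le_iff₀ h2]
    linarith
  have hwpos : (0 : ℝ) < w := by exact_mod_cast (by omega : 0 < w)
  have hsm : ∀ p : ℕ, p.Prime → (p : ℤ) ∣ α → p ≤ w := by
    intro p hp hd
    have h1 : p ∣ α.natAbs := by
      have := Int.natAbs_dvd_natAbs.2 hd
      simpa using this
    have := Nat.le_of_dvd (Int.natAbs_pos.2 hα) h1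
    omega
  have hW8 : 0 < W8 w := by
    rw [Nat.pos_iff_ne_zero]
    intro h
    have := (prime_dvd_W8 w hw2 (w + 2).minFac (Nat.minFac_prime (by omega))).1 (by rw [h]; exact dvd_zero _)
    have h5 : ∃ q, q.Prime ∧ w < q := by
      obtain ⟨q, hq, hp⟩ := Nat.exists_infinite_primes (w + 1)
      exact ⟨q, hp, by omega⟩
    obtain ⟨q, hq, hwq⟩ := h5
    have := (prime_dvd_W8 w hw2 q hq).1 (by rw [h]; exact dvd_zero _)
    omega
  set φ : ℝ := (Nat.totient (W8 w) : ℝ) with hφ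
  have hφpos : 0 < φ := by
    rw [hφ]; exact_mod_cast Nat.totient_pos.2 hW8
  -- per class bound
  have class_bd : ∀ u : ℕ, u.Coprime (W8 w) → ∃ x1 : ℕ, ∀ x : ℕ, x1 ≤ x →
      (((Icc 1 x).filter fun p : ℕ => p.Prime ∧ p ≡ u [MOD W8 w] ∧ (x : ℝ) ^ ((1 : ℝ) / 2) < p ∧
        ELS F (α * (p : ℤ)) ∧ ¬ Sol F (α * (p : ℤ)) ℚ).card : ℝ) ≤
        |C3| / w * (8 / φ * ((x : ℝ) / Real.log x)) := by
    intro u hu
    by_cases hex : ∃ p0 : ℕ, 0 < p0 ∧ p0 ≡ u [MOD W8 w] ∧ ELS F (α * (p0 : ℤ))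
    · obtain ⟨p0, hp0, hp0u, hels⟩ := hex
      obtain ⟨c, hc, hcw, hcal, hcu, -, hpt⟩ := hw0 w hw1 α u hα hsm hu
        ⟨p0, hp0, hp0u, hels.2.1, fun p _ _ => hels.2.2 p⟩ 1 one_pos
      obtain ⟨H0, hH0⟩ := fs4 c hc 0 ((1 : ℝ) / 2) (by norm_num)
      obtain ⟨X0, hX0⟩ := PrimeThm_dyadic φ hφpos
      refine ⟨H0 + X0 + 3, fun x hx => ?_⟩
      have hx3 : (3 : ℝ) ≤ x := by exact_mod_cast (by omega : 3 ≤ x)
      have hlogx : 1 ≤ Real.log x := by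
        rw [Real.le_log_iff_exp_le (by linarith)]
        exact Real.exp_one_lt_three.le.trans hx3
      set J := (range (x + 1)).filter (fun j => (x : ℝ) ^ ((1 : ℝ) / 2) / 2 ≤ ((2 ^ j : ℕ) : ℝ) ∧ 2 ^ j < x)
        with hJ
      have hJm : ∀ j ∈ J, (x : ℝ) ^ ((1 : ℝ) / 2) / 2 ≤ ((2 ^ j : ℕ) : ℝ) ∧ 2 ^ j < x := fun j hj =>
        (mem_filter.1 hj).2
      have hsub : ((Icc 1 x).filter fun p : ℕ => p.Prime ∧ p ≡ u [MOD W8 w] ∧
          (x : ℝ) ^ ((1 : ℝ) / 2) < p ∧ ELS F (α * (p : ℤ)) ∧ ¬ Sol F (α * (p : ℤ)) ℚ) ⊆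
          J.biUnion (fun j => (prm (2 ^ j) (W8 c.w) u).filter (fun p => ¬ p ∣ 1 ∧
            ¬ c.HasPt (c.al * ((1 * p : ℕ) : ℤ)))) := by
        intro p hp
        rw [mem_filter, mem_Icc] at hp
        obtain ⟨⟨-, hpx⟩, hpp, hpu, hxp, -, hns⟩ := hp
        have hp2 := hpp.two_le
        rw [mem_biUnion]
        -- j with 2^j < p ≤ 2^(j+1)
        have h1 : 2 ^ Nat.log 2 (p - 1) ≤ p - 1 := Nat.pow_log_le_self 2 (by omega)
        have h2 : p - 1 < 2 ^ (Nat.log 2 (p - 1) + 1) := Nat.lt_pow_succ_log_self (by norm_num) _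
        rw [pow_succ] at h2
        set j := Nat.log 2 (p - 1) with hj
        refine ⟨j, ?_, ?_⟩
        · rw [hJ, mem_filter, mem_range]
          refine ⟨?_, ?_, by omega⟩
          · have h3 : j < 2 ^ j := Nat.lt_two_pow_self
            omega
          · have h3 : (p : ℝ) ≤ 2 * ((2 ^ j : ℕ) : ℝ) := by
              have : p ≤ 2 * 2 ^ j := by omega
              exact_mod_cast this
            linarith
        · rw [mem_filter, prm, mem_filter, mem_Ioc, hcw, hcal]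
          refine ⟨⟨⟨by omega, by omega⟩, hpp, hpu⟩, ?_, ?_⟩
          · intro h; exact hpp.one_lt.ne' (Nat.dvd_one.1 h)
          · intro h
            rw [one_mul] at h
            exact hns (hpt _ h)
      calc (((Icc 1 x).filter fun p : ℕ => p.Prime ∧ p ≡ u [MOD W8 w] ∧
          (x : ℝ) ^ ((1 : ℝ) / 2) < p ∧ ELS F (α * (p : ℤ)) ∧ ¬ Sol F (α * (p : ℤ)) ℚ).card : ℝ)
          ≤ ((J.biUnion (fun j => (prm (2 ^ j) (W8 c.w) u).filter (fun p => ¬ p ∣ 1 ∧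
            ¬ c.HasPt (c.al * ((1 * p : ℕ) : ℤ))))).card : ℝ) := by
            exact_mod_cast card_le_card hsub
        _ ≤ ∑ j ∈ J, (((prm (2 ^ j) (W8 c.w) u).filter (fun p => ¬ p ∣ 1 ∧
            ¬ c.HasPt (c.al * ((1 * p : ℕ) : ℤ)))).card : ℝ) := by
            exact_mod_cast card_biUnion_le
        _ ≤ ∑ j ∈ J, |C3| / w * (((2 ^ j : ℕ) : ℝ) / (φ * Real.log ((2 ^ j : ℕ) : ℝ))) := by
            refine sum_le_sum fun j hj => ?_
            obtain ⟨hj1, hj2⟩ := hJm j hj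
            have h1 := hH0 x (by omega) 1 le_rfl (by omega) (Nat.coprime_one_left _) (by
              simp [bb]) (by
                rw [Nat.primeFactors_one, card_empty, pow_zero]
                exact one_le_pow₀ hlogx) (by intro q hq; simp [TT] at hq) (2 ^ j) u hj1 hj2.le
              (by rw [one_mul, hcu])
            rw [hcw] at h1 ⊢
            refine h1.trans ?_
            have hlogj : 0 ≤ ((2 ^ j : ℕ) : ℝ) / (φ * Real.log ((2 ^ j : ℕ) : ℝ)) := by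
              apply div_nonneg (Nat.cast_nonneg _)
              apply mul_nonneg hφpos.le
              apply Real.log_nonneg
              exact_mod_cast Nat.one_le_two_pow
            refine mul_le_mul_of_nonneg_right ?_ hlogj
            exact div_le_div_of_nonneg_right (le_abs_self _) hwpos.le
        _ = |C3| / w * ∑ j ∈ J, (((2 ^ j : ℕ) : ℝ) / (φ * Real.log ((2 ^ j : ℕ) : ℝ))) := by
            rw [mul_sum]
        _ ≤ |C3| / w * (8 / φ * ((x : ℝ) / Real.log x)) :=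
            mul_le_mul_of_nonneg_left (hX0 x (by omega) J hJm) (by positivity)
    · refine ⟨1, fun x hx => ?_⟩
      have : ((Icc 1 x).filter fun p : ℕ => p.Prime ∧ p ≡ u [MOD W8 w] ∧
          (x : ℝ) ^ ((1 : ℝ) / 2) < p ∧ ELS F (α * (p : ℤ)) ∧ ¬ Sol F (α * (p : ℤ)) ℚ) = ∅ := by
        rw [filter_eq_empty_iff]
        rintro p hp ⟨hpp, hpu, -, hels, -⟩
        exact hex ⟨p, hpp.pos, hpu, hels⟩
      rw [this, card_empty, Nat.cast_zero]
      have : (0 : ℝ) ≤ Real.log x := Real.log_natCast_nonneg x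
      positivity
  choose! x1 hx1 using class_bd
  -- the trivial part
  obtain ⟨x2, hx2⟩ : ∃ x2 : ℕ, ∀ x : ℕ, x2 ≤ x → (x : ℝ) ^ ((1 : ℝ) / 2) ≤ ε / 4 * ((x : ℝ) / Real.log x) ∧
      (w : ℝ) < (x : ℝ) ^ ((1 : ℝ) / 2) ∧ 0 < Real.log x := by
    have h1 : (fun x : ℝ => Real.log x) =o[atTop] (fun x : ℝ => x ^ ((1 : ℝ) / 2)) :=
      isLittleO_log_rpow_atTop (by norm_num)
    have h2 := h1.bound (c := ε / 4) (by positivity)
    have h3 := (tendsto_rpow_atTop (y := (1 : ℝ) / 2) (by norm_num)).eventually_gt_atTop (w : ℝ)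
    have h4 := (h2.and h3).and (eventually_gt_atTop (1 : ℝ))
    have h5 := tendsto_natCast_atTop_atTop (R := ℝ) |>.eventually h4
    obtain ⟨x2, h6⟩ := eventually_atTop.1 h5
    refine ⟨x2, fun x hx => ?_⟩
    obtain ⟨⟨h7, h8⟩, h9⟩ := h6 x hx
    have hlog : 0 < Real.log x := Real.log_pos h9
    refine ⟨?_, h8, hlog⟩
    rw [Real.norm_of_nonneg hlog.le, Real.norm_of_nonneg (by positivity)] at h7
    rw [← mul_div_assoc, le_div_iff₀ hlog]
    have h10 : (x : ℝ) = (x : ℝ) ^ ((1 : ℝ) / 2) * (x : ℝ) ^ ((1 : ℝ) / 2) := by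
      rw [← Real.rpow_add (by linarith)]
      norm_num
    calc (x : ℝ) ^ ((1 : ℝ) / 2) * Real.log x ≤ (x : ℝ) ^ ((1 : ℝ) / 2) * (ε / 4 * (x : ℝ) ^ ((1 : ℝ) / 2)) :=
          mul_le_mul_of_nonneg_left h7 (by positivity)
      _ = ε / 4 * ((x : ℝ) ^ ((1 : ℝ) / 2) * (x : ℝ) ^ ((1 : ℝ) / 2)) := by ring
      _ = ε / 4 * x := by rw [← h10]
  set Us := (range (W8 w)).filter (fun u => (W8 w).Coprime u) with hUs
  have hUscard : (Us.card : ℝ) = φ := by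
    rw [hφ, Nat.totient]
  refine ⟨x2 + Us.sup x1 + 1, fun x hx => ?_⟩
  obtain ⟨h1, h2, hlog⟩ := hx2 x (by omega)
  have hcls : ∀ u ∈ Us, (((Icc 1 x).filter fun p : ℕ => p.Prime ∧ p ≡ u [MOD W8 w] ∧
      (x : ℝ) ^ ((1 : ℝ) / 2) < p ∧ ELS F (α * (p : ℤ)) ∧ ¬ Sol F (α * (p : ℤ)) ℚ).card : ℝ) ≤
        |C3| / w * (8 / φ * ((x : ℝ) / Real.log x)) := by
    intro u hu
    have h3 := Finset.le_sup (f := x1) hu
    exact hx1 u (Nat.Coprime.symm (mem_filter.1 hu).2) x (by omega)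
  have hsub : ((Icc 1 x).filter fun p : ℕ => p.Prime ∧ ELS F (α * (p : ℤ)) ∧
      ¬ Sol F (α * (p : ℤ)) ℚ) ⊆ ((Icc 1 x).filter fun p : ℕ => (p : ℝ) ≤ (x : ℝ) ^ ((1 : ℝ) / 2)) ∪
      Us.biUnion (fun u => (Icc 1 x).filter fun p : ℕ => p.Prime ∧ p ≡ u [MOD W8 w] ∧
      (x : ℝ) ^ ((1 : ℝ) / 2) < p ∧ ELS F (α * (p : ℤ)) ∧ ¬ Sol F (α * (p : ℤ)) ℚ) := by
    intro p hp
    rw [mem_filter] at hp
    obtain ⟨hp1, hpp, hels, hns⟩ := hp
    rw [mem_union]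
    by_cases h : (p : ℝ) ≤ (x : ℝ) ^ ((1 : ℝ) / 2)
    · left; exact mem_filter.2 ⟨hp1, h⟩
    · right
      push Not at h
      rw [mem_biUnion]
      refine ⟨p % W8 w, ?_, ?_⟩
      · rw [hUs, mem_filter, mem_range]
        refine ⟨Nat.mod_lt _ hW8, ?_⟩
        have h3 : (W8 w).Coprime p := by
          rw [Nat.coprime_comm, Nat.Prime.coprime_iff_not_dvd hpp]
          intro hd
          have h4 := (prime_dvd_W8 w hw2 p hpp).1 hd
          have h5 : (w : ℝ) < p := h2.trans h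
          have h6 : w < p := by exact_mod_cast h5
          omega
        rw [Nat.Coprime, Nat.gcd_rec] at h3
        rw [Nat.Coprime, Nat.gcd_comm]
        exact h3
      · rw [mem_filter]
        exact ⟨hp1, hpp, (Nat.mod_modEq p (W8 w)).symm, h, hels, hns⟩
  have hsmall : (((Icc 1 x).filter fun p : ℕ => (p : ℝ) ≤ (x : ℝ) ^ ((1 : ℝ) / 2)).card : ℝ) ≤
      (x : ℝ) ^ ((1 : ℝ) / 2) := by
    have h3 : ((Icc 1 x).filter fun p : ℕ => (p : ℝ) ≤ (x : ℝ) ^ ((1 : ℝ) / 2)) ⊆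
        Icc 1 ⌊(x : ℝ) ^ ((1 : ℝ) / 2)⌋₊ := by
      intro p hp
      rw [mem_filter, mem_Icc] at hp
      rw [mem_Icc]
      exact ⟨hp.1.1, Nat.le_floor hp.2⟩
    calc (((Icc 1 x).filter fun p : ℕ => (p : ℝ) ≤ (x : ℝ) ^ ((1 : ℝ) / 2)).card : ℝ)
        ≤ ((Icc 1 ⌊(x : ℝ) ^ ((1 : ℝ) / 2)⌋₊).card : ℝ) := by exact_mod_cast card_le_card h3
      _ = (⌊(x : ℝ) ^ ((1 : ℝ) / 2)⌋₊ : ℝ) := by simp
      _ ≤ _ := Nat.floor_le (by positivity)
  calc (((Icc 1 x).filter fun p : ℕ => p.Prime ∧ ELS F (α * (p : ℤ)) ∧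
      ¬ Sol F (α * (p : ℤ)) ℚ).card : ℝ)
      ≤ ((((Icc 1 x).filter fun p : ℕ => (p : ℝ) ≤ (x : ℝ) ^ ((1 : ℝ) / 2)) ∪
      Us.biUnion (fun u => (Icc 1 x).filter fun p : ℕ => p.Prime ∧ p ≡ u [MOD W8 w] ∧
      (x : ℝ) ^ ((1 : ℝ) / 2) < p ∧ ELS F (α * (p : ℤ)) ∧ ¬ Sol F (α * (p : ℤ)) ℚ)).card : ℝ) := by
        exact_mod_cast card_le_card hsub
    _ ≤ (x : ℝ) ^ ((1 : ℝ) / 2) + ∑ u ∈ Us, (((Icc 1 x).filter fun p : ℕ => p.Prime ∧
        p ≡ u [MOD W8 w] ∧ (x : ℝ) ^ ((1 : ℝ) / 2) < p ∧ ELS F (α * (p : ℤ)) ∧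
        ¬ Sol F (α * (p : ℤ)) ℚ).card : ℝ) := by
        refine (Nat.cast_le.2 (card_union_le _ _)).trans ?_
        rw [Nat.cast_add]
        refine add_le_add hsmall ?_
        refine (Nat.cast_le.2 card_biUnion_le).trans ?_
        rw [Nat.cast_sum]
    _ ≤ ε / 4 * ((x : ℝ) / Real.log x) + ∑ _u ∈ Us, |C3| / w * (8 / φ * ((x : ℝ) / Real.log x)) :=
        add_le_add h1 (sum_le_sum hcls)
    _ = ε / 4 * ((x : ℝ) / Real.log x) + 8 * |C3| / w * ((x : ℝ) / Real.log x) := by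
        rw [sum_const, nsmul_eq_mul, hUscard]
        field_simp
    _ ≤ ε / 4 * ((x : ℝ) / Real.log x) + ε / 4 * ((x : ℝ) / Real.log x) := by
        have : 0 ≤ (x : ℝ) / Real.log x := by positivity
        gcongr
    _ ≤ ε * ((x : ℝ) / Real.log x) := by
        have : 0 ≤ (x : ℝ) / Real.log x := by positivity
        nlinarith

end TwHP
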