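import Pool.Agent.Lib.MP_e426f4_ag.TW.Defs

/-!
# SqfLine: the generic line restriction of a squarefree polynomial is squarefree

`R = MvPolynomial (Fin (n+1) ⊕ Fin (n+1)) ℚ` (variables `U = inl`, `V = inr`); `G = f(T U + V)` in `R[T]`.
The `ℚ`-algebra (indeed `R[T]`-ring) automorphism of `R[T]` fixing `T` and `U` and sending `V j ↦ V j + T U j` maps
`C (f(V))` to `G`; `f(V)` (image of `f` under `rename inr`) is squarefree in `R` (a square dividing it has degree 0
in the `U`-variables; e.g. view `R` as polynomials in the `U` over polynomials in the `V`), `C` of a squarefree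
element is squarefree in `R[T]`, and automorphisms preserve squarefree.
-/

set_option autoImplicit false

namespace TwHP

open Polynomial

/-- `f(T U + V)` -/
noncomputable def genLine {n : ℕ} (f : MvPolynomial (Fin (n + 1)) ℚ) :
    (MvPolynomial (Fin (n + 1) ⊕ Fin (n + 1)) ℚ)[X] :=
  MvPolynomial.aeval (fun j => C (MvPolynomial.X (Sum.inl j)) * X +
    C (MvPolynomial.X (Sum.inr j))) f

private theorem sqfLine_of_inj {A B : Type*} [CommMonoid A] [CommMonoid B] (e : A ≃* B) (x : A)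
    (hx : Squarefree x) : Squarefree (e x) := by
  intro y hy
  have h1 : e.symm y * e.symm y ∣ x := by
    have h2 := map_dvd e.symm hy
    rwa [map_mul, MulEquiv.symm_apply_apply] at h2
  have h3 := hx _ h1
  have h4 := h3.map e
  rwa [MulEquiv.apply_symm_apply] at h4

private theorem sqfLine_C {R : Type*} [CommRing R] [IsDomain R] (g : R) (hg : Squarefree g)
    (hg0 : g ≠ 0) : Squarefree (C g : R[X]) := by
  intro y hy
  obtain ⟨z, hz⟩ := hy
  have hyz : y * y * z ≠ 0 := by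
    rw [← hz]
    exact C_ne_zero.2 hg0
  have hz0 : z ≠ 0 := fun h => hyz (by rw [h, mul_zero])
  have hy0 : y ≠ 0 := fun h => hyz (by rw [h, zero_mul, zero_mul])
  have h1 : (y * y * z).natDegree = 0 := by rw [← hz, natDegree_C]
  rw [natDegree_mul (mul_ne_zero hy0 hy0) hz0, natDegree_mul hy0 hy0] at h1
  have h2 : y.natDegree = 0 := by omega
  have h3 : z.natDegree = 0 := by omega
  rw [eq_C_of_natDegree_eq_zero h2, eq_C_of_natDegree_eq_zero h3, ← C_mul, ← C_mul] at hz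
  have h4 : g = y.coeff 0 * y.coeff 0 * z.coeff 0 := C_injective hz
  have h5 : IsUnit (y.coeff 0) := hg _ ⟨_, h4⟩
  rw [eq_C_of_natDegree_eq_zero h2]
  exact h5.map C

private theorem sqfLine_MvC {σ R : Type*} [CommRing R] [IsDomain R] (g : R) (hg : Squarefree g)
    (hg0 : g ≠ 0) : Squarefree (MvPolynomial.C g : MvPolynomial σ R) := by
  intro y hy
  obtain ⟨z, hz⟩ := hy
  have hyz : y * y * z ≠ 0 := by
    rw [← hz]
    intro h
    exact hg0 (MvPolynomial.C_injective σ R (by rw [h, map_zero]))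
  have hz0 : z ≠ 0 := fun h => hyz (by rw [h, mul_zero])
  have hy0 : y ≠ 0 := fun h => hyz (by rw [h, zero_mul, zero_mul])
  have h1 : (y * y * z).totalDegree = 0 := by rw [← hz, MvPolynomial.totalDegree_C]
  rw [MvPolynomial.totalDegree_mul_of_isDomain (mul_ne_zero hy0 hy0) hz0,
    MvPolynomial.totalDegree_mul_of_isDomain hy0 hy0] at h1
  have h2 : y.totalDegree = 0 := by omega
  have h3 : z.totalDegree = 0 := by omega
  rw [MvPolynomial.totalDegree_eq_zero_iff_eq_C.1 h2,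
    MvPolynomial.totalDegree_eq_zero_iff_eq_C.1 h3, ← map_mul, ← map_mul] at hz
  have h4 := MvPolynomial.C_injective σ R hz
  have h5 : IsUnit (MvPolynomial.coeff 0 y) := hg _ ⟨_, h4⟩
  rw [MvPolynomial.totalDegree_eq_zero_iff_eq_C.1 h2]
  exact h5.map MvPolynomial.C

private theorem sqfLine_rename {n : ℕ} (f : MvPolynomial (Fin (n + 1)) ℚ) (hf : Squarefree f)
    (hf0 : f ≠ 0) :
    Squarefree (MvPolynomial.rename (Sum.inr : Fin (n + 1) → Fin (n + 1) ⊕ Fin (n + 1)) f) := by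
  have h1 : (MvPolynomial.sumAlgEquiv ℚ (Fin (n + 1)) (Fin (n + 1))).symm
      (MvPolynomial.C f) = MvPolynomial.rename Sum.inr f := by
    rw [AlgEquiv.symm_apply_eq]
    have h2 := MvPolynomial.sumAlgEquiv_comp_rename_inr (R := ℚ) (S₁ := Fin (n + 1))
      (S₂ := Fin (n + 1))
    have h3 := congrArg (fun φ => φ f) h2
    simpa using h3.symm
  rw [← h1]
  exact sqfLine_of_inj
    (MvPolynomial.sumAlgEquiv ℚ (Fin (n + 1)) (Fin (n + 1))).symm.toMulEquiv _
    (sqfLine_MvC f hf hf0)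

/-- `V j ↦ V j + c T U j`, `U j ↦ U j` -/
private noncomputable def sqfLineφ (n : ℕ) (c : (MvPolynomial (Fin (n + 1) ⊕ Fin (n + 1)) ℚ)[X]) :
    MvPolynomial (Fin (n + 1) ⊕ Fin (n + 1)) ℚ →+*
      (MvPolynomial (Fin (n + 1) ⊕ Fin (n + 1)) ℚ)[X] :=
  (MvPolynomial.aeval (Sum.elim (fun j => C (MvPolynomial.X (Sum.inl j)))
    (fun j => C (MvPolynomial.X (Sum.inr j)) + c * C (MvPolynomial.X (Sum.inl j)) * X)) :
    MvPolynomial (Fin (n + 1) ⊕ Fin (n + 1)) ℚ →ₐ[ℚ] _).toRingHom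

/-- the automorphism fixing `T` -/
private noncomputable def sqfLineΦ (n : ℕ) (c : (MvPolynomial (Fin (n + 1) ⊕ Fin (n + 1)) ℚ)[X]) :
    (MvPolynomial (Fin (n + 1) ⊕ Fin (n + 1)) ℚ)[X] →+*
      (MvPolynomial (Fin (n + 1) ⊕ Fin (n + 1)) ℚ)[X] :=
  eval₂RingHom (sqfLineφ n c) X

private theorem sqfLine_comp (n : ℕ) (ε : ℤ) (hε : ε * ε = 1) :
    (sqfLineΦ n (C (MvPolynomial.C (ε : ℚ)))).comp (sqfLineΦ n (C (MvPolynomial.C (-ε : ℚ)))) =
      RingHom.id _ := by
  apply Polynomial.ringHom_ext'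
  · apply MvPolynomial.ringHom_ext
    · intro r
      simp [sqfLineΦ, sqfLineφ]
    · intro i
      rcases i with i | i
      · simp [sqfLineΦ, sqfLineφ]
      · simp only [sqfLineΦ, sqfLineφ]
        simp
        have h : ∀ φ : MvPolynomial (Fin (n + 1) ⊕ Fin (n + 1)) ℚ →+*
            (MvPolynomial (Fin (n + 1) ⊕ Fin (n + 1)) ℚ)[X],
            eval₂ φ X ((ε : ℤ) : (MvPolynomial (Fin (n + 1) ⊕ Fin (n + 1)) ℚ)[X]) =
              ((ε : ℤ) : (MvPolynomial (Fin (n + 1) ⊕ Fin (n + 1)) ℚ)[X]) := by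
          intro φ
          exact map_intCast (eval₂RingHom φ X) ε
        rw [h]
        ring
  · simp [sqfLineΦ]

private noncomputable def sqfLineEquiv (n : ℕ) :
    (MvPolynomial (Fin (n + 1) ⊕ Fin (n + 1)) ℚ)[X] ≃+*
      (MvPolynomial (Fin (n + 1) ⊕ Fin (n + 1)) ℚ)[X] :=
  RingEquiv.ofRingHom (sqfLineΦ n (C (MvPolynomial.C ((1 : ℤ) : ℚ))))
    (sqfLineΦ n (C (MvPolynomial.C (-((1 : ℤ) : ℚ)))))
    (sqfLine_comp n 1 (by norm_num))
    (by
      have h := sqfLine_comp n (-1) (by norm_num)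
      have e : (-((-1 : ℤ) : ℚ)) = ((1 : ℤ) : ℚ) := by norm_num
      have e2 : (((-1 : ℤ) : ℚ)) = -((1 : ℤ) : ℚ) := by norm_num
      rw [e, e2] at h
      exact h)

theorem genLine_squarefree {n : ℕ} (f : MvPolynomial (Fin (n + 1)) ℚ) (hf : Squarefree f) :
    Squarefree (genLine f) := by
  have hf0 : f ≠ 0 := hf.ne_zero
  have h1 : genLine f = sqfLineEquiv n (C (MvPolynomial.rename Sum.inr f)) := by
    have h2 : (MvPolynomial.aeval (fun j => C (MvPolynomial.X (Sum.inl j)) * X +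
        C (MvPolynomial.X (Sum.inr j))) :
        MvPolynomial (Fin (n + 1)) ℚ →ₐ[ℚ]
          (MvPolynomial (Fin (n + 1) ⊕ Fin (n + 1)) ℚ)[X]).toRingHom =
        ((sqfLineEquiv n).toRingHom.comp C).comp
          (MvPolynomial.rename (Sum.inr : Fin (n + 1) → Fin (n + 1) ⊕ Fin (n + 1)) :
            MvPolynomial (Fin (n + 1)) ℚ →ₐ[ℚ] _).toRingHom := by
      apply MvPolynomial.ringHom_ext
      · intro r
        simp [sqfLineEquiv, sqfLineΦ, sqfLineφ]
      · intro i
        simp [sqfLineEquiv, sqfLineΦ, sqfLineφ]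
        ring
    exact congrArg (fun φ => φ f) h2
  rw [h1]
  refine sqfLine_of_inj (sqfLineEquiv n).toMulEquiv _ (sqfLine_C _ (sqfLine_rename f hf hf0) ?_)
  intro h
  apply hf0
  exact MvPolynomial.rename_injective _ Sum.inr_injective (by rw [h, map_zero])

end TwHP
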