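import Pool.Agent.Lib.MP_e426f4_ag.TW.JacSum
import Pool.Agent.Lib.MP_e426f4_ag.TW.PCount
import Pool.Agent.Lib.MP_dd84fd_nt.E2.PiSW

/-!
# Swj: Jacobi symbols over primes in a class (Siegel-Walfisz)

Split the primes `p ≡ v` mod `m` according to `y = p` mod `F` (`(y, F) = 1`; the primes dividing `F` have symbol `0`): classes
mod `m F` (CRT).  `pi_sw (A') (B')` at `2P` and at `P` with `X = 2P`: the count is
`(Li(2P) - Li(P))/φ(m F) + O(2 X/(log X)^A')`, the main terms cancel by `jac_sum`; the error is at most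
`F * 2 * 2P/(log 2P)^A'`, and `log(2P) ≥ δ log H`, `F ≤ (log H)^B`; `m F ≤ (log 2P)^{B'}`, `B' = B + 1`, `A' = A + B + 1`.
-/

set_option autoImplicit false

namespace TwHP

open Finset

/-- decomposition of the sum over residue classes modulo `F` -/
private theorem split_classes (m F P v : ℕ) (hF0 : 0 < F) :
    ∑ p ∈ (Ioc P (2 * P)).filter (fun p => p.Prime ∧ p ≡ v [MOD m]), (jacobiSym (p : ℤ) F : ℝ) =
      ∑ y ∈ (range F).filter (fun y => y.Coprime F), (jacobiSym (y : ℤ) F : ℝ) *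
        (((Ioc P (2 * P)).filter (fun p => (p.Prime ∧ p ≡ v [MOD m]) ∧ p ≡ y [MOD F])).card : ℝ) := by
  have h1 : ∀ p ∈ (Ioc P (2 * P)).filter (fun p => p.Prime ∧ p ≡ v [MOD m]),
      (jacobiSym (p : ℤ) F : ℝ) = ∑ y ∈ (range F).filter (fun y => y.Coprime F),
        if p ≡ y [MOD F] then (jacobiSym (y : ℤ) F : ℝ) else 0 := by
    intro p _
    by_cases hp : p.Coprime F
    · rw [Finset.sum_eq_single (p % F)]
      · rw [if_pos (Nat.mod_modEq p F).symm]
        push_cast
        rw [← jacobiSym.mod_left]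
      · intro y hy hne
        rw [if_neg]
        intro h
        rw [mem_filter, mem_range] at hy
        apply hne
        have h2 : p % F = y % F := h
        rw [h2, Nat.mod_eq_of_lt hy.1]
      · intro h
        exfalso
        apply h
        rw [mem_filter, mem_range]
        refine ⟨Nat.mod_lt _ hF0, ?_⟩
        rw [Nat.Coprime, (Nat.mod_modEq p F).gcd_eq]
        exact hp
    · have h2 : jacobiSym (p : ℤ) F = 0 := by
        rw [jacobiSym.eq_zero_iff]
        refine ⟨hF0.ne', ?_⟩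
        rw [Int.gcd_natCast_natCast]
        exact hp
      rw [h2, Int.cast_zero]
      symm
      apply Finset.sum_eq_zero
      intro y hy
      rw [if_neg]
      intro h
      rw [mem_filter] at hy
      apply hp
      rw [Nat.Coprime, h.gcd_eq]
      exact hy.2
  rw [Finset.sum_congr rfl h1, Finset.sum_comm]
  apply Finset.sum_congr rfl
  intro y _
  rw [← Finset.sum_filter, Finset.sum_const, nsmul_eq_mul, Finset.filter_filter, mul_comm]

theorem swj (m A B : ℕ) (hm : 0 < m) (δ : ℝ) (hδ : 0 < δ) : ∃ H0 : ℕ, ∀ H : ℕ, H0 ≤ H →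
    ∀ F : ℕ, Odd F → ¬ IsSquare F → F.Coprime m → (F : ℝ) ≤ Real.log H ^ B →
    ∀ v : ℕ, v.Coprime m → ∀ P : ℕ, (H : ℝ) ^ δ ≤ 2 * P → P ≤ H →
    |∑ p ∈ (Ioc P (2 * P)).filter (fun p => p.Prime ∧ p ≡ v [MOD m]), (jacobiSym (p : ℤ) F : ℝ)| *
      Real.log H ^ A ≤ P := by
  obtain ⟨X0, hX0⟩ := ioc_sw (A + B + 1) (B + 1)
  have hloglim : Filter.Tendsto (fun X : ℕ => Real.log (X : ℝ)) Filter.atTop Filter.atTop :=
    Real.tendsto_log_atTop.comp tendsto_natCast_atTop_atTop
  have hpow : Filter.Tendsto (fun X : ℕ => (X : ℝ) ^ δ) Filter.atTop Filter.atTop :=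
    (tendsto_rpow_atTop hδ).comp tendsto_natCast_atTop_atTop
  have ev := (hloglim.eventually_ge_atTop 1).and
    ((hloglim.eventually_ge_atTop (m / δ ^ (B + 1))).and
    ((hloglim.eventually_ge_atTop (4 / δ ^ (A + B + 1))).and
    ((hpow.eventually_ge_atTop (X0 : ℝ)).and (Filter.eventually_ge_atTop 2))))
  obtain ⟨H0, hH0⟩ := Filter.eventually_atTop.1 ev
  refine ⟨H0, fun H hH F hFo hFs hFm hFB v hv P hP1 hP2 => ?_⟩
  obtain ⟨h1, h2, h3, h4, h5⟩ := hH0 H hH
  set L := Real.log (H : ℝ) with hL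
  have hL0 : 0 < L := by linarith
  have hH2 : (2 : ℝ) ≤ H := by exact_mod_cast h5
  have hF0 : 0 < F := hFo.pos
  have hF1 : (1 : ℝ) ≤ F := by exact_mod_cast hF0
  have hP0 : (0 : ℝ) ≤ P := by positivity
  -- `log (2P) ≥ δ L`
  have hlog : δ * L ≤ Real.log ((2 * P : ℕ) : ℝ) := by
    have h6 : Real.log ((H : ℝ) ^ δ) ≤ Real.log ((2 * P : ℕ) : ℝ) := by
      apply Real.log_le_log (Real.rpow_pos_of_pos (by linarith) δ)
      push_cast
      exact hP1
    rwa [Real.log_rpow (by linarith)] at h6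
  have hδL : 0 < δ * L := by positivity
  have hX0P : X0 ≤ 2 * P := by
    have h6 : (X0 : ℝ) ≤ 2 * P := h4.trans hP1
    exact_mod_cast h6
  have hmF : ((m * F : ℕ) : ℝ) ≤ (Real.log ((2 * P : ℕ) : ℝ)) ^ (B + 1) := by
    have h6 : (δ * L) ^ (B + 1) ≤ (Real.log ((2 * P : ℕ) : ℝ)) ^ (B + 1) :=
      pow_le_pow_left₀ hδL.le hlog _
    refine le_trans ?_ h6
    rw [div_le_iff₀ (by positivity)] at h2
    push_cast
    calc (m : ℝ) * F ≤ (L * δ ^ (B + 1)) * L ^ B := mul_le_mul h2 hFB (by positivity) (by positivity)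
      _ = (δ * L) ^ (B + 1) := by rw [mul_pow, pow_succ L B]; ring
  -- counting in each class
  set M : ℝ := (Pool.MP_dd84fd_nt.E2.Li (2 * P) - Pool.MP_dd84fd_nt.E2.Li P) /
    (Nat.totient (m * F) : ℝ) with hM
  set E : ℝ := 4 * P / (Real.log ((2 * P : ℕ) : ℝ)) ^ (A + B + 1) with hE
  have hclass : ∀ y ∈ (range F).filter (fun y => y.Coprime F),
      |(((Ioc P (2 * P)).filter (fun p => (p.Prime ∧ p ≡ v [MOD m]) ∧ p ≡ y [MOD F])).card : ℝ) -
        M| ≤ E := by
    intro y hy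
    rw [mem_filter] at hy
    obtain ⟨c, hc1, hc2⟩ := Nat.chineseRemainder hFm.symm v y
    have hcop : c.Coprime (m * F) := by
      apply Nat.Coprime.mul_right
      · rw [Nat.Coprime, hc1.gcd_eq]
        exact hv
      · rw [Nat.Coprime, hc2.gcd_eq]
        exact hy.2
    have h6 := hX0 P hX0P (m * F) c (Nat.mul_pos hm hF0) hmF hcop
    have h7 : (Ioc P (2 * P)).filter (fun p => (p.Prime ∧ p ≡ v [MOD m]) ∧ p ≡ y [MOD F]) =
        (Ioc P (2 * P)).filter (fun n => n.Prime ∧ n ≡ c [MOD m * F]) := by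
      apply Finset.filter_congr
      intro p _
      rw [← Nat.modEq_and_modEq_iff_modEq_mul hFm.symm]
      constructor
      · rintro ⟨⟨h8, h9⟩, h10⟩
        exact ⟨h8, h9.trans hc1.symm, h10.trans hc2.symm⟩
      · rintro ⟨h8, h9, h10⟩
        exact ⟨⟨h8, h9.trans hc1⟩, h10.trans hc2⟩
    rw [h7]
    exact h6
  rw [split_classes m F P v hF0]
  have hmain : ∑ y ∈ (range F).filter (fun y => y.Coprime F), (jacobiSym (y : ℤ) F : ℝ) *
      (((Ioc P (2 * P)).filter (fun p => (p.Prime ∧ p ≡ v [MOD m]) ∧ p ≡ y [MOD F])).card : ℝ) =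
      ∑ y ∈ (range F).filter (fun y => y.Coprime F), (jacobiSym (y : ℤ) F : ℝ) *
      ((((Ioc P (2 * P)).filter (fun p => (p.Prime ∧ p ≡ v [MOD m]) ∧ p ≡ y [MOD F])).card : ℝ) -
        M) := by
    have h6 : ∑ y ∈ (range F).filter (fun y => y.Coprime F), (jacobiSym (y : ℤ) F : ℝ) = 0 := by
      have h7 := jac_sum F hFo hFs
      exact_mod_cast h7
    simp_rw [mul_sub]
    rw [sum_sub_distrib, ← sum_mul, h6, zero_mul, sub_zero]
  rw [hmain]
  have hE0 : 0 ≤ E := by
    have : 0 < Real.log ((2 * P : ℕ) : ℝ) := lt_of_lt_of_le hδL hlog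
    positivity
  have hbound : |∑ y ∈ (range F).filter (fun y => y.Coprime F), (jacobiSym (y : ℤ) F : ℝ) *
      ((((Ioc P (2 * P)).filter (fun p => (p.Prime ∧ p ≡ v [MOD m]) ∧ p ≡ y [MOD F])).card : ℝ) -
        M)| ≤ F * E := by
    refine (abs_sum_le_sum_abs _ _).trans ?_
    calc _ ≤ ∑ _y ∈ (range F).filter (fun y => y.Coprime F), E := by
          apply sum_le_sum
          intro y hy
          rw [abs_mul]
          have h6 : |(jacobiSym (y : ℤ) F : ℝ)| ≤ 1 := by
            rcases jacobiSym.trichotomy (y : ℤ) F with h | h | h <;> rw [h] <;> norm_num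
          calc _ ≤ 1 * E := mul_le_mul h6 (hclass y hy) (abs_nonneg _) zero_le_one
            _ = E := one_mul E
      _ = (((range F).filter (fun y => y.Coprime F)).card : ℝ) * E := by
          rw [sum_const, nsmul_eq_mul]
      _ ≤ F * E := by
          apply mul_le_mul_of_nonneg_right _ hE0
          have h6 := card_filter_le (range F) (fun y => y.Coprime F)
          rw [card_range] at h6
          exact_mod_cast h6
  have hfin : (F : ℝ) * E * L ^ A ≤ P := by
    have hlog0 : 0 < Real.log ((2 * P : ℕ) : ℝ) := lt_of_lt_of_le hδL hlog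
    have h6 : (δ * L) ^ (A + B + 1) ≤ (Real.log ((2 * P : ℕ) : ℝ)) ^ (A + B + 1) :=
      pow_le_pow_left₀ hδL.le hlog _
    have h7 : E ≤ 4 * P / (δ * L) ^ (A + B + 1) := by
      rw [hE]
      exact div_le_div_of_nonneg_left (by positivity) (by positivity) h6
    rw [div_le_iff₀ (by positivity)] at h3
    have h8 : 4 * (L ^ B * L ^ A) ≤ (δ * L) ^ (A + B + 1) := by
      calc 4 * (L ^ B * L ^ A) ≤ (L * δ ^ (A + B + 1)) * (L ^ B * L ^ A) :=
            mul_le_mul_of_nonneg_right h3 (by positivity)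
        _ = (δ * L) ^ (A + B + 1) := by rw [mul_pow, pow_succ L, pow_add]; ring
    calc (F : ℝ) * E * L ^ A ≤ L ^ B * (4 * P / (δ * L) ^ (A + B + 1)) * L ^ A := by
          apply mul_le_mul_of_nonneg_right _ (by positivity)
          exact mul_le_mul hFB h7 hE0 (by positivity)
      _ = P * (4 * (L ^ B * L ^ A)) / (δ * L) ^ (A + B + 1) := by ring
      _ ≤ P := by
          rw [div_le_iff₀ (by positivity)]
          exact mul_le_mul_of_nonneg_left h8 hP0
  calc _ ≤ (F : ℝ) * E * L ^ A := mul_le_mul_of_nonneg_right hbound (by positivity)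
    _ ≤ P := hfin

end TwHP
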