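import Pool.Agent.Lib.MP_e426f4_ag.TW.Defs

/-!
# VarAbs: the abstract variance argument

`V(p) = ∑_{n∈S} ∏_{q∈O n} (1 + ψ n q J(p|q)) = ∑_{n∈S} ∑_{T ⊆ O n} (∏_{q∈T} ψ n q) J(p|∏ T)`; the subset `T` corresponds to
the divisor `E = ∏ T` of `∏ O n`; `T = ∅` gives `|S|`.  If for every `n` some factor is `0` then `V(p) = 0` and
`(V(p) - |S|)² = |S|²`.  Expand `∑_p (V(p)-|S|)²` over `(n,E), (n',E')`, `E, E' ≠ 1`: `E = E'`: the symbol `J(p|E)²` is `≤ 1`,
contribution `≤ |Pr| ∑_E B_E²`; `E ≠ E'`: `≤ R` each, and there are at most `(∑_n 2^{|O n|})²` pairs.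
-/

set_option autoImplicit false

namespace TwHP

open Finset

private theorem varAbs_prod_right (p : ℤ) (T : Finset ℕ) (hT : ∀ q ∈ T, q.Prime) :
    ∏ q ∈ T, jacobiSym p q = jacobiSym p (∏ q ∈ T, q) := by
  classical
  induction T using Finset.induction_on with
  | empty => simp
  | insert a s ha ih =>
    have h1 : ∀ q ∈ s, q.Prime := fun q hq => hT q (mem_insert_of_mem hq)
    have h2 : a.Prime := hT a (mem_insert_self a s)
    rw [prod_insert ha, prod_insert ha, ih h1]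
    haveI : NeZero a := ⟨h2.ne_zero⟩
    haveI : NeZero (∏ q ∈ s, q) := ⟨Finset.prod_ne_zero_iff.2 fun q hq => (h1 q hq).ne_zero⟩
    rw [jacobiSym.mul_right]

theorem var_abs (S : Finset ℕ) (O : ℕ → Finset ℕ) (hO : ∀ n ∈ S, ∀ q ∈ O n, q.Prime)
    (ψ : ℕ → ℕ → ℤ) (hψ : ∀ n ∈ S, ∀ q ∈ O n, ψ n q = 1 ∨ ψ n q = -1) (Pr : Finset ℕ)
    (hPr : ∀ p ∈ Pr, ∀ n ∈ S, ∀ q ∈ O n, jacobiSym (p : ℤ) q ≠ 0) (Es : Finset ℕ)
    (hEs : ∀ n ∈ S, ∀ E : ℕ, E ∣ ∏ q ∈ O n, q → E ≠ 1 → E ∈ Es) (R : ℝ)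
    (hR : ∀ E ∈ Es, ∀ E' ∈ Es, E ≠ E' → |∑ p ∈ Pr, (jacobiSym (p : ℤ) (E * E') : ℝ)| ≤ R)
    (hR0 : 0 ≤ R) :
    ((Pr.filter fun p : ℕ => ∀ n ∈ S, ∃ q ∈ O n, ψ n q * jacobiSym (p : ℤ) q ≠ 1).card : ℝ) *
        (S.card : ℝ) ^ 2 ≤
      Pr.card * ∑ E ∈ Es, ((S.filter fun n => E ∣ ∏ q ∈ O n, q).card : ℝ) ^ 2 +
        (∑ n ∈ S, (2 : ℝ) ^ (O n).card) ^ 2 * R := by
  classical
  set I : Finset (Σ _ : ℕ, Finset ℕ) :=
    S.sigma (fun n => (O n).powerset.filter (fun T => T ≠ ∅)) with hI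
  set f : (Σ _ : ℕ, Finset ℕ) → ℕ := fun i => ∏ q ∈ i.2, q with hf
  set g : (Σ _ : ℕ, Finset ℕ) → ℝ := fun i => ((∏ q ∈ i.2, ψ i.1 q : ℤ) : ℝ) with hg
  have hmem : ∀ i ∈ I, i.1 ∈ S ∧ i.2 ⊆ O i.1 ∧ i.2 ≠ ∅ := by
    intro i hi
    rw [hI, mem_sigma, mem_filter, mem_powerset] at hi
    exact ⟨hi.1, hi.2.1, hi.2.2⟩
  have hprime : ∀ i ∈ I, ∀ q ∈ i.2, q.Prime := by
    intro i hi q hq
    obtain ⟨h1, h2, -⟩ := hmem i hi
    exact hO i.1 h1 q (h2 hq)
  have hfE : ∀ i ∈ I, f i ∈ Es := by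
    intro i hi
    obtain ⟨h1, h2, h3⟩ := hmem i hi
    refine hEs i.1 h1 (f i) (Finset.prod_dvd_prod_of_subset _ _ _ h2) ?_
    obtain ⟨q, hq⟩ := Finset.nonempty_iff_ne_empty.2 h3
    intro h4
    have h5 : q ∣ f i := Finset.dvd_prod_of_mem _ hq
    rw [h4, Nat.dvd_one] at h5
    exact (hprime i hi q hq).one_lt.ne' h5
  have hg1 : ∀ i ∈ I, |g i| ≤ 1 := by
    intro i hi
    obtain ⟨h1, h2, -⟩ := hmem i hi
    simp only [hg]
    rw [Int.cast_prod, Finset.abs_prod]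
    refine Finset.prod_le_one (fun q _ => abs_nonneg _) fun q hq => ?_
    rcases hψ i.1 h1 q (h2 hq) with h3 | h3
    · rw [h3]; simp
    · rw [h3]; simp
  -- the expansion
  set Wp : ℕ → ℝ := fun p => ∑ i ∈ I, g i * (jacobiSym (p : ℤ) (f i) : ℝ) with hWp
  have hexp : ∀ p : ℕ, (∑ n ∈ S, ∏ q ∈ O n, (1 + (ψ n q : ℝ) * (jacobiSym (p : ℤ) q : ℝ))) =
      S.card + Wp p := by
    intro p
    have h1 : ∀ n ∈ S, ∏ q ∈ O n, (1 + (ψ n q : ℝ) * (jacobiSym (p : ℤ) q : ℝ)) =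
        1 + ∑ T ∈ (O n).powerset.filter (fun T => T ≠ ∅),
          ((∏ q ∈ T, ψ n q : ℤ) : ℝ) * (jacobiSym (p : ℤ) (∏ q ∈ T, q) : ℝ) := by
      intro n hn
      rw [Finset.prod_one_add, ← Finset.sum_filter_add_sum_filter_not _ (fun T => T ≠ ∅), add_comm]
      congr 1
      · have h2 : (O n).powerset.filter (fun T => ¬ T ≠ ∅) = {∅} := by
          ext T
          simp only [mem_filter, mem_powerset, not_not, mem_singleton]
          constructor
          · exact fun h => h.2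
          · rintro rfl
            exact ⟨empty_subset _, rfl⟩
        rw [h2, sum_singleton, prod_empty]
      · refine Finset.sum_congr rfl fun T hT => ?_
        rw [mem_filter, mem_powerset] at hT
        rw [Finset.prod_mul_distrib, Int.cast_prod,
          ← varAbs_prod_right p T (fun q hq => hO n hn q (hT.1 hq)), Int.cast_prod]
    rw [Finset.sum_congr rfl h1, Finset.sum_add_distrib, Finset.sum_const, nsmul_eq_mul, mul_one]
    congr 1
    simp only [hWp]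
    rw [hI, Finset.sum_sigma]
  -- exceptional primes
  have hex : ∀ p ∈ Pr.filter (fun p : ℕ => ∀ n ∈ S, ∃ q ∈ O n, ψ n q * jacobiSym (p : ℤ) q ≠ 1),
      (Wp p) ^ 2 = (S.card : ℝ) ^ 2 := by
    intro p hp
    rw [mem_filter] at hp
    have h1 : (∑ n ∈ S, ∏ q ∈ O n, (1 + (ψ n q : ℝ) * (jacobiSym (p : ℤ) q : ℝ))) = 0 := by
      refine Finset.sum_eq_zero fun n hn => ?_
      obtain ⟨q, hq, hne⟩ := hp.2 n hn
      refine Finset.prod_eq_zero hq ?_
      have h2 := hPr p hp.1 n hn q hq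
      have h3 : jacobiSym (p : ℤ) q = 1 ∨ jacobiSym (p : ℤ) q = -1 := by
        rcases jacobiSym.trichotomy (p : ℤ) q with h | h | h
        · exact absurd h h2
        · exact Or.inl h
        · exact Or.inr h
      rcases hψ n hn q hq with h4 | h4 <;> rcases h3 with h5 | h5
      · exfalso
        apply hne
        rw [h4, h5]
        norm_num
      · rw [h4, h5]
        push_cast
        ring
      · rw [h4, h5]
        push_cast
        ring
      · exfalso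
        apply hne
        rw [h4, h5]
        norm_num
    rw [hexp p] at h1
    have h2 : Wp p = -(S.card : ℝ) := by linarith
    rw [h2]
    ring
  have hlow : ((Pr.filter fun p : ℕ => ∀ n ∈ S, ∃ q ∈ O n, ψ n q * jacobiSym (p : ℤ) q ≠ 1).card : ℝ) *
        (S.card : ℝ) ^ 2 ≤ ∑ p ∈ Pr, (Wp p) ^ 2 := by
    calc ((Pr.filter fun p : ℕ => ∀ n ∈ S, ∃ q ∈ O n, ψ n q * jacobiSym (p : ℤ) q ≠ 1).card : ℝ) *
        (S.card : ℝ) ^ 2
        = ∑ p ∈ Pr.filter (fun p : ℕ => ∀ n ∈ S, ∃ q ∈ O n, ψ n q * jacobiSym (p : ℤ) q ≠ 1),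
          (Wp p) ^ 2 := by
          rw [Finset.sum_congr rfl hex, Finset.sum_const, nsmul_eq_mul]
      _ ≤ ∑ p ∈ Pr, (Wp p) ^ 2 :=
          Finset.sum_le_sum_of_subset_of_nonneg (filter_subset _ _) fun _ _ _ => sq_nonneg _
  refine hlow.trans ?_
  -- the square
  have hsq : ∑ p ∈ Pr, (Wp p) ^ 2 =
      ∑ i ∈ I, ∑ j ∈ I, g i * g j * ∑ p ∈ Pr, (jacobiSym (p : ℤ) (f i * f j) : ℝ) := by
    have h1 : ∀ p ∈ Pr, (Wp p) ^ 2 =
        ∑ i ∈ I, ∑ j ∈ I, g i * g j * (jacobiSym (p : ℤ) (f i * f j) : ℝ) := by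
      intro p _
      simp only [hWp]
      rw [sq, Finset.sum_mul_sum]
      refine Finset.sum_congr rfl fun i hi => Finset.sum_congr rfl fun j hj => ?_
      haveI : NeZero (f i) :=
        ⟨Finset.prod_ne_zero_iff.2 fun q hq => (hprime i hi q hq).ne_zero⟩
      haveI : NeZero (f j) :=
        ⟨Finset.prod_ne_zero_iff.2 fun q hq => (hprime j hj q hq).ne_zero⟩
      rw [jacobiSym.mul_right]
      push_cast
      ring
    rw [Finset.sum_congr rfl h1, Finset.sum_comm]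
    refine Finset.sum_congr rfl fun i _ => ?_
    rw [Finset.sum_comm]
    refine Finset.sum_congr rfl fun j _ => ?_
    rw [Finset.mul_sum]
  rw [hsq]
  have hterm : ∀ i ∈ I, ∀ j ∈ I, g i * g j * ∑ p ∈ Pr, (jacobiSym (p : ℤ) (f i * f j) : ℝ) ≤
      (if f i = f j then (Pr.card : ℝ) else 0) + R := by
    intro i hi j hj
    have h1 : |g i * g j| ≤ 1 := by
      rw [abs_mul]
      exact mul_le_one₀ (hg1 i hi) (abs_nonneg _) (hg1 j hj)
    have h2 : g i * g j * ∑ p ∈ Pr, (jacobiSym (p : ℤ) (f i * f j) : ℝ) ≤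
        |∑ p ∈ Pr, (jacobiSym (p : ℤ) (f i * f j) : ℝ)| := by
      calc g i * g j * ∑ p ∈ Pr, (jacobiSym (p : ℤ) (f i * f j) : ℝ)
          ≤ |g i * g j * ∑ p ∈ Pr, (jacobiSym (p : ℤ) (f i * f j) : ℝ)| := le_abs_self _
        _ = |g i * g j| * |∑ p ∈ Pr, (jacobiSym (p : ℤ) (f i * f j) : ℝ)| := abs_mul _ _
        _ ≤ 1 * |∑ p ∈ Pr, (jacobiSym (p : ℤ) (f i * f j) : ℝ)| :=
            mul_le_mul_of_nonneg_right h1 (abs_nonneg _)
        _ = _ := one_mul _
    refine h2.trans ?_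
    by_cases h3 : f i = f j
    · rw [if_pos h3]
      have h4 : |∑ p ∈ Pr, (jacobiSym (p : ℤ) (f i * f j) : ℝ)| ≤ Pr.card := by
        refine (Finset.abs_sum_le_sum_abs _ _).trans ?_
        calc ∑ p ∈ Pr, |(jacobiSym (p : ℤ) (f i * f j) : ℝ)| ≤ ∑ _p ∈ Pr, (1 : ℝ) := by
              refine Finset.sum_le_sum fun p _ => ?_
              rcases jacobiSym.trichotomy (p : ℤ) (f i * f j) with h | h | h
              · rw [h]; simp
              · rw [h]; simp
              · rw [h]; simp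
          _ = Pr.card := by rw [Finset.sum_const, nsmul_eq_mul, mul_one]
      linarith
    · rw [if_neg h3, zero_add]
      have h4 := hR (f i) (hfE i hi) (f j) (hfE j hj) h3
      exact h4
  refine (Finset.sum_le_sum fun i hi => Finset.sum_le_sum fun j hj => hterm i hi j hj).trans ?_
  have hIcard : (I.card : ℝ) ≤ ∑ n ∈ S, (2 : ℝ) ^ (O n).card := by
    have h1 : I.card ≤ ∑ n ∈ S, 2 ^ (O n).card := by
      rw [hI, Finset.card_sigma]
      refine Finset.sum_le_sum fun n _ => ?_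
      rw [← Finset.card_powerset]
      exact Finset.card_filter_le _ _
    exact_mod_cast h1
  have hdiag : ∑ i ∈ I, ∑ j ∈ I, (if f i = f j then (Pr.card : ℝ) else 0) ≤
      Pr.card * ∑ E ∈ Es, ((S.filter fun n => E ∣ ∏ q ∈ O n, q).card : ℝ) ^ 2 := by
    have h1 : ∑ i ∈ I, ∑ j ∈ I, (if f i = f j then (Pr.card : ℝ) else 0) =
        Pr.card * ∑ i ∈ I, ((I.filter fun j => f j = f i).card : ℝ) := by
      rw [Finset.mul_sum]
      refine Finset.sum_congr rfl fun i _ => ?_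
      rw [← Finset.sum_filter, Finset.sum_const, nsmul_eq_mul, mul_comm]
      congr 2
      congr 1
      ext j
      simp only [mem_filter]
      constructor
      · rintro ⟨h2, h3⟩
        exact ⟨h2, h3.symm⟩
      · rintro ⟨h2, h3⟩
        exact ⟨h2, h3.symm⟩
    rw [h1]
    refine mul_le_mul_of_nonneg_left ?_ (Nat.cast_nonneg _)
    rw [← Finset.sum_fiberwise_of_maps_to hfE]
    refine Finset.sum_le_sum fun E _ => ?_
    have h2 : ∀ i ∈ I.filter (fun i => f i = E), ((I.filter fun j => f j = f i).card : ℝ) =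
        ((I.filter fun j => f j = E).card : ℝ) := by
      intro i hi
      rw [(mem_filter.1 hi).2]
    rw [Finset.sum_congr rfl h2, Finset.sum_const, nsmul_eq_mul, ← sq]
    have h3 : (I.filter fun j => f j = E).card ≤ (S.filter fun n => E ∣ ∏ q ∈ O n, q).card := by
      refine card_le_card_of_injOn (fun i => i.1) ?_ ?_
      · intro i hi
        rw [mem_coe, mem_filter] at hi
        obtain ⟨h4, h5, -⟩ := hmem i hi.1
        rw [mem_coe, mem_filter]
        refine ⟨h4, ?_⟩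
        rw [← hi.2]
        exact Finset.prod_dvd_prod_of_subset _ _ _ h5
      · intro i hi j hj hij
        rw [mem_coe, mem_filter] at hi hj
        have h4 : f i = f j := hi.2.trans hj.2.symm
        have h5 : i.2 = j.2 := by
          have h6 := Nat.primeFactors_prod (s := i.2) (hprime i hi.1)
          have h7 := Nat.primeFactors_prod (s := j.2) (hprime j hj.1)
          rw [← h6, ← h7]
          exact congrArg Nat.primeFactors h4
        have h6 : i.1 = j.1 := hij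
        exact Sigma.ext h6 (heq_of_eq h5)
    have h4 : ((I.filter fun j => f j = E).card : ℝ) ≤
        ((S.filter fun n => E ∣ ∏ q ∈ O n, q).card : ℝ) := by exact_mod_cast h3
    exact pow_le_pow_left₀ (Nat.cast_nonneg _) h4 2
  have hsplit : ∑ i ∈ I, ∑ j ∈ I, ((if f i = f j then (Pr.card : ℝ) else 0) + R) =
      ∑ i ∈ I, ∑ j ∈ I, (if f i = f j then (Pr.card : ℝ) else 0) + (I.card : ℝ) ^ 2 * R := by
    have h1 : ∀ i ∈ I, ∑ j ∈ I, ((if f i = f j then (Pr.card : ℝ) else 0) + R) =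
        ∑ j ∈ I, (if f i = f j then (Pr.card : ℝ) else 0) + I.card * R := by
      intro i _
      rw [Finset.sum_add_distrib, Finset.sum_const, nsmul_eq_mul]
    rw [Finset.sum_congr rfl h1, Finset.sum_add_distrib, Finset.sum_const, nsmul_eq_mul]
    ring
  rw [hsplit]
  have h9 : (I.card : ℝ) ^ 2 * R ≤ (∑ n ∈ S, (2 : ℝ) ^ (O n).card) ^ 2 * R :=
    mul_le_mul_of_nonneg_right (pow_le_pow_left₀ (Nat.cast_nonneg _) hIcard 2) hR0
  linarith

end TwHP
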